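import Pool.Agent.MP_cccb39_co.Fz.St

namespace FZ

open Finset
open scoped Classical

theorem all_cb {V : Type} [Fintype V] {G : SimpleGraph V} {col : V → Bool} (h : Cb G col)
    (T : Finset V) (hT : Clo G univ T) [Fintype {v // v ∈ T}] :
    Cb (G.comap (Subtype.val : {v // v ∈ T} → V)) (fun v => col v.1) := by
  refine ⟨fun v => ?_, fun u v huv => h.bip _ _ huv⟩
  rw [← h.cub v.1]
  unfold dg
  refine card_bij (fun w _ => w.1) ?_ ?_ ?_
  · intro w hw
    exact mem_filter.2 ⟨mem_univ _, (mem_filter.1 hw).2⟩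
  · intro a _ b _ hab
    exact Subtype.ext hab
  · intro w hw
    have h1 := (mem_filter.1 hw).2
    exact ⟨⟨w, hT v.1 v.2 w (mem_univ _) h1⟩, mem_filter.2 ⟨mem_univ _, h1⟩, rfl⟩

theorem all_pd {V : Type} {G : SimpleGraph V} {f : V → ℝ × ℝ}
    (h : Pool.Agent.MP_cccb39_co.IsPlaneDrawing G f) (T : Finset V) :
    Pool.Agent.MP_cccb39_co.IsPlaneDrawing (G.comap (Subtype.val : {v // v ∈ T} → V))
      (fun v => f v.1) := by
  refine ⟨fun a b hab => Subtype.ext (h.1 hab), fun u v w huv => h.2.1 _ _ _ huv,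
    fun u v u' v' h1 h2 h3 => h.2.2 _ _ _ _ h1 h2 fun h4 => h3 ?_⟩
  rw [Sym2.eq_iff] at h4 ⊢
  rcases h4 with ⟨a, b⟩ | ⟨a, b⟩
  · exact Or.inl ⟨Subtype.ext a, Subtype.ext b⟩
  · exact Or.inr ⟨Subtype.ext a, Subtype.ext b⟩

theorem all_lt {V : Type} [Fintype V] (T : Finset V) (hT : T ≠ univ) [i : Fintype {v // v ∈ T}] :
    @Fintype.card {v // v ∈ T} i < Fintype.card V := by
  have h1 : @Fintype.card {v // v ∈ T} i = T.card := by
    exact (Fintype.card_congr (Equiv.refl _)).trans (Fintype.card_coe T)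
  rw [h1, ← card_univ]
  exact card_lt_card (ssubset_univ_iff.2 hT)

theorem all (h1 : ConnS) (h2 : ProdS) : AllS := by
  have key : ∀ n : ℕ, ∀ (V : Type) [Fintype V] (G : SimpleGraph V) (col : V → Bool)
      (f : V → ℝ × ℝ), Fintype.card V = n → Cb G col →
      Pool.Agent.MP_cccb39_co.IsPlaneDrawing G f → LPk G := by
    intro n
    induction n using Nat.strong_induction_on with
    | _ n ih =>
      intro V _ G col f hn hc hf
      by_cases hG : Conn G
      · exact h1 V G col f hc hG hf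
      · unfold Conn at hG
        push Not at hG
        obtain ⟨Y, hY1, hY2, hY3⟩ := hG
        have hY4 : Clo G univ Yᶜ := fun z hz v _ hzv => mem_compl.2 fun hv =>
          mem_compl.1 hz (hY2 v hv z (mem_univ _) hzv.symm)
        have hY5 : Yᶜ ≠ univ := fun h => by
          obtain ⟨y, hy⟩ := hY1
          exact mem_compl.1 (h ▸ mem_univ y) hy
        refine h2 V G Y hY2 ?_ ?_
        · exact ih _ (hn ▸ all_lt Y hY3) _ _ _ _ rfl (all_cb hc Y hY2) (all_pd hf Y)
        · exact ih _ (hn ▸ all_lt Yᶜ hY5) _ _ _ _ rfl (all_cb hc Yᶜ hY4) (all_pd hf Yᶜ)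
  intro V _ G col f hc hf
  exact key _ V G col f rfl hc hf

end FZ
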