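import Pool.Agent.MP_cccb39_co.Fz.St

namespace FZ

open Finset
open scoped Classical

theorem c1_hex (hH : HexS) {V : Type} [Pt V] {G : SimpleGraph V} {col : V → Bool}
    {t0 t1 t2 t3 t4 t5 b0 b1 b2 b3 b4 b5 : V} (g : Gr G col)
    (h : Hex G t0 t1 t2 t3 t4 t5 b0 b1 b2 b3 b4 b5) : HasGC G := by
  have hn := h.nd
  have hp : [t3, t4, t5, t0, t1, t2, b3, b4, b5, b0, b1, b2].Perm
      [t0, t1, t2, t3, t4, t5, b0, b1, b2, b3, b4, b5] :=
    (List.perm_append_comm (l₁ := [t3, t4, t5]) (l₂ := [t0, t1, t2])).append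
      (List.perm_append_comm (l₁ := [b3, b4, b5]) (l₂ := [b0, b1, b2]))
  have h' : Hex G t3 t4 t5 t0 t1 t2 b3 b4 b5 b0 b1 b2 :=
    ⟨h.t34, h.t45, h.t50, h.t01, h.t12, h.t23, h.b34, h.b45, h.b50, h.b01, h.b12, h.b23,
      h.r3, h.r4, h.r5, h.r0, h.r1, h.r2, hp.nodup_iff.2 hn⟩
  by_cases hz : Pt.z ∈ ({t0, b2, t5, b3, t4, b4} : Finset V)
  · refine ⟨_, _, _, _, _, _, hH V G col _ _ _ _ _ _ _ _ _ _ _ _ g h', fun hz' => ?_⟩
    simp only [List.nodup_cons, List.mem_cons, List.not_mem_nil, or_false, not_or] at hn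
    simp only [mem_insert, mem_singleton] at hz hz'
    rcases hz with e | e | e | e | e | e <;> rcases hz' with e' | e' | e' | e' | e' | e' <;>
      (rw [e] at e'; tauto)
  · exact ⟨_, _, _, _, _, _, hH V G col _ _ _ _ _ _ _ _ _ _ _ _ g h, hz⟩

theorem c1 (hL : L1S) (hE : ExcS) (hH : HexS) (h4 : C4S) : C1S := by
  intro V _ G col p q w s r t P S W T g hT h hz hPS hWT
  have hz' := hz
  simp only [mem_insert, mem_singleton, not_or] at hz'
  obtain ⟨z1, z2, z3, z4, z5, z6⟩ := hz'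
  obtain ⟨c0, a0⟩ := g.toCb.third S s P
  obtain ⟨c1, a1⟩ := g.toCb.third P p S
  by_cases e1 : G.Adj c1 W
  · rcases hE V G col p q w s r t P S W T c1 g h hPS hWT a1 e1 with ⟨u, v⟩ | ⟨c, hc⟩
    · exact (h4 V G col p q w s r t P S W T g hT h (Ne.symm z2) (Ne.symm z5) u v).elim
    · exact c1_hex hH g hc
  by_cases e0 : G.Adj c0 T
  · rcases hE V G col s r t p q w S P T W c0 g h.flip hPS.symm hWT.symm a0 e0 with
      ⟨u, v⟩ | ⟨c, hc⟩
    · exact (h4 V G col p q w s r t P S W T g hT h (Ne.symm z2) (Ne.symm z5) v u).elim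
    · exact c1_hex hH g hc
  by_cases zS : Pt.z = S
  · refine ⟨_, _, _, _, _, _, hL V G col s r t p q w S P T W c1 g h.flip hPS.symm a1 e1, ?_⟩
    simp only [mem_insert, mem_singleton, not_or]
    exact ⟨fun e => hPS.ne (e.symm.trans zS), z3, z1, z2, z4, z5⟩
  · refine ⟨_, _, _, _, _, _, hL V G col p q w s r t P S W T c0 g h hPS a0 e0, ?_⟩
    simp only [mem_insert, mem_singleton, not_or]
    exact ⟨zS, z6, z4, z5, z1, z2⟩

end FZ
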