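import Pool.Agent.MP_cccb39_co.Fz.St

set_option linter.unusedSectionVars false

namespace FZ

open Finset
open scoped Classical

section
variable {V : Type} [Pt V] {G : SimpleGraph V} {col : V → Bool}
  {x c1 c2 c3 y d1 d2 d3 p t : V}

theorem c10_out (g : Gr G col) (h : CB G x c1 c2 c3 y d1 d2 d3 p t) {a : V}
    (ha : Th G c1 x c2 a) (az : a = Pt.z) :
    a ∉ ({x, c1, c2, c3, y, d1, d2, d3, p, t} : Finset V) := by
  have k : col x = col a := g.same h.two.s1.ab ha.1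
  have k2 : col x = col c2 := g.same h.two.s1.ab h.two.s1.bc
  have z1 : ∀ u ∈ ({x, c1, c2, c3} : Finset V), a ≠ u := fun u hu e =>
    h.two.z1 u hu (e ▸ az)
  have z2 : ∀ u ∈ ({y, d1, d2, d3} : Finset V), a ≠ u := fun u hu e =>
    h.two.z2 u hu (e ▸ az)
  simp only [mem_insert, mem_singleton, not_or]
  refine ⟨z1 _ (by simp), z1 _ (by simp), z1 _ (by simp), z1 _ (by simp), z2 _ (by simp),
    z2 _ (by simp), z2 _ (by simp), z2 _ (by simp), ?_, ?_⟩ <;> rintro rfl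
  · exact g.bip _ _ h.px.symm k
  · exact g.bip _ _ h.tc.symm (k2.symm.trans k)

theorem c10_one (h1 : C9S) (h2 : C10gS) (g : Gr G col) (nd : NoDom G)
    (h : CB G x c1 c2 c3 y d1 d2 d3 p t) {a1 a3 b1 b3 : V} {R : Finset V}
    (t1 : Th G c1 x c2 a1) (t3 : Th G c3 x c2 a3) (s1 : Th G d1 y d2 b1) (s3 : Th G d3 y d2 b3)
    (na : a1 ≠ a3) (nb : b1 ≠ b3) (ps : PS G R a1 b1)
    (o : ∀ z ∈ R, z ∉ ({x, c1, c2, c3, y, d1, d2, d3, p, t} : Finset V))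
    (ra : a3 ∉ R) (rb : b3 ∉ R) : HasGC G := by
  by_cases e33 : a3 = b3
  swap
  · exact h2 V G col _ _ _ _ _ _ _ _ p t _ _ _ _ R g nd h t1 t3 s1 s3 e33 ps o ra rb
  subst e33
  by_cases ez : a3 = Pt.z
  swap
  · exact h1 V G col _ _ _ _ _ _ _ _ p t a3 g nd h.rev1.rev2 t3.1.symm s3.1.symm ez
  by_cases e11 : a1 = b1
  · subst e11
    exact h1 V G col _ _ _ _ _ _ _ _ p t a1 g nd h t1.1.symm s1.1.symm fun e => na (e.trans ez.symm)
  refine h2 V G col _ _ _ _ _ _ _ _ p t _ _ _ _ {a3} g nd h.rev1.rev2 t3 t1 s3 s1 e11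
    (PS.one G a3) (fun z hz => ?_) (by simpa using na) (by simpa using nb)
  rw [mem_singleton.1 hz]
  exact c10_out g h.rev1.rev2 t3 ez

end

theorem c10 (h1 : C9S) (h2 : C10gS) (h3 : C10rS) : C10S := by
  intro V _ G col g nd nb
  obtain ⟨x, c1, c2, c3, y, d1, d2, d3, p, t, h⟩ :
      ∃ x c1 c2 c3 y d1 d2 d3 p t, CB G x c1 c2 c3 y d1 d2 d3 p t := by
    by_contra c
    exact nb fun x c1 c2 c3 y d1 d2 d3 p t h => c ⟨x, c1, c2, c3, y, d1, d2, d3, p, t, h⟩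
  obtain ⟨a1, t1⟩ : ∃ o, Th G c1 x c2 o := g.third c1 x c2
  obtain ⟨a3, t3⟩ : ∃ o, Th G c3 x c2 o := g.third c3 x c2
  obtain ⟨b1, s1⟩ : ∃ o, Th G d1 y d2 o := g.third d1 y d2
  obtain ⟨b3, s3⟩ : ∃ o, Th G d3 y d2 o := g.third d3 y d2
  obtain ⟨na, nb', R, a, b, sp⟩ := h3 V G col _ _ _ _ _ _ _ _ p t a1 a3 b1 b3 g h t1 t3 s1 s3
  have o : ∀ z ∈ R, z ≠ x ∧ z ≠ c1 ∧ z ≠ c2 ∧ z ≠ c3 ∧ z ≠ y ∧ z ≠ d1 ∧ z ≠ d2 ∧ z ≠ d3 ∧
      z ≠ p ∧ z ≠ t := fun z hz => by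
    simpa only [mem_insert, mem_singleton, not_or] using mem_compl.1 (sp.sub hz)
  have m1 : a1 ∈ ({a1, a3} : Finset V) := by simp
  have m3 : a3 ∈ ({a1, a3} : Finset V) := by simp
  have n1 : b1 ∈ ({b1, b3} : Finset V) := by simp
  have n3 : b3 ∈ ({b1, b3} : Finset V) := by simp
  have ha := sp.ma
  have hb := sp.mb
  simp only [mem_insert, mem_singleton] at ha hb
  rcases ha with rfl | rfl <;> rcases hb with rfl | rfl
  · exact c10_one h1 h2 g nd h t1 t3 s1 s3 na nb' sp.ps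
      (fun z hz => by simp [o z hz]) (fun c => na (sp.ua _ c m3).symm)
      fun c => nb' (sp.ub _ c n3).symm
  · exact c10_one h1 h2 g nd h.rev2 t1 t3 s3 s1 na nb'.symm sp.ps
      (fun z hz => by simp [o z hz]) (fun c => na (sp.ua _ c m3).symm)
      fun c => nb' (sp.ub _ c n1)
  · exact c10_one h1 h2 g nd h.rev1 t3 t1 s1 s3 na.symm nb' sp.ps
      (fun z hz => by simp [o z hz]) (fun c => na (sp.ua _ c m1))
      fun c => nb' (sp.ub _ c n3).symm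
  · exact c10_one h1 h2 g nd h.rev1.rev2 t3 t1 s3 s1 na.symm nb'.symm sp.ps
      (fun z hz => by simp [o z hz]) (fun c => na (sp.ua _ c m1))
      fun c => nb' (sp.ub _ c n1)

end FZ
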