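import Pool.Agent.MP_cccb39_co.Fz.St

namespace FZ

open Finset
open scoped Classical

theorem c10g (hD : DbS) : C10gS := by
  intro V _ G col x c1 c2 c3 y d1 d2 d3 p t a1 a3 b1 b3 R g nd h ha1 ha3 hb1 hb3 hab hR hout
    n3 m3
  have s1 := h.two.s1
  have s2 := h.two.s2
  have dis := h.two.dis
  simp only [mem_insert, mem_singleton, forall_eq_or_imp, forall_eq] at dis
  obtain ⟨⟨xy, xd1, xd2, xd3⟩, ⟨c1y, c1d1, c1d2, c1d3⟩, ⟨c2y, c2d1, c2d2, c2d3⟩,
    ⟨c3y, c3d1, c3d2, c3d3⟩⟩ := dis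
  have np := h.np
  have nt := h.nt
  simp only [mem_insert, mem_singleton, not_or] at np nt
  obtain ⟨px, pc1, pc2, pc3, py, pd1, pd2, pd3⟩ := np
  obtain ⟨tx, tc1, tc2, tc3, ty, td1, td2, td3⟩ := nt
  have out : ∀ z, (z = x ∨ z = c1 ∨ z = c2 ∨ z = c3 ∨ z = y ∨ z = d1 ∨ z = d2 ∨ z = d3 ∨ z = p ∨
      z = t) → z ∉ R := by
    intro z hz hzR
    exact hout z hzR (by simpa only [mem_insert, mem_singleton] using hz)
  have xR : x ∉ R := out _ (by simp)
  have c1R : c1 ∉ R := out _ (by simp)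
  have c2R : c2 ∉ R := out _ (by simp)
  have c3R : c3 ∉ R := out _ (by simp)
  have yR : y ∉ R := out _ (by simp)
  have d1R : d1 ∉ R := out _ (by simp)
  have d2R : d2 ∉ R := out _ (by simp)
  have d3R : d3 ∉ R := out _ (by simp)
  have pR : p ∉ R := out _ (by simp)
  have tR : t ∉ R := out _ (by simp)
  -- neighbours
  have nx : ∀ {w}, G.Adj x w → w = c1 ∨ w = c3 ∨ w = p := fun hw =>
    g.nb3 s1.ab s1.da.symm h.px.symm s1.bd (Ne.symm pc1) (Ne.symm pc3) hw
  have nc2 : ∀ {w}, G.Adj c2 w → w = c1 ∨ w = c3 ∨ w = t := fun hw =>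
    g.nb3 s1.bc.symm s1.cd h.tc.symm s1.bd (Ne.symm tc1) (Ne.symm tc3) hw
  have ny : ∀ {w}, G.Adj y w → w = d1 ∨ w = d3 ∨ w = p := fun hw =>
    g.nb3 s2.ab s2.da.symm h.py.symm s2.bd (Ne.symm pd1) (Ne.symm pd3) hw
  have nd2 : ∀ {w}, G.Adj d2 w → w = d1 ∨ w = d3 ∨ w = t := fun hw =>
    g.nb3 s2.bc.symm s2.cd h.td.symm s2.bd (Ne.symm td1) (Ne.symm td3) hw
  have nc1 : ∀ {w}, G.Adj c1 w → w = x ∨ w = c2 ∨ w = a1 := fun hw =>
    g.nb3 s1.ab.symm s1.bc ha1.1 s1.ac ha1.2.1.symm ha1.2.2.symm hw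
  have nc3 : ∀ {w}, G.Adj c3 w → w = x ∨ w = c2 ∨ w = a3 := fun hw =>
    g.nb3 s1.da s1.cd.symm ha3.1 s1.ac ha3.2.1.symm ha3.2.2.symm hw
  have nd1 : ∀ {w}, G.Adj d1 w → w = y ∨ w = d2 ∨ w = b1 := fun hw =>
    g.nb3 s2.ab.symm s2.bc hb1.1 s2.ac hb1.2.1.symm hb1.2.2.symm hw
  have nd3 : ∀ {w}, G.Adj d3 w → w = y ∨ w = d2 ∨ w = b3 := fun hw =>
    g.nb3 s2.da s2.cd.symm hb3.1 s2.ac hb3.2.1.symm hb3.2.2.symm hw
  -- colours
  have ky : col y = col x := g.same h.py.symm h.px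
  have kc2 : col c2 = col x := g.same s1.cd s1.da
  have kd2 : col d2 = col x := (g.same s2.cd s2.da).trans ky
  have ka3 : col a3 = col x := g.same ha3.1.symm s1.da
  have kb3 : col b3 = col x := (g.same hb3.1.symm s2.da).trans ky
  have kc1 : col c1 = col p := g.same s1.ab.symm h.px.symm
  have kc3 : col c3 = col p := g.same s1.da h.px.symm
  have kd1 : col d1 = col p := g.same s2.ab.symm h.py.symm
  have kd3 : col d3 = col p := g.same s2.da h.py.symm
  have kpx : col p ≠ col x := g.bip _ _ h.px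
  have nex : ∀ {u v}, col u = col x → col v = col p → u ≠ v := by
    intro u v hu hv e
    subst e
    exact kpx (hv.symm.trans hu)
  have nad : ∀ {u v}, col u = col v → ¬ G.Adj u v := fun e hw => g.bip _ _ hw e
  have mem : ∀ {z}, z ≠ d1 → z ≠ c1 → z ∉ R → z ∉ insert d1 (insert c1 R) := by
    intro z h1 h2 h3 hz
    simp only [mem_insert] at hz
    rcases hz with e | e | e
    · exact h1 e
    · exact h2 e
    · exact h3 e
  have mx := mem xd1 s1.ab.ne xR
  have mc2 := mem c2d1 s1.bc.ne.symm c2R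
  have mc3 := mem c3d1 s1.bd.symm c3R
  have my := mem s2.ab.ne c1y.symm yR
  have md2 := mem s2.bc.ne.symm c1d2.symm d2R
  have md3 := mem s2.bd.symm c1d3.symm d3R
  have mp := mem pd1 pc1 pR
  have mt := mem td1 tc1 tR
  have ma3 := mem (nex ka3 kd1) (nex ka3 kc1) n3
  have mb3 := mem (nex kb3 kd1) (nex kb3 kc1) m3
  have ps1 : PS G (insert c1 R) c1 b1 := hR.ext c1 c1R ha1.1 (by
    intro z hz hw
    rcases nc1 hw with e | e | e
    · exact absurd (e ▸ hz) xR
    · exact absurd (e ▸ hz) c2R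
    · exact e)
  have ps2 : PS G (insert d1 (insert c1 R)) d1 c1 := ps1.swap.ext d1
    (by
      intro hz
      rcases mem_insert.1 hz with e | e
      · exact c1d1 e.symm
      · exact d1R e) hb1.1 (by
    intro z hz hw
    rcases nd1 hw with e | e | e
    · exact absurd (mem_insert_of_mem (e ▸ hz)) my
    · exact absurd (mem_insert_of_mem (e ▸ hz)) md2
    · exact e)
  refine hD V G col c1 x c3 c2 d1 d2 d3 y a3 b3 (insert d1 (insert c1 R)) g nd
    ⟨h.two.rot1.rev1.rot2, ps2.swap, mx, mc3, mc2, md2, md3, my, ?_, ?_, ?_, ?_,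
      nad (kc2.trans ky.symm), ?_, ?_, nad (kc3.trans kd3.symm), ?_, ?_, ha3.1, ha3.2.1, ha3.2.2,
      hb3.1, hb3.2.2, hb3.2.1, hab, fun e => nad kd2.symm e.1, fun e => nad kb3.symm e.1⟩ ?_
  · intro z hz hw
    rcases nc2 hw with e | e | e
    · exact e
    · exact absurd (e ▸ hz) mc3
    · exact absurd (e ▸ hz) mt
  · intro z hz hw
    rcases nc3 hw with e | e | e
    · exact absurd (e ▸ hz) mx
    · exact absurd (e ▸ hz) mc2
    · exact absurd (e ▸ hz) ma3
  · intro z hz hw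
    rcases ny hw with e | e | e
    · exact e
    · exact absurd (e ▸ hz) md3
    · exact absurd (e ▸ hz) mp
  · intro z hz hw
    rcases nd3 hw with e | e | e
    · exact absurd (e ▸ hz) my
    · exact absurd (e ▸ hz) md2
    · exact absurd (e ▸ hz) mb3
  · intro hw
    rcases nc2 hw with e | e | e
    · exact c1d3 e.symm
    · exact c3d3 e.symm
    · exact td3 e.symm
  · intro hw
    rcases ny hw.symm with e | e | e
    · exact c3d1 e
    · exact c3d3 e
    · exact pc3 e.symm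
  · intro hw
    rcases nx hw with e | e | e
    · exact c1d3 e.symm
    · exact c3d3 e.symm
    · exact pd3 e.symm
  · intro hw
    rcases nd2 hw.symm with e | e | e
    · exact c3d1 e
    · exact c3d3 e
    · exact tc3 e.symm
  · intro Z hZ
    have pQ : p ∉ DQ (insert d1 (insert c1 R)) c2 c3 y d3 := by
      intro hz
      unfold DQ at hz
      rcases mem_insert.1 hz with e | hz
      · exact pd3 e
      rcases mem_insert.1 hz with e | hz
      · exact py e
      rcases mem_insert.1 hz with e | hz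
      · exact pc3 e
      rcases mem_insert.1 hz with e | hz
      · exact pc2 e
      · exact mp hz
    have yQ : y ∈ DQ (insert d1 (insert c1 R)) c2 c3 y d3 := by
      unfold DQ
      exact mem_insert_of_mem (mem_insert_self _ _)
    have pZ : p ∈ Z := (hZ.clo x hZ.ma p h.px.symm).resolve_right fun e => pQ e.1
    rcases hZ.clo p pZ y h.py with e | ⟨-, e | e | e | e⟩
    · exact Finset.disjoint_left.1 hZ.dis e yQ
    · exact px e
    · exact nex ka3 rfl e.symm
    · exact pd2 e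
    · exact nex kb3 rfl e.symm

end FZ
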