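import Pool.Agent.MP_cccb39_co.Fz.St

namespace FZ

open Finset
open scoped Classical

theorem c11_bad (h1 : DbS) (h2 : GenAS) {V : Type} [Pt V] {G : SimpleGraph V}
    {col : V → Bool} {x c1 c2 c3 y d1 d2 d3 o1 o2 : V} {R : Finset V} (g : Gr G col)
    (hn : NoDom G) (h : Gen G x c1 c2 c3 y d1 d2 d3 o1 o2 R) (a1 : G.Adj c1 o2)
    (a2 : G.Adj o1 d1) : HasGC G := by
  have s := h.two.s1
  have n1 : x ≠ o2 := fun e =>
    h.two.dis x (by simp) y (by simp) (h.rd d2 (by simp) x h.ps.m1 (e ▸ h.e2))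
  have n2 : c2 ≠ o2 := fun e => h.cd c2 (by simp) d2 (by simp) (e ▸ h.e2.symm)
  have n3 : ¬ G.Adj c3 o2 := fun a3 =>
    g.k23 s.bd s.ab.symm s.bc a1 s.da s.cd.symm a3 s.ac n1 n2
  refine h1 V G col _ _ _ _ _ _ _ _ _ _ R g hn
    (h2 V G col _ _ _ _ _ _ _ _ _ _ R g h.sw1.sw2 fun e => n3 e.1) fun Z hZ => ?_
  exact h.two.dis c2 (by simp) d1 (by simp) (hZ.ta d1 (by simp [DQ]) a2).symm

theorem c11 (h1 : DbS) (h2 : GenAS) (h3 : GenBS) : C11S := by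
  intro V _ G col x c1 c2 c3 y d1 d2 d3 o1 o2 R g hn h
  by_cases b1 : G.Adj c1 o2 ∧ G.Adj o1 d1
  · exact c11_bad h1 h2 g hn h b1.1 b1.2
  by_cases b2 : G.Adj c3 o2 ∧ G.Adj o1 d1
  · exact c11_bad h1 h2 g hn h.sw1 b2.1 b2.2
  by_contra hc
  refine hc (h1 V G col _ _ _ _ _ _ _ _ _ _ R g hn (h2 V G col _ _ _ _ _ _ _ _ _ _ R g h b1)
    fun Y hY => hc ?_)
  exact h1 V G col _ _ _ _ _ _ _ _ _ _ R g hn (h2 V G col _ _ _ _ _ _ _ _ _ _ R g h.sw1 b2)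
    fun Z hZ => h3 V G col _ _ _ _ _ _ _ _ _ _ R Y Z g h hY hZ

end FZ
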