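import Pool.Agent.MP_cccb39_co.Fz.St

namespace FZ

open Finset
open scoped Classical

theorem c12_set {V : Type} (x c1 c2 c3 : V) :
    ({c1, c2, c3, x} : Finset V) = {x, c1, c2, c3} := by
  ext z
  simp only [mem_insert, mem_singleton]
  tauto

theorem c12_rot {V : Type} [Pt V] {G : SimpleGraph V} {x c1 c2 c3 y d1 d2 d3 a : V}
    (h : Two G x c1 c2 c3 y d1 d2 d3) (ha : a ∈ ({x, c1, c2, c3} : Finset V)) :
    ∃ e1 e2 e3, Two G a e1 e2 e3 y d1 d2 d3 ∧
      ({a, e1, e2, e3} : Finset V) = {x, c1, c2, c3} := by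
  simp only [mem_insert, mem_singleton] at ha
  rcases ha with rfl | rfl | rfl | rfl
  · exact ⟨_, _, _, h, rfl⟩
  · exact ⟨_, _, _, h.rot1, c12_set _ _ _ _⟩
  · exact ⟨_, _, _, h.rot1.rot1, (c12_set _ _ _ _).trans (c12_set _ _ _ _)⟩
  · exact ⟨_, _, _, h.rot1.rot1.rot1,
      ((c12_set _ _ _ _).trans (c12_set _ _ _ _)).trans (c12_set _ _ _ _)⟩

theorem c12 (h1 : SpS) (h2 : C8S) (h3 : C10S) (h4 : C11S) (h5 : GenMkS) : C12S := by
  intro V _ G col x c1 c2 c3 y d1 d2 d3 g nd tw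
  by_cases hA : NA G
  swap
  · exact h2 V G col g nd hA
  by_cases hB : NB G
  swap
  · exact h3 V G col g nd hB
  obtain ⟨R, a, b, sp⟩ := h1 V G univ {x, c1, c2, c3} {y, d1, d2, d3} (subset_univ _)
    (subset_univ _) (by
      intro Y hY _ hc
      by_contra hn
      push Not at hn
      refine g.cut3 Y (two_le (a := x) (b := c2) (hY (by simp)) (hY (by simp)) tw.s1.ac)
        (two_le_compl (a := y) (b := d2) (hn y (by simp)) (hn d2 (by simp)) tw.s2.ac)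
        x x x x x x ?_
      intro u hu v hv huv
      exact absurd (hc u hu v (mem_univ _) huv) hv)
  obtain ⟨e1, e2, e3, t1, s1⟩ := c12_rot tw sp.ma
  obtain ⟨f1, f2, f3, t2, s2⟩ := c12_rot t1.swap sp.mb
  rw [← s1, ← s2] at sp
  obtain ⟨o1, o2, ge⟩ := h5 V G col a e1 e2 e3 b f1 f2 f3 R g nd hA hB t2.swap sp
  exact h4 V G col a e1 e2 e3 b f1 f2 f3 o1 o2 R g nd ge

end FZ
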