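import Pool.Agent.MP_cccb39_co.Fz.St

namespace FZ

open Finset
open scoped Classical

private theorem c2_ne {V : Type} {col : V → Bool} {a b : V} {c : Bool} (ha : col a = c)
    (hb : col b = !c) : a ≠ b := by
  rintro rfl
  rw [ha] at hb
  cases c <;> simp at hb

theorem c2 : C2S := by
  intro V _ G col p q w s r t P S W T R g h hWT ps hR hW hu
  obtain ⟨cw, cr, cS, cT, cq, cs, ct, cP, cW⟩ := h.cols g
  have cp : col p = col p := rfl
  have np : p ∉ R := fun e => hR p e (by simp)
  have nq : q ∉ R := fun e => hR q e (by simp)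
  have nw : w ∉ R := fun e => hR w e (by simp)
  have ns : s ∉ R := fun e => hR s e (by simp)
  have nr : r ∉ R := fun e => hR r e (by simp)
  have nt : t ∉ R := fun e => hR t e (by simp)
  have rs : r ≠ s := c2_ne cr cs
  have rq : r ≠ q := c2_ne cr cq
  have rt : r ≠ t := c2_ne cr ct
  have rW : r ≠ W := c2_ne cr cW
  have ws : w ≠ s := c2_ne cw cs
  have wq : w ≠ q := c2_ne cw cq
  have wt : w ≠ t := c2_ne cw ct
  have wW : w ≠ W := c2_ne cw cW
  have wP : w ≠ P := c2_ne cw cP
  have pq : p ≠ q := c2_ne cp cq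
  have ps' : p ≠ s := c2_ne cp cs
  have pt : p ≠ t := c2_ne cp ct
  have pW : p ≠ W := c2_ne cp cW
  have SP : S ≠ P := c2_ne cS cP
  have k1 : PS G (insert s R) s P := by
    refine ps.swap.ext s ns h.sS fun x hx a => ?_
    rcases h.ns g a with e | e | e
    · exact absurd (e ▸ hx) nr
    · exact absurd (e ▸ hx) np
    · exact e
  have k2 : PS G (insert r (insert s R)) r P := by
    refine k1.ext r (by simp [rs, nr]) h.sr.symm fun x hx a => ?_
    rcases h.nr g a with e | e | e
    · exact e
    · exact absurd (e ▸ hx) (by simp [h.s_t.symm, nt])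
    · exact absurd (e ▸ hx) (by simp [h.q_s, nq])
  have k3 : PS G (insert q (insert r (insert s R))) q P := by
    refine k2.ext q (by simp [rq.symm, h.q_s, nq]) h.qr fun x hx a => ?_
    rcases h.nq g a with e | e | e
    · exact absurd (e ▸ hx) (by simp [h.p_r, ps', np])
    · exact absurd (e ▸ hx) (by simp [h.w_r, ws, nw])
    · exact e
  have k4 : PS G (insert w (insert q (insert r (insert s R)))) w P := by
    refine k3.ext w (by simp [wq, h.w_r, ws, nw]) h.qw.symm fun x hx a => ?_
    rcases h.nw g a with e | e | e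
    · exact e
    · exact absurd (e ▸ hx) (by simp [h.q_t.symm, rt.symm, h.s_t.symm, nt])
    · exact absurd (e ▸ hx) (by simp [h.W_q, rW.symm, h.W_s, hW])
  obtain ⟨y, hy, ay⟩ := ps.n1 SP.symm
  obtain ⟨x, ax, xp, xy⟩ := g.third P p y
  have cx : col x = col p := (g.same h.pP ax).symm
  have xR : x ∉ R := fun e => xy (hu x e y hy ax ay)
  have xr : x ≠ r := by
    rintro rfl
    rcases h.nr g ax.symm with e | e | e
    · exact h.P_s e
    · exact h.P_t e
    · exact h.P_q e
  have xw : x ≠ w := by
    rintro rfl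
    rcases h.nw g ax.symm with e | e | e
    · exact h.P_q e
    · exact h.P_t e
    · exact h.P_W e
  have xq : x ≠ q := c2_ne cx cq
  have xs : x ≠ s := c2_ne cx cs
  have key : ∀ z, z ∉ (insert w (insert q (insert r (insert s R))) : Finset V) → ¬ G.Adj p z := by
    intro z hz a
    rcases h.np g a with e | e | e
    · exact hz (by simp [e])
    · exact hz (by simp [e])
    · exact hz (by simp [e, ps.m1])
  have tQ : t ∉ (insert w (insert q (insert r (insert s R))) : Finset V) := by
    simp [wt.symm, h.q_t.symm, rt.symm, h.s_t.symm, nt]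
  have WQ : W ∉ (insert w (insert q (insert r (insert s R))) : Finset V) := by
    simp [wW.symm, h.W_q, rW.symm, h.W_s, hW]
  refine ⟨_, x, W, ⟨k4.swap, wP.symm, by simp [h.p_w, pq, h.p_r, ps', np],
    by simp [xw, xq, xr, xs, xR], tQ, WQ, xp.symm, pt, pW, c2_ne cx ct, c2_ne cx cW, h.W_t.symm,
    h.pP.symm, ax, h.wt, h.wW, ⟨q, by simp, h.P_q.symm, h.pq⟩, ⟨r, by simp, h.w_r.symm, h.rt.symm⟩,
    fun z hz a => absurd a (key z hz), fun z hz a => ?_, fun a => key t tQ a.1,
    fun a => key W WQ a.1, fun Y hY => ?_⟩,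
    by simp, h.P_q.symm, h.pq, by simp, h.w_r.symm, h.rt.symm⟩
  · rcases h.nt g a with e | e | e
    · exact absurd (by simp [e]) hz
    · exact absurd (by simp [e]) hz
    · exact e ▸ hWT
  · obtain ⟨z, hz, a⟩ := hY.oa
    exact key z hz a

end FZ
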