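import Pool.Agent.MP_cccb39_co.Fz.St

namespace FZ

open Finset
open scoped Classical

private theorem c4_ne {V : Type} {col : V → Bool} {a c : V} {b : Bool} (h1 : col a = b)
    (h2 : col c = !b) : a ≠ c := by
  intro e
  subst e
  rw [h1] at h2
  cases b <;> simp at h2

private theorem c4_one (h : K4S) (V : Type) [Pt V] (G : SimpleGraph V) (col : V → Bool)
    (p q w s r t P S W T : V) (g : Gr G col) (th : THz G) (d : Dom G p q w s r t P S W T)
    (hPT : G.Adj P T) (hSW : G.Adj S W) (z1 : Pt.z ≠ p) (z2 : Pt.z ≠ q) (z3 : Pt.z ≠ r)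
    (z4 : Pt.z ≠ t) (z5 : Pt.z ≠ T) (z6 : Pt.z ≠ P) (z7 : Pt.z ≠ s) : False := by
  obtain ⟨cw, cr, cS, cT, cq, cs, ct, cP, cW⟩ := d.cols g
  refine h V G col p q w s r t P S W T g th d hPT ?_ ?_
  · simp only [mem_insert, mem_singleton, not_or]
    exact ⟨z1, z2, z3, z4, z5, z6, z7⟩
  · intro Z hZ hs
    have mS : S ∈ ({p, q, r, t, T, P} : Finset V)ᶜ := by
      simp only [mem_compl, mem_insert, mem_singleton, not_or]
      exact ⟨d.S_p, c4_ne cS cq, d.S_r, c4_ne cS ct, d.S_T, c4_ne cS cP⟩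
    have mW : W ∈ ({p, q, r, t, T, P} : Finset V)ᶜ := by
      simp only [mem_compl, mem_insert, mem_singleton, not_or]
      exact ⟨(c4_ne rfl cW).symm, d.W_q, (c4_ne cr cW).symm, d.W_t, (c4_ne cT cW).symm,
        d.P_W.symm⟩
    have mw : w ∈ ({p, q, r, t, T, P} : Finset V)ᶜ := by
      simp only [mem_compl, mem_insert, mem_singleton, not_or]
      exact ⟨d.p_w.symm, c4_ne cw cq, d.w_r, c4_ne cw ct, d.T_w.symm, c4_ne cw cP⟩
    exact hZ W (hZ S (hZ s hs S mS d.sS) W mW hSW) w mw d.wW.symm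

theorem c4 (h : K4S) : C4S := by
  intro V _ G col p q w s r t P S W T g th d hq hr hPT hSW
  obtain ⟨cw, cr, cS, cT, cq, cs, ct, cP, cW⟩ := d.cols g
  have cp : col p = col p := rfl
  by_cases e1 : (Pt.z : V) = p
  · refine c4_one h V G col _ _ _ _ _ _ _ _ _ _ g th d.refl hSW.symm hPT.symm ?_ hq.symm hr.symm
      ?_ ?_ ?_ ?_ <;> rw [e1]
    · exact d.p_w
    · exact c4_ne cp cs
    · exact d.S_p.symm
    · exact c4_ne cp cW
    · exact c4_ne cp ct
  by_cases e2 : (Pt.z : V) = P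
  · refine c4_one h V G col _ _ _ _ _ _ _ _ _ _ g th d.refl hSW.symm hPT.symm ?_ hq.symm hr.symm
      ?_ ?_ ?_ ?_ <;> rw [e2]
    · exact (c4_ne cw cP).symm
    · exact d.P_s
    · exact (c4_ne cS cP).symm
    · exact d.P_W
    · exact d.P_t
  by_cases e3 : (Pt.z : V) = T
  · refine c4_one h V G col _ _ _ _ _ _ _ _ _ _ g th d.refl hSW.symm hPT.symm ?_ hq.symm hr.symm
      ?_ ?_ ?_ ?_ <;> rw [e3]
    · exact d.T_w
    · exact c4_ne cT cs
    · exact d.S_T.symm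
    · exact c4_ne cT cW
    · exact c4_ne cT ct
  by_cases e4 : (Pt.z : V) = t
  · refine c4_one h V G col _ _ _ _ _ _ _ _ _ _ g th d.flip hSW hPT ?_ hr.symm hq.symm
      ?_ ?_ ?_ ?_ <;> rw [e4]
    · exact d.s_t.symm
    · exact (c4_ne cw ct).symm
    · exact d.W_t.symm
    · exact (c4_ne cS ct).symm
    · exact (c4_ne cp ct).symm
  by_cases e5 : (Pt.z : V) = s
  · refine c4_one h V G col _ _ _ _ _ _ _ _ _ _ g th d.flip.refl hPT.symm hSW.symm ?_ hr.symm
      hq.symm ?_ ?_ ?_ ?_ <;> rw [e5]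
    · exact d.s_t
    · exact (c4_ne cp cs).symm
    · exact d.P_s.symm
    · exact (c4_ne cT cs).symm
    · exact (c4_ne cw cs).symm
  exact c4_one h V G col _ _ _ _ _ _ _ _ _ _ g th d hPT hSW e1 hq.symm hr.symm e4 e3 e2 e5

end FZ
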