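import Pool.Agent.MP_cccb39_co.Fz.St

namespace FZ

open Finset
open scoped Classical

theorem c5a_ne {V : Type} {col : V → Bool} {a c : V} {b : Bool} (h1 : col a = b)
    (h2 : col c = !b) : a ≠ c := by
  rintro rfl
  cases b <;> simp [h1] at h2

theorem c5a_side (h2 : C2S) {V : Type} [Pt V] {G : SimpleGraph V} {col : V → Bool}
    {p q w s r t P S W T : V} {R : Finset V} (g : Gr G col) (h : Dom G p q w s r t P S W T)
    (hz : Pt.z ∉ ({p, q, w, s, r, t} : Finset V)) (f : ¬ G.Adj W T) (ps : PS G R P S)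
    (o : ∀ z ∈ R, z ∉ ({p, q, w, s, r, t} : Finset V)) (nW : W ∉ R) (nT : T ∉ R)
    (oa : ∀ x ∈ R, ∀ y ∈ R, G.Adj P x → G.Adj P y → x = y)
    (ob : ∀ x ∈ R, ∀ y ∈ R, G.Adj S x → G.Adj S y → x = y) : HasGC G := by
  obtain ⟨-, -, cS, -, -, -, -, cP, -⟩ := h.cols g
  simp only [mem_insert, mem_singleton, not_or] at hz
  obtain ⟨z1, z2, z3, z4, z5, z6⟩ := hz
  by_cases e : Pt.z = P
  · refine ⟨_, _, _, _, _, _, h2 V G col s r t p q w S P T W R g h.flip (fun c => f c.symm) ps.swap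
      (fun z hz c => o z hz ?_) nT ob, ?_⟩
    · simp only [mem_insert, mem_singleton] at c ⊢
      tauto
    · simp only [mem_insert, mem_singleton, not_or]
      exact ⟨fun c => c5a_ne cS cP (c.symm.trans e), z6, z4, z3, z5, z2⟩
  · refine ⟨_, _, _, _, _, _, h2 V G col p q w s r t P S W T R g h f ps o nW oa, ?_⟩
    simp only [mem_insert, mem_singleton, not_or]
    exact ⟨e, z3, z1, z6, z2, z5⟩

theorem c5a_edge (h1 : C1S) (h2 : C2S) {V : Type} [Pt V] {G : SimpleGraph V} {col : V → Bool}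
    {p q w s r t P S W T : V} (g : Gr G col) (th : THz G) (h : Dom G p q w s r t P S W T)
    (hz : Pt.z ∉ ({p, q, w, s, r, t} : Finset V)) (e : G.Adj P S) : HasGC G := by
  by_cases f : G.Adj W T
  · exact h1 V G col p q w s r t P S W T g th h hz e f
  obtain ⟨cw, cr, cS, cT, cq, -, ct, cP, cW⟩ := h.cols g
  refine c5a_side h2 (R := insert P {S}) g h hz f
    ((PS.one G S).ext P (by simpa using e.ne) e fun x hx _ => mem_singleton.1 hx) ?_ ?_ ?_ ?_ ?_
  · intro z hz
    simp only [mem_insert, mem_singleton, not_or] at hz ⊢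
    rcases hz with rfl | rfl
    · exact ⟨h.pP.ne', h.P_q, (c5a_ne cw cP).symm, h.P_s, (c5a_ne cr cP).symm, h.P_t⟩
    · exact ⟨h.S_p, c5a_ne cS cq, h.S_w, h.sS.ne', h.S_r, c5a_ne cS ct⟩
  · simp only [mem_insert, mem_singleton, not_or]
    exact ⟨h.P_W.symm, (c5a_ne cS cW).symm⟩
  · simp only [mem_insert, mem_singleton, not_or]
    exact ⟨c5a_ne cT cP, h.S_T.symm⟩
  · intro x hx y hy a b
    simp only [mem_insert, mem_singleton] at hx hy
    exact (hx.resolve_left a.ne').trans (hy.resolve_left b.ne').symm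
  · intro x hx y hy a b
    simp only [mem_insert, mem_singleton] at hx hy
    exact (hx.resolve_right a.ne').trans (hy.resolve_right b.ne').symm

theorem c5a (h1 : C1S) (h2 : C2S) (h3 : C3S) (h4 : C4S) (h5 : DspS) : C5aS := by
  intro V _ G col p q w s r t P S W T g th h hz
  have hz' : Pt.z ∉ ({w, q, p, t, r, s} : Finset V) := fun c => hz (by
    simp only [mem_insert, mem_singleton] at c ⊢
    tauto)
  by_cases e1 : G.Adj P S
  · exact c5a_edge h1 h2 g th h hz e1
  by_cases e2 : G.Adj W T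
  · exact c5a_edge h1 h2 g th h.refl hz' e2
  have hy := hz
  simp only [mem_insert, mem_singleton, not_or] at hy
  obtain ⟨z1, z2, z3, z4, z5, z6⟩ := hy
  by_cases e3 : G.Adj P T ∧ G.Adj S W
  · exact (h4 V G col p q w s r t P S W T g th h (Ne.symm z2) (Ne.symm z5) e3.1 e3.2).elim
  obtain ⟨R, a, b, sp⟩ := h5 V G col p q w s r t P S W T g h
  obtain ⟨-, -, cS, cT, -, -, -, cP, cW⟩ := h.cols g
  have o1 : ∀ z ∈ R, z ∉ ({p, q, w, s, r, t} : Finset V) := fun z hz => mem_compl.1 (sp.sub hz)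
  have o2 : ∀ z ∈ R, z ∉ ({w, q, p, t, r, s} : Finset V) := fun z hz c => o1 z hz (by
    simp only [mem_insert, mem_singleton] at c ⊢
    tauto)
  have mP : P ∈ ({P, W} : Finset V) := by simp
  have mW : W ∈ ({P, W} : Finset V) := by simp
  have mS : S ∈ ({S, T} : Finset V) := by simp
  have mT : T ∈ ({S, T} : Finset V) := by simp
  have ha := sp.ma
  have hb := sp.mb
  simp only [mem_insert, mem_singleton] at ha hb
  rcases ha with rfl | rfl <;> rcases hb with rfl | rfl
  · exact c5a_side h2 g h hz e2 sp.ps o1 (fun c => h.P_W (sp.ua W c mW).symm)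
      (fun c => h.S_T (sp.ub T c mT).symm) sp.oa sp.ob
  · refine ⟨_, _, _, _, _, _, h3 V G col p q w s r t _ S W _ R g h (fun c => ?_) sp.ps o1
      (fun c => h.P_W (sp.ua W c mW).symm) fun c => h.S_T (sp.ub S c mS), ?_⟩
    · exact e3 ⟨(sp.k1 W mW S mS c.symm).resolve_left (c5a_ne cT cP).symm, c⟩
    · simp only [mem_insert, mem_singleton, not_or]
      exact ⟨z4, z3, z5, z2, z6, z1⟩
  · refine ⟨_, _, _, _, _, _, h3 V G col w q p t r s _ T P _ R g h.refl (fun c => ?_) sp.ps o2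
      (fun c => h.P_W (sp.ua P c mP)) fun c => h.S_T (sp.ub T c mT).symm, ?_⟩
    · exact e3 ⟨c.symm, ((sp.k1 P mP T mT c.symm).resolve_left (c5a_ne cS cW).symm).symm⟩
    · simp only [mem_insert, mem_singleton, not_or]
      exact ⟨z6, z1, z5, z2, z4, z3⟩
  · exact c5a_side h2 g h.refl hz' e1 sp.ps o2 (fun c => h.P_W (sp.ua P c mP))
      (fun c => h.S_T (sp.ub S c mS)) sp.oa sp.ob

end FZ
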