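import Pool.Agent.MP_cccb39_co.Fz.St

/-! A domino whose corner is the special point gives a good configuration. -/

namespace FZ

open Finset
open scoped Classical

theorem c5b (h0 : DomMkS) (h1 : C5aS) (h2 : C2S) (h3 : ES) (h4 : PathCS) (h5 : PathES) : C5bS := by
  intro V _ G col p q w s r t P S W T g th h hw
  obtain ⟨cw, cr, cS, cT, cq, cs, ct, cP, cW⟩ := h.cols g
  have ne : ∀ a b : V, col a = col p → col b = (!col p) → a ≠ b := by
    intro a b ha hb e
    rw [e, hb] at ha
    revert ha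
    cases col p <;> simp
  have wP : w ≠ P := ne _ _ cw cP
  have ws : w ≠ s := ne _ _ cw cs
  have wq : w ≠ q := ne _ _ cw cq
  have wt : w ≠ t := ne _ _ cw ct
  have wp : w ≠ p := h.p_w.symm
  have wr : w ≠ r := h.w_r
  have wS : w ≠ S := h.S_w.symm
  have wT : w ≠ T := h.T_w.symm
  by_cases hPS : G.Adj P S
  · obtain ⟨P', S', W', T', hd⟩ := h0 V G col P p q S s r g h.pP.symm h.pq h.sS.symm h.sr hPS h.ps
      h.qr h.P_q h.S_r h.P_s h.q_s h.S_p.symm h.p_r
    refine h1 V G col P p q S s r P' S' W' T' g th hd ?_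
    rw [← hw]
    simp only [mem_insert, mem_singleton, not_or]
    exact ⟨wP, wp, wq, wS, ws, wr⟩
  have key : ∀ R : Finset V, PS G R T W → (∀ z ∈ R, z ∉ ({p, q, w, s, r, t} : Finset V)) →
      S ∉ R → (∀ x ∈ R, ∀ y ∈ R, G.Adj T x → G.Adj T y → x = y) → HasGC G := by
    intro R a b c d
    refine ⟨T, s, t, p, r, q, h2 V G col t r s w q p T W S P R g h.flip.refl
      (fun e => hPS e.symm) a ?_ c d, ?_⟩
    · intro z hz
      have := b z hz
      simp only [mem_insert, mem_singleton, not_or] at this ⊢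
      obtain ⟨e1, e2, e3, e4, e5, e6⟩ := this
      exact ⟨e6, e5, e4, e3, e2, e1⟩
    · rw [← hw]
      simp only [mem_insert, mem_singleton, not_or]
      exact ⟨wT, ws, wt, wp, wr, wq⟩
  by_cases hWT : G.Adj W T
  · have TW : T ≠ W := ne _ _ cT cW
    refine key (insert T {W}) ((PS.one G W).ext T (by simpa using TW) hWT.symm
      (fun x hx _ => mem_singleton.1 hx)) ?_ ?_ ?_
    · intro z hz
      simp only [mem_insert, mem_singleton, not_or] at hz ⊢
      rcases hz with e | e
      · rw [e]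
        exact ⟨h.T_p, ne _ _ cT cq, h.T_w, ne _ _ cT cs, h.T_r, ne _ _ cT ct⟩
      · rw [e]
        exact ⟨(ne _ _ rfl cW).symm, h.W_q, (ne _ _ cw cW).symm, h.W_s, (ne _ _ cr cW).symm, h.W_t⟩
    · simp only [mem_insert, mem_singleton, not_or]
      exact ⟨h.S_T, ne _ _ cS cW⟩
    · intro x hx y hy a b
      simp only [mem_insert, mem_singleton] at hx hy
      have hx' : x = W := hx.resolve_left a.ne'
      have hy' : y = W := hy.resolve_left b.ne'
      rw [hx', hy']
  by_cases hPT : G.Adj P T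
  · obtain ⟨R, a, b, c, d⟩ := h4 V G col p q w s r t P S W T g th h hw hPT
    exact key R a b c d
  · obtain ⟨R, a, b, d⟩ := h5 V G col p q w s r t P S W T g h
    refine ⟨T, q, t, p, r, s, h3 V G col p q w s r t P S W T R g h hWT hPT a b d, ?_⟩
    rw [← hw]
    simp only [mem_insert, mem_singleton, not_or]
    exact ⟨wT, wq, wt, wp, wr, ws⟩

end FZ
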