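import Pool.Agent.MP_cccb39_co.Fz.St

set_option linter.unusedSectionVars false

namespace FZ

open Finset
open scoped Classical

section
variable {V : Type} [Pt V] {G : SimpleGraph V} {col : V → Bool}

theorem c6_A (h : Gr G col) (hn : NoDom G) {a b c d c' d' : V} (s1 : Sq G a b c d)
    (s2 : Sq G a b c' d') (za : a ≠ Pt.z) (zb : b ≠ Pt.z) : c = c' ∧ d = d' := by
  by_cases e1 : c = c'
  · subst e1
    refine ⟨rfl, ?_⟩
    by_contra e2
    exact h.k23 s1.ac s1.ab s1.da.symm s2.da.symm s1.bc.symm s1.cd s2.cd s1.bd s2.bd e2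
  · exfalso
    by_cases e2 : d = d'
    · subst e2
      exact h.k23 s1.bd s1.ab.symm s1.bc s2.bc s1.da s1.cd.symm s2.cd.symm s1.ac s2.ac e1
    · exact hn d a d' c b c' s1.da s2.da.symm s1.bc.symm s2.bc s1.cd.symm s1.ab s2.cd.symm e2 e1
        s1.bd.symm s2.bd.symm s1.ac s2.ac za zb

theorem c6_B (h : Gr G col) (hn : NoDom G) {a b c d b' c' d' : V} (s1 : Sq G a b c d)
    (s2 : Sq G a b' c' d') (za : a ≠ Pt.z) (zb : b ≠ Pt.z) (zd : d ≠ Pt.z) :
    ({a, b, c, d} : Finset V) = {a, b', c', d'} := by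
  by_cases e1 : b = b'
  · subst e1
    obtain ⟨rfl, rfl⟩ := c6_A h hn s1 s2 za zb
    rfl
  by_cases e2 : d = b'
  · subst e2
    obtain ⟨rfl, rfl⟩ := c6_A h hn s1.rev s2 za zd
    ext u
    simp only [mem_insert, mem_singleton]
    tauto
  rcases h.nb3 s1.ab s1.da.symm s2.ab s1.bd e1 e2 s2.da.symm with e | e | e
  · subst e
    obtain ⟨rfl, rfl⟩ := c6_A h hn s1 s2.rev za zb
    exact absurd rfl e2
  · subst e
    obtain ⟨rfl, rfl⟩ := c6_A h hn s1.rev s2.rev za zd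
    exact absurd rfl e1
  · exact absurd e.symm s2.bd

theorem c6_C {x c1 c2 c3 u : V} (s : Sq G x c1 c2 c3)
    (hu : u = x ∨ u = c1 ∨ u = c2 ∨ u = c3) :
    ∃ b c d, Sq G u b c d ∧ ({u, b, c, d} : Finset V) = {x, c1, c2, c3} := by
  rcases hu with rfl | rfl | rfl | rfl
  · exact ⟨_, _, _, s, rfl⟩
  · refine ⟨_, _, _, s.rot, ?_⟩
    ext u
    simp only [mem_insert, mem_singleton]
    tauto
  · refine ⟨_, _, _, s.rot.rot, ?_⟩
    ext u
    simp only [mem_insert, mem_singleton]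
    tauto
  · refine ⟨_, _, _, s.rot.rot.rot, ?_⟩
    ext u
    simp only [mem_insert, mem_singleton]
    tauto

end

theorem c6 : C6S := by
  intro V _ G col x c1 c2 c3 y d1 d2 d3 h hn s1 s2 hne z1 z2
  refine ⟨s1, s2, ?_, z1, z2⟩
  intro u hu v hv e
  subst e
  obtain ⟨b, c, d, t1, e1⟩ := c6_C s1 (by simpa using hu)
  obtain ⟨b', c', d', t2, e2⟩ := c6_C s2 (by simpa using hv)
  rw [← e1] at z1
  exact hne (e1.symm.trans ((c6_B h hn t1 t2 (z1 _ (by simp)) (z1 _ (by simp))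
    (z1 _ (by simp))).trans e2))

end FZ
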