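import Pool.Agent.MP_cccb39_co.Fz.St

namespace FZ

open Finset
open scoped Classical

theorem c8g (hD : DbS) : C8gS := by
  intro V _ G col x c1 c2 c3 y d1 d2 d3 a1 a3 b1 b3 R g nd h xy cd ta1 ta3 tb1 tb3 ps hR ha3 hb3
  have s1 := h.s1
  have s2 := h.s2
  have dis := h.dis
  simp only [mem_insert, mem_singleton, forall_eq_or_imp, forall_eq] at dis
  obtain ⟨⟨x_y, x_d1, x_d2, x_d3⟩, ⟨c1_y, c1_d1, c1_d2, c1_d3⟩, ⟨c2_y, c2_d1, c2_d2, c2_d3⟩,
    c3_y, c3_d1, c3_d2, c3_d3⟩ := dis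
  have xR : x ∉ R := fun e => hR _ e (by simp)
  have c1R : c1 ∉ R := fun e => hR _ e (by simp)
  have c2R : c2 ∉ R := fun e => hR _ e (by simp)
  have c3R : c3 ∉ R := fun e => hR _ e (by simp)
  have yR : y ∉ R := fun e => hR _ e (by simp)
  have d1R : d1 ∉ R := fun e => hR _ e (by simp)
  have d2R : d2 ∉ R := fun e => hR _ e (by simp)
  have d3R : d3 ∉ R := fun e => hR _ e (by simp)
  have nx : ∀ {z}, G.Adj x z → z = c1 ∨ z = c3 ∨ z = y :=
    g.nb3 s1.ab s1.da.symm xy s1.bd c1_y c3_y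
  have nc2 : ∀ {z}, G.Adj c2 z → z = c1 ∨ z = c3 ∨ z = d2 :=
    g.nb3 s1.bc.symm s1.cd cd s1.bd c1_d2 c3_d2
  have ny : ∀ {z}, G.Adj y z → z = d1 ∨ z = d3 ∨ z = x :=
    g.nb3 s2.ab s2.da.symm xy.symm s2.bd x_d1.symm x_d3.symm
  have nd2 : ∀ {z}, G.Adj d2 z → z = d1 ∨ z = d3 ∨ z = c2 :=
    g.nb3 s2.bc.symm s2.cd cd.symm s2.bd c2_d1.symm c2_d3.symm
  have nc1 : ∀ {z}, G.Adj c1 z → z = x ∨ z = c2 ∨ z = a1 :=
    g.nb3 s1.ab.symm s1.bc ta1.1 s1.ac ta1.2.1.symm ta1.2.2.symm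
  have nc3 : ∀ {z}, G.Adj c3 z → z = x ∨ z = c2 ∨ z = a3 :=
    g.nb3 s1.da s1.cd.symm ta3.1 s1.ac ta3.2.1.symm ta3.2.2.symm
  have nd1 : ∀ {z}, G.Adj d1 z → z = y ∨ z = d2 ∨ z = b1 :=
    g.nb3 s2.ab.symm s2.bc tb1.1 s2.ac tb1.2.1.symm tb1.2.2.symm
  have nd3 : ∀ {z}, G.Adj d3 z → z = y ∨ z = d2 ∨ z = b3 :=
    g.nb3 s2.da s2.cd.symm tb3.1 s2.ac tb3.2.1.symm tb3.2.2.symm
  have mem : ∀ {z}, z ≠ d1 → z ≠ c1 → z ∉ R → z ∉ insert d1 (insert c1 R) := fun h1 h2 h3 e => by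
    simp only [mem_insert] at e
    exact e.elim h1 fun e => e.elim h2 h3
  have mx := mem x_d1 s1.ab.ne xR
  have mc2 := mem c2_d1 s1.bc.ne' c2R
  have mc3 := mem c3_d1 s1.bd.symm c3R
  have my := mem s2.ab.ne c1_y.symm yR
  have md2 := mem s2.bc.ne' c1_d2.symm d2R
  have md3 := mem s2.bd.symm c1_d3.symm d3R
  have a3_d1 : a3 ≠ d1 := fun e => by
    rcases nd1 (e ▸ ta3.1).symm with e | e | e
    · exact c3_y e
    · exact c3_d2 e
    · exact c3R (e ▸ ps.m2)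
  have b3_c1 : b3 ≠ c1 := fun e => by
    rcases nc1 (e ▸ tb3.1).symm with e | e | e
    · exact x_d3 e.symm
    · exact c2_d3 e.symm
    · exact d3R (e ▸ ps.m1)
  have ma3 := mem a3_d1 (fun e => g.notri s1.da s1.ab (e ▸ ta3.1)) ha3
  have mb3 := mem (fun e => g.notri s2.da s2.ab (e ▸ tb3.1)) b3_c1 hb3
  have x4 : ¬ G.Adj c3 d3 := fun e => nd c1 x y c2 c3 d3 s1.ab.symm xy s1.cd e s1.bc s1.da.symm
    s2.da.symm c1_y c2_d3 s1.bd c3_y.symm s1.ac x_d3 (h.z1 x (by simp)) (h.z1 c3 (by simp))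
  have p1 : PS G (insert c1 R) c1 b1 := ps.ext c1 c1R ta1.1 fun z hz e => by
    rcases nc1 e with rfl | rfl | rfl
    · exact absurd hz xR
    · exact absurd hz c2R
    · rfl
  have p2 : PS G (insert d1 (insert c1 R)) d1 c1 :=
    p1.swap.ext d1 (fun e => (mem_insert.1 e).elim c1_d1.symm d1R) tb1.1 fun z hz e => by
      rcases nd1 e with rfl | rfl | rfl
      · exact absurd (mem_insert_of_mem hz) my
      · exact absurd (mem_insert_of_mem hz) md2
      · rfl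
  refine hD V G col c1 x c3 c2 d1 d2 d3 y a3 b3 (insert d1 (insert c1 R)) g nd
    ⟨h.rot1.rev1.rot2, p2.swap, mx, mc3, mc2, md2, md3, my, fun z hz e => ?_, fun z hz e => ?_,
      fun z hz e => ?_, fun z hz e => ?_, fun e => ?_, fun e => ?_, fun e => ?_, x4, fun e => ?_,
      fun e => ?_, ta3.1, ta3.2.1, ta3.2.2, tb3.1, tb3.2.2, tb3.2.1, fun e => ?_, fun e => ?_,
      fun e => ?_⟩ fun Z hZ => ?_
  · rcases nc2 e with rfl | rfl | rfl
    · rfl
    · exact absurd hz mc3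
    · exact absurd hz md2
  · rcases nc3 e with rfl | rfl | rfl
    · exact mx hz
    · exact mc2 hz
    · exact ma3 hz
  · rcases ny e with rfl | rfl | rfl
    · rfl
    · exact absurd hz md3
    · exact absurd hz mx
  · rcases nd3 e with rfl | rfl | rfl
    · exact my hz
    · exact md2 hz
    · exact mb3 hz
  · rcases nc2 e with e | e | e
    · exact c1_y e.symm
    · exact c3_y e.symm
    · exact s2.ac e
  · rcases nc2 e with e | e | e
    · exact c1_d3 e.symm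
    · exact c3_d3 e.symm
    · exact s2.cd.ne e.symm
  · rcases ny e.symm with e | e | e
    · exact c3_d1 e
    · exact c3_d3 e
    · exact s1.da.ne e
  · rcases nx e with e | e | e
    · exact c1_d3 e.symm
    · exact c3_d3 e.symm
    · exact s2.da.ne e
  · rcases nd2 e.symm with e | e | e
    · exact c3_d1 e
    · exact c3_d3 e
    · exact s1.cd.ne e.symm
  · exact g.bip _ _ xy ((g.same s1.da.symm ta3.1).trans (e ▸ (g.same s2.da.symm tb3.1).symm))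
  · rcases nx e.1 with e | e | e
    · exact c1_d2 e.symm
    · exact c3_d2 e.symm
    · exact s2.ac e.symm
  · rcases nx e.1 with e | e | e
    · exact b3_c1 e
    · exact x4 (e ▸ tb3.1).symm
    · exact tb3.2.1 e
  · obtain ⟨z, hz, e⟩ := hZ.oa
    rcases nx e with rfl | rfl | rfl <;> exact hz (by simp [DQ])

end FZ
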