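import Pool.Agent.MP_cccb39_co.Fz.St

/-! Two squares joined through `p` and `t`, with a common neighbour of `c1` and `d1`. -/

namespace FZ

open Finset
open scoped Classical

theorem c9 : C9S := by
  intro V _ G col x c1 c2 c3 y d1 d2 d3 p t e g nd h ec ed ez
  obtain ⟨⟨⟨xc1, c12, c23, c3x, xc2, c13⟩, ⟨yd1, d12, d23, d3y, yd2, d13⟩, dis, z1, z2⟩,
    px, py, tc, td, np, nt⟩ := h
  simp only [mem_insert, mem_singleton, not_or] at np nt
  obtain ⟨p1, p2, p3, p4, p5, p6, p7, p8⟩ := np
  obtain ⟨t1, t2, t3, t4, t5, t6, t7, t8⟩ := nt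
  have xy : x ≠ y := dis x (by simp) y (by simp)
  have xd1 : x ≠ d1 := dis x (by simp) d1 (by simp)
  have xd2 : x ≠ d2 := dis x (by simp) d2 (by simp)
  have xd3 : x ≠ d3 := dis x (by simp) d3 (by simp)
  have c1y : c1 ≠ y := dis c1 (by simp) y (by simp)
  have c1d1 : c1 ≠ d1 := dis c1 (by simp) d1 (by simp)
  have c1d2 : c1 ≠ d2 := dis c1 (by simp) d2 (by simp)
  have c1d3 : c1 ≠ d3 := dis c1 (by simp) d3 (by simp)
  have c2y : c2 ≠ y := dis c2 (by simp) y (by simp)
  have c2d1 : c2 ≠ d1 := dis c2 (by simp) d1 (by simp)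
  have c2d2 : c2 ≠ d2 := dis c2 (by simp) d2 (by simp)
  have c2d3 : c2 ≠ d3 := dis c2 (by simp) d3 (by simp)
  have c3y : c3 ≠ y := dis c3 (by simp) y (by simp)
  have c3d1 : c3 ≠ d1 := dis c3 (by simp) d1 (by simp)
  have c3d2 : c3 ≠ d2 := dis c3 (by simp) d2 (by simp)
  have c3d3 : c3 ≠ d3 := dis c3 (by simp) d3 (by simp)
  have Nx : ∀ w, G.Adj x w → w = c1 ∨ w = c3 ∨ w = p := fun w hw =>
    g.nb3 xc1 c3x.symm px.symm c13 (Ne.symm p2) (Ne.symm p4) hw
  have Nc2 : ∀ w, G.Adj c2 w → w = c1 ∨ w = c3 ∨ w = t := fun w hw =>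
    g.nb3 c12.symm c23 tc.symm c13 (Ne.symm t2) (Ne.symm t4) hw
  have Ny : ∀ w, G.Adj y w → w = d1 ∨ w = d3 ∨ w = p := fun w hw =>
    g.nb3 yd1 d3y.symm py.symm d13 (Ne.symm p6) (Ne.symm p8) hw
  have Nd2 : ∀ w, G.Adj d2 w → w = d1 ∨ w = d3 ∨ w = t := fun w hw =>
    g.nb3 d12.symm d23 td.symm d13 (Ne.symm t6) (Ne.symm t8) hw
  have pt : p ≠ t := by
    rintro rfl
    rcases g.nb3 px py tc xy xc2 c2y.symm td with e | e | e
    · exact xd2 e.symm
    · exact yd2 e.symm
    · exact c2d2 e.symm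
  have ex : e ≠ x := by
    rintro rfl
    rcases Nx _ ed with e | e | e
    · exact c1d1 e.symm
    · exact c3d1 e.symm
    · exact p6 e.symm
  have ec2 : e ≠ c2 := by
    rintro rfl
    rcases Nc2 _ ed with e | e | e
    · exact c1d1 e.symm
    · exact c3d1 e.symm
    · exact t6 e.symm
  have ey : e ≠ y := by
    rintro rfl
    rcases Ny _ ec with e | e | e
    · exact c1d1 e
    · exact c1d3 e
    · exact p2 e.symm
  have ed2 : e ≠ d2 := by
    rintro rfl
    rcases Nd2 _ ec with e | e | e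
    · exact c1d1 e
    · exact c1d3 e
    · exact t2 e.symm
  have et : e ≠ t := by
    rintro rfl
    exact g.notri tc c12.symm ec
  have ec3 : c3 ≠ e := by
    rintro rfl
    exact g.notri c3x xc1 ec
  have pe : p ≠ e := by
    rintro rfl
    exact g.notri px xc1 ec
  have d3e : d3 ≠ e := by
    rintro rfl
    exact g.notri d3y yd1 ed
  have Nc1 : ∀ w, G.Adj c1 w → w = x ∨ w = c2 ∨ w = e := fun w hw =>
    g.nb3 xc1.symm c12 ec.symm xc2 ex.symm ec2.symm hw
  have npe : ¬ G.Adj p e := fun hpe =>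
    nd d3 y p d2 d1 e d3y py.symm d12.symm ed.symm d23.symm yd1 hpe (Ne.symm p8) ed2.symm
      d13.symm p6 yd2 ey.symm (z2 y (by simp)) (z2 d1 (by simp))
  have q1 : PS G (insert d2 {d1}) d2 d1 :=
    (PS.one G d1).ext d2 (by simpa using d12.ne.symm) d12.symm (by simp)
  have q2 : PS G (insert t (insert d2 {d1})) t d1 := by
    refine q1.ext t (by simp [t6, t7]) td ?_
    intro z hz hz'
    simp only [mem_insert, mem_singleton] at hz
    rcases hz with rfl | rfl
    · rfl
    · exact (g.notri td d12.symm hz').elim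
  have q3 : PS G (insert c2 (insert t (insert d2 {d1}))) c2 d1 := by
    refine q2.ext c2 (by simp [c2d1, c2d2, Ne.symm t3]) tc.symm ?_
    intro z hz hz'
    simp only [mem_insert, mem_singleton] at hz
    rcases Nc2 _ hz' with e | e | e
    · rcases hz with r | r | r
      · exact r
      · exact (c1d2 (e.symm.trans r)).elim
      · exact (c1d1 (e.symm.trans r)).elim
    · rcases hz with r | r | r
      · exact r
      · exact (c3d2 (e.symm.trans r)).elim
      · exact (c3d1 (e.symm.trans r)).elim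
    · exact e
  have q4 : PS G (insert c1 (insert c2 (insert t (insert d2 {d1})))) c1 d1 := by
    refine q3.ext c1 (by simp [c1d1, c1d2, Ne.symm t2, c12.ne]) c12 ?_
    intro z hz hz'
    simp only [mem_insert, mem_singleton] at hz
    rcases Nc1 _ hz' with k | k | k
    · rcases hz with r | r | r | r
      · exact r
      · exact (t1 (r.symm.trans k)).elim
      · exact (xd2 (k.symm.trans r)).elim
      · exact (xd1 (k.symm.trans r)).elim
    · exact k
    · rcases hz with r | r | r | r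
      · exact r
      · exact (et (k.symm.trans r)).elim
      · exact (ed2 (k.symm.trans r)).elim
      · exact (ed.ne (k.symm.trans r)).elim
  have q5 : PS G (insert x (insert c1 (insert c2 (insert t (insert d2 {d1}))))) x d1 := by
    refine q4.ext x (by simp [xd1, xd2, Ne.symm t1, xc1.ne, xc2]) xc1 ?_
    intro z hz hz'
    simp only [mem_insert, mem_singleton] at hz
    rcases Nx _ hz' with k | k | k
    · exact k
    · rcases hz with r | r | r | r | r
      · exact r
      · exact (c23.ne (r.symm.trans k)).elim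
      · exact (t4 (r.symm.trans k)).elim
      · exact (c3d2 (k.symm.trans r)).elim
      · exact (c3d1 (k.symm.trans r)).elim
    · rcases hz with r | r | r | r | r
      · exact r
      · exact (p3 (k.symm.trans r)).elim
      · exact (pt (k.symm.trans r)).elim
      · exact (p7 (k.symm.trans r)).elim
      · exact (p6 (k.symm.trans r)).elim
  refine ⟨x, d1, c3, e, c2, c1, ⟨_, p, y, ⟨q5, xd1, ?_, ?_, ?_, ?_, Ne.symm p4, ec3, c3y, pe, p5,
    ey, c3x.symm, px.symm, ed.symm, yd1.symm, ⟨c2, by simp, xc2.symm, c23.symm⟩,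
    ⟨c1, by simp, c1d1, ec⟩, ?_, ?_, ?_, fun k => npe k.2, ?_⟩, by simp, xc2.symm, c23.symm,
    by simp, c1d1, ec⟩, ?_⟩
  · simp [c3x.ne, c13.symm, c23.ne.symm, Ne.symm t4, c3d2, c3d1]
  · simp [p1, p2, p3, pt, p7, p6]
  · simp [ex, ec.ne, ec2, et, ed2, ed.ne]
  · simp [xy.symm, c1y.symm, c2y.symm, Ne.symm t5, yd2, yd1.ne]
  · intro u hu cu pu
    simp only [mem_insert, mem_singleton, not_or] at hu
    exact nd c1 x p c2 c3 u xc1.symm px.symm c23 cu c12 c3x.symm pu (Ne.symm p2)
      (Ne.symm hu.2.2.1) c13 p4 xc2 (Ne.symm hu.1) (z1 x (by simp)) (z1 c3 (by simp))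
  · intro u hu eu yu
    simp only [mem_insert, mem_singleton, not_or] at hu
    rcases Ny _ yu with k | k | k
    · exact hu.2.2.2.2.2 k
    · subst k
      exact g.k23 d13 yd1.symm d12 ed.symm d3y d23.symm eu.symm yd2 ey.symm ed2.symm
    · subst k
      exact npe eu.symm
  · rintro ⟨k, -⟩
    exact g.k23 c13 xc1.symm c12 ec.symm c3x c23.symm k xc2 ex.symm ec2.symm
  · intro Y T
    have h3 : d3 ∈ Y := by
      rcases T.clo y T.ms' d3 d3y.symm with k | ⟨k, -⟩
      · exact k
      · exfalso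
        revert k
        simp [xd3.symm, c1d3.symm, c2d3.symm, Ne.symm t8, d23.ne.symm, d13.symm]
    rcases T.clo d3 h3 d2 d23.symm with k | ⟨-, k | k | k | k⟩
    · exact disjoint_left.1 T.dis k (by simp)
    · exact c3d3 k.symm
    · exact p8 k.symm
    · exact d3e k
    · exact d3y.ne k
  · simp only [mem_insert, mem_singleton, not_or]
    exact ⟨(z1 x (by simp)).symm, (z2 d1 (by simp)).symm, (z1 c3 (by simp)).symm, ez.symm,
      (z1 c2 (by simp)).symm, (z1 c1 (by simp)).symm⟩

end FZ
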