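import Pool.Agent.MP_cccb39_co.Fz.St

/-! Two disjoint cubes with a corner removed. -/

namespace FZ

open Finset
open scoped Classical

section
variable {V : Type} [Fintype V] {G : SimpleGraph V} {col : V → Bool}
  {u1 u2 u3 m12 m13 m23 o v1 v2 v3 : V}

private theorem cc_in (g : Cb G col) (h : CE G u1 u2 u3 m12 m13 m23 o v1 v2 v3) {z w : V}
    (hz : z = o ∨ z = m12 ∨ z = m13 ∨ z = m23) (hw : G.Adj z w) :
    (w = u1 ∨ w = u2 ∨ w = u3) ∨ w = o ∨ w = m12 ∨ w = m13 ∨ w = m23 := by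
  have nd := h.nd
  simp only [List.nodup_cons, List.mem_cons, List.not_mem_nil, not_or] at nd
  obtain ⟨⟨a1, a2, a3, -⟩, ⟨b1, b2, -⟩, ⟨c1, -⟩, -, ⟨d1, d2, -⟩, ⟨e1, -⟩, -⟩ := nd
  rcases hz with rfl | rfl | rfl | rfl
  · rcases g.nb3 h.oa h.ob h.oc d1 d2 e1 hw with k | k | k <;> simp [k]
  · rcases g.nb3 h.a1.symm h.a2.symm h.oa.symm a1 a3 b2 hw with k | k | k <;> simp [k]
  · rcases g.nb3 h.b1.symm h.b3.symm h.ob.symm a2 a3 c1 hw with k | k | k <;> simp [k]
  · rcases g.nb3 h.c2.symm h.c3.symm h.oc.symm b1 b2 c1 hw with k | k | k <;> simp [k]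

private theorem cc_full (g : Cb G col) (hc : Conn G) (h : CE G u1 u2 u3 m12 m13 m23 o v1 v2 v3)
    (e2 : v2 = v1) (e3 : v3 = v1) (x : V) :
    x = v1 ∨ x ∈ ({u1, u2, u3, o, m12, m13, m23} : Finset V) := by
  have nd := h.nd
  have n1 := h.n1
  simp only [List.nodup_cons, List.mem_cons, List.not_mem_nil, not_or] at nd
  simp only [mem_insert, mem_singleton, not_or] at n1
  obtain ⟨⟨a1, a2, -⟩, ⟨b1, -⟩, -, -, ⟨d1, d2, -⟩, ⟨e1, -⟩, -⟩ := nd
  obtain ⟨-, -, -, -, f1, f2, f3⟩ := n1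
  have k2 : G.Adj u2 v1 := e2 ▸ h.e2
  have k3 : G.Adj u3 v1 := e3 ▸ h.e3
  have hu := hc (insert v1 {u1, u2, u3, o, m12, m13, m23}) (insert_nonempty _ _) (by
    intro z hz w _ hw
    simp only [mem_insert, mem_singleton] at hz ⊢
    rcases hz with r | r | r | r | r
    · rcases g.nb3 h.e1.symm k2.symm k3.symm a1 a2 b1 (r ▸ hw) with k | k | k <;> simp [k]
    · rcases g.nb3 h.a1 h.b1 h.e1 d1 (Ne.symm f1) (Ne.symm f2) (r ▸ hw) with k | k | k <;> simp [k]
    · rcases g.nb3 h.a2 h.c2 k2 d2 (Ne.symm f1) (Ne.symm f3) (r ▸ hw) with k | k | k <;> simp [k]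
    · rcases g.nb3 h.b3 h.c3 k3 e1 (Ne.symm f2) (Ne.symm f3) (r ▸ hw) with k | k | k <;> simp [k]
    · rcases cc_in g h r hw with (k | k | k) | k | k | k | k <;> simp [k])
  have hx : x ∈ (insert v1 {u1, u2, u3, o, m12, m13, m23} : Finset V) := hu ▸ mem_univ x
  exact mem_insert.1 hx

private theorem cc_c12 (a b c : V) : ({b, a, c} : Finset V) = {a, b, c} := insert_comm _ _ _

private theorem cc_c23 (a b c : V) : ({a, c, b} : Finset V) = {a, b, c} := by
  rw [pair_comm c b]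

private theorem cc_first (h : CE G u1 u2 u3 m12 m13 m23 o v1 v2 v3) (hn : ¬ (v2 = v1 ∧ v3 = v1)) :
    ∃ a2 a3 n12 n13 n23 w1 w2 w3, CE G u1 a2 a3 n12 n13 n23 o w1 w2 w3 ∧
      ({u1, a2, a3} : Finset V) = {u1, u2, u3} ∧ ({n12, n13, n23} : Finset V) = {m12, m13, m23} ∧
      w3 ≠ w1 := by
  by_cases e : v3 = v1
  · exact ⟨u3, u2, m13, m12, m23, v1, v3, v2, h.sw23, cc_c23 _ _ _, cc_c12 _ _ _,
      fun k => hn ⟨k, e⟩⟩
  · exact ⟨u2, u3, m12, m13, m23, v1, v2, v3, h, rfl, rfl, e⟩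

private theorem cc_rel (h : CE G u1 u2 u3 m12 m13 m23 o v1 v2 v3) (hn : ¬ (v2 = v1 ∧ v3 = v1))
    {a : V} (ha : a ∈ ({u1, u2, u3} : Finset V)) :
    ∃ a2 a3 n12 n13 n23 w1 w2 w3, CE G a a2 a3 n12 n13 n23 o w1 w2 w3 ∧
      ({a, a2, a3} : Finset V) = {u1, u2, u3} ∧ ({n12, n13, n23} : Finset V) = {m12, m13, m23} ∧
      w3 ≠ w1 := by
  simp only [mem_insert, mem_singleton] at ha
  rcases ha with rfl | rfl | rfl
  · exact cc_first h hn
  · obtain ⟨a2, a3, n12, n13, n23, w1, w2, w3, k, k1, k2, k3⟩ :=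
      cc_first h.sw12 fun k => hn ⟨k.1.symm, k.2.trans k.1.symm⟩
    exact ⟨a2, a3, n12, n13, n23, w1, w2, w3, k, k1.trans (cc_c12 _ _ _),
      k2.trans (cc_c23 _ _ _), k3⟩
  · obtain ⟨a2, a3, n12, n13, n23, w1, w2, w3, k, k1, k2, k3⟩ :=
      cc_first h.sw23.sw12 fun k => hn ⟨k.2.trans k.1.symm, k.1.symm⟩
    exact ⟨a2, a3, n12, n13, n23, w1, w2, w3, k, k1.trans ((cc_c12 _ _ _).trans (cc_c23 _ _ _)),
      k2.trans ((cc_c23 _ _ _).trans (cc_c12 _ _ _)), k3⟩

private theorem cc_s7 (a b c o d e f : V) :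
    ({a, b, c, o, d, e, f} : Finset V) = {a, b, c} ∪ insert o {d, e, f} := by
  ext x
  simp only [mem_insert, mem_singleton, mem_union, or_assoc]

private theorem cc_s8 (o d e f o' d' e' f' : V) :
    ({o, d, e, f, o', d', e', f'} : Finset V) = insert o {d, e, f} ∪ insert o' {d', e', f'} := by
  ext x
  simp only [mem_insert, mem_singleton, mem_union, or_assoc]

end

theorem cc (h1 : SpS) (h2 : CCsS) : CCS := by
  intro V _ G col u1 u2 u3 m12 m13 m23 o v1 v2 v3 u1' u2' u3' m12' m13' m23' o' v1' v2' v3' g hc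
    h h' dis
  have dl := disjoint_left.1 dis
  have dr := disjoint_right.1 dis
  have nd := h.nd
  have nd' := h'.nd
  simp only [List.nodup_cons, List.mem_cons, List.not_mem_nil, not_or] at nd nd'
  have hn : ¬ (v2 = v1 ∧ v3 = v1) := by
    rintro ⟨e2, e3⟩
    rcases cc_full g hc h e2 e3 u1' with k | k
    · rcases cc_full g hc h e2 e3 u2' with k' | k'
      · exact nd'.1.1 (k.trans k'.symm)
      · exact dl k' (by simp)
    · exact dl k (by simp)
  have hn' : ¬ (v2' = v1' ∧ v3' = v1') := by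
    rintro ⟨e2, e3⟩
    rcases cc_full g hc h' e2 e3 u1 with k | k
    · rcases cc_full g hc h' e2 e3 u2 with k' | k'
      · exact nd.1.1 (k.trans k'.symm)
      · exact dr k' (by simp)
    · exact dr k (by simp)
  obtain ⟨⟨-, -, a3, a4, a5, a6, -⟩, ⟨-, b2, b3, b4, b5, -⟩, ⟨c1, c2, c3, c4, -⟩, -⟩ := nd
  obtain ⟨⟨-, -, a3', a4', a5', a6', -⟩, ⟨-, b2', b3', b4', b5', -⟩, ⟨c1', c2', c3', c4', -⟩, -⟩ :=
    nd'
  have hA : ({u1, u2, u3} : Finset V) ⊆
      ({o, m12, m13, m23, o', m12', m13', m23'} : Finset V)ᶜ := by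
    intro x hx
    have hx7 : x ∈ ({u1, u2, u3, o, m12, m13, m23} : Finset V) := by
      rw [cc_s7]
      exact mem_union_left _ hx
    have hd := dl hx7
    simp only [mem_insert, mem_singleton, not_or] at hd hx
    simp only [mem_compl, mem_insert, mem_singleton, not_or]
    obtain ⟨-, -, -, d1, d2, d3, d4⟩ := hd
    rcases hx with rfl | rfl | rfl
    · exact ⟨a3, a4, a5, a6, d1, d2, d3, d4⟩
    · exact ⟨b2, b3, b4, b5, d1, d2, d3, d4⟩
    · exact ⟨c1, c2, c3, c4, d1, d2, d3, d4⟩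
  have hB : ({u1', u2', u3'} : Finset V) ⊆
      ({o, m12, m13, m23, o', m12', m13', m23'} : Finset V)ᶜ := by
    intro x hx
    have hx7 : x ∈ ({u1', u2', u3', o', m12', m13', m23'} : Finset V) := by
      rw [cc_s7]
      exact mem_union_left _ hx
    have hd := dr hx7
    simp only [mem_insert, mem_singleton, not_or] at hd hx
    simp only [mem_compl, mem_insert, mem_singleton, not_or]
    obtain ⟨-, -, -, d1, d2, d3, d4⟩ := hd
    rcases hx with rfl | rfl | rfl
    · exact ⟨d1, d2, d3, d4, a3', a4', a5', a6'⟩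
    · exact ⟨d1, d2, d3, d4, b2', b3', b4', b5'⟩
    · exact ⟨d1, d2, d3, d4, c1', c2', c3', c4'⟩
  obtain ⟨R, a, b, sp⟩ := h1 V G _ _ _ hA hB (by
    intro Y hAY hYW hY
    by_contra hno
    have hu := hc (Y ∪ {o, m12, m13, m23}) ⟨u1, mem_union_left _ (hAY (by simp))⟩ (by
      intro z hz w _ hw
      rcases mem_union.1 hz with r | r
      · by_cases hW : w ∈ ({o, m12, m13, m23, o', m12', m13', m23'} : Finset V)ᶜ
        · exact mem_union_left _ (hY z r w hW hw)
        · rw [mem_compl, not_not, cc_s8] at hW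
          rcases mem_union.1 hW with k | k
          · exact mem_union_right _ k
          · exfalso
            simp only [mem_insert, mem_singleton] at k
            rcases cc_in g h' k hw.symm with q | q
            · exact hno ⟨z, by simpa using q, r⟩
            · have := hYW r
              rw [mem_compl, cc_s8] at this
              exact this (mem_union_right _ (by simpa using q))
      · simp only [mem_insert, mem_singleton] at r
        rcases cc_in g h r hw with q | q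
        · exact mem_union_left _ (hAY (by simpa using q))
        · exact mem_union_right _ (by simpa using q))
    have hx : u1' ∈ Y ∪ {o, m12, m13, m23} := hu ▸ mem_univ u1'
    rcases mem_union.1 hx with k | k
    · exact hno ⟨u1', by simp, k⟩
    · refine dl (a := u1') ?_ (by simp)
      rw [cc_s7]
      exact mem_union_right _ k)
  obtain ⟨a2, a3, n12, n13, n23, w1, w2, w3, k, k1, k2, k3⟩ := cc_rel h hn sp.ma
  obtain ⟨b2, b3, n12', n13', n23', w1', w2', w3', l, l1, l2, l3⟩ := cc_rel h' hn' sp.mb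
  refine h2 V G col R _ _ _ _ _ _ _ _ _ _ _ _ _ _ _ _ _ _ _ _ g hc k l ?_ ?_ k3 l3
  · rw [cc_s7, cc_s7, k1, k2, l1, l2, ← cc_s7, ← cc_s7]
    exact dis
  · rw [cc_s8, k1, k2, l1, l2, ← cc_s8]
    exact sp

end FZ
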