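import Pool.Agent.MP_cccb39_co.Fz.St

namespace FZ

open Finset
open scoped Classical

theorem ccb (h : CCgS) : CCbS := by
  intro V _ G col u1 u2 u3 m12 m13 m23 o p t v3 u1' u2' u3' m12' m13' m23' o' v1' v2' v3' hc hn A B
    hd e1 e2 e3 e4
  subst e1 e2 e3 e4
  have nd := A.nd
  have nd' := B.nd
  have n2 := A.n2
  have n1' := B.n1
  have n3' := B.n3
  have dl := disjoint_left.1 hd
  have dr := disjoint_right.1 hd
  have d1 := @dl u1 (by simp)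
  have d2 := @dl u2 (by simp)
  have d3 := @dl u3 (by simp)
  have d4 := @dl o (by simp)
  have d5 := @dl m12 (by simp)
  have d6 := @dl m13 (by simp)
  have d7 := @dl m23 (by simp)
  have d8 := @dr u3' (by simp)
  simp only [List.nodup_cons, List.mem_cons, List.not_mem_nil, not_or, or_false, mem_insert,
    mem_singleton, List.nodup_nil, and_true, not_false_eq_true] at nd nd' n2 n1' n3' d1 d2 d3 d4 d5 d6 d7 d8
  have tu : G.Adj t u3' := B.e3.symm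
  have pt : p ≠ t := by
    rintro rfl
    rcases hc.nb3 A.e1.symm B.e1.symm B.e2.symm d1.1 d1.2.1 nd'.1.1 A.e2.symm with e | e | e
    · exact nd.1.1 e.symm
    · exact d2.1 e
    · exact d2.2.1 e
  obtain ⟨⟨a1, a2, a3, a4, a5, a6⟩, ⟨b1, b2, b3, b4, b5⟩, ⟨c1, c2, c3, c4⟩, ⟨f1, f2, f3⟩,
    ⟨g1, g2⟩, g3⟩ := nd
  obtain ⟨t1, t2, t3, t4, t5, t6, t7⟩ := n2
  have A' : CE G t m12 m13 u2 u3 o m23 u3' u1 u1 := by
    have k : u1 ∉ ({t, m12, m13, m23, u2, u3, o} : Finset V) := by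
      simp only [mem_insert, mem_singleton, not_or]
      exact ⟨Ne.symm t1, a4, a5, a6, a1, a2, a3⟩
    refine ⟨A.e2.symm, A.a2.symm, A.e3.symm, A.b3.symm, A.oa.symm, A.ob.symm, A.c2.symm,
      A.c3.symm, A.oc.symm, tu, A.a1.symm, A.b1.symm, ?_, ?_, k, k⟩
    · simp only [List.nodup_cons, List.mem_cons, List.not_mem_nil, not_or, or_false,
        List.nodup_nil, and_true, not_false_eq_true]
      exact ⟨⟨t5, t6, t7, t2, t3, t4⟩, ⟨g1, g2, Ne.symm b3, Ne.symm c2, Ne.symm f1⟩,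
        ⟨g3, Ne.symm b4, Ne.symm c3, Ne.symm f2⟩, ⟨Ne.symm b5, Ne.symm c4, Ne.symm f3⟩,
        ⟨b1, b2⟩, c1⟩
    · simp only [mem_insert, mem_singleton, not_or]
      exact ⟨tu.ne', d8.2.2.2.2.1, d8.2.2.2.2.2.1, d8.2.2.2.2.2.2, d8.2.1, d8.2.2.1, d8.2.2.2.1⟩
  have B' := B.sw12.sw23.sw12
  have k : ∀ z : V, (z ≠ u1' ∧ z ≠ u2' ∧ z ≠ u3' ∧ z ≠ o' ∧ z ≠ m12' ∧ z ≠ m13' ∧ z ≠ m23') →
      z ∉ ({u3', u2', u1', o', m23', m13', m12'} : Finset V) := by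
    rintro z ⟨z1, z2, z3, z4, z5, z6, z7⟩
    simp only [mem_insert, mem_singleton, not_or]
    exact ⟨z3, z2, z1, z4, z7, z6, z5⟩
  refine h V G col (insert t {u3'}) _ _ _ _ _ _ _ _ _ _ _ _ _ _ _ _ _ _ _ _ hc hn A' B' ?_
    ((PS.one G u3').ext t (by simpa using tu.ne) tu fun x hx _ => by simpa using hx) ?_ ?_ ?_ ?_
    d1.1 A.e1.ne
  · refine disjoint_left.2 fun z hz => ?_
    simp only [mem_insert, mem_singleton] at hz
    rcases hz with e | e | e | e | e | e | e <;> rw [e]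
    exacts [k _ n3', k _ d5, k _ d6, k _ d7, k _ d2, k _ d3, k _ d4]
  · intro z hz
    simp only [mem_insert, mem_singleton, not_or] at hz ⊢
    rcases hz with e | e <;> rw [e]
    · exact ⟨t5, t6, t7, t2, t3, t4⟩
    · exact ⟨d8.2.2.2.2.1, d8.2.2.2.2.2.1, d8.2.2.2.2.2.2, d8.2.1, d8.2.2.1, d8.2.2.2.1⟩
  · intro z hz
    simp only [mem_insert, mem_singleton, not_or] at hz ⊢
    rcases hz with e | e <;> rw [e]
    · exact ⟨n3'.2.1, n3'.1, n3'.2.2.2.1, n3'.2.2.2.2.2.2, n3'.2.2.2.2.2.1, n3'.2.2.2.2.1⟩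
    · exact ⟨Ne.symm nd'.2.1.1, Ne.symm nd'.1.2.1, nd'.2.2.1.1, nd'.2.2.1.2.2.2,
        nd'.2.2.1.2.2.1, nd'.2.2.1.2.1⟩
  · simp only [mem_insert, mem_singleton, not_or]
    exact ⟨Ne.symm t1, d1.2.2.1⟩
  · simp only [mem_insert, mem_singleton, not_or]
    exact ⟨pt, n1'.2.2.1⟩

end FZ
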