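import Pool.Agent.MP_cccb39_co.Fz.St

/-! Two disjoint cube ends joined by an induced path give a good configuration. -/

namespace FZ

open Finset
open scoped Classical

variable {V : Type} [Fintype V] {G : SimpleGraph V} {col : V → Bool}
  {u1 u2 u3 m12 m13 m23 o v1 v2 v3 : V}

theorem ccg_nb (g : Cb G col) (h : CE G u1 u2 u3 m12 m13 m23 o v1 v2 v3) :
    (∀ w, G.Adj m12 w → w = u1 ∨ w = u2 ∨ w = o) ∧ (∀ w, G.Adj m13 w → w = u1 ∨ w = u3 ∨ w = o) ∧
    (∀ w, G.Adj m23 w → w = u2 ∨ w = u3 ∨ w = o) ∧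
    (∀ w, G.Adj o w → w = m12 ∨ w = m13 ∨ w = m23) ∧
    (∀ w, G.Adj u3 w → w = m13 ∨ w = m23 ∨ w = v3) := by
  have nd := h.nd
  have n3 := h.n3
  simp only [List.nodup_cons, List.mem_cons, List.not_mem_nil, not_or, mem_insert,
    mem_singleton] at nd n3
  obtain ⟨⟨a1, a2, a3, -⟩, ⟨b1, b2, -⟩, ⟨c1, -⟩, -, ⟨d1, d2, -⟩, ⟨e1, -⟩, -⟩ := nd
  obtain ⟨-, -, -, -, -, f1, f2⟩ := n3
  exact ⟨fun w hw => g.nb3 h.a1.symm h.a2.symm h.oa.symm a1 a3 b2 hw,
    fun w hw => g.nb3 h.b1.symm h.b3.symm h.ob.symm a2 a3 c1 hw,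
    fun w hw => g.nb3 h.c2.symm h.c3.symm h.oc.symm b1 b2 c1 hw,
    fun w hw => g.nb3 h.oa h.ob h.oc d1 d2 e1 hw,
    fun w hw => g.nb3 h.b3 h.c3 h.e3 e1 (Ne.symm f1) (Ne.symm f2) hw⟩

theorem ccg_out (g : Cb G col) (h : CE G u1 u2 u3 m12 m13 m23 o v1 v2 v3) {w x : V}
    (hw : w ∉ ({u1, u2, u3, o, m12, m13, m23} : Finset V)) (a : G.Adj w x) :
    x ≠ m12 ∧ x ≠ m13 ∧ x ≠ m23 ∧ x ≠ o ∧ (x = u3 → w = v3) := by
  obtain ⟨N1, N2, N3, N4, N5⟩ := ccg_nb g h
  simp only [mem_insert, mem_singleton, not_or] at hw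
  obtain ⟨w1, w2, w3, w4, w5, w6, w7⟩ := hw
  refine ⟨?_, ?_, ?_, ?_, ?_⟩ <;> rintro rfl
  · rcases N1 _ a.symm with e | e | e <;> contradiction
  · rcases N2 _ a.symm with e | e | e <;> contradiction
  · rcases N3 _ a.symm with e | e | e <;> contradiction
  · rcases N4 _ a.symm with e | e | e <;> contradiction
  · rcases N5 _ a.symm with e | e | e
    · contradiction
    · contradiction
    · exact e

theorem ccg_ext (g : Cb G col) (h : CE G u1 u2 u3 m12 m13 m23 o v1 v2 v3) {R : Finset V} {b : V}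
    (p : PS G R u1 b) (hR : ∀ z ∈ R, z ∉ ({u2, u3, o, m12, m13, m23} : Finset V)) (hv : v3 ∉ R) :
    PS G (insert u3 (insert m23 (insert o (insert m12 R)))) u3 b := by
  obtain ⟨N1, -, N3, N4, N5⟩ := ccg_nb g h
  have r1 : u2 ∉ R := fun e => hR _ e (by simp)
  have r2 : u3 ∉ R := fun e => hR _ e (by simp)
  have r3 : o ∉ R := fun e => hR _ e (by simp)
  have r4 : m12 ∉ R := fun e => hR _ e (by simp)
  have r5 : m13 ∉ R := fun e => hR _ e (by simp)
  have r6 : m23 ∉ R := fun e => hR _ e (by simp)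
  have nd := h.nd
  have n3 := h.n3
  simp only [List.nodup_cons, List.mem_cons, List.not_mem_nil, not_or, mem_insert,
    mem_singleton] at nd n3
  obtain ⟨-, ⟨-, b2, b3, -⟩, ⟨c1, c2, -, c4, -⟩, ⟨o1, o2, o3, -⟩, ⟨d1, d2, -⟩, ⟨e1, -⟩, -⟩ := nd
  obtain ⟨-, -, -, f0, f1, -, f3⟩ := n3
  have p1 := p.ext m12 r4 h.a1.symm (by
    intro x hx ha
    rcases N1 _ ha with e | e | e
    · exact e
    · exact absurd (e ▸ hx) r1
    · exact absurd (e ▸ hx) r3)
  have p2 := p1.ext o (by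
      simp only [mem_insert, not_or]
      exact ⟨o1, r3⟩) h.oa (by
    intro x hx ha
    rcases mem_insert.1 hx with k | k
    · exact k
    rcases N4 _ ha with e | e | e
    · exact e
    · exact absurd (e ▸ k) r5
    · exact absurd (e ▸ k) r6)
  have p3 := p2.ext m23 (by
      simp only [mem_insert, not_or]
      exact ⟨Ne.symm o3, Ne.symm d2, r6⟩) h.oc.symm (by
    intro x hx ha
    simp only [mem_insert] at hx
    rcases N3 _ ha with e | e | e
    · subst e
      rcases hx with k | k | k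
      · exact k
      · exact absurd k b3
      · exact absurd k r1
    · subst e
      rcases hx with k | k | k
      · exact k
      · exact absurd k c2
      · exact absurd k r2
    · exact e)
  exact p3.ext u3 (by
      simp only [mem_insert, not_or]
      exact ⟨c4, c1, c2, r2⟩) h.c3 (by
    intro x hx ha
    simp only [mem_insert] at hx
    rcases N5 _ ha with e | e | e
    · subst e
      rcases hx with k | k | k | k
      · exact k
      · exact absurd k.symm o2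
      · exact absurd k.symm d1
      · exact absurd k r5
    · exact e
    · subst e
      rcases hx with k | k | k | k
      · exact k
      · exact absurd k f0
      · exact absurd k f1
      · exact absurd k hv)

theorem ccg : CCgS := by
  intro V _ G col R u1 u2 u3 m12 m13 m23 o v1 v2 v3 u1' u2' u3' m12' m13' m23' o' v1' v2' v3'
    g hc h h' dis p hR hR' hv hv' k1 k2
  have D : ∀ x, x ∈ ({u1, u2, u3, o, m12, m13, m23} : Finset V) →
      x ∉ ({u1', u2', u3', o', m12', m13', m23'} : Finset V) := fun x hx => disjoint_left.1 dis hx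
  have D' : ∀ x, x ∈ ({u1', u2', u3', o', m12', m13', m23'} : Finset V) →
      x ∉ ({u1, u2, u3, o, m12, m13, m23} : Finset V) := fun x hx => disjoint_right.1 dis hx
  obtain ⟨x1, x2, x3, x4, x5⟩ := ccg_out g h (D' u3' (by simp)) h'.e3
  obtain ⟨y1, y2, y3, y4, -⟩ := ccg_out g h' (D u3 (by simp)) h.e3
  have p1 := ccg_ext g h p hR hv
  have hv1 : v3' ∉ insert u3 (insert m23 (insert o (insert m12 R))) := by
    simp only [mem_insert, not_or]
    exact ⟨fun e => k1 (x5 e).symm, x3, x4, x1, hv'⟩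
  have p2 := ccg_ext g h' p1.swap (by
    intro z hz hz'
    have hz2 : z ∈ ({u1', u2', u3', o', m12', m13', m23'} : Finset V) := mem_insert_of_mem hz'
    simp only [mem_insert] at hz
    rcases hz with e | e | e | e | e
    · exact D z (by simp [e]) hz2
    · exact D z (by simp [e]) hz2
    · exact D z (by simp [e]) hz2
    · exact D z (by simp [e]) hz2
    · exact hR' z e hz') hv1
  obtain ⟨-, N, -⟩ := ccg_nb g h
  obtain ⟨-, N', -⟩ := ccg_nb g h'
  have nd := h.nd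
  have n3 := h.n3
  have nd' := h'.nd
  have n3' := h'.n3
  have z1 := D m13 (by simp)
  have z2 := D' m13' (by simp)
  have z3 := D u3 (by simp)
  simp only [List.nodup_cons, List.mem_cons, List.not_mem_nil, not_or, mem_insert,
    mem_singleton] at nd n3 nd' n3' z1 z2 z3
  obtain ⟨-, -, ⟨c1, -, c3, -⟩, ⟨-, o2, -⟩, ⟨d1, -⟩, ⟨e1, -⟩, -⟩ := nd
  obtain ⟨-, -, ⟨c1', -, c3', -⟩, ⟨-, o2', -⟩, ⟨d1', -⟩, ⟨e1', -⟩, -⟩ := nd'
  obtain ⟨-, -, f3, f4, f5, f6, f7⟩ := n3
  obtain ⟨-, -, f3', f4', f5', f6', f7'⟩ := n3'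
  generalize hQ : insert u3' (insert m23' (insert o' (insert m12'
    (insert u3 (insert m23 (insert o (insert m12 R))))))) = Q at p2
  have mQ : ∀ z, z ∈ Q ↔ z = u3' ∨ z = m23' ∨ z = o' ∨ z = m12' ∨ z = u3 ∨ z = m23 ∨ z = o ∨
      z = m12 ∨ z ∈ R := fun z => by
    rw [← hQ]
    simp only [mem_insert]
  have A : ∀ t, G.Adj m13 t → t ∈ Q := fun t a => by
    rcases N t a with e | e | e <;> simp [mQ, e, p.m1]
  have A' : ∀ t, G.Adj m13' t → t ∈ Q := fun t a => by
    rcases N' t a with e | e | e <;> simp [mQ, e, p.m2]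
  have ns : m13' ∉ Q := by
    simp only [mQ, not_or]
    exact ⟨Ne.symm c3', e1', Ne.symm o2', Ne.symm d1', z2.2.2.1, z2.2.2.2.2.2.2, z2.2.2.2.1,
      z2.2.2.2.2.1, fun e => hR' _ e (by simp)⟩
  have ns' : v3' ∉ Q := by
    simp only [mem_insert, not_or] at hv1
    simp only [mQ, not_or]
    exact ⟨f3', f7', f4', f5', hv1⟩
  refine ⟨Q, u3, u3', m13, v3, m13', v3', p2.swap, z3.2.2.1, ?_, ?_, ns, ns', Ne.symm f6,
    z1.2.2.2.2.2.1, Ne.symm x2, y2, k2, Ne.symm f6', h.b3, h.e3, h'.b3, h'.e3,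
    ⟨o, by simp [mQ], Ne.symm c1, h.ob.symm⟩, ⟨o', by simp [mQ], Ne.symm c1', h'.ob.symm⟩,
    fun t ht a => absurd (A t a) ht, fun t ht a => absurd (A' t a) ht,
    fun k => ns (A _ k.1), fun k => ns' (A _ k.1), ?_⟩
  · simp only [mQ, not_or]
    exact ⟨z1.2.2.1, z1.2.2.2.2.2.2, z1.2.2.2.1, z1.2.2.2.2.1, Ne.symm c3, e1, Ne.symm o2,
      Ne.symm d1, fun e => hR _ e (by simp)⟩
  · simp only [mQ, not_or]
    exact ⟨k1, y3, y4, y1, f3, f7, f4, f5, hv⟩
  · intro Y B
    have a1 : m13 ∉ Y := fun e => by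
      obtain ⟨x, hx, a⟩ := (B.fa e).1
      exact hx (A x a)
    have a2 : m13' ∉ Y := fun e => by
      obtain ⟨x, hx, a⟩ := (B.fs e).1
      exact hx (A' x a)
    have hY : Y = univ := hc Y B.ne (by
      intro z hz v _ a
      by_cases hq : v ∈ Q
      · rcases B.cl2 z hz v hq a with e | e | e | e
        · exact absurd (e ▸ hz) a1
        · exact absurd (B.ia.2 (e ▸ hz)) a1
        · exact absurd (e ▸ hz) a2
        · exact absurd (B.is.2 (e ▸ hz)) a2
      · exact B.cl1 z hz v a hq)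
    exact a1 (hY ▸ mem_univ _)

end FZ
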