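import Pool.Agent.MP_cccb39_co.Fz.St

/-! Two cube ends joined by a shortest path: reduction to the generic and the special case. -/

set_option linter.unusedSectionVars false

namespace FZ

open Finset
open scoped Classical

section
variable {V : Type} [Fintype V] {G : SimpleGraph V} {col : V → Bool}
  {u1 u2 u3 m12 m13 m23 o v1 v2 v3 : V}

theorem ccs_n1 (g : Cb G col) (h : CE G u1 u2 u3 m12 m13 m23 o v1 v2 v3) {x : V}
    (hx : G.Adj u1 x) : x = m12 ∨ x = m13 ∨ x = v1 := by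
  have nd := h.nd
  have n1 := h.n1
  simp only [List.nodup_cons, List.mem_cons, List.not_mem_nil, not_or, mem_insert,
    mem_singleton] at nd n1
  exact g.nb3 h.a1 h.b1 h.e1 (by tauto) (fun e => by simp [e] at n1) (fun e => by simp [e] at n1) hx

theorem ccs_n3 (g : Cb G col) (h : CE G u1 u2 u3 m12 m13 m23 o v1 v2 v3) {x : V}
    (hx : G.Adj u3 x) : x = m23 ∨ x = m13 ∨ x = v3 := ccs_n1 g h.sw12.sw23.sw12 hx

theorem ccs_ne (h : CE G u1 u2 u3 m12 m13 m23 o v1 v2 v3) : u1 ≠ u2 ∧ u1 ≠ u3 ∧ u2 ≠ u3 := by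
  have nd := h.nd
  simp only [List.nodup_cons, List.mem_cons, List.not_mem_nil, not_or] at nd
  tauto

theorem ccs_e23 (u1 u2 u3 o m12 m13 m23 : V) :
    ({u1, u3, u2, o, m13, m12, m23} : Finset V) = {u1, u2, u3, o, m12, m13, m23} := by
  ext; simp; tauto

theorem ccs_e13 (u1 u2 u3 o m12 m13 m23 : V) :
    ({u3, u2, u1, o, m23, m13, m12} : Finset V) = {u1, u2, u3, o, m12, m13, m23} := by
  ext; simp; tauto

theorem ccs_f23 (u2 u3 o m12 m13 m23 : V) :
    ({u3, u2, o, m13, m12, m23} : Finset V) = {u2, u3, o, m12, m13, m23} := by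
  ext; simp; tauto

theorem ccs_av (h : CE G u1 u2 u3 m12 m13 m23 o v1 v2 v3) {R : Finset V}
    (hs : ∀ z ∈ R, z ≠ o ∧ z ≠ m12 ∧ z ≠ m13 ∧ z ≠ m23)
    (hu : ∀ x ∈ R, x ∈ ({u1, u2, u3} : Finset V) → x = u1) :
    ∀ z ∈ R, z ∉ ({u2, u3, o, m12, m13, m23} : Finset V) := by
  intro z hz hm
  obtain ⟨a, b, _⟩ := ccs_ne h
  obtain ⟨s1, s2, s3, s4⟩ := hs z hz
  simp only [mem_insert, mem_singleton] at hm
  rcases hm with e | e | e | e | e | e
  · exact a ((hu z hz (by simp [e])).symm.trans e)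
  · exact b ((hu z hz (by simp [e])).symm.trans e)
  · exact s1 e
  · exact s2 e
  · exact s3 e
  · exact s4 e

theorem ccs_out (g : Cb G col) (h : CE G u1 u2 u3 m12 m13 m23 o v1 v2 v3) {R : Finset V}
    (hj : ∀ a' ∈ ({u1, u2, u3} : Finset V), ∀ x ∈ R, G.Adj a' x → x = u1 ∨ G.Adj u1 x)
    {u v : V} (hu : u ∈ ({u1, u2, u3} : Finset V)) (huv : G.Adj u v)
    (hv : v ∉ ({u1, u2, u3, o, m12, m13, m23} : Finset V)) (hne : v ≠ v1) : v ∉ R := by
  intro hR
  rcases hj u hu v hR huv with e | e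
  · exact hv (by simp [e])
  · rcases ccs_n1 g h e with e | e | e
    · exact hv (by simp [e])
    · exact hv (by simp [e])
    · exact hne e

end

theorem ccs (h1 : CCgS) (h2 : CCbS) : CCsS := by
  intro V _ G col R u1 u2 u3 m12 m13 m23 o v1 v2 v3 u1' u2' u3' m12' m13' m23' o' v1' v2' v3'
    g hc h h' hd sp d3 d3'
  have hW : ∀ z ∈ ({o, m12, m13, m23, o', m12', m13', m23'} : Finset V)ᶜ,
      (z ≠ o ∧ z ≠ m12 ∧ z ≠ m13 ∧ z ≠ m23) ∧ (z ≠ o' ∧ z ≠ m12' ∧ z ≠ m13' ∧ z ≠ m23') := by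
    intro z hz
    simp only [mem_compl, mem_insert, mem_singleton, not_or] at hz
    tauto
  have av := ccs_av h (fun z hz => (hW z (sp.sub hz)).1) sp.ua
  have av' := ccs_av h' (fun z hz => (hW z (sp.sub hz)).2) sp.ub
  have o2 : v2 ≠ v1 → v2 ∉ R := ccs_out g h sp.ja (u := u2) (by simp) h.e2 h.n2
  have o3 : v3 ∉ R := ccs_out g h sp.ja (u := u3) (by simp) h.e3 h.n3 d3
  have o2' : v2' ≠ v1' → v2' ∉ R := ccs_out g h' sp.jb (u := u2') (by simp) h'.e2 h'.n2
  have o3' : v3' ∉ R := ccs_out g h' sp.jb (u := u3') (by simp) h'.e3 h'.n3 d3'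
  have dd : ∀ x ∈ ({u1, u2, u3, o, m12, m13, m23} : Finset V),
      ∀ y ∈ ({u1', u2', u3', o', m12', m13', m23'} : Finset V), x ≠ y :=
    disjoint_iff_ne.1 hd
  obtain ⟨n12, n13, n23⟩ := ccs_ne h
  obtain ⟨n12', n13', n23'⟩ := ccs_ne h'
  have A : v2 ≠ v1 → v2 ≠ u3' → v2 ≠ v3' → HasG2 G := fun a b c =>
    h1 V G col R _ _ _ _ _ _ _ _ _ _ _ _ _ _ _ _ _ _ _ _ g hc h.sw23 h'
      (by rw [ccs_e23]; exact hd) sp.ps (by rw [ccs_f23]; exact av) av' (o2 a) o3' b c
  have B : v2' ≠ v1' → v3 ≠ u2' → v3 ≠ v2' → HasG2 G := fun a b c =>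
    h1 V G col R _ _ _ _ _ _ _ _ _ _ _ _ _ _ _ _ _ _ _ _ g hc h h'.sw23
      (by rw [ccs_e23 u1']; exact hd) sp.ps av (by rw [ccs_f23]; exact av') o3 (o2' a) b c
  have ne11 : u1 ≠ u1' := dd _ (by simp) _ (by simp)
  have t1 : ∀ x ∈ ({u1, u2, u3, o, m12, m13, m23} : Finset V), G.Adj u1' x → x = v1' := by
    intro x hx a
    rcases ccs_n1 g h' a with e | e | e
    · exact absurd e (dd _ hx _ (by simp))
    · exact absurd e (dd _ hx _ (by simp))
    · exact e
  have t3 : ∀ x ∈ ({u1, u2, u3, o, m12, m13, m23} : Finset V), G.Adj u3' x → x = v3' := by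
    intro x hx a
    rcases ccs_n3 g h' a with e | e | e
    · exact absurd e (dd _ hx _ (by simp))
    · exact absurd e (dd _ hx _ (by simp))
    · exact e
  by_cases c1 : v3 = u3'
  · have a33 : G.Adj u3 u3' := c1 ▸ h.e3
    have e3 : u3 = v3' := t3 _ (by simp) a33.symm
    have a11 : G.Adj u1 u1' := (sp.k1 u3 (by simp) u3' (by simp) a33).resolve_left ne11
    have e1 : u1 = v1' := t1 _ (by simp) a11.symm
    have e1' : u1' = v1 := by
      rcases ccs_n1 g h a11 with e | e | e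
      · exact absurd e.symm (dd _ (by simp) _ (by simp))
      · exact absurd e.symm (dd _ (by simp) _ (by simp))
      · exact e
    refine A (fun e => ?_) (fun e => ?_) (fun e => ?_)
    · have a : G.Adj u2 u1' := by rw [e1', ← e]; exact h.e2
      exact n12 (e1.trans (t1 _ (by simp) a.symm).symm)
    · have a : G.Adj u2 u3' := by rw [← e]; exact h.e2
      exact n23 ((t3 _ (by simp) a.symm).trans e3.symm)
    · exact h.n2 (by simp [e, ← e3])
  by_cases c2 : v3 = v3'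
  swap
  · exact h1 V G col R _ _ _ _ _ _ _ _ _ _ _ _ _ _ _ _ _ _ _ _ g hc h h' hd sp.ps av av' o3 o3'
      c1 c2
  have a3' : G.Adj v3 u3' := by rw [c2]; exact h'.e3.symm
  have k33 : col u3 = col u3' := g.same h.e3 a3'
  have k13 : col u1 = col u3 := g.same h.b1 h.b3.symm
  have k23 : col u2 = col u3 := g.same h.c2 h.c3.symm
  have k13' : col u1' = col u3' := g.same h'.b1 h'.b3.symm
  have tW : v3 ∈ ({o, m12, m13, m23, o', m12', m13', m23'} : Finset V)ᶜ := by
    have a := h.n3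
    have b := h'.n3
    rw [← c2] at b
    simp only [mem_compl, mem_insert, mem_singleton, not_or] at a b ⊢
    tauto
  have e11 : v1 = v1' := by
    rcases sp.k2 u3 (by simp) u3' (by simp) v3 tW h.e3 a3' with e | e | ⟨p, pW, p1, p2⟩
    · exact absurd e ne11
    · exact absurd (k13.trans (k33.trans k13'.symm)) (g.bip _ _ e)
    · obtain ⟨⟨_, s2, s3, _⟩, _, s2', s3', _⟩ := hW p pW
      have x1 : p = v1 := ((ccs_n1 g h p1).resolve_left s2).resolve_left s3
      have x2 : p = v1' := ((ccs_n1 g h' p2.symm).resolve_left s2').resolve_left s3'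
      exact x1.symm.trans x2
  have w2 : v2 ≠ u3' := fun e => g.bip _ _ h.e2 (by rw [e, k23, k33])
  have w3 : v3 ≠ u2' := fun e => h'.n3 (by simp [← c2, e])
  by_cases x1 : v2 = v1
  · by_cases y1 : v2' = v1'
    · exfalso
      have b1 : G.Adj v1 u1 := h.e1.symm
      have b2 : G.Adj v1 u2 := by rw [← x1]; exact h.e2.symm
      have b3 : G.Adj v1 u1' := by rw [e11]; exact h'.e1.symm
      have b4 : G.Adj v1 u2' := by rw [e11, ← y1]; exact h'.e2.symm
      rcases g.nb3 b1 b2 b3 n12 ne11 (dd _ (by simp) _ (by simp)) b4 with e | e | e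
      · exact dd u1 (by simp) u2' (by simp) e.symm
      · exact dd u2 (by simp) u2' (by simp) e.symm
      · exact n12' e.symm
    by_cases y3 : v3 = v2'
    · exact h2 V G col _ _ _ _ _ _ _ _ _ _ _ _ _ _ _ _ _ _ _ _ g hc h.sw12.sw23.sw12
        h'.sw12.sw23.sw12 (by rw [ccs_e13, ccs_e13 u1']; exact hd) c2 y3 x1 (x1.trans e11)
    · exact B y1 w3 y3
  by_cases x3 : v2 = v3'
  swap
  · exact A x1 w2 x3
  by_cases y1 : v2' = v1'
  · exact h2 V G col _ _ _ _ _ _ _ _ _ _ _ _ _ _ _ _ _ _ _ _ g hc h h' hd e11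
      (e11.trans y1.symm) (x3.trans c2.symm) x3
  by_cases y3 : v3 = v2'
  swap
  · exact B y1 w3 y3
  exfalso
  have b1 : G.Adj v3 u3 := h.e3.symm
  have b2 : G.Adj v3 u2 := by rw [c2, ← x3]; exact h.e2.symm
  have b4 : G.Adj v3 u2' := by rw [y3]; exact h'.e2.symm
  rcases g.nb3 b1 b2 a3' n23.symm (dd _ (by simp) _ (by simp)) (dd _ (by simp) _ (by simp)) b4
    with e | e | e
  · exact dd u3 (by simp) u2' (by simp) e.symm
  · exact dd u2 (by simp) u2' (by simp) e.symm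
  · exact n23' e

end FZ
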