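import Pool.Agent.MP_cccb39_co.Fz.St

namespace FZ

open Finset
open scoped Classical

theorem con (h : TwoBS) : ConS := by
  intro V _ G col X g hc h3 Z hZ ⟨y0, hy0, hy0'⟩ y hy
  by_contra hn
  have h1 := h V G col (Z \ X) g hc ⟨y0, mem_sdiff.2 ⟨hy0, hy0'⟩⟩
    ⟨y, fun e => hn (mem_sdiff.1 e).1⟩
  have h2 := h V G col (Xᶜ \ Z) g hc ⟨y, mem_sdiff.2 ⟨mem_compl.2 hy, hn⟩⟩
    ⟨y0, fun e => (mem_sdiff.1 e).2 hy0⟩
  have a1 : (bd G (Z \ X)).card ≤ ((bd G X).filter fun p => p.2 ∈ Z).card := by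
    refine card_le_card_of_injOn Prod.swap ?_ (Prod.swap_injective.injOn)
    rintro ⟨z, v⟩ hp
    simp only [bd, coe_filter, mem_filter, mem_univ, true_and, Set.mem_ofPred_eq, mem_sdiff,
      Prod.swap_prod_mk] at hp ⊢
    obtain ⟨⟨hz, hz'⟩, hv, ha⟩ := hp
    refine ⟨⟨?_, hz', ha.symm⟩, hz⟩
    by_contra hx
    exact hv ⟨hZ z hz v (mem_compl.2 hx) ha, hx⟩
  have a2 : (bd G (Xᶜ \ Z)).card ≤ ((bd G X).filter fun p => ¬ p.2 ∈ Z).card := by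
    refine card_le_card_of_injOn Prod.swap ?_ (Prod.swap_injective.injOn)
    rintro ⟨z, v⟩ hp
    simp only [bd, coe_filter, mem_filter, mem_univ, true_and, Set.mem_ofPred_eq, mem_sdiff,
      mem_compl, Prod.swap_prod_mk] at hp ⊢
    obtain ⟨⟨hz, hz'⟩, hv, ha⟩ := hp
    refine ⟨⟨?_, hz, ha.symm⟩, hz'⟩
    by_contra hx
    exact hv ⟨hx, fun e => hz' (hZ v e z (mem_compl.2 hz) ha.symm)⟩
  have a3 := card_filter_add_card_filter_not (s := bd G X) (fun p => p.2 ∈ Z)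
  omega

end FZ
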