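import Pool.Agent.MP_cccb39_co.Fz.St

namespace FZ

open Finset
open scoped Classical

theorem ctra_col {V : Type} [Fintype V] {G : SimpleGraph V} {col : V → Bool} {X : Finset V}
    {u1 u2 u3 v1 v2 v3 : V} (h : End G col X u1 u2 u3 v1 v2 v3) {x y : V} (hx : x ∈ X)
    (hy : y ∉ X) (e : G.Adj x y) : colc col X u1 (kp X x) ≠ colc col X u1 (kp X y) := by
  rw [kp_mem hx, kp_none.2 hy]
  have hc : col x = col u1 := by
    rcases h.cut x hx y hy e with ⟨k, -⟩ | ⟨k, -⟩ | ⟨k, -⟩
    · rw [k]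
    · rw [k, h.c2]
    · rw [k, h.c3]
  change col x ≠ !col u1
  rw [hc]
  cases col u1 <;> simp

theorem ctrA : CtrAS := by
  intro V _ G col X u1 u2 u3 v1 v2 v3 g h
  refine ⟨fun a => ?_, ?_⟩
  · by_cases ha : a = none
    · subst ha
      unfold dg
      refine card_eq_three.2 ⟨kp X u1, kp X u2, kp X u3, fun e => h.u12 (kp_eq h.m2 e),
        fun e => h.u13 (kp_eq h.m3 e), fun e => h.u23 (kp_eq h.m3 e), ?_⟩
      ext b
      simp only [mem_filter, mem_univ, true_and, mem_insert, mem_singleton]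
      constructor
      · intro hb
        obtain ⟨x, hx, rfl⟩ := kp_ex hb.ne'
        obtain ⟨y, hy, e⟩ := ctr_out hx hb.symm
        rcases h.cut x hx y hy e with ⟨k, -⟩ | ⟨k, -⟩ | ⟨k, -⟩ <;> simp [k]
      · rintro (rfl | rfl | rfl)
        · exact (kp_none.2 h.n1 ▸ ctr_adj h.e1 h.m1 :).symm
        · exact (kp_none.2 h.n2 ▸ ctr_adj h.e2 h.m2 :).symm
        · exact (kp_none.2 h.n3 ▸ ctr_adj h.e3 h.m3 :).symm
    · obtain ⟨x, hx, rfl⟩ := kp_ex ha
      rw [← g.cub x]
      unfold dg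
      symm
      refine card_bij (fun y _ => kp X y) (fun y hy => ?_) (fun y hy y' hy' e => ?_) fun b hb => ?_
      · exact mem_filter.2 ⟨mem_univ _, ctr_adj (mem_filter.1 hy).2 hx⟩
      · by_cases m : y' ∈ X
        · exact kp_eq m e
        · exact h.one hx (kp_none.1 (e.trans (kp_none.2 m))) m (mem_filter.1 hy).2
            (mem_filter.1 hy').2
      · obtain ⟨-, x', y, h1, h2, e⟩ := (mem_filter.1 hb).2
        exact ⟨y, mem_filter.2 ⟨mem_univ _, kp_eq hx h1 ▸ e⟩, h2⟩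
  · rintro _ _ ⟨hne, x, y, rfl, rfl, e⟩
    by_cases hx : x ∈ X
    · by_cases hy : y ∈ X
      · rw [kp_mem hx, kp_mem hy]
        exact g.bip x y e
      · exact ctra_col h hx hy e
    · by_cases hy : y ∈ X
      · exact (ctra_col h hy hx e.symm).symm
      · exact absurd ((kp_none.2 hx).trans (kp_none.2 hy).symm) hne

end FZ
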