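import Pool.Agent.MP_cccb39_co.Fz.St

namespace FZ

open Finset
open scoped Classical

theorem ctrb_mem {W : Type} [Fintype W] {H : SimpleGraph W} {Y : Finset W} {p : W × W} :
    p ∈ bd H Y ↔ p.1 ∈ Y ∧ p.2 ∉ Y ∧ H.Adj p.1 p.2 := by
  simp only [bd, mem_filter, mem_univ, true_and]

theorem ctrb_swap {W : Type} [Fintype W] (H : SimpleGraph W) (Y Y' : Finset W)
    (h : ∀ a, a ∈ Y' ↔ a ∉ Y) : (bd H Y').card ≤ (bd H Y).card := by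
  refine card_le_card_of_injOn Prod.swap ?_ fun a _ b _ e => Prod.swap_injective e
  rintro ⟨a, b⟩ hp
  obtain ⟨h1, h2, h3⟩ := ctrb_mem.1 (mem_coe.1 hp)
  exact mem_coe.2 (ctrb_mem.2 ⟨not_not.1 fun e => h2 ((h _).2 e), (h _).1 h1, h3.symm⟩)

theorem ctrb_core {V : Type} [Fintype V] {G : SimpleGraph V} {col : V → Bool} {X : Finset V}
    {u1 u2 u3 v1 v2 v3 : V} (h : End G col X u1 u2 u3 v1 v2 v3) (Y : Finset (Option X))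
    (hn : none ∉ Y) (h2 : ∃ a ∈ Y, ∃ b ∈ Y, a ≠ b) (h3 : ∃ a, a ∉ Y ∧ ∃ b, b ∉ Y ∧ a ≠ b) :
    4 ≤ (bd (ctr G X) Y).card := by
  have hm : ∀ x, x ∈ X.filter (fun x => kp X x ∈ Y) ↔ x ∈ X ∧ kp X x ∈ Y := fun x => mem_filter
  have k2 : 2 ≤ (X.filter fun x => kp X x ∈ Y).card := by
    obtain ⟨a, ha, b, hb, ab⟩ := h2
    obtain ⟨x, hx, rfl⟩ := kp_ex (a := a) fun e => hn (e ▸ ha)
    obtain ⟨y, hy, rfl⟩ := kp_ex (a := b) fun e => hn (e ▸ hb)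
    exact two_le ((hm x).2 ⟨hx, ha⟩) ((hm y).2 ⟨hy, hb⟩) fun e => ab (e ▸ rfl)
  have k3 : X.filter (fun x => kp X x ∈ Y) ≠ X := by
    have : ∃ c, c ∉ Y ∧ c ≠ none := by
      obtain ⟨a, ha, b, hb, ab⟩ := h3
      by_cases e : a = none
      · exact ⟨b, hb, fun e' => ab (e.trans e'.symm)⟩
      · exact ⟨a, ha, e⟩
    obtain ⟨c, hc, hc'⟩ := this
    obtain ⟨x, hx, rfl⟩ := kp_ex hc'
    intro e
    exact hc ((hm x).1 (e.symm ▸ hx)).2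
  refine (h.mn _ (filter_subset _ _) k3 k2).trans ?_
  have hb : ∀ p : V × V, p ∈ bd G (X.filter fun x => kp X x ∈ Y) →
      p.1 ∈ X ∧ kp X p.1 ∈ Y ∧ kp X p.2 ∉ Y ∧ G.Adj p.1 p.2 := by
    intro p hp
    obtain ⟨a, b, c⟩ := ctrb_mem.1 hp
    refine ⟨((hm _).1 a).1, ((hm _).1 a).2, fun e => ?_, c⟩
    by_cases hx : p.2 ∈ X
    · exact b ((hm _).2 ⟨hx, e⟩)
    · exact hn (kp_none.2 hx ▸ e)
  refine card_le_card_of_injOn (fun p => (kp X p.1, kp X p.2)) ?_ ?_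
  · intro p hp
    obtain ⟨a, b, c, d⟩ := hb p hp
    exact mem_coe.2 (ctrb_mem.2 ⟨b, c, ctr_adj d a⟩)
  · rintro ⟨x, y⟩ hp ⟨x', y'⟩ hq e
    obtain ⟨a, -, -, d⟩ := hb _ hp
    obtain ⟨a', -, -, d'⟩ := hb _ hq
    obtain ⟨e1, e2⟩ := Prod.mk.inj e
    obtain rfl : x = x' := kp_eq a' e1
    by_cases hy : y' ∈ X
    · obtain rfl : y = y' := kp_eq hy e2
      rfl
    · obtain rfl : y = y' := h.one a (kp_none.1 (e2.trans (kp_none.2 hy))) hy d d'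
      rfl

theorem ctrB : CtrBS := by
  intro V _ G col X u1 u2 u3 v1 v2 v3 h Y h1 h2
  obtain ⟨a, ha, b, hb, ab⟩ := one_lt_card.1 h1
  obtain ⟨c, hc, d, hd, cd⟩ := one_lt_card.1 h2
  by_cases hn : none ∈ Y
  · refine le_trans ?_ (ctrb_swap (ctr G X) Y Yᶜ fun _ => mem_compl)
    exact ctrb_core h _ (fun e => mem_compl.1 e hn) ⟨c, hc, d, hd, cd⟩
      ⟨a, fun e => mem_compl.1 e ha, b, fun e => mem_compl.1 e hb, ab⟩
  · exact ctrb_core h Y hn ⟨a, ha, b, hb, ab⟩ ⟨c, mem_compl.1 hc, d, mem_compl.1 hd, cd⟩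

end FZ
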