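import Pool.Agent.MP_cccb39_co.Fz.St

/-! Thetas of the contraction that avoid the new vertex lift to the graph. -/

namespace FZ

open Finset
open scoped Classical

section
variable {V : Type} [Fintype V] {G : SimpleGraph V} {col : V → Bool} {X : Finset V}
  {u1 u2 u3 v1 v2 v3 : V}

noncomputable def ctrt_dn (X : Finset V) (C : Finset (Option X)) : Finset V :=
  univ.filter fun x => kp X x ∈ C

theorem ctrt_mem {C : Finset (Option X)} {v : V} : v ∈ ctrt_dn X C ↔ kp X v ∈ C := by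
  simp [ctrt_dn]

theorem ctrt_in {C : Finset (Option X)} (hC : none ∉ C) {v : V} (h : kp X v ∈ C) : v ∈ X := by
  by_contra hv
  exact hC (kp_none.2 hv ▸ h)

theorem ctrt_lift {x : V} (hx : x ∈ X) {o : Option X} (h : (ctr G X).Adj (kp X x) o) :
    ∃ o0, kp X o0 = o ∧ G.Adj x o0 := by
  obtain ⟨-, x', y', h1, h2, e⟩ := h
  exact ⟨y', h2, kp_eq hx h1 ▸ e⟩

theorem ctrt_compl {α : Type} [Fintype α] {C : Finset α} {w : α} (h : w ∈ Cᶜ) : w ∉ C :=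
  mem_compl.1 h

theorem ctrt_per (h : End G col X u1 u2 u3 v1 v2 v3) {C : Finset (Option X)} (hC : none ∉ C)
    (hp : Per (ctr G X) C) : Per G (ctrt_dn X C) := by
  intro v hv
  have hv' := ctrt_mem.1 hv
  have hX := ctrt_in hC hv'
  obtain ⟨o, h1, h2, h3⟩ := hp _ hv'
  obtain ⟨o0, rfl, e⟩ := ctrt_lift hX h2
  refine ⟨o0, fun k => h1 (ctrt_mem.1 k), e, fun x hx k => ?_⟩
  have h4 := h3 _ (ctr_adj hx hX) fun k' => k (ctrt_mem.2 k')
  by_cases ho : o0 ∈ X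
  · exact kp_eq ho h4
  · exact h.one hX (kp_none.1 (h4.trans (kp_none.2 ho))) ho hx e

theorem ctrt_lk (h : End G col X u1 u2 u3 v1 v2 v3) {C : Finset (Option X)} (hC : none ∉ C)
    {u v : V} (hl : Lk (ctr G X) C (kp X u) (kp X v)) : Lk G (ctrt_dn X C) u v := by
  intro Z hZ hu
  have key : ∀ z ∈ Z, ∀ x, kp X x = kp X z → x ∈ Z := by
    intro z hz x e
    by_cases hX : z ∈ X
    · rwa [kp_eq hX e]
    · refine h.con Z (fun a ha b hb => hZ a ha b (mem_compl.2 fun k => ?_)) ⟨z, hz, hX⟩ x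
        (kp_none.1 (e.trans (kp_none.2 hX)))
      exact mem_compl.1 hb (ctrt_in hC (ctrt_mem.1 k))
  have := hl (Z.image (kp X)) (by
    intro z' hz' w hw e
    obtain ⟨z, hz, rfl⟩ := mem_image.1 hz'
    obtain ⟨-, x, y, h1, rfl, e⟩ := e
    exact mem_image_of_mem _ (hZ x (key z hz x h1) y
      (mem_compl.2 fun k => ctrt_compl hw (ctrt_mem.1 k)) e)) (mem_image_of_mem _ hu)
  obtain ⟨z, hz, e⟩ := mem_image.1 this
  exact key z hz v e.symm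

end

theorem ctrT : CtrTS := by
  intro V _ G col X u1 u2 u3 v1 v2 v3 h hT C1 C2 a c x b y b' z1 z2 t
  replace z1 : none ∉ C1 := z1
  replace z2 : none ∉ C2 := z2
  obtain ⟨a, ha, rfl⟩ := kp_ex (a := a) fun e => z1 (e ▸ t.a1)
  obtain ⟨c, hc, rfl⟩ := kp_ex (a := c) fun e => z2 (e ▸ t.c2)
  obtain ⟨x, hx, rfl⟩ := kp_ex (a := x) fun e => z1 (e ▸ t.x1)
  obtain ⟨b, hb, rfl⟩ := kp_ex (a := b) fun e => z1 (e ▸ t.b1)
  obtain ⟨y, hy, rfl⟩ := kp_ex (a := y) fun e => z1 (e ▸ t.y1)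
  obtain ⟨b0, rfl, e⟩ := ctrt_lift hb t.bo
  exact hT (ctrt_dn X C1) (ctrt_dn X C2) a c x b y b0
    ⟨ctrt_per h z1 t.p1, ctrt_per h z2 t.p2, ctrt_mem.2 t.a1, ctrt_mem.2 t.x1, ctrt_mem.2 t.b1,
      ctrt_mem.2 t.y1, fun k => t.c1 (ctrt_mem.1 k), ctrt_mem.2 t.c2, ctrt_mem.2 t.x2,
      ctrt_mem.2 t.b2, ctrt_mem.2 t.y2, fun k => t.a2 (ctrt_mem.1 k),
      fun k => t.o1 (ctrt_mem.1 k), fun k => t.o2 (ctrt_mem.1 k), ctr_in hx ha t.xa,
      ctr_in hx hc t.xc, ctr_in hx hb t.xb, ctr_in hb hy t.by', e, fun k => t.ab (k ▸ rfl),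
      fun k => t.cb (k ▸ rfl), fun k => t.xy (k ▸ rfl), ctrt_lk h z1 t.l1, ctrt_lk h z2 t.l2⟩

end FZ
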