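import Pool.Agent.MP_cccb39_co.Fz.St

namespace FZ

open Finset
open scoped Classical

theorem cube_core (hT : TabS) (E : Fin 8 → Fin 3 → ℕ) (inj : Function.Injective (E 3))
    (s1 s2 s3 s4 s5 : Equiv.Perm (Fin 3))
    (h01 : ∀ a b, E 0 a = E 1 b → b = a) (h02 : ∀ a b, E 0 a = E 2 b → b = a)
    (h04 : ∀ a b, E 0 a = E 4 b → b = a) (h13 : ∀ a b, E 1 a = E 3 b → b = a)
    (h15 : ∀ a b, E 1 a = E 5 b → b = a) (h26 : ∀ a b, E 2 a = E 6 b → b = a)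
    (h37 : ∀ a b, E 3 a = E 7 b → b = a) (h23 : ∀ a b, E 2 a = E 3 b → b = s1 a)
    (h45 : ∀ a b, E 4 a = E 5 b → b = s2 a) (h46 : ∀ a b, E 4 a = E 6 b → b = s3 a)
    (h57 : ∀ a b, E 5 a = E 7 b → b = s4 a) (h67 : ∀ a b, E 6 a = E 7 b → b = s5 a) :
    ∃ ψ : Fin 6 → Fin 8 → Fin 3, (∀ k i j, CAdj i j → E i (ψ k i) ≠ E j (ψ k j)) ∧
      ∀ v, Unif fun k => ψ k v := by
  have key : ∃ (m : ℕ) (i : Fin 3), Six s1 s2 s3 s4 s5 m i ∧ (m = 0 → E 0 i ≠ E 2 i) ∧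
      (m = 1 → E 0 i ≠ E 1 i) ∧ (m = 2 → E 1 i ≠ E 3 i) ∧ (m = 3 → E 2 i ≠ E 3 (s1 i)) := by
    rcases hT s1 s2 s3 s4 s5 with h | ⟨i, hi, h⟩
    · exact ⟨4, 0, h, by simp⟩
    by_cases a0 : E 0 i = E 2 i
    swap
    · exact ⟨0, i, h 0 (by norm_num), by simpa using a0⟩
    by_cases a1 : E 0 i = E 1 i
    swap
    · exact ⟨1, i, h 1 (by norm_num), by simpa using a1⟩
    by_cases a2 : E 1 i = E 3 i
    swap
    · exact ⟨2, i, h 2 (by norm_num), by simpa using a2⟩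
    refine ⟨3, i, h 3 (by norm_num), by simp, by simp, by simp, fun _ a3 => hi (inj ?_)⟩
    rw [← a3, ← a0, a1, a2]
  obtain ⟨m, i, ⟨ψ, ok, un⟩, n0, n1, n2, n3⟩ := key
  refine ⟨ψ, fun k u v huv h => ?_, un⟩
  obtain ⟨o1, o2, o3, o4, o5, o6, o7, o8, o9, o10, o11, o12⟩ := ok k
  simp only [CAdj, List.mem_cons, Prod.mk.injEq, List.not_mem_nil, or_false] at huv
  rcases huv with ⟨rfl, rfl⟩ | ⟨rfl, rfl⟩ | ⟨rfl, rfl⟩ | ⟨rfl, rfl⟩ | ⟨rfl, rfl⟩ | ⟨rfl, rfl⟩ |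
    ⟨rfl, rfl⟩ | ⟨rfl, rfl⟩ | ⟨rfl, rfl⟩ | ⟨rfl, rfl⟩ | ⟨rfl, rfl⟩ | ⟨rfl, rfl⟩
  · have e := h01 _ _ h
    rcases o1 with o | ⟨o, o'⟩
    · exact o e
    · rw [e, o'] at h; exact n1 o h
  · have e := h02 _ _ h
    rcases o2 with o | ⟨o, o'⟩
    · exact o e
    · rw [e, o'] at h; exact n0 o h
  · exact o3 (h04 _ _ h)
  · have e := h13 _ _ h
    rcases o4 with o | ⟨o, o'⟩
    · exact o e
    · rw [e, o'] at h; exact n2 o h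
  · exact o5 (h15 _ _ h)
  · exact o6 (h26 _ _ h)
  · exact o7 (h37 _ _ h)
  · have e := h23 _ _ h
    rcases o8 with o | ⟨o, o'⟩
    · exact o e
    · rw [e, o'] at h; exact n3 o h
  · exact o9 (h45 _ _ h)
  · exact o10 (h46 _ _ h)
  · exact o11 (h57 _ _ h)
  · exact o12 (h67 _ _ h)

theorem cube (hE : ExtS) (hT : TabS) : CubeS := by
  intro V _ G x hx e he
  have hβ := fun i j : Fin 8 => hE (fun a b => e (x i) a = e (x j) b)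
    (fun _ _ _ h h' => he _ (h.symm.trans h')) fun _ _ _ h h' => he _ (h.trans h'.symm)
  choose β hβ using hβ
  obtain ⟨γ, g1, g2, g4, g3, g5, g6, g7⟩ : ∃ γ : Fin 8 → Equiv.Perm (Fin 3),
      γ 1 = β 0 1 * γ 0 ∧ γ 2 = β 0 2 * γ 0 ∧ γ 4 = β 0 4 * γ 0 ∧ γ 3 = β 1 3 * γ 1 ∧
      γ 5 = β 1 5 * γ 1 ∧ γ 6 = β 2 6 * γ 2 ∧ γ 7 = β 3 7 * γ 3 :=
    ⟨![1, β 0 1 * 1, β 0 2 * 1, β 1 3 * (β 0 1 * 1), β 0 4 * 1, β 1 5 * (β 0 1 * 1),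
      β 2 6 * (β 0 2 * 1), β 3 7 * (β 1 3 * (β 0 1 * 1))], rfl, rfl, rfl, rfl, rfl, rfl, rfl⟩
  have t : ∀ i j, γ j = β i j * γ i → ∀ a b, e (x i) (γ i a) = e (x j) (γ j b) → b = a :=
    fun i j g a b h => (γ j).injective (by rw [hβ i j _ _ h, g]; rfl)
  have s : ∀ i j a b, e (x i) (γ i a) = e (x j) (γ j b) → b = ((γ j)⁻¹ * (β i j * γ i)) a :=
    fun i j a b h => (γ j).injective (by rw [hβ i j _ _ h]; simp)
  obtain ⟨ψ, h1, h2⟩ := cube_core hT (fun i a => e (x i) (γ i a))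
    ((he _).comp (γ 3).injective) _ _ _ _ _ (t 0 1 g1) (t 0 2 g2) (t 0 4 g4) (t 1 3 g3) (t 1 5 g5)
    (t 2 6 g6) (t 3 7 g7) (s 2 3) (s 4 5) (s 4 6) (s 5 7) (s 6 7)
  refine ⟨Fin 6, inferInstance, fun k v => γ (x.symm v) (ψ k (x.symm v)), fun k => ψ k 0,
    ⟨⟨0⟩, fun k u _ v _ h => ?_, fun v _ => (h2 _).perm _, h2 0⟩⟩
  obtain ⟨i, rfl⟩ := x.surjective u
  obtain ⟨j, rfl⟩ := x.surjective v
  obtain ⟨ha, hb⟩ := h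
  simp only [Equiv.symm_apply_apply] at hb
  rcases hx i j ha with c | c
  · exact h1 k i j c hb
  · exact h1 k j i c hb.symm

end FZ
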