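import Pool.Agent.MP_cccb39_co.Fz.St

namespace FZ

open Finset
open scoped Classical

theorem cubemk_nb {V : Type} [Fintype V] {G : SimpleGraph V} {col : V → Bool} (g : Cb G col)
    {f : Fin 8 → V} (hf : Function.Injective f) (i a b c : Fin 8) (ha : G.Adj (f i) (f a))
    (hb : G.Adj (f i) (f b)) (hc : G.Adj (f i) (f c))
    (hd : a ≠ b ∧ a ≠ c ∧ b ≠ c ∧ (CAdj i a ∨ CAdj a i) ∧ (CAdj i b ∨ CAdj b i) ∧
      (CAdj i c ∨ CAdj c i)) (v : V) (hv : G.Adj (f i) v) :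
    ∃ j, v = f j ∧ (CAdj i j ∨ CAdj j i) := by
  obtain ⟨d1, d2, d3, d4, d5, d6⟩ := hd
  rcases g.nb3 ha hb hc (hf.ne d1) (hf.ne d2) (hf.ne d3) hv with e | e | e
  exacts [⟨a, e, d4⟩, ⟨b, e, d5⟩, ⟨c, e, d6⟩]

theorem cubeMk : CubeMkS := by
  intro V _ G col u1 u2 u3 m12 m13 m23 o z g hc h
  have hf : Function.Injective (![z, u1, u2, m12, u3, m13, m23, o] : Fin 8 → V) := by
    have h1 := h.nd
    have h2 := h.n1
    rw [← List.nodup_ofFn]
    simp only [List.nodup_cons, List.mem_cons, List.not_mem_nil, not_or, mem_insert,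
      mem_singleton] at h1 h2
    simp only [List.ofFn_succ, List.ofFn_zero, Matrix.cons_val_zero, Matrix.cons_val_succ,
      List.nodup_cons, List.mem_cons, List.not_mem_nil, not_or]
    tauto
  have key : ∀ i v, G.Adj ((![z, u1, u2, m12, u3, m13, m23, o] : Fin 8 → V) i) v →
      ∃ j, v = (![z, u1, u2, m12, u3, m13, m23, o] : Fin 8 → V) j ∧ (CAdj i j ∨ CAdj j i) := by
    intro i
    fin_cases i
    · exact cubemk_nb g hf 0 1 2 4 h.e1.symm h.e2.symm h.e3.symm (by unfold CAdj; decide)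
    · exact cubemk_nb g hf 1 0 3 5 h.e1 h.a1 h.b1 (by unfold CAdj; decide)
    · exact cubemk_nb g hf 2 0 3 6 h.e2 h.a2 h.c2 (by unfold CAdj; decide)
    · exact cubemk_nb g hf 3 1 2 7 h.a1.symm h.a2.symm h.oa.symm (by unfold CAdj; decide)
    · exact cubemk_nb g hf 4 0 5 6 h.e3 h.b3 h.c3 (by unfold CAdj; decide)
    · exact cubemk_nb g hf 5 1 4 7 h.b1.symm h.b3.symm h.ob.symm (by unfold CAdj; decide)
    · exact cubemk_nb g hf 6 2 4 7 h.c2.symm h.c3.symm h.oc.symm (by unfold CAdj; decide)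
    · exact cubemk_nb g hf 7 3 5 6 h.oa h.ob h.oc (by unfold CAdj; decide)
  generalize (![z, u1, u2, m12, u3, m13, m23, o] : Fin 8 → V) = f at hf key
  have hs : Function.Surjective f := by
    have hu := hc (univ.image f) (univ_nonempty.image f) fun y hy v _ hv => by
      obtain ⟨i, -, rfl⟩ := mem_image.1 hy
      obtain ⟨j, rfl, -⟩ := key i v hv
      exact mem_image_of_mem f (mem_univ j)
    intro v
    obtain ⟨i, -, e⟩ := mem_image.1 (hu ▸ mem_univ v : v ∈ univ.image f)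
    exact ⟨i, e⟩
  refine ⟨Equiv.ofBijective f ⟨hf, hs⟩, fun i j hij => ?_⟩
  obtain ⟨k, e, hk⟩ := key i (f j) hij
  rwa [hf e]

end FZ
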