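import Pool.Agent.MP_cccb39_co.Fz.St

/-! A domino with a path from `T` to `S`, and `T` adjacent to neither `W` nor `P`. -/

namespace FZ

open Finset
open scoped Classical

private theorem e_ne {V : Type} {col : V → Bool} {a b : V} {c : Bool} (ha : col a = c)
    (hb : col b = !c) : a ≠ b := by
  rintro rfl
  rw [ha] at hb
  cases c <;> simp at hb

theorem eS : ES := by
  intro V _ G col p q w s r t P S W T R g h hWT hPT ps hR hu
  obtain ⟨cw, cr, cS, cT, cq, cs, ct, cP, cW⟩ := h.cols g
  have cp : col p = col p := rfl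
  have np : p ∉ R := fun e => hR p e (by simp)
  have nq : q ∉ R := fun e => hR q e (by simp)
  have nw : w ∉ R := fun e => hR w e (by simp)
  have ns : s ∉ R := fun e => hR s e (by simp)
  have nr : r ∉ R := fun e => hR r e (by simp)
  have nt : t ∉ R := fun e => hR t e (by simp)
  have rs : r ≠ s := e_ne cr cs
  have rq : r ≠ q := e_ne cr cq
  have rt : r ≠ t := e_ne cr ct
  have ws : w ≠ s := e_ne cw cs
  have wq : w ≠ q := e_ne cw cq
  have wt : w ≠ t := e_ne cw ct
  have wW : w ≠ W := e_ne cw cW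
  have wP : w ≠ P := e_ne cw cP
  have pq : p ≠ q := e_ne cp cq
  have ps' : p ≠ s := e_ne cp cs
  have pt : p ≠ t := e_ne cp ct
  have pW : p ≠ W := e_ne cp cW
  have pP : p ≠ P := e_ne cp cP
  have Tq : T ≠ q := e_ne cT cq
  have k1 : PS G (insert s R) s T := by
    refine ps.swap.ext s ns h.sS fun x hx a => ?_
    rcases h.ns g a with e | e | e
    · exact absurd (e ▸ hx) nr
    · exact absurd (e ▸ hx) np
    · exact e
  have k2 : PS G (insert r (insert s R)) r T := by
    refine k1.ext r (by simp [rs, nr]) h.sr.symm fun x hx a => ?_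
    rcases h.nr g a with e | e | e
    · exact e
    · exact absurd (e ▸ hx) (by simp [h.s_t.symm, nt])
    · exact absurd (e ▸ hx) (by simp [h.q_s, nq])
  have k3 : PS G (insert q (insert r (insert s R))) q T := by
    refine k2.ext q (by simp [rq.symm, h.q_s, nq]) h.qr fun x hx a => ?_
    rcases h.nq g a with e | e | e
    · exact absurd (e ▸ hx) (by simp [h.p_r, ps', np])
    · exact absurd (e ▸ hx) (by simp [h.w_r, ws, nw])
    · exact e
  obtain ⟨y, hy, ay⟩ := ps.n1 h.S_T.symm
  obtain ⟨x, ax, xt, xy⟩ := g.third T t y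
  have cx : col x = !col p := by rw [← ct]; exact (g.same h.tT ax).symm
  have xR : x ∉ R := fun e => xy (hu x e y hy ax ay)
  have xq : x ≠ q := by
    rintro rfl
    rcases h.nq g ax.symm with e | e | e
    · exact h.T_p e
    · exact h.T_w e
    · exact h.T_r e
  have xs : x ≠ s := by
    rintro rfl
    rcases h.ns g ax.symm with e | e | e
    · exact h.T_r e
    · exact h.T_p e
    · exact h.S_T e.symm
  have xr : x ≠ r := (e_ne cr cx).symm
  have xp : x ≠ p := (e_ne cp cx).symm
  have xw : x ≠ w := (e_ne cw cx).symm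
  have mq : q ∈ (insert q (insert r (insert s R)) : Finset V) := by simp
  have mr : r ∈ (insert q (insert r (insert s R)) : Finset V) := by simp
  have ms : s ∈ (insert q (insert r (insert s R)) : Finset V) := by simp
  have mT : T ∈ (insert q (insert r (insert s R)) : Finset V) := k3.m2
  have tQ : t ∉ (insert q (insert r (insert s R)) : Finset V) := by
    simp [h.q_t.symm, rt.symm, h.s_t.symm, nt]
  have xQ : x ∉ (insert q (insert r (insert s R)) : Finset V) := by simp [xq, xr, xs, xR]
  have pQ : p ∉ (insert q (insert r (insert s R)) : Finset V) := by simp [pq, h.p_r, ps', np]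
  have wQ : w ∉ (insert q (insert r (insert s R)) : Finset V) := by simp [wq, h.w_r, ws, nw]
  generalize (insert q (insert r (insert s R)) : Finset V) = Q at k3 mq mr ms mT tQ xQ pQ wQ
  refine ⟨Q, x, w, ⟨k3.swap, Tq, tQ, xQ, pQ, wQ, xt.symm, pt.symm, wt.symm, xp, xw, h.p_w,
    h.tT.symm, ax, h.pq.symm, h.qw, ⟨r, mr, h.T_r.symm, h.rt.symm⟩, ⟨s, ms, h.q_s.symm, h.ps⟩,
    fun z hz a b => ?_, fun z hz a b => ?_, fun a => ?_, fun a => ?_, fun Y hY => ?_⟩,
    mr, h.T_r.symm, h.rt.symm, ms, h.q_s.symm, h.ps⟩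
  · rcases h.nt g a with e | e | e
    · exact hz (e ▸ mr)
    · rw [e] at b
      rcases h.nw g b.symm with e | e | e
      · exact xq e
      · exact xt e
      · exact hWT (e ▸ ax.symm)
    · exact hz (e ▸ mT)
  · rcases h.np g a with e | e | e
    · exact hz (e ▸ mq)
    · exact hz (e ▸ ms)
    · rw [e] at b
      rcases h.nw g b with e | e | e
      · exact h.P_q e
      · exact h.P_t e
      · exact h.P_W e
  · rcases h.nt g a.1 with e | e | e
    · exact h.p_r e
    · exact h.p_w e
    · exact h.T_p e.symm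
  · rcases h.np g a.2.symm with e | e | e
    · exact xq e
    · exact xs e
    · exact hPT (e ▸ ax.symm)
  · have hd : ∀ z ∈ Y, z ∉ Q := fun z hz => disjoint_left.1 hY.dis hz
    have PQ : P ∉ Q := by
      obtain ⟨z, hz, a⟩ := hY.os
      rcases h.np g a with e | e | e
      · exact absurd (e ▸ mq) hz
      · exact absurd (e ▸ ms) hz
      · exact e ▸ hz
    have WQ : W ∉ Q := fun e => h.W_q (hY.ts W e h.wW)
    have PY : P ∈ Y := (hY.clo p hY.ms P h.pP).resolve_right fun e => PQ e.1
    have WY : W ∈ Y := (hY.clo w hY.ms' W h.wW).resolve_right fun e => WQ e.1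
    refine g.cut3 (((Y.erase t).erase w).erase p)
      (two_le (a := P) (b := W)
        (mem_erase.2 ⟨pP.symm, mem_erase.2 ⟨wP.symm, mem_erase.2 ⟨h.P_t, PY⟩⟩⟩)
        (mem_erase.2 ⟨pW.symm, mem_erase.2 ⟨wW.symm, mem_erase.2 ⟨h.W_t, WY⟩⟩⟩) h.P_W)
      (two_le_compl (a := t) (b := w) (by simp) (by simp) wt.symm) x T W w P p ?_
    intro u hu v hv a
    obtain ⟨up, hu⟩ := mem_erase.1 hu
    obtain ⟨uw, hu⟩ := mem_erase.1 hu
    obtain ⟨ut, hu⟩ := mem_erase.1 hu
    rcases hY.clo u hu v a with vY | ⟨vQ, e | e | e | e⟩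
    · by_cases e1 : v = p
      · rw [e1] at a
        rcases h.np g a.symm with e | e | e
        · exact absurd (e ▸ mq) (hd u hu)
        · exact absurd (e ▸ ms) (hd u hu)
        · exact Or.inr (Or.inr ⟨e, e1⟩)
      by_cases e2 : v = w
      · rw [e2] at a
        rcases h.nw g a.symm with e | e | e
        · exact absurd (e ▸ mq) (hd u hu)
        · exact absurd e ut
        · exact Or.inr (Or.inl ⟨e, e2⟩)
      by_cases e3 : v = t
      · rw [e3] at a
        rcases h.nt g a.symm with e | e | e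
        · exact absurd (e ▸ mr) (hd u hu)
        · exact absurd e uw
        · exact absurd (e ▸ mT) (hd u hu)
      · exact absurd (mem_erase.2 ⟨e1, mem_erase.2 ⟨e2, mem_erase.2 ⟨e3, vY⟩⟩⟩) hv
    · exact absurd e ut
    · exact Or.inl ⟨e, hY.ta v vQ (e ▸ a)⟩
    · exact absurd e up
    · exact absurd e uw

end FZ
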