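import Pool.Agent.MP_cccb39_co.Fz.St

namespace FZ

open Finset
open scoped Classical

theorem end_col {α : Type} (B : Finset α) (f : α → Bool) (h3 : B.card = 3)
    (h : (B.filter fun p => f p = true).card % 3 = (B.filter fun p => f p = false).card % 3) :
    ∀ p ∈ B, ∀ q ∈ B, f p = f q := by
  have hs := card_filter_add_card_filter_not (s := B) (fun p => f p = true)
  have e : (B.filter fun p => ¬ f p = true) = B.filter fun p => f p = false :=
    filter_congr fun p _ => by simp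
  rw [e] at hs
  have key : ∀ p ∈ B, ∀ q ∈ B, f p = true → f q = false → False := by
    intro p hp q hq h1 h2
    have a : 0 < (B.filter fun p => f p = true).card := card_pos.2 ⟨p, mem_filter.2 ⟨hp, h1⟩⟩
    have b : 0 < (B.filter fun p => f p = false).card := card_pos.2 ⟨q, mem_filter.2 ⟨hq, h2⟩⟩
    omega
  intro p hp q hq
  cases h1 : f p <;> cases h2 : f q
  · rfl
  · exact (key q hq p hp h2 h1).elim
  · exact (key p hp q hq h1 h2).elim
  · rfl

theorem end_mn {V : Type} [Fintype V] (G : SimpleGraph V) (X0 : Finset V) (h : Cand G X0) :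
    ∃ X ⊆ X0, Mn G X := by
  obtain ⟨X, hX, hm⟩ := exists_min_image (X0.powerset.filter fun X => Cand G X) card
    ⟨X0, mem_filter.2 ⟨mem_powerset.2 Subset.rfl, h⟩⟩
  obtain ⟨h1, h2⟩ := mem_filter.1 hX
  have h1' := mem_powerset.1 h1
  refine ⟨X, h1', h2, fun Y hY hne hc => ?_⟩
  by_contra hlt
  obtain ⟨y, hy⟩ := h2.2.1
  have hY' : Cand G Y := ⟨hc, ⟨y, fun e => hy (hY e)⟩, by omega⟩
  have h3 := hm Y (mem_filter.2 ⟨mem_powerset.2 (hY.trans h1'), hY'⟩)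
  exact hne (eq_of_subset_of_card_le hY h3)

theorem endS (h0 : ParBS) (h1 : OneOutS) (h2 : ConS) : EndS := by
  intro V _ G col X0 hcb hcon hc
  obtain ⟨X, hX, hm⟩ := end_mn G X0 hc
  obtain ⟨h3, ho⟩ := h1 V G col X hcb hcon hm
  have hcol := end_col (bd G X) (fun p => col p.1) h3 (h0 V G col X hcb)
  have hmem : ∀ p : V × V, p ∈ bd G X ↔ p.1 ∈ X ∧ p.2 ∉ X ∧ G.Adj p.1 p.2 := by
    intro p
    simp [bd]
  have hne : ∀ p ∈ bd G X, ∀ q ∈ bd G X, p ≠ q → p.1 ≠ q.1 := by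
    intro p hp q hq hpq e
    obtain ⟨a1, a2, a3⟩ := (hmem p).1 hp
    obtain ⟨-, b2, b3⟩ := (hmem q).1 hq
    exact hpq (Prod.ext e (ho p.1 a1 p.2 q.2 a2 b2 a3 (e ▸ b3)))
  obtain ⟨p, q, r, pq, pr, qr, e⟩ := card_eq_three.1 h3
  have hp : p ∈ bd G X := by simp [e]
  have hq : q ∈ bd G X := by simp [e]
  have hr : r ∈ bd G X := by simp [e]
  obtain ⟨p1, p2, p3⟩ := (hmem p).1 hp
  obtain ⟨q1, q2, q3⟩ := (hmem q).1 hq
  obtain ⟨r1, r2, r3⟩ := (hmem r).1 hr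
  refine ⟨X, hX, p.1, q.1, r.1, p.2, q.2, r.2, p1, q1, r1, p2, q2, r2, p3, q3, r3,
    hne p hp q hq pq, hne p hp r hr pr, hne q hq r hr qr, ?_, hcol q hq p hp, hcol r hr p hp,
    hm.2, h2 V G col X hcb hcon h3.le⟩
  intro x hx y hy hxy
  have h4 : (x, y) ∈ bd G X := (hmem (x, y)).2 ⟨hx, hy, hxy⟩
  rw [e] at h4
  simp only [mem_insert, mem_singleton] at h4
  rcases h4 with rfl | rfl | rfl
  · exact Or.inl ⟨rfl, rfl⟩
  · exact Or.inr (Or.inl ⟨rfl, rfl⟩)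
  · exact Or.inr (Or.inr ⟨rfl, rfl⟩)

end FZ
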