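import Pool.Agent.MP_cccb39_co.Fz.St

namespace FZ

open Finset
open scoped Classical

private theorem endsq_cnt {V : Type} [Fintype V] {G : SimpleGraph V} {col : V → Bool}
    (g : Cb G col) (X : Finset V) :
    (univ.filter fun p : V × V => p.1 ∈ X ∧ G.Adj p.1 p.2).card = 3 * X.card := by
  rw [card_eq_sum_card_fiberwise (f := Prod.fst) (t := X)
    (fun p hp => by simpa using (mem_filter.1 (mem_coe.1 hp)).2.1)]
  rw [mul_comm, ← smul_eq_mul, ← sum_const]
  refine sum_congr rfl fun v hv => ?_
  rw [← g.cub v]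
  unfold dg
  refine card_bij (fun p _ => p.2) ?_ ?_ ?_
  · intro p hp
    simp only [mem_filter, mem_univ, true_and] at hp ⊢
    exact hp.2 ▸ hp.1.2
  · intro p hp q hq e
    simp only [mem_filter, mem_univ, true_and] at hp hq
    exact Prod.ext (hp.2.trans hq.2.symm) e
  · intro w hw
    simp only [mem_filter, mem_univ, true_and] at hw
    exact ⟨(v, w), by simp [hv, hw], rfl⟩

theorem endSq : EndSqS := by
  intro V _ G col X u1 u2 u3 v1 v2 v3 g h
  constructor
  · intro v hv
    have h3 := g.cub v
    unfold dg at h3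
    obtain ⟨a, b, c, ab, ac, bc, he⟩ := card_eq_three.1 h3
    have ea : G.Adj v a := by
      have : a ∈ univ.filter fun w => G.Adj v w := by rw [he]; simp
      exact (mem_filter.1 this).2
    have eb : G.Adj v b := by
      have : b ∈ univ.filter fun w => G.Adj v w := by rw [he]; simp
      exact (mem_filter.1 this).2
    have ec : G.Adj v c := by
      have : c ∈ univ.filter fun w => G.Adj v w := by rw [he]; simp
      exact (mem_filter.1 this).2
    by_cases ha : a ∈ X
    · by_cases hb : b ∈ X
      · exact ⟨a, b, ab, ⟨ea, hv, ha⟩, ⟨eb, hv, hb⟩⟩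
      · by_cases hc : c ∈ X
        · exact ⟨a, c, ac, ⟨ea, hv, ha⟩, ⟨ec, hv, hc⟩⟩
        · exact absurd (h.one hv hb hc eb ec) bc
    · have hb : b ∈ X := by
        by_contra hb
        exact ab (h.one hv ha hb ea eb)
      have hc : c ∈ X := by
        by_contra hc
        exact ac (h.one hv ha hc ea ec)
      exact ⟨b, c, bc, ⟨eb, hv, hb⟩, ⟨ec, hv, hc⟩⟩
  · rw [← endsq_cnt g X, Fintype.card_subtype]
    have hs : (univ.filter fun p : V × V => p.1 ∈ X ∧ G.Adj p.1 p.2) ⊆
        (univ.filter fun p : V × V => (sub G X).Adj p.1 p.2) ∪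
          ({(u1, v1), (u2, v2), (u3, v3)} : Finset (V × V)) := by
      intro p hp
      obtain ⟨hx, e⟩ := (mem_filter.1 hp).2
      by_cases hy : p.2 ∈ X
      · exact mem_union_left _ (mem_filter.2 ⟨mem_univ _, e, hx, hy⟩)
      · refine mem_union_right _ ?_
        rcases h.cut p.1 hx p.2 hy e with ⟨k, l⟩ | ⟨k, l⟩ | ⟨k, l⟩
        · have : p = (u1, v1) := Prod.ext k l
          simp [this]
        · have : p = (u2, v2) := Prod.ext k l
          simp [this]
        · have : p = (u3, v3) := Prod.ext k l
          simp [this]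
    have h1 := (card_le_card hs).trans (card_union_le _ _)
    have h2 : ({(u1, v1), (u2, v2), (u3, v3)} : Finset (V × V)).card ≤ 3 := card_le_three
    exact h1.trans (Nat.add_le_add (le_of_eq (by congr)) h2)

end FZ
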