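import Pool.Agent.MP_cccb39_co.Fz.St

namespace FZ

open Finset
open scoped Classical

theorem eul_sym {V : Type} [Fintype V] (f : V → V → ZMod 2) (hs : ∀ u v, f u v = f v u)
    (h0 : ∀ v, f v v = 0) : ∑ v, ∑ u, f v u = 0 := by
  rw [← Fintype.sum_prod_type' f]
  refine sum_involution (fun p _ => p.swap) (fun p _ => ?_) (fun p _ hp e => hp ?_)
    (fun _ _ => mem_univ _) fun _ _ => rfl
  · rw [Prod.fst_swap, Prod.snd_swap, hs p.2 p.1]
    exact CharTwo.add_self_eq_zero _
  · have : p.2 = p.1 := congrArg Prod.fst e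
    rw [this, h0]

theorem eul : EulS := by
  intro V _ H nx col X φ hR hc hX hne hφ
  let sw : Dt H → Dt H := fun d => ⟨(d.1.2, d.1.1), d.2.symm⟩
  let E := {d : Dt H // col d.1.1 = false}
  let Q := Quotient (Equiv.Perm.SameCycle.setoid φ)
  have hE : Fintype.card (Dt H) ≤ 2 * Fintype.card E := by
    have h1 := Fintype.card_subtype_compl fun d : Dt H => col d.1.1 = false
    have h2 := Fintype.card_subtype_le fun d : Dt H => col d.1.1 = false
    have h3 : Fintype.card {d : Dt H // ¬ col d.1.1 = false} ≤ Fintype.card E :=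
      Fintype.card_le_of_injective (fun d => ⟨sw d.1, by
        have a := hc _ _ d.1.2
        have b := d.2
        revert a b
        simp only [sw]
        cases col d.1.1.1 <;> cases col d.1.1.2 <;> simp⟩) fun d d' h => by
        have a : (d.1.1.2, d.1.1.1) = (d'.1.1.2, d'.1.1.1) := congrArg (fun e : E => e.1.1) h
        exact Subtype.ext (Subtype.ext (Prod.ext (Prod.mk.inj a).2 (Prod.mk.inj a).1))
    have h4 : Fintype.card {d : Dt H // col d.1.1 = false} = Fintype.card E := by convert rfl
    omega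
  let Y : (E → ZMod 2) → V → V → ZMod 2 := fun y u v =>
    ∑ e : E, if e.1.1 = (u, v) ∨ e.1.1 = (v, u) then y e else 0
  have Ys : ∀ y u v, Y y u v = Y y v u := fun y u v => by simp only [Y, or_comm]
  have Ye : ∀ y (e : E), Y y e.1.1.1 e.1.1.2 = y e := fun y e => by
    simp only [Y]
    rw [sum_eq_single e (fun e' _ h => if_neg ?_) (by simp), if_pos (Or.inl rfl)]
    rintro (a | a)
    · exact h (Subtype.ext (Subtype.ext a))
    · have b := e'.2
      rw [a] at b
      exact hc _ _ e.1.2 (e.2.trans b.symm)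
  let D : (E → ZMod 2) →ₗ[ZMod 2] (X → ZMod 2) :=
    { toFun := fun y v => ∑ u ∈ univ.filter (fun u => H.Adj v.1 u), Y y v.1 u
      map_add' := fun y z => funext fun v => by
        simp only [Y, Pi.add_apply, ← sum_add_distrib]
        exact sum_congr rfl fun u _ => sum_congr rfl fun e _ => by split_ifs <;> simp
      map_smul' := fun a y => funext fun v => by
        simp only [Y, Pi.smul_apply, smul_eq_mul, RingHom.id_apply, mul_sum, mul_ite, mul_zero] }
  have out : ∀ y v, v ∉ X → ∑ u ∈ univ.filter (fun u => H.Adj v u), Y y v u = 0 := fun y v hv =>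
    sum_eq_zero fun u hu => absurd (hX _ _ (mem_filter.1 hu).2) hv
  let δ : (Q → ZMod 2) →ₗ[ZMod 2] (E → ZMod 2) :=
    { toFun := fun c e => c (Quotient.mk _ e.1) + c (Quotient.mk _ (sw e.1))
      map_add' := fun y z => funext fun e => by simp only [Pi.add_apply]; ring
      map_smul' := fun a y => funext fun e => by
        simp only [Pi.smul_apply, smul_eq_mul, RingHom.id_apply]; ring }
  obtain ⟨d0⟩ := hne
  have r1 : Module.finrank (ZMod 2) (LinearMap.range D) < X.card := by
    have ne : LinearMap.range D ≠ ⊤ := fun h => by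
      obtain ⟨y, hy⟩ := LinearMap.range_eq_top.1 h (Pi.single ⟨d0.1.1, hX _ _ d0.2⟩ 1)
      have a : ∑ v : X, D y v = 1 := by rw [hy]; simp
      have b := eul_sym (fun v u => if H.Adj v u then Y y v u else 0)
        (fun u v => by simp only [H.adj_comm u v, Ys y u v]) fun v => by simp
      simp only [← sum_filter] at b
      rw [← sum_subset (subset_univ X) fun v _ hv => out y v hv, ← sum_coe_sort] at b
      exact one_ne_zero (a.symm.trans b)
    simpa using Submodule.finrank_lt ne
  have r2 : 0 < Module.finrank (ZMod 2) (LinearMap.ker δ) := by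
    rw [Module.finrank_pos_iff, Submodule.nontrivial_iff_ne_bot]
    intro h
    have a : (fun _ => 1 : Q → ZMod 2) ∈ LinearMap.ker δ :=
      funext fun e => CharTwo.add_self_eq_zero (1 : ZMod 2)
    rw [h] at a
    exact one_ne_zero (congrFun a (Quotient.mk _ d0))
  have r3 : LinearMap.ker D ≤ LinearMap.range δ := by
    intro y hy
    obtain ⟨c, h⟩ := hR.jor (Y y) ⟨Ys y, fun v => by
      by_cases hv : v ∈ X
      exacts [congrFun hy ⟨v, hv⟩, out y v hv]⟩
    have p : ∀ (i : ℕ) (d : Dt H), c ((φ ^ i) d).1.1 ((φ ^ i) d).1.2 = c d.1.1 d.1.2 := by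
      intro i d
      induction i with
      | zero => rfl
      | succ i ih =>
        rw [pow_succ', Equiv.Perm.mul_apply, hφ, ← ih]
        exact (h _ _ ((φ ^ i) d).2).1.symm
    refine ⟨Quotient.lift (fun d : Dt H => c d.1.1 d.1.2) fun a b hab => ?_, funext fun e => ?_⟩
    · obtain ⟨i, -, rfl⟩ := Equiv.Perm.SameCycle.exists_pow_eq' hab
      exact (p i a).symm
    · change c e.1.1.1 e.1.1.2 + c e.1.1.2 e.1.1.1 = y e
      rw [(h _ _ e.1.2.symm).1, (h _ _ e.1.2).2, Ye, ← add_assoc, CharTwo.add_self_eq_zero, zero_add]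
  have s1 := D.finrank_range_add_finrank_ker
  have s2 := δ.finrank_range_add_finrank_ker
  have s3 := Submodule.finrank_mono r3
  rw [Module.finrank_fintype_fun_eq_card] at s1 s2
  have s4 : Nat.card Q = Fintype.card Q := Nat.card_eq_fintype_card
  change _ ≤ _ + 2 * Nat.card Q
  omega

end FZ
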