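import Pool.Agent.MP_cccb39_co.Fz.St

/-! The exceptional closing of a domino: the two small graphs. -/

namespace FZ

open Finset
open scoped Classical

theorem exc_ne {V : Type} {col : V → Bool} {b : Bool} {x y : V} (hx : col x = b)
    (hy : col y = !b) : x ≠ y := by
  intro e
  rw [e, hy] at hx
  revert hx
  cases b <;> simp

theorem exc_no {V : Type} {x a b c : V} (h : x = a ∨ x = b ∨ x = c) (ha : x ≠ a) (hb : x ≠ b)
    (hc : x ≠ c) : False := h.elim ha fun h => h.elim hb hc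

theorem exc : ExcS := by
  intro V _ G col p q w s r t P S W T c1 g h hPS hWT ⟨hP1, c1p, c1S⟩ h1W
  obtain ⟨cw, cr, cS, cT, cq, cs, ct, cP, cW⟩ := h.cols g
  have cc : col c1 = col p := g.same hP1.symm h.pP.symm
  have nP : ∀ {x}, G.Adj P x → x = p ∨ x = S ∨ x = c1 := fun hx =>
    g.nb3 h.pP.symm hPS hP1 h.S_p.symm c1p.symm c1S.symm hx
  obtain ⟨c0, hc0, c0s, c0P⟩ := g.third S s P
  have nS : ∀ {x}, G.Adj S x → x = s ∨ x = P ∨ x = c0 := fun hx =>
    g.nb3 h.sS.symm hPS.symm hc0 h.P_s.symm c0s.symm c0P.symm hx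
  have k0 : col c0 = !col p := (g.same hc0.symm h.sS.symm).trans cs
  have c0q : c0 ≠ q := fun e => exc_no (h.nq g (e ▸ hc0.symm)) h.S_p h.S_w h.S_r
  have c0t : c0 ≠ t := fun e => exc_no (h.nt g (e ▸ hc0.symm)) h.S_r h.S_w h.S_T
  by_cases e1 : c1 = T
  · rw [e1] at hP1 nP
    refine Or.inl ⟨hP1, ?_⟩
    by_contra hSW
    obtain ⟨w', hw', w'w, w'T⟩ := g.third W w T
    have k1 : col w' = col p := (g.same hw'.symm h.wW.symm).trans cw
    have c0W : c0 ≠ W := fun e => hSW (e ▸ hc0)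
    have w'p : w' ≠ p := fun e =>
      exc_no (h.np g (e ▸ hw'.symm)) h.W_q h.W_s h.P_W.symm
    have w'r : w' ≠ r := fun e => exc_no (h.nr g (e ▸ hw'.symm)) h.W_s h.W_t h.W_q
    have w'S : w' ≠ S := fun e => hSW (e ▸ hw'.symm)
    refine g.cut3 [p, w, r, S, T, q, s, t, P, W].toFinset
      (two_le (a := p) (b := w) (by simp) (by simp) h.p_w)
      (two_le_compl (a := c0) (b := w') ?_ ?_ (exc_ne k1 k0).symm) S c0 W w' W w' ?_
    · simp only [List.toFinset_cons, List.toFinset_nil, insert_empty_eq, mem_insert,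
        mem_singleton, not_or]
      exact ⟨(exc_ne rfl k0).symm, (exc_ne cw k0).symm, (exc_ne cr k0).symm, (exc_ne cS k0).symm,
        (exc_ne cT k0).symm, c0q, c0s, c0t, c0P, c0W⟩
    · simp only [List.toFinset_cons, List.toFinset_nil, insert_empty_eq, mem_insert,
        mem_singleton, not_or]
      exact ⟨w'p, w'w, w'r, w'S, w'T, exc_ne k1 cq, exc_ne k1 cs, exc_ne k1 ct, exc_ne k1 cP,
        exc_ne k1 cW⟩
    · intro u hu v hv huv
      simp only [List.toFinset_cons, List.toFinset_nil, insert_empty_eq, mem_insert,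
        mem_singleton, not_or] at hu hv
      obtain ⟨vp, vw, vr, vS, vT, vq, vs, vt, vP, vW⟩ := hv
      rcases hu with e | e | e | e | e | e | e | e | e | e <;> rw [e] at huv
      · exact (exc_no (h.np g huv) vq vs vP).elim
      · exact (exc_no (h.nw g huv) vq vt vW).elim
      · exact (exc_no (h.nr g huv) vs vt vq).elim
      · exact Or.inl ⟨e, ((nS huv).resolve_left vs).resolve_left vP⟩
      · exact (exc_no (g.nb3 h.tT.symm hWT.symm hP1.symm h.W_t.symm h.P_t.symm h.P_W.symm huv)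
          vt vW vP).elim
      · exact (exc_no (h.nq g huv) vp vw vr).elim
      · exact (exc_no (h.ns g huv) vr vp vS).elim
      · exact (exc_no (h.nt g huv) vr vw vT).elim
      · exact (exc_no (nP huv) vp vS vT).elim
      · exact Or.inr (Or.inl ⟨e, ((g.nb3 h.wW.symm hWT hw' h.T_w.symm w'w.symm w'T.symm
          huv).resolve_left vw).resolve_left vT⟩)
  · have c1w : c1 ≠ w := fun e => exc_no (h.nw g (e ▸ hP1.symm)) h.P_q h.P_t h.P_W
    have c1r : c1 ≠ r := fun e => exc_no (h.nr g (e ▸ hP1.symm)) h.P_s h.P_t h.P_q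
    have nW : ∀ {x}, G.Adj W x → x = w ∨ x = T ∨ x = c1 := fun hx =>
      g.nb3 h.wW.symm hWT h1W.symm h.T_w.symm c1w.symm (Ne.symm e1) hx
    obtain ⟨T', hT', T't, T'W⟩ := g.third T t W
    obtain ⟨c', hc', c'P, c'W⟩ := g.third c1 P W
    have k1 : col T' = !col p := (g.same hT'.symm h.tT.symm).trans ct
    have k2 : col c' = !col p := (g.same hc'.symm hP1.symm).trans cP
    have c0W : c0 ≠ W := fun e => exc_no (nW (e ▸ hc0.symm)) h.S_w h.S_T c1S.symm
    have out : ∀ y, col y = !col p → y ≠ q → y ≠ s → y ≠ t → y ≠ P → y ≠ W →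
        y ∉ [p, w, r, S, T, c1, q, s, t, P, W].toFinset := by
      intro y k a1 a2 a3 a4 a5
      simp only [List.toFinset_cons, List.toFinset_nil, insert_empty_eq, mem_insert,
        mem_singleton, not_or]
      exact ⟨(exc_ne rfl k).symm, (exc_ne cw k).symm, (exc_ne cr k).symm, (exc_ne cS k).symm,
        (exc_ne cT k).symm, (exc_ne cc k).symm, a1, a2, a3, a4, a5⟩
    have o0 := out c0 k0 c0q c0s c0t c0P c0W
    have o1 := out T' k1 (fun e => exc_no (h.nq g (e ▸ hT'.symm)) h.T_p h.T_w h.T_r)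
      (fun e => exc_no (h.ns g (e ▸ hT'.symm)) h.T_r h.T_p h.S_T.symm) T't
      (fun e => exc_no (nP (e ▸ hT'.symm)) h.T_p h.S_T.symm (Ne.symm e1)) T'W
    have o2 := out c' k2 (fun e => exc_no (h.nq g (e ▸ hc'.symm)) c1p c1w c1r)
      (fun e => exc_no (h.ns g (e ▸ hc'.symm)) c1r c1p c1S)
      (fun e => exc_no (h.nt g (e ▸ hc'.symm)) c1r c1w e1) c'P c'W
    have key : ¬ 2 ≤ ([p, w, r, S, T, c1, q, s, t, P, W].toFinset)ᶜ.card := by
      intro h2
      refine g.cut3 _ (two_le (a := p) (b := w) (by simp) (by simp) h.p_w) h2 S c0 T T' c1 c' ?_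
      intro u hu v hv huv
      simp only [List.toFinset_cons, List.toFinset_nil, insert_empty_eq, mem_insert,
        mem_singleton, not_or] at hu hv
      obtain ⟨vp, vw, vr, vS, vT, vc, vq, vs, vt, vP, vW⟩ := hv
      rcases hu with e | e | e | e | e | e | e | e | e | e | e <;> rw [e] at huv
      · exact (exc_no (h.np g huv) vq vs vP).elim
      · exact (exc_no (h.nw g huv) vq vt vW).elim
      · exact (exc_no (h.nr g huv) vs vt vq).elim
      · exact Or.inl ⟨e, ((nS huv).resolve_left vs).resolve_left vP⟩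
      · exact Or.inr (Or.inl ⟨e, ((g.nb3 h.tT.symm hWT.symm hT' h.W_t.symm T't.symm T'W.symm
          huv).resolve_left vt).resolve_left vW⟩)
      · exact Or.inr (Or.inr ⟨e, ((g.nb3 hP1.symm h1W hc' h.P_W c'P.symm c'W.symm
          huv).resolve_left vP).resolve_left vW⟩)
      · exact (exc_no (h.nq g huv) vp vw vr).elim
      · exact (exc_no (h.ns g huv) vr vp vS).elim
      · exact (exc_no (h.nt g huv) vr vw vT).elim
      · exact (exc_no (nP huv) vp vS vc).elim
      · exact (exc_no (nW huv) vw vT vc).elim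
    have q1 : T' = c0 := by_contra fun e => key (two_le_compl o1 o0 e)
    have q2 : c' = c0 := by_contra fun e => key (two_le_compl o2 o0 e)
    rw [q1] at hT'
    rw [q2] at hc'
    refine Or.inr ⟨c0, hP1.symm, h.pP.symm, h.pq, h.qw, h.wW, h1W.symm, hc0.symm, h.sS.symm, h.sr,
      h.rt, h.tT, hT', hc', hPS, h.ps, h.qr, h.wt, hWT, ?_⟩
    simp only [List.nodup_cons, List.mem_cons, List.not_mem_nil, or_false, not_or,
      List.nodup_nil, and_true, not_false_eq_true]
    exact ⟨⟨exc_ne cc cP, c1p, exc_ne cc cq, c1w, exc_ne cc cW, exc_ne cc k0, c1S, exc_ne cc cs,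
        c1r, exc_ne cc ct, e1⟩,
      ⟨(exc_ne rfl cP).symm, h.P_q, (exc_ne cw cP).symm, h.P_W, c0P.symm, (exc_ne cS cP).symm,
        h.P_s, (exc_ne cr cP).symm, h.P_t, (exc_ne cT cP).symm⟩,
      ⟨exc_ne rfl cq, h.p_w, exc_ne rfl cW, exc_ne rfl k0, h.S_p.symm, exc_ne rfl cs, h.p_r,
        exc_ne rfl ct, h.T_p.symm⟩,
      ⟨(exc_ne cw cq).symm, h.W_q.symm, c0q.symm, (exc_ne cS cq).symm, h.q_s,
        (exc_ne cr cq).symm, h.q_t, (exc_ne cT cq).symm⟩,
      ⟨exc_ne cw cW, exc_ne cw k0, h.S_w.symm, exc_ne cw cs, h.w_r, exc_ne cw ct, h.T_w.symm⟩,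
      ⟨c0W.symm, (exc_ne cS cW).symm, h.W_s, (exc_ne cr cW).symm, h.W_t, (exc_ne cT cW).symm⟩,
      ⟨(exc_ne cS k0).symm, c0s, (exc_ne cr k0).symm, c0t, (exc_ne cT k0).symm⟩,
      ⟨exc_ne cS cs, h.S_r, exc_ne cS ct, h.S_T⟩,
      ⟨(exc_ne cr cs).symm, h.s_t, (exc_ne cT cs).symm⟩, ⟨exc_ne cr ct, h.T_r.symm⟩,
      (exc_ne cT ct).symm⟩

end FZ
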