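import Pool.Agent.MP_cccb39_co.Fz.St

namespace FZ

open Finset
open scoped Classical

theorem ext : ExtS := by
  intro R h1 h2
  obtain ⟨β, hβ⟩ := Equiv.Perm.exists_extending_pair
    (f := fun q : {q : Fin 3 × Fin 3 // R q.1 q.2} => q.1.1) (g := fun q => q.1.2)
    (fun a b (h : a.1.1 = b.1.1) => Subtype.ext (Prod.ext h (h1 _ _ _ (h ▸ a.2) b.2)))
    (fun a b (h : a.1.2 = b.1.2) => Subtype.ext (Prod.ext (h2 _ _ _ (h ▸ a.2) b.2) h))
  exact ⟨β, fun i j h => (hβ ⟨(i, j), h⟩).symm⟩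

end FZ
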