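import Pool.Agent.MP_cccb39_co.Fz.St

namespace FZ

open Finset
open scoped Classical

theorem fd_ins {V : Type} [Fintype V] (H : SimpleGraph V) (S : Finset V) (v : V) (hv : v ∉ S) :
    ∑ u ∈ insert v S, dg H (insert v S) u = ∑ u ∈ S, dg H S u + 2 * dg H S v := by
  have h1 : ∀ u, dg H (insert v S) u = dg H S u + if H.Adj u v then 1 else 0 := by
    intro u
    unfold dg
    rw [filter_insert]
    split_ifs
    · rw [card_insert_of_notMem (fun h => hv (mem_filter.1 h).1)]
    · rfl
  have h2 : ∑ u ∈ S, (if H.Adj u v then 1 else 0) = dg H S v := by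
    unfold dg
    rw [card_filter]
    exact sum_congr rfl fun u _ => by simp only [H.adj_comm]
  rw [sum_insert hv]
  simp only [h1]
  rw [sum_add_distrib, h2, if_neg (H.irrefl)]
  omega

theorem fd : FdS := by
  intro V _ H Q
  constructor
  · intro h
    induction h with
    | nil =>
      intro S hS hne
      rw [subset_empty.1 hS] at hne
      exact absurd hne not_nonempty_empty
    | ins Q v _ hv hu ih =>
      intro S hS hne
      by_cases hvS : v ∈ S
      · have hs : S.erase v ⊆ Q := fun x hx =>
          (mem_insert.1 (hS (mem_erase.1 hx).2)).resolve_left (mem_erase.1 hx).1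
        have e := fd_ins H (S.erase v) v (notMem_erase v S)
        rw [insert_erase hvS] at e
        have c := card_erase_add_one hvS
        have d : dg H (S.erase v) v ≤ 1 := card_le_one.2 fun a ha b hb =>
          hu a (hs (mem_filter.1 ha).1) b (hs (mem_filter.1 hb).1) (mem_filter.1 ha).2
            (mem_filter.1 hb).2
        rcases (S.erase v).eq_empty_or_nonempty with h0 | h0
        · rw [h0] at e c
          have z : dg H ∅ v = 0 := by simp [dg]
          rw [sum_empty, z] at e
          omega
        · have := ih _ hs h0
          omega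
      · exact ih S (fun x hx => (mem_insert.1 (hS hx)).resolve_left fun h => hvS (h ▸ hx)) hne
  · induction Q using Finset.strongInduction with
    | H Q ih =>
      intro h
      rcases Q.eq_empty_or_nonempty with rfl | hne
      · exact Fo.nil
      have h1 := h Q Subset.rfl hne
      obtain ⟨v, hv, hd⟩ : ∃ v ∈ Q, dg H Q v ≤ 1 := by
        by_contra hc
        push Not at hc
        have := card_nsmul_le_sum Q (fun v => dg H Q v) 2 hc
        rw [smul_eq_mul] at this
        omega
      rw [← insert_erase hv]
      refine Fo.ins _ v (ih _ (erase_ssubset hv) fun S hS => h S (hS.trans (erase_subset _ _)))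
        (notMem_erase v Q) fun a ha b hb h2 h3 => ?_
      exact card_le_one.1 hd a (mem_filter.2 ⟨(mem_erase.1 ha).2, h2⟩) b
        (mem_filter.2 ⟨(mem_erase.1 hb).2, h3⟩)

end FZ
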