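import Pool.Agent.MP_cccb39_co.Fz.St

namespace FZ

open Finset
open scoped Classical

theorem genb_out {V : Type} [Pt V] {G : SimpleGraph V} {col : V → Bool} (g : Gr G col)
    {Q Y : Finset V} {c2 d2 a o1 d1 o2 y d3 : V} (h : Tight G Q c2 d2 a o1 d1 o2 Y)
    (s : Sq G y d1 d2 d3) (hy : y ∈ Q) (hd : d2 ∈ Q) {u v : V} (hu : u ∈ Y) (ua : u ≠ a)
    (hv : v ∉ Y) (vd : v ≠ d2) (uv : G.Adj u v) : (u = o1 ∧ v = c2) ∨ (u = d1 ∧ v = y) := by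
  obtain ⟨hq, e | e | e | e⟩ := (h.clo u hu v uv).resolve_left hv
  · exact absurd e ua
  · exact Or.inl ⟨e, h.ta v hq (e ▸ uv)⟩
  · obtain ⟨o, ho, ho'⟩ := h.os
    rcases g.nb3 s.ab.symm s.bc ho' s.ac (fun e => ho (e ▸ hy)) (fun e => ho (e ▸ hd))
      (e ▸ uv) with f | f | f
    · exact Or.inr ⟨e, f⟩
    · exact absurd f vd
    · exact absurd (f ▸ hq) ho
  · exact absurd (h.ts v hq (e ▸ uv)) vd

theorem genB : GenBS := by
  intro V _ G col x c1 c2 c3 y d1 d2 d3 o1 o2 R Y Z g h tY tZ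
  have qR : ∀ a, ∀ z ∈ R, z ∈ DQ R a c2 d3 d2 := fun a z hz => by simp [DQ, hz]
  have qd : ∀ a, d2 ∈ DQ R a c2 d3 d2 := fun a => by simp [DQ]
  have qc : ∀ a, c2 ∈ DQ R a c2 d3 d2 := fun a => by simp [DQ]
  have qa : ∀ a, a ∈ DQ R a c2 d3 d2 := fun a => by simp [DQ]
  have nY : ∀ z ∈ DQ R c3 c2 d3 d2, z ∉ Y := fun z hz hz' => disjoint_left.1 tY.dis hz' hz
  have nZ : ∀ z ∈ DQ R c1 c2 d3 d2, z ∉ Z := fun z hz hz' => disjoint_left.1 tZ.dis hz' hz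
  have out : ∀ z ∈ DQ R c3 c2 d3 d2, z ≠ d2 → z ∉ insert d2 (Y ∩ Z) := fun z hz e hz' =>
    nY z hz (mem_inter.1 ((mem_insert.1 hz').resolve_left e)).1
  have s := h.two.s2
  refine g.cut3 (insert d2 (Y ∩ Z))
    (two_le (mem_insert_self _ _) (mem_insert_of_mem (mem_inter.2 ⟨tY.ms, tZ.ms⟩)) s.bc.ne.symm)
    (two_le_compl (out x (qR _ _ h.ps.m1) (h.two.dis x (by simp) d2 (by simp)))
      (out c2 (qc _) (h.two.dis c2 (by simp) d2 (by simp))) h.two.s1.ac)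
    o1 c2 d1 y d2 d3 fun u hu v hv uv => ?_
  have vd : v ≠ d2 := fun e => hv (e ▸ mem_insert_self _ _)
  have hv' : v ∉ Y ∩ Z := fun e => hv (mem_insert_of_mem e)
  rcases mem_insert.1 hu with e | hu'
  · subst e
    rcases g.nb3 s.bc.symm s.cd h.e2 s.bd h.e21.symm h.e23.symm uv with f | f | f
    · exact absurd (f ▸ mem_inter.2 ⟨tY.ms, tZ.ms⟩) hv'
    · exact Or.inr (Or.inr ⟨rfl, f⟩)
    · exact absurd (f ▸ mem_inter.2 ⟨tY.ms', tZ.ms'⟩) hv'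
  · obtain ⟨uY, uZ⟩ := mem_inter.1 hu'
    have key : (u = o1 ∧ v = c2) ∨ (u = d1 ∧ v = y) := by
      by_cases vY : v ∈ Y
      · exact genb_out g tZ s (qR _ _ h.ps.m2) (qd _) uZ (fun e => nY _ (qa _) (e ▸ uY))
          (fun e => hv' (mem_inter.2 ⟨vY, e⟩)) vd uv
      · exact genb_out g tY s (qR _ _ h.ps.m2) (qd _) uY (fun e => nZ _ (qa _) (e ▸ uZ)) vY vd uv
    exact key.imp_right Or.inl

end FZ
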