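import Pool.Agent.MP_cccb39_co.Fz.St

namespace FZ

open Finset
open scoped Classical

private theorem not_mem_singleton_hex {V : Type} {u a : V} (h : u ≠ a) :
    u ∉ ({a} : Finset V) := fun e => h (mem_singleton.1 e)

private theorem not_mem_insert_hex {V : Type} {u a : V} {Q : Finset V} (h : u ≠ a) (k : u ∉ Q) :
    u ∉ insert a Q := fun e => (mem_insert.1 e).elim h k

theorem hex : HexS := by
  intro V _ G col t0 t1 t2 t3 t4 t5 b0 b1 b2 b3 b4 b5 g h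
  have nd := h.nd
  simp only [List.nodup_cons, List.mem_cons, List.not_mem_nil, or_false, not_or,
    List.nodup_nil, and_true, not_false_eq_true] at nd
  obtain ⟨⟨nt0t1, nt0t2, nt0t3, nt0t4, nt0t5, nt0b0, nt0b1, nt0b2, nt0b3, nt0b4, nt0b5⟩,
    ⟨nt1t2, nt1t3, nt1t4, nt1t5, nt1b0, nt1b1, nt1b2, nt1b3, nt1b4, nt1b5⟩,
    ⟨nt2t3, nt2t4, nt2t5, nt2b0, nt2b1, nt2b2, nt2b3, nt2b4, nt2b5⟩,
    ⟨nt3t4, nt3t5, nt3b0, nt3b1, nt3b2, nt3b3, nt3b4, nt3b5⟩,
    ⟨nt4t5, nt4b0, nt4b1, nt4b2, nt4b3, nt4b4, nt4b5⟩,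
    ⟨nt5b0, nt5b1, nt5b2, nt5b3, nt5b4, nt5b5⟩,
    ⟨nb0b1, nb0b2, nb0b3, nb0b4, nb0b5⟩,
    ⟨nb1b2, nb1b3, nb1b4, nb1b5⟩,
    ⟨nb2b3, nb2b4, nb2b5⟩,
    ⟨nb3b4, nb3b5⟩,
    nb4b5⟩ := nd
  have Nt0 : ∀ w, G.Adj t0 w → w = t1 ∨ w = t5 ∨ w = b0 := fun w hw =>
    g.toCb.nb3 h.t01 h.t50.symm h.r0 nt1t5 nt1b0 nt5b0 hw
  have Nt2 : ∀ w, G.Adj t2 w → w = t1 ∨ w = t3 ∨ w = b2 := fun w hw =>
    g.toCb.nb3 h.t12.symm h.t23 h.r2 nt1t3 nt1b2 nt3b2 hw
  have Nt3 : ∀ w, G.Adj t3 w → w = t2 ∨ w = t4 ∨ w = b3 := fun w hw =>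
    g.toCb.nb3 h.t23.symm h.t34 h.r3 nt2t4 nt2b3 nt4b3 hw
  have Nt4 : ∀ w, G.Adj t4 w → w = t3 ∨ w = t5 ∨ w = b4 := fun w hw =>
    g.toCb.nb3 h.t34.symm h.t45 h.r4 nt3t5 nt3b4 nt5b4 hw
  have Nt5 : ∀ w, G.Adj t5 w → w = t0 ∨ w = t4 ∨ w = b5 := fun w hw =>
    g.toCb.nb3 h.t50 h.t45.symm h.r5 nt0t4 nt0b5 nt4b5 hw
  have Nb0 : ∀ w, G.Adj b0 w → w = t0 ∨ w = b1 ∨ w = b5 := fun w hw =>
    g.toCb.nb3 h.r0.symm h.b01 h.b50.symm nt0b1 nt0b5 nb1b5 hw
  have Nb3 : ∀ w, G.Adj b3 w → w = t3 ∨ w = b2 ∨ w = b4 := fun w hw =>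
    g.toCb.nb3 h.r3.symm h.b23.symm h.b34 nt3b2 nt3b4 nb2b4 hw
  have Nb4 : ∀ w, G.Adj b4 w → w = t4 ∨ w = b3 ∨ w = b5 := fun w hw =>
    g.toCb.nb3 h.r4.symm h.b34.symm h.b45 nt4b3 nt4b5 nb3b5 hw
  have Nb5 : ∀ w, G.Adj b5 w → w = t5 ∨ w = b0 ∨ w = b4 := fun w hw =>
    g.toCb.nb3 h.r5.symm h.b50 h.b45.symm nt5b0 nt5b4 nb0b4 hw
  have P0 := PS.one G b2
  have P1 := P0.ext t2 (not_mem_singleton_hex nt2b2) h.r2 (by
    intro x hx ha
    rcases Nt2 x ha with e | e | e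
    · exact absurd (e ▸ hx) (not_mem_singleton_hex nt1b2)
    · exact absurd (e ▸ hx) (not_mem_singleton_hex nt3b2)
    · exact e)
  have P2 := P1.ext t3 (not_mem_insert_hex (Ne.symm nt2t3) (not_mem_singleton_hex nt3b2)) h.t23.symm (by
    intro x hx ha
    rcases Nt3 x ha with e | e | e
    · exact e
    · exact absurd (e ▸ hx) (not_mem_insert_hex (Ne.symm nt2t4) (not_mem_singleton_hex nt4b2))
    · exact absurd (e ▸ hx) (not_mem_insert_hex (Ne.symm nt2b3) (not_mem_singleton_hex (Ne.symm nb2b3))))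
  have P3 := P2.ext t4 (not_mem_insert_hex (Ne.symm nt3t4) (not_mem_insert_hex (Ne.symm nt2t4) (not_mem_singleton_hex nt4b2))) h.t34.symm (by
    intro x hx ha
    rcases Nt4 x ha with e | e | e
    · exact e
    · exact absurd (e ▸ hx) (not_mem_insert_hex (Ne.symm nt3t5) (not_mem_insert_hex (Ne.symm nt2t5) (not_mem_singleton_hex nt5b2)))
    · exact absurd (e ▸ hx) (not_mem_insert_hex (Ne.symm nt3b4) (not_mem_insert_hex (Ne.symm nt2b4) (not_mem_singleton_hex (Ne.symm nb2b4)))))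
  have P4 := P3.ext b4 (not_mem_insert_hex (Ne.symm nt4b4) (not_mem_insert_hex (Ne.symm nt3b4) (not_mem_insert_hex (Ne.symm nt2b4) (not_mem_singleton_hex (Ne.symm nb2b4))))) h.r4.symm (by
    intro x hx ha
    rcases Nb4 x ha with e | e | e
    · exact e
    · exact absurd (e ▸ hx) (not_mem_insert_hex (Ne.symm nt4b3) (not_mem_insert_hex (Ne.symm nt3b3) (not_mem_insert_hex (Ne.symm nt2b3) (not_mem_singleton_hex (Ne.symm nb2b3)))))
    · exact absurd (e ▸ hx) (not_mem_insert_hex (Ne.symm nt4b5) (not_mem_insert_hex (Ne.symm nt3b5) (not_mem_insert_hex (Ne.symm nt2b5) (not_mem_singleton_hex (Ne.symm nb2b5))))))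
  have P5 := P4.ext b5 (not_mem_insert_hex (Ne.symm nb4b5) (not_mem_insert_hex (Ne.symm nt4b5) (not_mem_insert_hex (Ne.symm nt3b5) (not_mem_insert_hex (Ne.symm nt2b5) (not_mem_singleton_hex (Ne.symm nb2b5)))))) h.b45.symm (by
    intro x hx ha
    rcases Nb5 x ha with e | e | e
    · exact absurd (e ▸ hx) (not_mem_insert_hex nt5b4 (not_mem_insert_hex (Ne.symm nt4t5) (not_mem_insert_hex (Ne.symm nt3t5) (not_mem_insert_hex (Ne.symm nt2t5) (not_mem_singleton_hex nt5b2)))))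
    · exact absurd (e ▸ hx) (not_mem_insert_hex nb0b4 (not_mem_insert_hex (Ne.symm nt4b0) (not_mem_insert_hex (Ne.symm nt3b0) (not_mem_insert_hex (Ne.symm nt2b0) (not_mem_singleton_hex nb0b2)))))
    · exact e)
  have P6 := P5.ext b0 (not_mem_insert_hex nb0b5 (not_mem_insert_hex nb0b4 (not_mem_insert_hex (Ne.symm nt4b0) (not_mem_insert_hex (Ne.symm nt3b0) (not_mem_insert_hex (Ne.symm nt2b0) (not_mem_singleton_hex nb0b2)))))) h.b50.symm (by
    intro x hx ha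
    rcases Nb0 x ha with e | e | e
    · exact absurd (e ▸ hx) (not_mem_insert_hex nt0b5 (not_mem_insert_hex nt0b4 (not_mem_insert_hex nt0t4 (not_mem_insert_hex nt0t3 (not_mem_insert_hex nt0t2 (not_mem_singleton_hex nt0b2))))))
    · exact absurd (e ▸ hx) (not_mem_insert_hex nb1b5 (not_mem_insert_hex nb1b4 (not_mem_insert_hex (Ne.symm nt4b1) (not_mem_insert_hex (Ne.symm nt3b1) (not_mem_insert_hex (Ne.symm nt2b1) (not_mem_singleton_hex nb1b2))))))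
    · exact e)
  have P7 := P6.ext t0 (not_mem_insert_hex nt0b0 (not_mem_insert_hex nt0b5 (not_mem_insert_hex nt0b4 (not_mem_insert_hex nt0t4 (not_mem_insert_hex nt0t3 (not_mem_insert_hex nt0t2 (not_mem_singleton_hex nt0b2))))))) h.r0 (by
    intro x hx ha
    rcases Nt0 x ha with e | e | e
    · exact absurd (e ▸ hx) (not_mem_insert_hex nt1b0 (not_mem_insert_hex nt1b5 (not_mem_insert_hex nt1b4 (not_mem_insert_hex nt1t4 (not_mem_insert_hex nt1t3 (not_mem_insert_hex nt1t2 (not_mem_singleton_hex nt1b2)))))))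
    · exact absurd (e ▸ hx) (not_mem_insert_hex nt5b0 (not_mem_insert_hex nt5b5 (not_mem_insert_hex nt5b4 (not_mem_insert_hex (Ne.symm nt4t5) (not_mem_insert_hex (Ne.symm nt3t5) (not_mem_insert_hex (Ne.symm nt2t5) (not_mem_singleton_hex nt5b2)))))))
    · exact e)
  have At5 : ∀ w, G.Adj t5 w → w ∈ ({t0, b0, b5, b4, t4, t3, t2, b2} : Finset V) := by
    intro x ha
    rcases Nt5 x ha with e | e | e
    · exact e ▸ (mem_insert_self _ _)
    · exact e ▸ (mem_insert_of_mem (mem_insert_of_mem (mem_insert_of_mem (mem_insert_of_mem (mem_insert_self _ _)))))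
    · exact e ▸ (mem_insert_of_mem (mem_insert_of_mem (mem_insert_self _ _)))
  have Ab3 : ∀ w, G.Adj b3 w → w ∈ ({t0, b0, b5, b4, t4, t3, t2, b2} : Finset V) := by
    intro x ha
    rcases Nb3 x ha with e | e | e
    · exact e ▸ (mem_insert_of_mem (mem_insert_of_mem (mem_insert_of_mem (mem_insert_of_mem (mem_insert_of_mem (mem_insert_self _ _))))))
    · exact e ▸ (mem_insert_of_mem (mem_insert_of_mem (mem_insert_of_mem (mem_insert_of_mem (mem_insert_of_mem (mem_insert_of_mem (mem_insert_of_mem (mem_singleton_self _))))))))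
    · exact e ▸ (mem_insert_of_mem (mem_insert_of_mem (mem_insert_of_mem (mem_insert_self _ _))))
  have Mt5 : t5 ∉ ({t0, b0, b5, b4, t4, t3, t2, b2} : Finset V) :=
    (not_mem_insert_hex (Ne.symm nt0t5) (not_mem_insert_hex nt5b0 (not_mem_insert_hex nt5b5 (not_mem_insert_hex nt5b4 (not_mem_insert_hex (Ne.symm nt4t5) (not_mem_insert_hex (Ne.symm nt3t5) (not_mem_insert_hex (Ne.symm nt2t5) (not_mem_singleton_hex nt5b2))))))))
  have Mt1 : t1 ∉ ({t0, b0, b5, b4, t4, t3, t2, b2} : Finset V) :=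
    (not_mem_insert_hex (Ne.symm nt0t1) (not_mem_insert_hex nt1b0 (not_mem_insert_hex nt1b5 (not_mem_insert_hex nt1b4 (not_mem_insert_hex nt1t4 (not_mem_insert_hex nt1t3 (not_mem_insert_hex nt1t2 (not_mem_singleton_hex nt1b2))))))))
  have Mb3 : b3 ∉ ({t0, b0, b5, b4, t4, t3, t2, b2} : Finset V) :=
    (not_mem_insert_hex (Ne.symm nt0b3) (not_mem_insert_hex (Ne.symm nb0b3) (not_mem_insert_hex nb3b5 (not_mem_insert_hex nb3b4 (not_mem_insert_hex (Ne.symm nt4b3) (not_mem_insert_hex (Ne.symm nt3b3) (not_mem_insert_hex (Ne.symm nt2b3) (not_mem_singleton_hex (Ne.symm nb2b3)))))))))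
  have Mb1 : b1 ∉ ({t0, b0, b5, b4, t4, t3, t2, b2} : Finset V) :=
    (not_mem_insert_hex (Ne.symm nt0b1) (not_mem_insert_hex (Ne.symm nb0b1) (not_mem_insert_hex nb1b5 (not_mem_insert_hex nb1b4 (not_mem_insert_hex (Ne.symm nt4b1) (not_mem_insert_hex (Ne.symm nt3b1) (not_mem_insert_hex (Ne.symm nt2b1) (not_mem_singleton_hex nb1b2))))))))
  have It4 : t4 ∈ ({t0, b0, b5, b4, t4, t3, t2, b2} : Finset V) :=
    (mem_insert_of_mem (mem_insert_of_mem (mem_insert_of_mem (mem_insert_of_mem (mem_insert_self _ _)))))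
  have Ib4 : b4 ∈ ({t0, b0, b5, b4, t4, t3, t2, b2} : Finset V) :=
    (mem_insert_of_mem (mem_insert_of_mem (mem_insert_of_mem (mem_insert_self _ _))))
  refine ⟨{t0, b0, b5, b4, t4, t3, t2, b2}, t1, b1, ?_, It4, (Ne.symm nt0t4), h.t45.symm, Ib4,
    (Ne.symm nb2b4), h.b34⟩
  exact
    { ps := P7
      ne := nt0b2
      na := Mt5
      na' := Mt1
      ns := Mb3
      ns' := Mb1
      d1 := (Ne.symm nt1t5)
      d2 := nt5b3
      d3 := nt5b1
      d4 := nt1b3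
      d5 := nt1b1
      d6 := (Ne.symm nb1b3)
      e1 := h.t50.symm
      e1' := h.t01
      e2 := h.b23
      e2' := h.b12.symm
      l1 := ⟨t4, It4, (Ne.symm nt0t4), h.t45.symm⟩
      l2 := ⟨b4, Ib4, (Ne.symm nb2b4), h.b34⟩
      p1 := fun t ht ha _ => ht (At5 t ha)
      p2 := fun t ht ha _ => ht (Ab3 t ha)
      db1 := fun e => Mb3 (At5 _ e.1)
      db2 := fun e => Mb1 (At5 _ e.1)
      cl := fun Y k => k.oa.elim fun x hx => hx.1 (At5 x hx.2) }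

end FZ
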