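import Pool.Agent.MP_cccb39_co.Fz.St

namespace FZ

open Finset
open scoped Classical

/-- A square `x a y b` inside `X` of a complete bipartite block: peripheral, and linked. -/
theorem k23_per {V : Type} [Fintype V] {G : SimpleGraph V} {col : V → Bool} {X : Finset V}
    {x y a b c a' b' c' : V} (g : Cb G col) (mx : x ∈ X) (my : y ∈ X) (ma : a ∈ X) (mb : b ∈ X)
    (na : a' ∉ X) (nb : b' ∉ X) (nc : c' ∉ X) (ea : G.Adj a a') (eb : G.Adj b b')
    (ec : G.Adj c c') (xy : x ≠ y) (ab : a ≠ b) (ac : a ≠ c) (bc : b ≠ c) (xa : G.Adj x a)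
    (xb : G.Adj x b) (xc : G.Adj x c) (ya : G.Adj y a) (yb : G.Adj y b) (yc : G.Adj y c)
    (con : ∀ Z : Finset V, Clo G Xᶜ Z → (∃ y ∈ Z, y ∉ X) → ∀ y, y ∉ X → y ∈ Z) :
    Per G {x, a, y, b} ∧ c ∉ ({x, a, y, b} : Finset V) ∧ b' ∉ ({x, a, y, b} : Finset V) ∧
      Lk G {x, a, y, b} c b' := by
  have sub : ∀ v ∈ ({x, a, y, b} : Finset V), v ∈ X := by
    intro v hv
    simp only [mem_insert, mem_singleton] at hv
    rcases hv with rfl | rfl | rfl | rfl <;> assumption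
  have out : ∀ v, v ∉ X → v ∉ ({x, a, y, b} : Finset V) := fun v hv h => hv (sub v h)
  have hc : c ∉ ({x, a, y, b} : Finset V) := by
    simp only [mem_insert, mem_singleton, not_or]
    exact ⟨xc.ne', ac.symm, yc.ne', bc.symm⟩
  have ne : ∀ {u v : V}, u ∈ X → v ∉ X → u ≠ v := fun hu hv e => hv (e ▸ hu)
  refine ⟨fun v hv => ?_, hc, out _ nb, fun Z hZ hz => ?_⟩
  · simp only [mem_insert, mem_singleton] at hv
    rcases hv with rfl | rfl | rfl | rfl
    · refine ⟨c, hc, xc, fun w hw hn => ?_⟩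
      rcases g.nb3 xa xb xc ab ac bc hw with rfl | rfl | rfl
      · simp at hn
      · simp at hn
      · rfl
    · refine ⟨a', out _ na, ea, fun w hw hn => ?_⟩
      rcases g.nb3 xa.symm ya.symm ea xy (ne mx na) (ne my na) hw with rfl | rfl | rfl
      · simp at hn
      · simp at hn
      · rfl
    · refine ⟨c, hc, yc, fun w hw hn => ?_⟩
      rcases g.nb3 ya yb yc ab ac bc hw with rfl | rfl | rfl
      · simp at hn
      · simp at hn
      · rfl
    · refine ⟨b', out _ nb, eb, fun w hw hn => ?_⟩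
      rcases g.nb3 xb.symm yb.symm eb xy (ne mx nb) (ne my nb) hw with rfl | rfl | rfl
      · simp at hn
      · simp at hn
      · rfl
  · refine con Z (fun z hz' v hv e => hZ z hz' v (mem_compl.2 (out v (mem_compl.1 hv))) e)
      ⟨c', hZ c hz c' (mem_compl.2 (out _ nc)) ec, nc⟩ b' nb

theorem k23e : K23S := by
  intro V _ G col X u1 u2 u3 v1 v2 v3 x y g th h mx my xy x1 x2 x3 y1 y2 y3
  obtain ⟨p1, c1, o1, l1⟩ := k23_per g mx my h.m1 h.m2 h.n1 h.n2 h.n3 h.e1 h.e2 h.e3 xy h.u12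
    h.u13 h.u23 x1 x2 x3 y1 y2 y3 h.con
  obtain ⟨p2, c2, o2, l2⟩ := k23_per g mx my h.m3 h.m2 h.n3 h.n2 h.n1 h.e3 h.e2 h.e1 xy h.u23.symm
    h.u13.symm h.u12.symm x3 x2 x1 y3 y2 y1 h.con
  exact th {x, u1, y, u2} {x, u3, y, u2} u1 u3 x u2 y v2
    ⟨p1, p2, by simp, by simp, by simp, by simp, c1, by simp, by simp, by simp, by simp, c2, o1, o2,
      x1, x3, x2, y2.symm, h.e2, h.u12, h.u23.symm, xy, l1, l2⟩

end FZ
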