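import Pool.Agent.MP_cccb39_co.Fz.St

set_option linter.unusedSectionVars false

namespace FZ

open Finset
open scoped Classical

theorem k4_per {V : Type} [Fintype V] {G : SimpleGraph V} {col : V → Bool} (g : Cb G col)
    {C : Finset V} {v a b o : V} (ha : G.Adj v a) (hb : G.Adj v b) (ho : G.Adj v o) (ab : a ≠ b)
    (ha' : a ∈ C) (hb' : b ∈ C) (ho' : o ∉ C) :
    ∃ o, o ∉ C ∧ G.Adj v o ∧ ∀ x, G.Adj v x → x ∉ C → x = o := by
  refine ⟨o, ho', ho, fun x hx hx' => ?_⟩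
  rcases g.nb3 ha hb ho ab (fun e => ho' (e ▸ ha')) (fun e => ho' (e ▸ hb')) hx with
    rfl | rfl | rfl
  · exact absurd ha' hx'
  · exact absurd hb' hx'
  · rfl

theorem k4_ne {V : Type} {col : V → Bool} {u v : V} {c : Bool} (hu : col u = c)
    (hv : col v = !c) : u ≠ v := by
  rintro rfl
  rw [hu] at hv
  cases c <;> simp at hv

theorem k4_n4 {V : Type} {x a b c d : V} (h1 : x ≠ a) (h2 : x ≠ b) (h3 : x ≠ c) (h4 : x ≠ d) :
    x ∉ ({a, b, c, d} : Finset V) := by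
  simp [h1, h2, h3, h4]

theorem k4_n6 {V : Type} {x a b c d e f : V} (h1 : x ≠ a) (h2 : x ≠ b) (h3 : x ≠ c) (h4 : x ≠ d)
    (h5 : x ≠ e) (h6 : x ≠ f) : x ∉ ({a, b, c, d, e, f} : Finset V) := by
  simp [h1, h2, h3, h4, h5, h6]

theorem k4 : K4S := by
  intro V _ G col p q w s r t P S W T g th h PT hz l2
  obtain ⟨cw, cr, cS, cT, cq, cs, ct, cP, -⟩ := h.cols g
  have cp : col p = col p := rfl
  have P1 := k4_n4 h.pP.ne' h.P_q (k4_ne cr cP).symm h.P_s
  have w1 := k4_n4 h.p_w.symm h.qw.ne' h.w_r (k4_ne cw cs)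
  have t1 := k4_n4 (k4_ne cp ct).symm h.q_t.symm h.rt.ne' h.s_t.symm
  have S1 := k4_n4 h.S_p (k4_ne cS cq) h.S_r h.sS.ne'
  have T1 := k4_n4 h.T_p (k4_ne cT cq) h.T_r (k4_ne cT cs)
  have s2 := k4_n6 h.ps.ne' h.q_s.symm h.sr.ne h.s_t (k4_ne cT cs).symm h.P_s.symm
  have w2 := k4_n6 h.p_w.symm h.qw.ne' h.w_r h.wt.ne h.T_w.symm (k4_ne cw cP)
  obtain ⟨T', hT, T't, T'P⟩ := g.toCb.third T t P
  obtain ⟨P', hP, P'p, P'T⟩ := g.toCb.third P p T
  have cT' : col T' = !col p := (g.toCb.same PT hT).symm.trans cP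
  have cP' : col P' = col p := (g.toCb.same h.pP hP).symm
  have T'q : T' ≠ q := by
    rintro rfl
    rcases h.nq g hT.symm with e | e | e
    exacts [h.T_p e, h.T_w e, h.T_r e]
  have P'r : P' ≠ r := by
    rintro rfl
    rcases h.nr g hP.symm with e | e | e
    exacts [h.P_s e, h.P_t e, h.P_q e]
  have T2 := k4_n6 (k4_ne cp cT').symm T'q (k4_ne cr cT').symm T't hT.ne' T'P
  have P2 := k4_n6 P'p (k4_ne cP' cq) P'r (k4_ne cP' ct) P'T hP.ne'
  simp only [mem_insert, mem_singleton, not_or] at hz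
  obtain ⟨z1, z2, z3, z4, z5, z6, z7⟩ := hz
  refine th {p, q, r, s} {p, q, r, t, T, P} s P p q r w (k4_n4 z1 z2 z3 z7)
    (k4_n6 z1 z2 z3 z4 z5 z6) ⟨?_, ?_, by simp, by simp, by simp, by simp, P1, by simp, by simp,
      by simp, by simp, s2, w1, w2, h.ps, h.pP, h.pq, h.qr, h.qw, h.q_s.symm, h.P_q, h.p_r, ?_, l2⟩
  · intro v hv
    simp only [mem_insert, mem_singleton] at hv
    rcases hv with rfl | rfl | rfl | rfl
    · exact k4_per g.toCb h.pq h.ps h.pP h.q_s (by simp) (by simp) P1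
    · exact k4_per g.toCb h.pq.symm h.qr h.qw h.p_r (by simp) (by simp) w1
    · exact k4_per g.toCb h.qr.symm h.sr.symm h.rt h.q_s (by simp) (by simp) t1
    · exact k4_per g.toCb h.ps.symm h.sr h.sS h.p_r (by simp) (by simp) S1
  · intro v hv
    simp only [mem_insert, mem_singleton] at hv
    rcases hv with rfl | rfl | rfl | rfl | rfl | rfl
    · exact k4_per g.toCb h.pq h.pP h.ps h.P_q.symm (by simp) (by simp) s2
    · exact k4_per g.toCb h.pq.symm h.qr h.qw h.p_r (by simp) (by simp) w2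
    · exact k4_per g.toCb h.qr.symm h.rt h.sr.symm h.q_t (by simp) (by simp) s2
    · exact k4_per g.toCb h.rt.symm h.tT h.wt.symm h.T_r.symm (by simp) (by simp) w2
    · exact k4_per g.toCb h.tT.symm PT.symm hT h.P_t.symm (by simp) (by simp) T2
    · exact k4_per g.toCb h.pP.symm PT hP h.T_p.symm (by simp) (by simp) P2
  · intro Z hZ hP0
    exact hZ t (hZ T (hZ P hP0 T (mem_compl.2 T1) PT) t (mem_compl.2 t1) h.tT.symm) w
      (mem_compl.2 w1) h.wt.symm

end FZ
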