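import Pool.Agent.MP_cccb39_co.Fz.St

namespace FZ

open Finset
open scoped Classical

theorem l1 : L1S := by
  rintro V _ G col p q w s r t P S W T c0 g h PS' ⟨Sc, cs, cP⟩ hc
  obtain ⟨kw, kr, kS, kT, kq, ks, kt, kP, -⟩ := h.cols g
  have kp : col p = col p := rfl
  have kc : col c0 = !col p := (g.same Sc.symm h.sS.symm).trans ks
  have ne : ∀ {u v}, col u = col p → col v = !col p → u ≠ v := fun {u v} hu hv e => by
    rw [← e, hu] at hv
    revert hv
    cases col p <;> simp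
  have na : ∀ {u v b}, col u = b → col v = b → ¬ G.Adj u v := fun hu hv e =>
    g.bip _ _ e (hu.trans hv.symm)
  have Sq : ¬ G.Adj S q := fun e => by
    rcases h.nq g e.symm with f | f | f
    exacts [h.S_p f, h.S_w f, h.S_r f]
  have St : ¬ G.Adj S t := fun e => by
    rcases h.nt g e.symm with f | f | f
    exacts [h.S_r f, h.S_w f, h.S_T f]
  have Pw : ¬ G.Adj P w := fun e => by
    rcases h.nw g e.symm with f | f | f
    exacts [h.P_q f, h.P_t f, h.P_W f]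
  have pt : ¬ G.Adj p t := fun e => by
    rcases h.np g e with f | f | f
    exacts [h.q_t f.symm, h.s_t f.symm, h.P_t f.symm]
  have sT : ¬ G.Adj s T := fun e => by
    rcases h.ns g e with f | f | f
    exacts [h.T_r f, h.T_p f, h.S_T f.symm]
  have cq : c0 ≠ q := fun e => Sq (e ▸ Sc)
  have ct : c0 ≠ t := fun e => St (e ▸ Sc)
  have p1 := (PS.one G t).ext w (by simp [h.wt.ne]) h.wt (by simp)
  have p2 := p1.ext q (by simp [h.qw.ne, h.q_t]) h.qw (by simp [na kq kt])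
  have p3 := p2.ext p (by simp [h.pq.ne, h.p_w, ne kp kt]) h.pq (by simp [na kp kw, pt])
  have p4 := p3.ext P (by simp [h.pP.ne.symm, h.P_q, (ne kw kP).symm, h.P_t]) h.pP.symm
    (by simp [na kP kq, Pw, na kP kt])
  have p5 := p4.ext S (by simp [PS'.ne.symm, h.S_p, ne kS kq, h.S_w, ne kS kt]) PS'.symm
    (by simp [na kS kp, Sq, na kS kw, St])
  obtain ⟨Q, hQ⟩ : ∃ Q : Finset V, Q = {S, P, p, q, w, t} := ⟨_, rfl⟩
  have mS : S ∈ Q := by simp [hQ]
  have mp : p ∈ Q := by simp [hQ]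
  have mq : q ∈ Q := by simp [hQ]
  have mt : t ∈ Q := by simp [hQ]
  refine ⟨Q, c0, T, ⟨hQ ▸ p5, ne kS kt,
    by simp [hQ, h.sS.ne, h.P_s.symm, h.ps.ne.symm, h.q_s.symm, (ne kw ks).symm, h.s_t],
    by simp [hQ, Sc.ne.symm, cP, (ne kp kc).symm, cq, (ne kw kc).symm, ct],
    by simp [hQ, h.S_r.symm, ne kr kP, h.p_r.symm, h.qr.ne.symm, h.w_r.symm, h.rt.ne],
    by simp [hQ, h.S_T.symm, ne kT kP, h.T_p, ne kT kq, h.T_w, h.tT.ne.symm],
    cs.symm, h.sr.ne, (ne kT ks).symm, (ne kr kc).symm, (ne kT kc).symm, h.T_r.symm,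
    h.sS.symm, Sc, h.rt.symm, h.tT, ⟨p, mp, h.S_p.symm, h.ps.symm⟩, ⟨q, mq, h.q_t, h.qr.symm⟩,
    fun x hx e1 e2 => ?_, fun x hx e1 e2 => ?_, fun e => hc e.2, fun e => sT e.1,
    fun Y tY => ?_⟩, mp, h.S_p.symm, h.ps.symm, mq, h.q_t, h.qr.symm⟩
  · rcases h.ns g e1 with f | f | f
    · rcases h.nr g (f ▸ e2).symm with f' | f' | f'
      exacts [cs f', ct f', cq f']
    · exact hx (f ▸ mp)
    · exact hx (f ▸ mS)
  · rcases h.nr g e1 with f | f | f
    · exact sT (f ▸ e2).symm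
    · exact hx (f ▸ mt)
    · exact hx (f ▸ mq)
  · have nY : ∀ z ∈ Q, z ∉ Y := fun z hz hz' => disjoint_left.1 tY.dis hz' hz
    refine g.cut3 ((Y.erase s).erase r)
      (two_le (a := c0) (b := T) (by simp [(ne kr kc).symm, cs, tY.ma'])
        (by simp [h.T_r, ne kT ks, tY.ms']) (ne kT kc).symm)
      (two_le_compl (a := s) (b := r) (by simp) (by simp) h.sr.ne) c0 S T t T t
      fun u hu v hv uv => ?_
    obtain ⟨ur, hu'⟩ := mem_erase.1 hu
    obtain ⟨us, uY⟩ := mem_erase.1 hu'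
    by_cases v1 : v = s
    · rcases h.ns g (v1 ▸ uv).symm with f | f | f
      · exact absurd f ur
      · exact absurd (f ▸ uY) (nY _ mp)
      · exact absurd (f ▸ uY) (nY _ mS)
    by_cases v2 : v = r
    · rcases h.nr g (v2 ▸ uv).symm with f | f | f
      · exact absurd f us
      · exact absurd (f ▸ uY) (nY _ mt)
      · exact absurd (f ▸ uY) (nY _ mq)
    have vY : v ∉ Y := fun e => hv (mem_erase.2 ⟨v2, mem_erase.2 ⟨v1, e⟩⟩)
    obtain ⟨vQ, f | f | f | f⟩ := (tY.clo u uY v uv).resolve_left vY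
    · exact absurd f us
    · exact Or.inl ⟨f, tY.ta v vQ (f ▸ uv)⟩
    · exact absurd f ur
    · exact Or.inr (Or.inl ⟨f, tY.ts v vQ (f ▸ uv)⟩)

end FZ
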