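import Pool.Agent.MP_cccb39_co.Fz.St

namespace FZ

open Finset
open scoped Classical

theorem list : ListS := by
  intro V _ G hK L hL
  let e : V → Fin 3 → ℕ := fun v j => (L v).orderEmbOfFin (hL v) j
  have einj : ∀ v, Function.Injective (e v) := fun v => ((L v).orderEmbOfFin (hL v)).injective
  have emem : ∀ v j, e v j ∈ L v := fun v j => (L v).orderEmbOfFin_mem (hL v) j
  have esur : ∀ v, ∀ x ∈ L v, ∃ j, e v j = x := by
    intro v x hx
    have h : x ∈ Set.range ((L v).orderEmbOfFin (hL v)) := by
      rw [range_orderEmbOfFin]; exact hx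
    exact h
  obtain ⟨I, hI, φ, τ, hP⟩ := hK e einj
  obtain ⟨N, hN⟩ : ∃ N : ℕ, 3 * N = Fintype.card I := ⟨_, hP.ut 0⟩
  have hpos : 0 < Fintype.card I := Fintype.card_pos_iff.2 hP.ne
  let σ : Fin (3 * N) ≃ I := (Fintype.equivFinOfCardEq hN.symm).symm
  refine ⟨N, by omega, fun k v => e v (φ (σ k) v), fun k v => emem v _, ?_, ?_⟩
  · intro k u v huv h
    exact hP.prop (σ k) u (mem_univ _) v (mem_univ _) ⟨huv, h⟩
  · intro v x hx
    obtain ⟨j, rfl⟩ := esur v x hx
    have h1 := hP.un v (mem_univ _) j
    have h2 : (univ.filter fun k : Fin (3 * N) => e v (φ (σ k) v) = e v j).card =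
        (univ.filter fun i : I => φ i v = j).card := by
      refine card_equiv σ fun k => ?_
      simp only [mem_filter, mem_univ, true_and]
      exact (einj v).eq_iff
    have h3 : 3 * (univ.filter fun i : I => φ i v = j).card = Fintype.card I := h1
    have h4 : (univ.filter fun k : Fin (3 * N) => e v (φ (σ k) v) = e v j).card = N := by omega
    exact h4

end FZ
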