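import Pool.Agent.MP_cccb39_co.Fz.St

namespace FZ

open Finset
open scoped Classical

theorem lp_aux {V : Type} [Fintype V] {G : SimpleGraph V} {A Y : Finset V} {lev : V → ℕ}
    (h : Lev G A Y lev) (n : ℕ) : ∀ v ∈ Y, lev v = n → ∃ R a, LP G A Y lev R v a := by
  induction n with
  | zero =>
    intro v hv h0
    refine ⟨{v}, v, PS.one G v, (h.zero v hv).1 h0, singleton_subset_iff.2 hv, ?_, ?_, ?_, ?_⟩
    · intro x hx
      rw [mem_singleton.1 hx]
    · intro x hx y hy _
      rw [mem_singleton.1 hx, mem_singleton.1 hy]
    · intro x hx y hy e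
      rw [mem_singleton.1 hx, mem_singleton.1 hy] at e
      omega
    · intro j hj
      exact ⟨v, mem_singleton_self v, by omega⟩
  | succ i ih =>
    intro v hv hn
    obtain ⟨u, hu, hvu, hi⟩ := h.down v hv i hn
    obtain ⟨R, a, p⟩ := ih u hu hi
    have hle : ∀ x ∈ R, lev x ≤ i := fun x hx => hi ▸ p.le x hx
    have hvR : v ∉ R := fun e => by have := hle v e; omega
    have htop : ∀ x ∈ R, lev x = i → x = u := fun x hx e =>
      p.inj x hx u p.ps.m1 (e.trans hi.symm)
    refine ⟨insert v R, a, p.ps.ext v hvR hvu ?_, p.ma, insert_subset hv p.sub, ?_, ?_, ?_, ?_⟩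
    · intro x hx hvx
      have h1 := h.lip x (p.sub hx) v hv hvx.symm
      have h2 := hle x hx
      exact htop x hx (by omega)
    · intro x hx
      rcases mem_insert.1 hx with rfl | hx
      · exact le_rfl
      · have := hle x hx
        omega
    · intro x hx y hy e
      rcases mem_insert.1 hx with rfl | hx' <;> rcases mem_insert.1 hy with rfl | hy'
      · rfl
      · have := hle y hy'
        omega
      · have := hle x hx'
        omega
      · exact p.inj x hx' y hy' e
    · intro x hx y hy e
      rcases mem_insert.1 hx with rfl | hx' <;> rcases mem_insert.1 hy with rfl | hy'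
      · omega
      · have := hle y hy'
        omega
      · rw [htop x hx' (by omega)]
        exact hvu.symm
      · exact p.con x hx' y hy' e
    · intro j hj
      by_cases e : j = i + 1
      · exact ⟨v, mem_insert_self v R, by omega⟩
      · obtain ⟨x, hx, hx'⟩ := p.all j (by omega)
        exact ⟨x, mem_insert_of_mem hx, hx'⟩

theorem lp : LpS := fun _ _ _ _ _ lev h v hv => lp_aux h (lev v) v hv rfl

end FZ
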