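import Pool.Agent.MP_cccb39_co.Fz.St

namespace FZ

open Finset
open scoped Classical

theorem mgDeg : MgDegS := by
  intro V _ H S a a' ha
  refine ⟨fun x hx => ?_, ?_, fun col hb hc u hu v hv h => ?_⟩
  · have k : ∀ y, (mg H a a').Adj x y → ¬ H.Adj x y → y = a ∧ H.Adj a' x := fun y h n =>
      (h.2.resolve_left n).resolve_left fun e => hx e.1
    unfold dg
    refine card_le_card_of_injOn (fun y => if H.Adj x y then y else a') (fun y hy => ?_)
      fun y hy z hz e => ?_
    · obtain ⟨h1, h2⟩ := mem_filter.1 (mem_coe.1 hy)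
      refine mem_coe.2 (mem_filter.2 ?_)
      by_cases n : H.Adj x y
      · simp only [if_pos n]
        exact ⟨mem_of_mem_erase h1, n⟩
      · simp only [if_neg n]
        exact ⟨ha, (k y h2 n).2.symm⟩
    · obtain ⟨h1, h2⟩ := mem_filter.1 (mem_coe.1 hy)
      obtain ⟨h3, h4⟩ := mem_filter.1 (mem_coe.1 hz)
      by_cases n : H.Adj x y <;> by_cases m : H.Adj x z
      · simpa only [if_pos n, if_pos m] using e
      · simp only [if_pos n, if_neg m] at e
        exact absurd e (ne_of_mem_erase h1)
      · simp only [if_neg n, if_pos m] at e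
        exact absurd e.symm (ne_of_mem_erase h3)
      · exact (k y h2 n).1.trans (k z h4 m).1.symm
  · unfold dg
    refine (card_le_card fun y hy => ?_).trans (card_union_le _ _)
    obtain ⟨h1, h2, h3⟩ := mem_filter.1 hy
    have hS := mem_of_mem_erase h1
    rcases h3 with e | e | e
    · exact mem_union_left _ (mem_filter.2 ⟨hS, e⟩)
    · exact mem_union_right _ (mem_filter.2 ⟨hS, e.2⟩)
    · exact absurd e.1.symm h2
  · have h1 := mem_of_mem_erase hu
    have h2 := mem_of_mem_erase hv
    rcases h.2 with e | e | e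
    · exact hb u h1 v h2 e
    · rw [e.1, hc]
      exact hb a' ha v h2 e.2
    · rw [e.1, hc]
      exact (hb a' ha u h1 e.2).symm

end FZ
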