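import Pool.Agent.MP_cccb39_co.Fz.St

namespace FZ

open Finset
open scoped Classical

section
variable {V : Type} [Fintype V] {G : SimpleGraph V} {col : V → Bool}

theorem oneout_mem {X : Finset V} {p : V × V} :
    p ∈ bd G X ↔ p.1 ∈ X ∧ p.2 ∉ X ∧ G.Adj p.1 p.2 := by
  simp only [bd, mem_filter, mem_univ, true_and]

theorem oneout_nb (h : Cb G col) {X : Finset V} {u : V} (hu : u ∈ X) :
    ∃ O N : Finset V, (∀ y, y ∈ O ↔ y ∉ X ∧ G.Adj u y) ∧ O.card + N.card = 3 ∧
      N.card + 1 ≤ X.card ∧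
      (bd G (X.erase u)).card + O.card ≤ (bd G X).card + N.card := by
  have hO : ∀ y, y ∈ (univ.filter fun w => G.Adj u w).filter (fun w => ¬ w ∈ X) ↔
      y ∉ X ∧ G.Adj u y := fun y => by simp [and_comm]
  have hN : ∀ y, y ∈ (univ.filter fun w => G.Adj u w).filter (fun w => w ∈ X) ↔
      y ∈ X ∧ G.Adj u y := fun y => by simp [and_comm]
  have h3 := card_filter_add_card_filter_not (s := univ.filter fun w => G.Adj u w)
    (fun w => w ∈ X)
  have h4 : (univ.filter fun w => G.Adj u w).card = 3 := h.cub u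
  generalize (univ.filter fun w => G.Adj u w).filter (fun w => ¬ w ∈ X) = O at hO h3
  generalize (univ.filter fun w => G.Adj u w).filter (fun w => w ∈ X) = N at hN h3
  refine ⟨O, N, hO, by omega, ?_, ?_⟩
  · have h5 : N ⊆ X.erase u := fun y hy =>
      mem_erase.2 ⟨((hN y).1 hy).2.ne', ((hN y).1 hy).1⟩
    have h6 := card_le_card h5
    have h7 := card_erase_add_one hu
    omega
  · have h5 : bd G (X.erase u) ∪ {u} ×ˢ O ⊆ bd G X ∪ N ×ˢ {u} := by
      rintro ⟨x, y⟩ hp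
      simp only [mem_union, oneout_mem, mem_product, mem_singleton, mem_erase, hO, hN] at hp ⊢
      rcases hp with ⟨⟨-, h1⟩, h2, h8⟩ | ⟨rfl, h1, h2⟩
      · by_cases e : y = u
        · exact Or.inr ⟨⟨h1, e ▸ h8.symm⟩, e⟩
        · exact Or.inl ⟨h1, fun hy => h2 ⟨e, hy⟩, h8⟩
      · exact Or.inl ⟨hu, h1, h2⟩
    have h6 : Disjoint (bd G (X.erase u)) ({u} ×ˢ O) := by
      refine disjoint_left.2 fun p h1 h2 => ?_
      exact (mem_erase.1 (oneout_mem.1 h1).1).1 (mem_singleton.1 (mem_product.1 h2).1)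
    have h7 := (card_le_card h5).trans (card_union_le _ _)
    rw [card_union_of_disjoint h6, card_product, card_product, card_singleton] at h7
    omega

theorem oneout_three (h : Cb G col) {X : Finset V} (h2 : 2 ≤ X.card)
    (h3 : (bd G X).card ≤ 3) : 3 ≤ X.card := by
  by_contra hn
  obtain ⟨a, ha, b, hb, ab⟩ := one_lt_card.1 h2
  obtain ⟨O, N, o1, o2, o3, -⟩ := oneout_nb h ha
  obtain ⟨O', N', p1, p2, p3, -⟩ := oneout_nb h hb
  have h5 : {a} ×ˢ O ∪ {b} ×ˢ O' ⊆ bd G X := by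
    rintro ⟨x, y⟩ hp
    simp only [mem_union, oneout_mem, mem_product, mem_singleton, o1, p1] at hp ⊢
    rcases hp with ⟨rfl, h1, h2⟩ | ⟨rfl, h1, h2⟩
    exacts [⟨ha, h1, h2⟩, ⟨hb, h1, h2⟩]
  have h6 : Disjoint ({a} ×ˢ O) ({b} ×ˢ O') := by
    refine disjoint_left.2 fun p h1 h2 => ab ?_
    exact (mem_singleton.1 (mem_product.1 h1).1).symm.trans (mem_singleton.1 (mem_product.1 h2).1)
  have h7 := card_le_card h5
  rw [card_union_of_disjoint h6, card_product, card_product, card_singleton, card_singleton] at h7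
  omega

end

theorem oneOut (h : TwoBS) : OneOutS := by
  rintro V _ G col X hc hn ⟨⟨h2, hy, h3⟩, hm⟩
  have h4 := oneout_three hc h2 h3
  have h5 := h V G col X hc hn (card_pos.1 (by omega)) hy
  have key : ∀ u ∈ X, ∃ O : Finset V, (∀ y, y ∈ O ↔ y ∉ X ∧ G.Adj u y) ∧
      1 + 2 * O.card ≤ (bd G X).card := by
    intro u hu
    obtain ⟨O, N, o1, o2, -, o4⟩ := oneout_nb hc hu
    have h6 := card_erase_add_one hu
    have h7 := hm (X.erase u) (erase_subset _ _) (erase_ne_self.2 hu) (by omega)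
    exact ⟨O, o1, by omega⟩
  constructor
  · obtain ⟨p, hp⟩ := card_pos.1 (by omega : 0 < (bd G X).card)
    obtain ⟨p1, p2⟩ := oneout_mem.1 hp
    obtain ⟨O, o1, o2⟩ := key _ p1
    have := card_pos.2 ⟨_, (o1 _).2 p2⟩
    omega
  · intro x hx y y' h6 h7 h8 h9
    obtain ⟨O, o1, o2⟩ := key x hx
    exact card_le_one.1 (by omega : O.card ≤ 1) _ ((o1 _).2 ⟨h6, h8⟩) _ ((o1 _).2 ⟨h7, h9⟩)

end FZ
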