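import Pool.Agent.MP_cccb39_co.Fz.St

/-! Counting orbits of a permutation whose orbits have at least four points, and at least six
points unless they lie in a set of at most eight points. -/

namespace FZ

open Finset
open scoped Classical

private theorem orb_fib {D : Type} [Fintype D] (φ : Equiv.Perm D) (d : D) (m : ℕ)
    (h : ∀ k, 0 < k → k < m → (φ ^ k) d ≠ d) :
    m ≤ (univ.filter fun e => Quotient.mk (Equiv.Perm.SameCycle.setoid φ) e =
      Quotient.mk (Equiv.Perm.SameCycle.setoid φ) d).card := by
  have key : ∀ i j, i < j → j < m → (φ ^ i) d ≠ (φ ^ j) d := by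
    intro i j hij hj he
    refine h (j - i) (by omega) (by omega) ?_
    have e : φ ^ j = φ ^ i * φ ^ (j - i) := by
      rw [← pow_add]; congr 1; omega
    rw [e, Equiv.Perm.mul_apply] at he
    exact ((φ ^ i).injective he).symm
  have hc : ((range m).image fun i => (φ ^ i) d).card = m := by
    rw [card_image_of_injOn, card_range]
    intro i hi j hj he
    have hi' : i < m := by simpa using hi
    have hj' : j < m := by simpa using hj
    rcases lt_trichotomy i j with h1 | h1 | h1
    · exact absurd he (key i j h1 hj')
    · exact h1
    · exact absurd he.symm (key j i h1 hi')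
  rw [← hc]
  refine card_le_card ?_
  intro e he
  obtain ⟨i, -, rfl⟩ := mem_image.1 he
  refine mem_filter.2 ⟨mem_univ _, Quotient.sound ?_⟩
  have hs : φ.SameCycle d ((φ ^ i) d) := ⟨(i : ℤ), by rw [zpow_natCast]⟩
  exact hs.symm

theorem orb : OrbS := by
  intro D _ φ B hB h3 h5
  let s := Equiv.Perm.SameCycle.setoid φ
  letI : Fintype (Quotient s) := Fintype.ofFinite _
  have hD : (univ : Finset D).card = ∑ q : Quotient s,
      (univ.filter fun e => Quotient.mk s e = q).card :=
    card_eq_sum_card_fiberwise (fun _ _ => by simp)
  have hB' : B.card = ∑ q : Quotient s, (B.filter fun e => Quotient.mk s e = q).card :=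
    card_eq_sum_card_fiberwise (fun _ _ => by simp)
  have hq : ∀ q : Quotient s, 12 ≤ 2 * (univ.filter fun e => Quotient.mk s e = q).card +
      (B.filter fun e => Quotient.mk s e = q).card := by
    intro q
    by_cases hx : ∃ d, d ∉ B ∧ Quotient.mk s d = q
    · obtain ⟨d, hd, rfl⟩ := hx
      have := orb_fib φ d 6 (by
        intro k h0 h6
        obtain ⟨a1, a2, a3⟩ := h3 d
        obtain ⟨a4, a5⟩ := h5 d hd
        interval_cases k
        · simpa using a1
        · exact a2
        · exact a3
        · exact a4
        · exact a5)
      have h2 : 6 ≤ (univ.filter fun e => Quotient.mk s e = Quotient.mk s d).card := this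
      omega
    · obtain ⟨d, rfl⟩ := Quotient.exists_rep q
      have := orb_fib φ d 4 (by
        intro k h0 h6
        obtain ⟨a1, a2, a3⟩ := h3 d
        interval_cases k
        · simpa using a1
        · exact a2
        · exact a3)
      have h2 : 4 ≤ (univ.filter fun e => Quotient.mk s e = Quotient.mk s d).card := this
      have h4 : (univ.filter fun e => Quotient.mk s e = Quotient.mk s d).card ≤
          (B.filter fun e => Quotient.mk s e = Quotient.mk s d).card := by
        refine card_le_card ?_
        intro e he
        have he' := (mem_filter.1 he).2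
        refine mem_filter.2 ⟨?_, he'⟩
        by_contra hn
        exact hx ⟨e, hn, he'⟩
      omega
  have hsum := sum_le_sum (s := (univ : Finset (Quotient s))) (fun q _ => hq q)
  rw [sum_add_distrib, ← mul_sum, ← hD, ← hB', sum_const, card_univ, card_univ, smul_eq_mul] at hsum
  have hn : Nat.card (Quotient s) = Fintype.card (Quotient s) := Nat.card_eq_fintype_card
  show 6 * Nat.card (Quotient s) ≤ _
  omega

end FZ
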