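import Pool.Agent.MP_cccb39_co.Fz.St

namespace FZ

open Finset
open scoped Classical

theorem parB : ParBS := by
  intro V _ G col Y h
  have e1 : ∀ b : Bool, (univ.filter fun p : V × V =>
      p.1 ∈ Y ∧ col p.1 = b ∧ G.Adj p.1 p.2 ∧ p.2 ∈ Y).card +
        ((bd G Y).filter fun p => col p.1 = b).card = 3 * (Y.filter fun v => col v = b).card := by
    intro b
    have a : 3 * (Y.filter fun v => col v = b).card =
        ∑ v, if v ∈ Y ∧ col v = b then dg G univ v else 0 := by
      simp only [h.cub]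
      rw [← sum_filter, sum_const, smul_eq_mul, mul_comm]
      congr 2
      ext v
      simp
    rw [a, bd, filter_filter, card_filter, card_filter, ← sum_add_distrib, Fintype.sum_prod_type]
    refine sum_congr rfl fun v _ => ?_
    by_cases hv : v ∈ Y ∧ col v = b
    · rw [if_pos hv, dg, card_filter]
      refine sum_congr rfl fun w _ => ?_
      by_cases h1 : G.Adj v w <;> by_cases h2 : w ∈ Y <;> simp [hv, h1, h2]
    · rw [if_neg hv]
      refine sum_eq_zero fun w _ => ?_
      rw [if_neg fun k => hv ⟨k.1, k.2.1⟩, if_neg fun k => hv ⟨k.1.1, k.2⟩, add_zero]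
  have e2 : ∀ b : Bool, (univ.filter fun p : V × V =>
      p.1 ∈ Y ∧ col p.1 = b ∧ G.Adj p.1 p.2 ∧ p.2 ∈ Y).card ≤ (univ.filter fun p : V × V =>
        p.1 ∈ Y ∧ col p.1 = !b ∧ G.Adj p.1 p.2 ∧ p.2 ∈ Y).card := fun b =>
    card_le_card_of_injOn Prod.swap (fun p hp => by
      obtain ⟨a1, a2, a3, a4⟩ := (mem_filter.1 (mem_coe.1 hp)).2
      exact mem_coe.2 (mem_filter.2 ⟨mem_univ _, a4,
        Bool.eq_not_of_ne fun k => h.bip _ _ a3 (a2.trans k.symm), a3.symm, a1⟩))
      Prod.swap_injective.injOn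
  have a1 := e1 true
  have a2 := e1 false
  have a3 := e2 true
  have a4 := e2 false
  simp only [Bool.not_true, Bool.not_false] at a3 a4
  omega

end FZ
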