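import Pool.Agent.MP_cccb39_co.Fz.St

namespace FZ

open Finset
open scoped Classical

theorem path (h : FdS) : PathS := by
  intro V _ H Q a b z p ab hz za zb
  have two : ∀ v ∈ Q, v ≠ a → v ≠ b → 2 ≤ dg H Q v := fun v hv va vb => by
    obtain ⟨x, hx, y, hy, xy, vx, vy⟩ := p.inn v hv va vb
    exact two_le (mem_filter.2 ⟨hx, vx⟩) (mem_filter.2 ⟨hy, vy⟩) xy
  have one : ∀ v, (∃ x ∈ Q, H.Adj v x) → 1 ≤ dg H Q v := fun v ⟨x, hx, vx⟩ =>
    card_pos.2 ⟨x, mem_filter.2 ⟨hx, vx⟩⟩
  refine le_antisymm ?_ (two z hz za zb)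
  by_contra hn
  have h1 := (h V H Q).1 p.fo Q Subset.rfl ⟨z, hz⟩
  have h2 : ∑ v ∈ Q, (2 + if v = z then 1 else 0) ≤
      ∑ v ∈ Q, (dg H Q v + (if v = a then 1 else 0) + if v = b then 1 else 0) := by
    refine sum_le_sum fun v hv => ?_
    by_cases va : v = a
    · have := one a (p.n1 ab)
      subst va
      simp only [if_neg za.symm, if_neg ab, if_true]
      omega
    by_cases vb : v = b
    · have := one b (p.n2 ab)
      subst vb
      simp only [if_neg zb.symm, if_neg va, if_true]
      omega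
    have := two v hv va vb
    by_cases vz : v = z
    · subst vz
      simp only [if_neg va, if_neg vb, if_true]
      omega
    · simp only [if_neg va, if_neg vb, if_neg vz]
      omega
  simp only [sum_add_distrib, sum_ite_eq', if_pos hz, if_pos p.m1, if_pos p.m2, sum_const,
    smul_eq_mul] at h2
  omega

end FZ
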