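import Pool.Agent.MP_cccb39_co.Fz.St

namespace FZ

open Finset
open scoped Classical

theorem pathC (h1 : SpS) (h2 : K4S) : PathCS := by
  intro V _ G col p q w s r t P S W T g th h hz hPT
  obtain ⟨k1, k2, k3, k4, k5, k6, k7, k8, k9⟩ := h.cols g
  have ne : ∀ {x y : V}, col x = col p → col y = (!col p) → x ≠ y := fun {x y} a b e => by
    rw [e, b] at a
    revert a
    cases col p <;> simp
  have mC : ∀ x, x ∉ ({p, q, r, t, T, P} : Finset V) ↔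
      x ≠ p ∧ x ≠ q ∧ x ≠ r ∧ x ≠ t ∧ x ≠ T ∧ x ≠ P := fun x => by
    simp only [mem_insert, mem_singleton, not_or, ne_eq]
  have wC := (mC w).2 ⟨h.p_w.symm, ne k1 k5, h.w_r, ne k1 k7, h.T_w.symm, ne k1 k8⟩
  by_cases hl : Lk G {p, q, r, t, T, P} s w
  · refine (h2 V G col p q w s r t P S W T g th h hPT ?_ hl).elim
    obtain ⟨a1, a2, a3, a4, a5, a6⟩ := (mC w).1 wC
    rw [← hz]
    simp only [mem_insert, mem_singleton, not_or]
    exact ⟨a1, a2, a3, a4, a5, a6, ne k1 k6⟩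
  unfold Lk at hl
  push Not at hl
  obtain ⟨Z, hZ, sZ, wZ⟩ := hl
  have SC := (mC S).2 ⟨h.S_p, ne k3 k5, h.S_r, ne k3 k7, h.S_T, ne k3 k8⟩
  have SZ : S ∈ Z := hZ s sZ S (mem_compl.2 SC) h.sS
  have WZ : W ∉ Z := fun e => wZ (hZ W e w (mem_compl.2 wC) h.wW.symm)
  obtain ⟨U, hU⟩ : ∃ U : Finset V, ∀ x, x ∈ U ↔
      (x ≠ p ∧ x ≠ q ∧ x ≠ w ∧ x ≠ s ∧ x ≠ r ∧ x ≠ t ∧ x ≠ P) ∧
        ¬ (x ∈ Z ∧ x ∉ ({p, q, r, t, T, P} : Finset V)) :=
    ⟨univ.filter fun x => (x ≠ p ∧ x ≠ q ∧ x ≠ w ∧ x ≠ s ∧ x ≠ r ∧ x ≠ t ∧ x ≠ P) ∧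
        ¬ (x ∈ Z ∧ x ∉ ({p, q, r, t, T, P} : Finset V)), fun x => by
      rw [mem_filter]; exact and_iff_right (mem_univ x)⟩
  have SU : S ∉ U := fun e => ((hU S).1 e).2 ⟨SZ, SC⟩
  have WU : W ∈ U := (hU W).2 ⟨⟨(ne rfl k9).symm, h.W_q, (ne k1 k9).symm, h.W_s,
    (ne k2 k9).symm, h.W_t, h.P_W.symm⟩, fun e => WZ e.1⟩
  have TU : T ∈ U := (hU T).2 ⟨⟨h.T_p, ne k4 k5, h.T_w, ne k4 k6, h.T_r, ne k4 k7, ne k4 k8⟩,
    fun e => ((mC T).1 e.2).2.2.2.2.1 rfl⟩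
  obtain ⟨R, a, b, hs⟩ := h1 V G U {W} {T} (singleton_subset_iff.2 WU) (singleton_subset_iff.2 TU)
    fun Y hA hY hc => by
      by_contra hn
      have nT : T ∉ Y := fun e => hn ⟨T, mem_singleton_self _, e⟩
      have WY : W ∈ Y := hA (mem_singleton_self _)
      obtain ⟨c, c1, c2, c3⟩ := g.third P p T
      have hb : ∀ y ∈ Y, ∀ v, v ∉ Y → G.Adj y v →
          (y = W ∧ v = w) ∨ (y = c ∧ v = P) ∨ (y = c ∧ v = P) := by
        intro y hy v hv e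
        obtain ⟨⟨y1, y2, y3, y4, y5, y6, y7⟩, y8⟩ := (hU y).1 (hY hy)
        have yT : y ≠ T := fun k => nT (k ▸ hy)
        have yC := (mC y).2 ⟨y1, y2, y5, y6, yT, y7⟩
        have hv7 : ¬ (v ≠ p ∧ v ≠ q ∧ v ≠ w ∧ v ≠ s ∧ v ≠ r ∧ v ≠ t ∧ v ≠ P) := fun k =>
          hv (hc y hy v ((hU v).2 ⟨k, fun k' =>
            y8 ⟨hZ v k'.1 y (mem_compl.2 yC) e.symm, yC⟩⟩) e)
        simp only [not_and_or, ne_eq, not_not] at hv7
        rcases hv7 with k | k | k | k | k | k | k <;> rw [k] at e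
        · exact (y7 (((h.np g e.symm).resolve_left y2).resolve_left y4)).elim
        · exact (y5 (((h.nq g e.symm).resolve_left y1).resolve_left y3)).elim
        · exact Or.inl ⟨((h.nw g e.symm).resolve_left y2).resolve_left y6, k⟩
        · exact (SU (((h.ns g e.symm).resolve_left y5).resolve_left y1 ▸ hY hy)).elim
        · exact (y2 (((h.nr g e.symm).resolve_left y4).resolve_left y6)).elim
        · exact (yT (((h.nt g e.symm).resolve_left y5).resolve_left y3)).elim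
        · exact Or.inr (Or.inl ⟨((g.nb3 h.pP.symm hPT c1 h.T_p.symm c2.symm c3.symm
            e.symm).resolve_left y1).resolve_left yT, k⟩)
      obtain ⟨u, u1, u2, u3⟩ := g.third W w P
      have uY : u ∈ Y := by
        by_contra k
        rcases hb W WY u k u1 with e | e | e
        exacts [u2 e.2, u3 e.2, u3 e.2]
      exact g.cut3 Y (two_le WY uY u1.ne)
        (two_le_compl (fun e => ((hU p).1 (hY e)).1.1 rfl) (fun e => ((hU q).1 (hY e)).1.2.1 rfl)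
          h.pq.ne) W w c P c P hb
  obtain rfl := mem_singleton.1 hs.ma
  obtain rfl := mem_singleton.1 hs.mb
  refine ⟨R, hs.ps.swap, fun z hz' => ?_, fun e => SU (hs.sub e), hs.ob⟩
  obtain ⟨⟨y1, y2, y3, y4, y5, y6, -⟩, -⟩ := (hU z).1 (hs.sub hz')
  simp only [mem_insert, mem_singleton, not_or]
  exact ⟨y1, y2, y3, y4, y5, y6⟩

end FZ
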