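import Pool.Agent.MP_cccb39_co.Fz.St

namespace FZ

open Finset
open scoped Classical

theorem pathe_out {V : Type} [Fintype V] {G : SimpleGraph V} {col : V → Bool}
    {p q w s r t P S W T : V} (g : Gr G col) (h : Dom G p q w s r t P S W T) :
    P ≠ p ∧ P ≠ q ∧ P ≠ w ∧ P ≠ s ∧ P ≠ r ∧ P ≠ t :=
  ⟨h.pP.ne', h.P_q, fun e => g.bip p P h.pP (e ▸ g.same h.pq h.qw), h.P_s,
    fun e => g.bip p P h.pP (e ▸ g.same h.pq h.qr), h.P_t⟩

theorem pathE (h1 : SpS) : PathES := by
  intro V _ G col p q w s r t P S W T g h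
  have m : ∀ x, x ∈ ({p, q, w, s, r, t} : Finset V)ᶜ ↔
      x ≠ p ∧ x ≠ q ∧ x ≠ w ∧ x ≠ s ∧ x ≠ r ∧ x ≠ t := fun x => by
    simp only [mem_compl, mem_insert, mem_singleton, not_or, ne_eq]
  obtain ⟨b1, b2, b3, b4, b5, b6⟩ := pathe_out g h.flip
  obtain ⟨c1, c2, c3, c4, c5, c6⟩ := pathe_out g h.flip.refl
  obtain ⟨u, hu, ut, -⟩ := g.third T t t
  have cu : col u = col t := g.same hu.symm h.tT.symm
  have mu : u ∈ ({p, q, w, s, r, t} : Finset V)ᶜ := by
    refine (m u).2 ⟨fun e => ?_, fun e => ?_, fun e => ?_, fun e => ?_, fun e => ?_, ut⟩ <;>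
      rw [e] at hu cu
    · exact g.bip p s h.ps (cu.trans (g.same h.sr h.rt).symm)
    · rcases h.nq g hu.symm with k | k | k
      exacts [h.T_p k, h.T_w k, h.T_r k]
    · exact g.bip w t h.wt cu
    · rcases h.ns g hu.symm with k | k | k
      exacts [h.T_r k, h.T_p k, h.S_T k.symm]
    · exact g.bip r t h.rt cu
  obtain ⟨R, a, b, hR⟩ := h1 V G ({p, q, w, s, r, t} : Finset V)ᶜ {T} {S}
    (fun x hx => by
      obtain rfl := mem_singleton.1 hx
      exact (m _).2 ⟨c6, c5, c4, c3, c2, c1⟩)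
    (fun x hx => by
      obtain rfl := mem_singleton.1 hx
      exact (m _).2 ⟨b4, b5, b6, b1, b2, b3⟩)
    (fun Y hA hY hc => by
      by_contra hn
      have nS : S ∉ Y := fun e => hn ⟨S, mem_singleton_self _, e⟩
      have hT : T ∈ Y := hA (mem_singleton_self _)
      refine g.cut3 Y (two_le hT (hc T hT u mu hu) hu.ne)
        (two_le_compl (fun e => ((m p).1 (hY e)).1 rfl) (fun e => ((m q).1 (hY e)).2.1 rfl)
          h.pq.ne) T t P p W w fun y hy v hv e => ?_
      obtain ⟨y1, y2, y3, y4, y5, y6⟩ := (m y).1 (hY hy)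
      have hv6 : v ∈ ({p, q, w, s, r, t} : Finset V) := by
        by_contra c
        exact hv (hc y hy v (mem_compl.2 c) e)
      simp only [mem_insert, mem_singleton] at hv6
      rcases hv6 with k | k | k | k | k | k <;> rw [k] at e
      · exact Or.inr (Or.inl ⟨((h.np g e.symm).resolve_left y2).resolve_left y4, k⟩)
      · exact (y5 (((h.nq g e.symm).resolve_left y1).resolve_left y3)).elim
      · exact Or.inr (Or.inr ⟨((h.nw g e.symm).resolve_left y2).resolve_left y6, k⟩)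
      · exact (nS (((h.ns g e.symm).resolve_left y5).resolve_left y1 ▸ hy)).elim
      · exact (y2 (((h.nr g e.symm).resolve_left y4).resolve_left y6)).elim
      · exact Or.inl ⟨((h.nt g e.symm).resolve_left y5).resolve_left y3, k⟩)
  obtain rfl := mem_singleton.1 hR.ma
  obtain rfl := mem_singleton.1 hR.mb
  exact ⟨R, hR.ps, fun z hz => mem_compl.1 (hR.sub hz), hR.oa⟩

end FZ
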