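import Pool.Agent.MP_cccb39_co.Fz.St

/-! Along a peripheral cycle whose outside neighbours are linked, the rotation turns the same way
at consecutive vertices. -/

set_option linter.unusedSectionVars false

namespace FZ

open Finset
open scoped Classical

section
variable {V : Type} [Fintype V] {G : SimpleGraph V} {col : V → Bool} {nx : V → V → V}

private theorem peri_cyc (h : Cb G col) (r : RS G nx) {v p q s : V} (hp : G.Adj v p)
    (hq : G.Adj v q) (hs : G.Adj v s) (pq : p ≠ q) (ps : p ≠ s) (qs : q ≠ s) :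
    (nx v p = q ∧ nx v q = s ∧ nx v s = p) ∨ (nx v p = s ∧ nx v s = q ∧ nx v q = p) := by
  have a1 := h.nb3 hp hq hs pq ps qs (r.adj v p hp)
  have a2 := h.nb3 hp hq hs pq ps qs (r.adj v q hq)
  have a3 := h.nb3 hp hq hs pq ps qs (r.adj v s hs)
  have f1 := r.nofix v p q hp hq pq
  have f2 := r.nofix v q p hq hp pq.symm
  have f3 := r.nofix v s p hs hp ps.symm
  have i1 : nx v p ≠ nx v q := fun e => pq (r.inj v p q hp hq e)
  have i2 : nx v p ≠ nx v s := fun e => ps (r.inj v p s hp hs e)
  have i3 : nx v q ≠ nx v s := fun e => qs (r.inj v q s hq hs e)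
  rcases a1 with e1 | e1 | e1
  · exact absurd e1 f1
  · rcases a3 with e3 | e3 | e3
    · rcases a2 with e2 | e2 | e2
      · exact absurd (e2.trans e3.symm) i3
      · exact absurd e2 f2
      · exact Or.inl ⟨e1, e2, e3⟩
    · exact absurd (e1.trans e3.symm) i2
    · exact absurd e3 f3
  · rcases a2 with e2 | e2 | e2
    · rcases a3 with e3 | e3 | e3
      · exact absurd (e2.trans e3.symm) i3
      · exact Or.inr ⟨e1, e3, e2⟩
      · exact absurd e3 f3
    · exact absurd e2 f2
    · exact absurd (e1.trans e2.symm) i1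

private theorem peri_const (h : Cb G col) (r : RS G nx) {v : V} (f : V → ZMod 2)
    (hf : ∀ u, G.Adj v u → f (nx v u) = f u) {u w : V} (hu : G.Adj v u) (hw : G.Adj v w) :
    f u = f w := by
  by_cases e : u = w
  · rw [e]
  · obtain ⟨s, hs, su, sw⟩ := h.third v u w
    rcases peri_cyc h r hu hw hs e su.symm sw.symm with ⟨e1, -, -⟩ | ⟨-, -, e3⟩
    · have := hf u hu
      rw [e1] at this
      exact this.symm
    · have := hf w hw
      rw [e3] at this
      exact this

private theorem peri_ev (h : Cb G col) {C : Finset V} (hC : Per G C) :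
    Ev G (fun u v => if u ∈ C ∧ v ∈ C then 1 else 0) := by
  refine ⟨fun u v => by simp only [and_comm], fun v => ?_⟩
  by_cases hv : v ∈ C
  · obtain ⟨o, ho, vo, hu⟩ := hC v hv
    obtain ⟨p, vp, po, -⟩ := h.third v o o
    obtain ⟨q, vq, qo, qp⟩ := h.third v o p
    have hp : p ∈ C := by
      by_contra hn
      exact po (hu p vp hn)
    have hq : q ∈ C := by
      by_contra hn
      exact qo (hu q vq hn)
    have e : (univ.filter fun u => G.Adj v u) = {o, p, q} := by
      ext w
      simp only [mem_filter, mem_univ, true_and, mem_insert, mem_singleton]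
      constructor
      · exact fun hw => h.nb3 vo vp vq po.symm qo.symm qp.symm hw
      · rintro (rfl | rfl | rfl) <;> assumption
    rw [e, sum_insert (by simp [po.symm, qo.symm]), sum_insert (by simp [qp.symm]), sum_singleton]
    beta_reduce
    rw [if_neg (fun hh : v ∈ C ∧ o ∈ C => ho hh.2), if_pos (⟨hv, hp⟩ : v ∈ C ∧ p ∈ C),
      if_pos (⟨hv, hq⟩ : v ∈ C ∧ q ∈ C)]
    decide
  · exact sum_eq_zero fun u _ => if_neg fun hh => hv hh.1

end

theorem peri : PeriS := by
  intro V _ G col nx C a x b y x' b' h r hC ha hx hb hy hx' hb' xa xb xx' by' bb' ab xy lk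
  obtain ⟨c, hc⟩ := r.jor _ (peri_ev h hC)
  have c1 : ∀ v u, G.Adj v u → c v u = c u (nx u v) := fun v u e => (hc v u e).1
  have c0 : ∀ v u, G.Adj v u → (v ∉ C ∨ u ∉ C) → c v (nx v u) = c v u := by
    intro v u e hn
    have := (hc v u e).2
    rw [if_neg (fun hh => hn.elim (fun k => k hh.1) (fun k => k hh.2)), add_zero] at this
    exact this
  have c2 : ∀ v u, G.Adj v u → v ∈ C → u ∈ C → c v (nx v u) = c v u + 1 := by
    intro v u e h1 h2
    have := (hc v u e).2
    rw [if_pos ⟨h1, h2⟩] at this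
    exact this
  have cst : ∀ v, v ∉ C → ∀ u w, G.Adj v u → G.Adj v w → c v u = c v w := fun v hv u w hu hw =>
    peri_const h r (c v) (fun t ht => c0 v t ht (Or.inl hv)) hu hw
  have hZ := lk (univ.filter fun v => v ∉ C ∧ ∀ u, G.Adj v u → c v u = c x' x) (by
    intro z hz v hv zv
    have hz' := (mem_filter.1 hz).2
    have hv' : v ∉ C := mem_compl.1 hv
    refine mem_filter.2 ⟨mem_univ _, hv', fun u vu => ?_⟩
    rw [cst v hv' u (nx v z) vu (r.adj v z zv.symm), ← c1 z v zv]
    exact hz'.2 v zv)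
    (mem_filter.2 ⟨mem_univ _, hx', fun u hu => cst x' hx' u x hu xx'.symm⟩)
  have sb : c b' b = c x' x := (mem_filter.1 hZ).2.2 b bb'.symm
  have e1 : c x x' = c x' x := by
    rw [c1 x' x xx'.symm, c0 x x' xx' (Or.inr hx')]
  have e2 : c b b' = c x' x := by
    rw [← sb, c1 b' b bb'.symm, c0 b b' bb' (Or.inr hb')]
  have ax' : a ≠ x' := fun e => hx' (e ▸ ha)
  have bx' : b ≠ x' := fun e => hx' (e ▸ hb)
  have xb' : x ≠ b' := fun e => hb' (e ▸ hx)
  have yb' : y ≠ b' := fun e => hb' (e ▸ hy)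
  have ne1 : ∀ t : ZMod 2, t + 1 ≠ t := by decide
  have k0 := c0 x x' xx' (Or.inr hx')
  have k1 := c2 x a xa hx ha
  have k2 := c1 x b xb
  have k3 := c2 b y by' hb hy
  rcases peri_cyc h r xa xb xx' ab ax' bx' with ⟨p1, -, p3⟩ | ⟨p1, p2, -⟩ <;>
    rcases peri_cyc h r xb.symm by' bb' xy xb' yb' with ⟨q1, q2, -⟩ | ⟨q1, -, -⟩
  · exact ⟨fun _ => q1, fun _ => p1⟩
  · exfalso
    rw [p3] at k0
    rw [p1, k0, e1] at k1
    rw [q1, e2] at k2
    exact ne1 _ (k1.symm.trans k2)
  · exfalso
    rw [p2, e1] at k0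
    rw [q1, k0] at k2
    rw [q2, e2, ← k2] at k3
    exact ne1 _ k3.symm
  · constructor
    · intro e
      exact absurd (e.symm.trans p1) bx'
    · intro e
      exact absurd (e.symm.trans q1) yb'

end FZ
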