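import Pool.Agent.MP_cccb39_co.Fz.St

namespace FZ

open Finset
open scoped Classical

theorem prod_fst {I J : Type} [Fintype I] [Fintype J] (f : I → Fin 3) (h : Unif f) :
    Unif fun p : I × J => f p.1 := by
  intro c
  have e : (univ.filter fun p : I × J => f p.1 = c) =
      (univ.filter fun i => f i = c) ×ˢ (univ : Finset J) := by
    ext p
    simp
  rw [e, card_product, Fintype.card_prod, ← h c, card_univ, mul_assoc]

theorem prod_snd {I J : Type} [Fintype I] [Fintype J] (f : J → Fin 3) (h : Unif f) :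
    Unif fun p : I × J => f p.2 := by
  intro c
  have e : (univ.filter fun p : I × J => f p.2 = c) =
      (univ : Finset I) ×ˢ (univ.filter fun i => f i = c) := by
    ext p
    simp
  rw [e, card_product, Fintype.card_prod, ← h c, card_univ]
  ring

theorem prod : ProdS := by
  intro V _ G Y hY h1 h2 e he
  obtain ⟨I1, i1, φ1, τ1, p1⟩ := h1 (fun v => e v.1) fun v => he v.1
  obtain ⟨I2, i2, φ2, τ2, p2⟩ := h2 (fun v => e v.1) fun v => he v.1
  refine ⟨I1 × I2, inferInstance, fun p v => if h : v ∈ Y then φ1 p.1 ⟨v, h⟩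
    else φ2 p.2 ⟨v, mem_compl.2 h⟩, fun p => τ1 p.1, ?_, ?_, ?_, prod_fst τ1 p1.ut⟩
  · obtain ⟨a⟩ := p1.ne
    obtain ⟨b⟩ := p2.ne
    exact ⟨(a, b)⟩
  · intro p u _ v _ hk
    by_cases hu : u ∈ Y
    · by_cases hv : v ∈ Y
      · simp only [dif_pos hu, dif_pos hv] at hk
        exact p1.prop p.1 ⟨u, hu⟩ (mem_univ _) ⟨v, hv⟩ (mem_univ _) hk
      · exact hv (hY u hu v (mem_univ _) hk.1)
    · by_cases hv : v ∈ Y
      · exact hu (hY v hv u (mem_univ _) hk.1.symm)
      · simp only [dif_neg hu, dif_neg hv] at hk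
        exact p2.prop p.2 ⟨u, mem_compl.2 hu⟩ (mem_univ _) ⟨v, mem_compl.2 hv⟩ (mem_univ _) hk
  · intro v _
    by_cases hv : v ∈ Y
    · simp only [dif_pos hv]
      exact prod_fst (fun i => φ1 i ⟨v, hv⟩) (p1.un ⟨v, hv⟩ (mem_univ _))
    · simp only [dif_neg hv]
      exact prod_snd (fun i => φ2 i ⟨v, mem_compl.2 hv⟩) (p2.un ⟨v, mem_compl.2 hv⟩ (mem_univ _))

end FZ
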