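import Pool.Agent.MP_cccb39_co.Fz.St
import Pool.Agent.MP_a17da5_co.PC.Draw
import Pool.Agent.MP_a17da5_co.PC.Up

namespace FZ

open Finset
open scoped Classical
open Pool.Agent.MP_a17da5_co Pool.Agent.MP_a17da5_co.PC

theorem rk_of {V D : Type} [Fintype V] [Fintype D] (H : SimpleGraph V) (G : PL V D)
    (ι : V → V → D) (h1 : ∀ v u, H.Adj v u → G.vt (ι v u) = v)
    (h2 : ∀ v u, H.Adj v u → G.op (ι v u) = ι u v) : RK H fun v u => G.rk (ι v u) := by
  have h3 : ∀ v u, H.Adj v u → G.vt (G.op (ι v u)) = u := fun v u h => by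
    rw [h2 v u h, h1 u v h.symm]
  have hinj : ∀ v u w, H.Adj v u → H.Adj v w → ι v u = ι v w → u = w := fun v u w a b e => by
    rw [← h3 v u a, e, h3 v w b]
  refine ⟨fun v u w a b e => hinj v u w a b (G.rk_inj _ _ ((h1 v u a).trans (h1 v w b).symm) e),
    fun Y hY => ?_⟩
  let C : D → Prop := fun e =>
    H.Adj (G.vt e) (G.vt (G.op e)) ∧ ι (G.vt e) (G.vt (G.op e)) = e
  let Y' : D → ZMod 2 := fun e => if C e then Y (G.vt e) (G.vt (G.op e)) else 0
  have hC : ∀ e, C e → C (G.op e) := fun e h => by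
    refine ⟨by rw [G.op_op]; exact h.1.symm, ?_⟩
    rw [G.op_op, ← h2 _ _ h.1, h.2]
  have hop : ∀ e, Y' (G.op e) = Y' e := fun e => by
    by_cases h : C e
    · simp only [Y', if_pos h, if_pos (hC e h), G.op_op]
      exact hY.1 _ _
    · have h' : ¬ C (G.op e) := fun k => h (by have := hC _ k; rwa [G.op_op] at this)
      simp only [Y', if_neg h, if_neg h']
  have hι : ∀ v u, H.Adj v u → Y' (ι v u) = Y v u := fun v u h => by
    have c : C (ι v u) := by
      refine ⟨?_, ?_⟩ <;> rw [h3 v u h, h1 v u h]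
      exact h
    simp only [Y', if_pos c, h3 v u h, h1 v u h]
  have hs : ∀ (v : V) (P : D → Prop), sumOn Y' (fun e => G.vt e = v ∧ P e) =
      ∑ x ∈ univ.filter (fun x => H.Adj v x ∧ P (ι v x)), Y v x := by
    intro v P
    unfold sumOn
    refine (sum_of_injOn (ι v) (fun x hx y hy e => hinj v x y ?_ ?_ e) (fun x _ => mem_univ _)
      (fun e _ he => ?_) fun x hx => ?_).symm
    · exact (mem_filter.1 hx).2.1
    · exact (mem_filter.1 hy).2.1
    · by_cases a : G.vt e = v ∧ P e
      · have c : ¬ C e := fun c => by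
          obtain ⟨rfl, a2⟩ := a
          exact he ⟨G.vt (G.op e), mem_coe.2 (mem_filter.2
            ⟨mem_univ _, c.1, by rw [c.2]; exact a2⟩), c.2⟩
        simp only [Y', if_neg c, mul_zero]
      · rw [chi_neg a, zero_mul]
    · obtain ⟨a, b⟩ := (mem_filter.1 hx).2
      rw [chi_pos ⟨h1 v x a, b⟩, one_mul, hι v x a]
  obtain ⟨w, hw⟩ := G.jordan Y' hop fun v => by
    have := hs v fun _ => True
    simp only [and_true] at this
    rw [this]
    exact hY.2 v
  refine ⟨w, fun v u h => ?_⟩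
  have := hw (ι v u)
  rw [h3 v u h, h1 v u h, h2 v u h, hs v fun f => G.rk f < G.rk (ι v u),
    hs u fun f => G.rk f ≤ G.rk (ι u v)] at this
  convert this

theorem rk : RkS := by
  intro V _ H col f hcol hf
  by_cases hne : ∃ a b, H.Adj a b
  swap
  · exact ⟨fun _ _ => 0, fun v u _ a => absurd ⟨v, u, a⟩ hne,
      fun _ _ => ⟨fun _ => 0, fun v u a => absurd ⟨v, u, a⟩ hne⟩⟩
  have hb : ∀ u v, H.Adj u v → ¬ col u = false → col v = false := fun u v h k => by
    have := hcol u v h
    revert this k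
    cases col u <;> cases col v <;> simp
  have hb' : ∀ u v, H.Adj u v → col u = false → ¬ col v = false := fun u v h k k' =>
    hcol u v h (k.trans k'.symm)
  obtain ⟨D, _, G, -, hG⟩ := s_draw s_up V (fun a b => H.Adj a b ∧ col a = false)
    (fun v => if col v = false then 0 else 1) f
    (fun a b h => by rw [if_pos h.2, if_neg (hb' a b h.1 h.2)]; exact zero_lt_one)
    ⟨hf.1, fun a b w h => hf.2.1 a b w h.1, fun a b c d h h' hne => hf.2.2 a b c d h.1 h'.1
      fun e => by
        rcases Sym2.eq_iff.1 e with ⟨e1, e2⟩ | ⟨e1, e2⟩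
        · rcases hne with k | k
          exacts [k e1, k e2]
        · exact hb' c d h'.1 h'.2 (e1 ▸ h.2)⟩
  have : Nonempty D := by
    obtain ⟨a, b, h⟩ := hne
    by_cases k : col a = false
    · exact ⟨(hG a b ⟨h, k⟩).choose⟩
    · exact ⟨(hG b a ⟨h.symm, hb a b h k⟩).choose⟩
  choose! d hd1 hd2 using hG
  refine ⟨_, rk_of H G (fun v u => if col v = false then d v u else G.op (d u v))
    (fun v u h => ?_) fun v u h => ?_⟩
  · by_cases k : col v = false
    · rw [if_pos k]; exact hd1 v u ⟨h, k⟩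
    · rw [if_neg k]; exact hd2 u v ⟨h.symm, hb v u h k⟩
  · by_cases k : col v = false
    · rw [if_pos k, if_neg (hb' v u h k)]
    · rw [if_neg k, if_pos (hb v u h k), G.op_op]

end FZ
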