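import Pool.Agent.MP_cccb39_co.Fz.St

namespace FZ

open Finset
open scoped Classical

theorem rs_next {V : Type} [Fintype V] (H : SimpleGraph V) (rk : V → V → ℤ) (v u : V) :
    ∃ n, H.Adj v u → H.Adj v n ∧
      ((rk v u < rk v n ∧ ∀ x, H.Adj v x → rk v u < rk v x → rk v n ≤ rk v x) ∨
        ((∀ x, H.Adj v x → rk v x ≤ rk v u) ∧ ∀ x, H.Adj v x → rk v n ≤ rk v x)) := by
  by_cases h : H.Adj v u
  · by_cases k : ∃ x, H.Adj v x ∧ rk v u < rk v x
    · obtain ⟨n, h1, h2⟩ := exists_min_image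
        (univ.filter fun x => H.Adj v x ∧ rk v u < rk v x) (rk v) (k.imp fun x hx => by simpa using hx)
      have h3 := (mem_filter.1 h1).2
      exact ⟨n, fun _ => ⟨h3.1, Or.inl ⟨h3.2, fun x a b => h2 x (by simp [a, b])⟩⟩⟩
    · obtain ⟨n, h1, h2⟩ := exists_min_image (univ.filter fun x => H.Adj v x) (rk v)
        ⟨u, by simpa using h⟩
      exact ⟨n, fun _ => ⟨(mem_filter.1 h1).2, Or.inr ⟨fun x a => not_lt.1 fun b => k ⟨x, a, b⟩,
        fun x a => h2 x (by simp [a])⟩⟩⟩
  · exact ⟨u, fun a => absurd a h⟩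

theorem rs : RsS := by
  intro V _ H rk h
  choose nx hn using rs_next H rk
  refine ⟨nx, fun v u a => (hn v u a).1, fun v u w a b e => h.inj v u w a b ?_,
    fun v u w a b e f => ?_, fun Y hY => ?_⟩
  · obtain ⟨-, p⟩ := hn v u a
    obtain ⟨-, q⟩ := hn v w b
    rw [← e] at q
    rcases p with ⟨p1, p2⟩ | ⟨p1, p2⟩ <;> rcases q with ⟨q1, q2⟩ | ⟨q1, q2⟩
    · have := p2 w b
      have := q2 u a
      omega
    · have := q2 u a
      omega
    · have := p2 w b
      omega
    · exact le_antisymm (q1 u a) (p1 w b)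
  · obtain ⟨-, p⟩ := hn v u a
    rw [f] at p
    rcases p with ⟨p1, -⟩ | ⟨p1, p2⟩
    · exact lt_irrefl _ p1
    · exact e (h.inj v u w a b (le_antisymm (p2 w b) (p1 w b)))
  · obtain ⟨w, hw⟩ := h.jor Y hY
    have k1 : ∀ v u, H.Adj v u →
        ∑ x ∈ univ.filter (fun x => H.Adj v x ∧ rk v x < rk v (nx v u)), Y v x =
          ∑ x ∈ univ.filter (fun x => H.Adj v x ∧ rk v x ≤ rk v u), Y v x := fun v u a => by
      rcases (hn v u a).2 with ⟨p1, p2⟩ | ⟨p1, p2⟩
      · refine sum_congr (filter_congr fun x _ => and_congr_right fun b => ?_) fun _ _ => rfl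
        have := p2 x b
        omega
      · rw [filter_eq_empty_iff.2 fun x _ b => (p2 x b.1).not_gt b.2, sum_empty,
          filter_congr (q := fun x => H.Adj v x) fun x _ => ⟨And.left, fun b => ⟨b, p1 x b⟩⟩]
        exact (hY.2 v).symm
    have k2 : ∀ v u, H.Adj v u →
        ∑ x ∈ univ.filter (fun x => H.Adj v x ∧ rk v x ≤ rk v u), Y v x =
          ∑ x ∈ univ.filter (fun x => H.Adj v x ∧ rk v x < rk v u), Y v x + Y v u := fun v u a => by
      rw [add_comm, ← sum_insert (by simp)]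
      refine sum_congr ?_ fun _ _ => rfl
      ext x
      simp only [mem_insert, mem_filter, mem_univ, true_and]
      refine ⟨fun b => ?_, fun b => ?_⟩
      · rcases b.2.eq_or_lt with c | c
        exacts [Or.inl (h.inj v x u b.1 a c), Or.inr ⟨b.1, c⟩]
      · rcases b with rfl | b
        exacts [⟨a, le_rfl⟩, ⟨b.1, b.2.le⟩]
    refine ⟨fun v u => w v + ∑ x ∈ univ.filter (fun x => H.Adj v x ∧ rk v x < rk v u), Y v x,
      fun v u a => ⟨?_, ?_⟩⟩
    · simp only [k1 u v a.symm]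
      exact hw v u a
    · simp only [k1 v u a, k2 v u a, add_assoc]

end FZ
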