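import Pool.Agent.MP_cccb39_co.Fz.St

set_option linter.unusedSectionVars false

namespace FZ

open Finset
open scoped Classical

section
variable {V : Type} [Fintype V] {G : SimpleGraph V} {col : V → Bool}

theorem small_all (g : Cb G col) {x a b c : V} (h : ∀ y, G.Adj x y → y = a ∨ y = b ∨ y = c) :
    G.Adj x a ∧ G.Adj x b ∧ G.Adj x c := by
  obtain ⟨y1, e1, p1, q1⟩ := g.third x b c
  obtain ⟨y2, e2, p2, q2⟩ := g.third x a c
  obtain ⟨y3, e3, p3, q3⟩ := g.third x a b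
  refine ⟨?_, ?_, ?_⟩
  · rcases h y1 e1 with rfl | rfl | rfl
    exacts [e1, absurd rfl p1, absurd rfl q1]
  · rcases h y2 e2 with rfl | rfl | rfl
    exacts [absurd rfl p2, e2, absurd rfl q2]
  · rcases h y3 e3 with rfl | rfl | rfl
    exacts [absurd rfl p3, absurd rfl q3, e3]

theorem small_miss (g : Cb G col) {u v m1 m2 m3 : V} (e : G.Adj u v)
    (h : ∀ y, G.Adj u y → y ≠ v → y = m1 ∨ y = m2 ∨ y = m3) (d12 : m1 ≠ m2) (d13 : m1 ≠ m3)
    (d23 : m2 ≠ m3) (hv : ¬ (v = m1 ∨ v = m2 ∨ v = m3)) :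
    ∃ a, (a = m1 ∨ a = m2 ∨ a = m3) ∧ ¬ G.Adj u a ∧
      ∀ b, (b = m1 ∨ b = m2 ∨ b = m3) → b ≠ a → G.Adj u b := by
  have t1 : G.Adj u m2 ∨ G.Adj u m3 := by
    obtain ⟨y, e1, p, q⟩ := g.third u v m1
    rcases h y e1 p with rfl | rfl | rfl
    exacts [absurd rfl q, Or.inl e1, Or.inr e1]
  have t2 : G.Adj u m1 ∨ G.Adj u m3 := by
    obtain ⟨y, e1, p, q⟩ := g.third u v m2
    rcases h y e1 p with rfl | rfl | rfl
    exacts [Or.inl e1, absurd rfl q, Or.inr e1]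
  have t3 : G.Adj u m1 ∨ G.Adj u m2 := by
    obtain ⟨y, e1, p, q⟩ := g.third u v m3
    rcases h y e1 p with rfl | rfl | rfl
    exacts [Or.inl e1, Or.inr e1, absurd rfl q]
  by_cases a1 : G.Adj u m1
  · by_cases a2 : G.Adj u m2
    · by_cases a3 : G.Adj u m3
      · exact absurd (g.nb3 a1 a2 a3 d12 d13 d23 e) hv
      · refine ⟨m3, Or.inr (Or.inr rfl), a3, ?_⟩
        rintro b (rfl | rfl | rfl) hb
        exacts [a1, a2, absurd rfl hb]
    · refine ⟨m2, Or.inr (Or.inl rfl), a2, ?_⟩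
      rintro b (rfl | rfl | rfl) hb
      exacts [a1, absurd rfl hb, t1.resolve_left a2]
  · refine ⟨m1, Or.inl rfl, a1, ?_⟩
    rintro b (rfl | rfl | rfl) hb
    exacts [absurd rfl hb, t3.resolve_left a1, t2.resolve_left a1]

theorem small_eq {X : Finset V} {a b c d e f k : V} (hX : X.card ≤ 7)
    (nd : [a, b, c, d, e, f, k].Nodup) (ha : a ∈ X) (hb : b ∈ X) (hc : c ∈ X) (hd : d ∈ X)
    (he : e ∈ X) (hf : f ∈ X) (hk : k ∈ X) : X = {a, b, c, d, e, f, k} := by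
  have e1 : ({a, b, c, d, e, f, k} : Finset V) = [a, b, c, d, e, f, k].toFinset := by simp
  refine (eq_of_subset_of_card_le ?_ ?_).symm
  · intro x hx
    simp only [mem_insert, mem_singleton] at hx
    rcases hx with rfl | rfl | rfl | rfl | rfl | rfl | rfl <;> assumption
  · rw [e1, List.toFinset_card_of_nodup nd]
    exact hX

theorem small_nd {a b c d e f k : V} {t : Bool} (ca : col a = t) (cb : col b = t) (cc : col c = t)
    (cd : col d = t) (ce : col e ≠ t) (cf : col f ≠ t) (ck : col k ≠ t) (ab : a ≠ b) (ac : a ≠ c)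
    (bc : b ≠ c) (da : d ≠ a) (db : d ≠ b) (dc : d ≠ c) (ef : e ≠ f) (ek : e ≠ k) (fk : f ≠ k) :
    [a, b, c, d, e, f, k].Nodup := by
  have n : ∀ {x y : V}, col x = t → col y ≠ t → x ≠ y := fun hx hy e => hy (e ▸ hx)
  simp [ab, ac, bc, da.symm, db.symm, dc.symm, ef, ek, fk, n ca ce, n ca cf, n ca ck, n cb ce,
    n cb cf, n cb ck, n cc ce, n cc cf, n cc ck, n cd ce, n cd cf, n cd ck]

end

theorem small' (_h : ParBS) : SmallS := by
  intro V _ G col X u1 u2 u3 v1 v2 v3 g h hX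
  have bo : ∀ a b c : Bool, a ≠ b → a ≠ c → b = c := by decide
  have inn : ∀ x ∈ X, x ≠ u1 → x ≠ u2 → x ≠ u3 → ∀ y, G.Adj x y → y ∈ X := by
    intro x hx n1 n2 n3 y e
    by_contra hy
    rcases h.cut x hx y hy e with ⟨e, -⟩ | ⟨e, -⟩ | ⟨e, -⟩
    exacts [n1 e, n2 e, n3 e]
  have hb : ∀ b ∈ X, col b ≠ col u1 → ∀ y, G.Adj b y → y ∈ X ∧ col y = col u1 := by
    intro b hb cb y e
    exact ⟨inn b hb (fun e => cb (e ▸ rfl)) (fun e => cb (e ▸ h.c2)) (fun e => cb (e ▸ h.c3)) y e,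
      bo _ _ _ (g.bip _ _ e) cb⟩
  have hu : ∀ u ∈ X, ∀ v, v ∉ X → G.Adj u v → ∀ y, G.Adj u y → y ≠ v → y ∈ X := by
    intro u hu v hv e y e' n
    by_contra hy
    exact n (h.one hu hy hv e' e)
  by_cases ho : ∃ o ∈ X, col o = col u1 ∧ o ≠ u1 ∧ o ≠ u2 ∧ o ≠ u3
  · right
    obtain ⟨o, oX, co, o1, o2, o3⟩ := ho
    obtain ⟨m1, e1, -, -⟩ := g.third o o o
    obtain ⟨m2, e2, d21, -⟩ := g.third o m1 m1
    obtain ⟨m3, e3, d31, d32⟩ := g.third o m1 m2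
    have cm : ∀ m, G.Adj o m → col m ≠ col u1 := fun m e => co ▸ (g.bip _ _ e).symm
    have mX := inn o oX o1 o2 o3
    have eX := small_eq hX (small_nd rfl h.c2 h.c3 co (cm _ e1) (cm _ e2) (cm _ e3) h.u12 h.u13
      h.u23 o1 o2 o3 d21.symm d31.symm d32.symm) h.m1 h.m2 h.m3 oX (mX _ e1) (mX _ e2) (mX _ e3)
    have hB : ∀ y ∈ X, col y ≠ col u1 → y = m1 ∨ y = m2 ∨ y = m3 := by
      intro y hy cy
      rw [eX] at hy
      simp only [mem_insert, mem_singleton] at hy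
      rcases hy with e | e | e | e | e
      exacts [absurd (e ▸ rfl) cy, absurd (e ▸ h.c2) cy, absurd (e ▸ h.c3) cy,
        absurd (e ▸ co) cy, e]
    have hW : ∀ y ∈ X, col y = col u1 → y = u1 ∨ y = u2 ∨ y = u3 ∨ y = o := by
      intro y hy cy
      rw [eX] at hy
      simp only [mem_insert, mem_singleton] at hy
      rcases hy with e | e | e | e | e | e | e
      exacts [Or.inl e, Or.inr (Or.inl e), Or.inr (Or.inr (Or.inl e)), Or.inr (Or.inr (Or.inr e)),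
        absurd (e ▸ cy) (cm _ e1), absurd (e ▸ cy) (cm _ e2), absurd (e ▸ cy) (cm _ e3)]
    have om : ∀ a, (a = m1 ∨ a = m2 ∨ a = m3) → G.Adj o a := by
      rintro a (rfl | rfl | rfl)
      exacts [e1, e2, e3]
    have ms : ∀ u ∈ X, col u = col u1 → ∀ v, v ∉ X → G.Adj u v →
        ∃ a, (a = m1 ∨ a = m2 ∨ a = m3) ∧ ¬ G.Adj u a ∧
          ∀ b, (b = m1 ∨ b = m2 ∨ b = m3) → b ≠ a → G.Adj u b := fun u uX cu v hv e =>
      small_miss g e (fun y e' n => hB y (hu u uX v hv e y e' n) (cu ▸ (g.bip _ _ e').symm))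
        d21.symm d31.symm d32.symm fun hh => hv (mX _ (om v hh))
    obtain ⟨a1, p1, q1, r1⟩ := ms u1 h.m1 rfl v1 h.n1 h.e1
    obtain ⟨a2, p2, q2, r2⟩ := ms u2 h.m2 h.c2 v2 h.n2 h.e2
    obtain ⟨a3, p3, q3, r3⟩ := ms u3 h.m3 h.c3 v3 h.n3 h.e3
    have nb : ∀ a, (a = m1 ∨ a = m2 ∨ a = m3) → ∀ y, G.Adj a y →
        y = u1 ∨ y = u2 ∨ y = u3 ∨ y = o := fun a ha y e =>
      hW y (hb a (mX _ (om a ha)) (cm _ (om a ha)) y e).1
        (hb a (mX _ (om a ha)) (cm _ (om a ha)) y e).2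
    have d12 : a1 ≠ a2 := by
      rintro rfl
      obtain ⟨y, e, n1, n2⟩ := g.third a1 u3 o
      rcases nb a1 p1 y e with rfl | rfl | rfl | rfl
      exacts [q1 e.symm, q2 e.symm, n1 rfl, n2 rfl]
    have d13 : a1 ≠ a3 := by
      rintro rfl
      obtain ⟨y, e, n1, n2⟩ := g.third a1 u2 o
      rcases nb a1 p1 y e with rfl | rfl | rfl | rfl
      exacts [q1 e.symm, n1 rfl, q3 e.symm, n2 rfl]
    have d23 : a2 ≠ a3 := by
      rintro rfl
      obtain ⟨y, e, n1, n2⟩ := g.third a2 u1 o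
      rcases nb a2 p2 y e with rfl | rfl | rfl | rfl
      exacts [n1 rfl, q2 e.symm, q3 e.symm, n2 rfl]
    have nd := small_nd rfl h.c2 h.c3 co (cm _ (om _ p3)) (cm _ (om _ p2)) (cm _ (om _ p1)) h.u12
      h.u13 h.u23 o1 o2 o3 d23.symm d13.symm d12.symm
    have eY := small_eq hX nd h.m1 h.m2 h.m3 oX (mX _ (om _ p3)) (mX _ (om _ p2))
      (mX _ (om _ p1))
    exact ⟨a3, a2, a1, o, ⟨r1 _ p3 d13.symm, r2 _ p3 d23.symm, r1 _ p2 d12.symm, r3 _ p2 d23,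
      r2 _ p1 d12, r3 _ p1 d13, om _ p3, om _ p2, om _ p1, h.e1, h.e2, h.e3, nd, eY ▸ h.n1,
      eY ▸ h.n2, eY ▸ h.n3⟩, eY⟩
  · left
    have hW : ∀ y ∈ X, col y = col u1 → y = u1 ∨ y = u2 ∨ y = u3 := by
      intro y hy cy
      by_contra hn
      simp only [not_or] at hn
      exact ho ⟨y, hy, cy, hn.1, hn.2.1, hn.2.2⟩
    obtain ⟨x, ex, nx, -⟩ := g.third u1 v1 v1
    obtain ⟨y, ey, ny, xy⟩ := g.third u1 v1 x
    have al : ∀ z, G.Adj u1 z → z ≠ v1 → z ∈ X ∧ G.Adj z u1 ∧ G.Adj z u2 ∧ G.Adj z u3 := by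
      intro z e n
      have zX := hu u1 h.m1 v1 h.n1 h.e1 z e n
      exact ⟨zX, small_all g fun w ew => hW w (hb z zX (g.bip _ _ e).symm w ew).1
        (hb z zX (g.bip _ _ e).symm w ew).2⟩
    obtain ⟨x0, x1, x2, x3⟩ := al x ex nx
    obtain ⟨y0, y1, y2, y3⟩ := al y ey ny
    exact ⟨x, x0, y, y0, xy.symm, x1, x2, x3, y1, y2, y3⟩

end FZ
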