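import Pool.Agent.MP_cccb39_co.Fz.St

namespace FZ

open Finset
open scoped Classical

theorem sp (h1 : LevS) (h2 : LpS) : SpS := by
  intro V _ G W A B hA hB h
  obtain ⟨Y, lev, hY, hc, hl⟩ := h1 V G W A hA
  obtain ⟨b0, hb0, hb1⟩ := h Y hl.sub hY hc
  obtain ⟨b, hb, hmin⟩ := exists_min_image (B.filter (· ∈ Y)) lev ⟨b0, mem_filter.2 ⟨hb0, hb1⟩⟩
  obtain ⟨bB, bY⟩ := mem_filter.1 hb
  obtain ⟨R, a, hp⟩ := h2 V G A Y lev hl b bY
  have z : ∀ x ∈ A, lev x = 0 := fun x hx => (hl.zero x (hl.sub hx)).2 hx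
  have a0 := z a hp.ma
  have aR := hp.ps.m2
  have bR := hp.ps.m1
  have mn : ∀ x ∈ B, x ∈ Y → lev b ≤ lev x := fun x h3 h4 => hmin x (mem_filter.2 ⟨h3, h4⟩)
  have lo : ∀ x ∈ R, lev x ≤ 1 → x = a ∨ G.Adj a x := fun x hx h3 => by
    by_cases e : lev x = lev a
    · exact Or.inl (hp.inj x hx a aR e)
    · exact Or.inr (hp.con a aR x hx (by omega))
  have hi : ∀ x ∈ R, lev b ≤ lev x + 1 → x = b ∨ G.Adj b x := fun x hx h3 => by
    have h4 := hp.le x hx
    by_cases e : lev x = lev b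
    · exact Or.inl (hp.inj x hx b bR e)
    · exact Or.inr (hp.con x hx b bR (by omega)).symm
  have na : ∀ x ∈ R, G.Adj a x → lev x = 1 := fun x hx e => by
    have h3 := hl.lip a (hp.sub aR) x (hp.sub hx) e
    have h4 : lev x ≠ lev a := fun c => e.ne (hp.inj x hx a aR c).symm
    omega
  have nb : ∀ x ∈ R, G.Adj b x → lev x + 1 = lev b := fun x hx e => by
    have h3 := hl.lip x (hp.sub hx) b bY e.symm
    have h4 : lev x ≠ lev b := fun c => e.ne (hp.inj x hx b bR c).symm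
    have h5 := hp.le x hx
    omega
  refine ⟨R, a, b, hp.ps.swap, hp.sub.trans hY, hp.ma, bB,
    fun x hx xA => hp.inj x hx a aR (by rw [z x xA, a0]),
    fun x hx xB => hp.inj x hx b bR (le_antisymm (hp.le x hx) (mn x xB (hp.sub hx))),
    fun x hx y hy e1 e2 => hp.inj x hx y hy (by rw [na x hx e1, na y hy e2]),
    fun x hx y hy e1 e2 => hp.inj x hx y hy (by have := nb x hx e1; have := nb y hy e2; omega),
    fun a' ha' x hx e => lo x hx ?_, fun b' hb' x hx e => hi x hx ?_,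
    fun a' ha' b' hb' e => ?_, fun a' ha' b' hb' t ht e1 e2 => ?_⟩
  · have := hl.lip a' (hl.sub ha') x (hp.sub hx) e
    rwa [z a' ha'] at this
  · have h3 : b' ∈ Y := hc x (hp.sub hx) b' (hB hb') e.symm
    exact (mn b' hb' h3).trans (hl.lip x (hp.sub hx) b' h3 e.symm)
  · have h3 : b' ∈ Y := hc a' (hl.sub ha') b' (hB hb') e
    have h4 := hl.lip a' (hl.sub ha') b' h3 e
    have h5 := mn b' hb' h3
    have h6 := z a' ha'
    exact (lo b bR (by omega)).imp_left Eq.symm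
  · have h3 : t ∈ Y := hc a' (hl.sub ha') t ht e1
    have h4 : b' ∈ Y := hc t h3 b' (hB hb') e2
    have h5 := hl.lip a' (hl.sub ha') t h3 e1
    have h6 := hl.lip t h3 b' h4 e2
    have h7 := mn b' hb' h4
    have h8 := z a' ha'
    by_cases e : lev b ≤ 1
    · exact (lo b bR e).imp Eq.symm Or.inl
    · obtain ⟨p, pR, hp1⟩ := hp.all 1 (by omega)
      exact Or.inr (Or.inr ⟨p, hY (hp.sub pR), hp.con a aR p pR (by omega),
        hp.con p pR b bR (by omega)⟩)

end FZ
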