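import Pool.Agent.MP_cccb39_co.Fz.St

namespace FZ

open Finset
open scoped Classical

theorem sq_card {V : Type} [Fintype V] {H : SimpleGraph V} {col : V → Bool}
    (bip : ∀ u v, H.Adj u v → col u ≠ col v) {a b c e : V} (h : Sq H a b c e) :
    (univ.filter fun d : Dt H => d.1.1 ∈ ({a, b, c, e} : Finset V) ∧
      d.1.2 ∈ ({a, b, c, e} : Finset V)).card ≤ 8 := by
  have tri : ∀ u v w, H.Adj u v → H.Adj v w → ¬ H.Adj u w := by
    intro u v w h1 h2 h3
    have k1 := bip u v h1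
    have k2 := bip v w h2
    have k3 := bip u w h3
    revert k1 k2 k3
    cases col u <;> cases col v <;> cases col w <;> simp
  have ac : ¬ H.Adj a c := tri a b c h.ab h.bc
  have be : ¬ H.Adj b e := tri b c e h.bc h.cd
  refine le_trans (card_le_card_of_injOn (t := [(a, b), (b, a), (b, c), (c, b), (c, e), (e, c),
    (e, a), (a, e)].toFinset) Subtype.val ?_ Subtype.val_injective.injOn)
    (List.toFinset_card_le _)
  rintro ⟨⟨u, v⟩, huv⟩ hd
  simp only [coe_filter, mem_univ, true_and, mem_insert, mem_singleton, Set.mem_ofPred_eq] at hd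
  have huv' : H.Adj u v := huv
  obtain ⟨h1, h2⟩ := hd
  rcases h1 with rfl | rfl | rfl | rfl <;> rcases h2 with rfl | rfl | rfl | rfl <;>
    first
      | exact absurd huv' H.irrefl
      | exact absurd huv' ac
      | exact absurd huv'.symm ac
      | exact absurd huv' be
      | exact absurd huv'.symm be
      | simp

theorem sq (h1 : EulS) (h2 : OrbS) : SqS := by
  intro V _ H nx col X r bip hX hne hdeg hcard
  by_contra hno
  have inj : Function.Injective
      (fun d : Dt H => (⟨(d.1.2, nx d.1.2 d.1.1), r.adj _ _ d.2.symm⟩ : Dt H)) := by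
    rintro ⟨⟨u, v⟩, h⟩ ⟨⟨u', v'⟩, h'⟩ e
    have e1 : v = v' := congrArg (fun d : Dt H => d.1.1) e
    subst e1
    have e2 : nx v u = nx v u' := congrArg (fun d : Dt H => d.1.2) e
    have e3 : u = u' := r.inj v u u' h.symm h'.symm e2
    subst e3
    rfl
  obtain ⟨φ, hφ⟩ : ∃ φ : Equiv.Perm (Dt H), ∀ d, (φ d).1 = (d.1.2, nx d.1.2 d.1.1) :=
    ⟨Equiv.ofBijective _ (Finite.injective_iff_bijective.1 inj), fun _ => rfl⟩
  have f1 : ∀ d, (φ d).1.1 = d.1.2 := fun d => by rw [hφ]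
  have f2 : ∀ d, (φ d).1.2 = nx d.1.2 d.1.1 := fun d => by rw [hφ]
  have nf : ∀ v u, H.Adj v u → nx v u ≠ u := by
    intro v u h
    obtain ⟨a, b, ab, ha, hb⟩ := hdeg v (hX v u h)
    by_cases e : u = a
    · exact r.nofix v u b h hb (e ▸ ab)
    · exact r.nofix v u a h ha e
  have ad : ∀ d, H.Adj d.1.1 (φ d).1.1 := fun d => by rw [f1]; exact d.2
  have cl : ∀ d, col (φ d).1.1 = !col d.1.1 := fun d => by
    have := bip _ _ (ad d)
    revert this
    cases col d.1.1 <;> cases col (φ d).1.1 <;> simp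
  have n2 : ∀ d, (φ (φ d)).1.1 ≠ d.1.1 := fun d => by
    rw [f1, f2]
    exact nf _ _ d.2.symm
  have p2 : ∀ d, (φ ^ 2) d = φ (φ d) := fun d => by simp [pow_succ]
  have p3 : ∀ d, (φ ^ 3) d = φ (φ (φ d)) := fun d => by simp [pow_succ]
  have p4 : ∀ d, (φ ^ 4) d = φ (φ (φ (φ d))) := fun d => by simp [pow_succ]
  have p5 : ∀ d, (φ ^ 5) d = φ (φ (φ (φ (φ d)))) := fun d => by simp [pow_succ]
  have o1 : ∀ d, φ d ≠ d ∧ (φ ^ 2) d ≠ d ∧ (φ ^ 3) d ≠ d := fun d => by
    refine ⟨fun e => ?_, fun e => ?_, fun e => ?_⟩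
    · have := cl d
      rw [e] at this
      simp at this
    · rw [p2] at e
      exact n2 d (by rw [e])
    · rw [p3] at e
      have := cl (φ (φ d))
      rw [e, cl, cl] at this
      simp at this
  have o5 : ∀ d, (φ ^ 5) d ≠ d := fun d e => by
    rw [p5] at e
    have := cl (φ (φ (φ (φ d))))
    rw [e, cl, cl, cl, cl] at this
    simp at this
  have o4 : ∀ d, (φ ^ 4) d = d →
      Sq H d.1.1 (φ d).1.1 (φ (φ d)).1.1 (φ (φ (φ d))).1.1 := fun d e => by
    rw [p4] at e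
    refine ⟨ad _, ad _, ad _, ?_, (n2 d).symm, (n2 _).symm⟩
    have := ad (φ (φ (φ d)))
    rwa [e] at this
  have hD : Nonempty (Dt H) := by
    obtain ⟨v, hv⟩ := hne
    obtain ⟨a, -, -, ha, -⟩ := hdeg v hv
    exact ⟨⟨(v, a), ha⟩⟩
  have k1 := h1 V H nx col X φ r bip hX hD hφ
  have k2 : 6 * Nat.card (Quotient (Equiv.Perm.SameCycle.setoid φ)) ≤
      Fintype.card (Dt H) + 4 := by
    by_cases hs : ∃ a b c e, Sq H a b c e
    · obtain ⟨a, b, c, e, hs⟩ := hs
      refine h2 _ φ _ (sq_card bip hs) o1 fun d hd => ⟨fun e4 => hd ?_, o5 d⟩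
      have he : ({d.1.1, (φ d).1.1, (φ (φ d)).1.1, (φ (φ (φ d))).1.1} : Finset V) =
          {a, b, c, e} := by
        by_contra hn
        exact hno ⟨_, _, _, _, _, _, _, _, o4 d e4, hs, hn⟩
      rw [mem_filter, ← he, ← f1 d]
      simp
    · exact h2 _ φ ∅ (by simp) o1 fun d _ => ⟨fun e4 => hs ⟨_, _, _, _, o4 d e4⟩, o5 d⟩
  omega

end FZ
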