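import Pool.Agent.MP_cccb39_co.Fz.TabD

namespace FZ

theorem rows1_0 : rows 36 6 = true := by decide +kernel

theorem rows1_1 : rows 42 6 = true := by decide +kernel

theorem rows1_2 : rows 48 6 = true := by decide +kernel

theorem rows1_3 : rows 54 6 = true := by decide +kernel

theorem rows1_4 : rows 60 6 = true := by decide +kernel

theorem rows1_5 : rows 66 6 = true := by decide +kernel

theorem rows1 (c : ℕ) (h1 : 36 ≤ c) (h2 : c < 72) : row c (tb.getD c 0) = true := by
  by_cases h : c < 42
  · exact row_of rows1_0 (by omega) (by omega)
  have := h
  clear h
  by_cases h : c < 48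
  · exact row_of rows1_1 (by omega) (by omega)
  have := h
  clear h
  by_cases h : c < 54
  · exact row_of rows1_2 (by omega) (by omega)
  have := h
  clear h
  by_cases h : c < 60
  · exact row_of rows1_3 (by omega) (by omega)
  have := h
  clear h
  by_cases h : c < 66
  · exact row_of rows1_4 (by omega) (by omega)
  have := h
  clear h
  exact row_of rows1_5 (by omega) (by omega)

end FZ
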