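import Pool.Agent.MP_cccb39_co.Fz.TabD

namespace FZ

theorem rows2_0 : rows 72 6 = true := by decide +kernel

theorem rows2_1 : rows 78 6 = true := by decide +kernel

theorem rows2_2 : rows 84 6 = true := by decide +kernel

theorem rows2_3 : rows 90 6 = true := by decide +kernel

theorem rows2_4 : rows 96 6 = true := by decide +kernel

theorem rows2_5 : rows 102 6 = true := by decide +kernel

theorem rows2 (c : ℕ) (h1 : 72 ≤ c) (h2 : c < 108) : row c (tb.getD c 0) = true := by
  by_cases h : c < 78
  · exact row_of rows2_0 (by omega) (by omega)
  have := h
  clear h
  by_cases h : c < 84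
  · exact row_of rows2_1 (by omega) (by omega)
  have := h
  clear h
  by_cases h : c < 90
  · exact row_of rows2_2 (by omega) (by omega)
  have := h
  clear h
  by_cases h : c < 96
  · exact row_of rows2_3 (by omega) (by omega)
  have := h
  clear h
  by_cases h : c < 102
  · exact row_of rows2_4 (by omega) (by omega)
  have := h
  clear h
  exact row_of rows2_5 (by omega) (by omega)

end FZ
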