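import Pool.Agent.MP_cccb39_co.Fz.TabD

namespace FZ

theorem rows3_0 : rows 108 6 = true := by decide +kernel

theorem rows3_1 : rows 114 6 = true := by decide +kernel

theorem rows3_2 : rows 120 6 = true := by decide +kernel

theorem rows3_3 : rows 126 6 = true := by decide +kernel

theorem rows3_4 : rows 132 6 = true := by decide +kernel

theorem rows3_5 : rows 138 6 = true := by decide +kernel

theorem rows3 (c : ℕ) (h1 : 108 ≤ c) (h2 : c < 144) : row c (tb.getD c 0) = true := by
  by_cases h : c < 114
  · exact row_of rows3_0 (by omega) (by omega)
  have := h
  clear h
  by_cases h : c < 120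
  · exact row_of rows3_1 (by omega) (by omega)
  have := h
  clear h
  by_cases h : c < 126
  · exact row_of rows3_2 (by omega) (by omega)
  have := h
  clear h
  by_cases h : c < 132
  · exact row_of rows3_3 (by omega) (by omega)
  have := h
  clear h
  by_cases h : c < 138
  · exact row_of rows3_4 (by omega) (by omega)
  have := h
  clear h
  exact row_of rows3_5 (by omega) (by omega)

end FZ
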