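import Pool.Agent.MP_cccb39_co.Fz.TabD

namespace FZ

theorem rows4_0 : rows 144 6 = true := by decide +kernel

theorem rows4_1 : rows 150 6 = true := by decide +kernel

theorem rows4_2 : rows 156 6 = true := by decide +kernel

theorem rows4_3 : rows 162 6 = true := by decide +kernel

theorem rows4_4 : rows 168 6 = true := by decide +kernel

theorem rows4_5 : rows 174 6 = true := by decide +kernel

theorem rows4 (c : ℕ) (h1 : 144 ≤ c) (h2 : c < 180) : row c (tb.getD c 0) = true := by
  by_cases h : c < 150
  · exact row_of rows4_0 (by omega) (by omega)
  have := h
  clear h
  by_cases h : c < 156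
  · exact row_of rows4_1 (by omega) (by omega)
  have := h
  clear h
  by_cases h : c < 162
  · exact row_of rows4_2 (by omega) (by omega)
  have := h
  clear h
  by_cases h : c < 168
  · exact row_of rows4_3 (by omega) (by omega)
  have := h
  clear h
  by_cases h : c < 174
  · exact row_of rows4_4 (by omega) (by omega)
  have := h
  clear h
  exact row_of rows4_5 (by omega) (by omega)

end FZ
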