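import Pool.Agent.MP_cccb39_co.Fz.TabD

namespace FZ

theorem rows5_0 : rows 180 6 = true := by decide +kernel

theorem rows5_1 : rows 186 6 = true := by decide +kernel

theorem rows5_2 : rows 192 6 = true := by decide +kernel

theorem rows5_3 : rows 198 6 = true := by decide +kernel

theorem rows5_4 : rows 204 6 = true := by decide +kernel

theorem rows5_5 : rows 210 6 = true := by decide +kernel

theorem rows5 (c : ℕ) (h1 : 180 ≤ c) (h2 : c < 216) : row c (tb.getD c 0) = true := by
  by_cases h : c < 186
  · exact row_of rows5_0 (by omega) (by omega)
  have := h
  clear h
  by_cases h : c < 192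
  · exact row_of rows5_1 (by omega) (by omega)
  have := h
  clear h
  by_cases h : c < 198
  · exact row_of rows5_2 (by omega) (by omega)
  have := h
  clear h
  by_cases h : c < 204
  · exact row_of rows5_3 (by omega) (by omega)
  have := h
  clear h
  by_cases h : c < 210
  · exact row_of rows5_4 (by omega) (by omega)
  have := h
  clear h
  exact row_of rows5_5 (by omega) (by omega)

end FZ
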