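import Pool.Agent.MP_cccb39_co.Fz.Tab0
import Pool.Agent.MP_cccb39_co.Fz.Tab1
import Pool.Agent.MP_cccb39_co.Fz.Tab2
import Pool.Agent.MP_cccb39_co.Fz.Tab3
import Pool.Agent.MP_cccb39_co.Fz.Tab4
import Pool.Agent.MP_cccb39_co.Fz.Tab5

namespace FZ

theorem pm_ex : ∀ s : Equiv.Perm (Fin 3), ∃ a : Fin 6, ∀ i, s i = Pm a i := by decide +kernel

theorem row_all (c : ℕ) (hc : c < 216) : row c (tb.getD c 0) = true := by
  by_cases h1 : c < 36
  · exact rows0 c (by omega) (by omega)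
  by_cases h2 : c < 72
  · exact rows1 c (by omega) (by omega)
  by_cases h3 : c < 108
  · exact rows2 c (by omega) (by omega)
  by_cases h4 : c < 144
  · exact rows3 c (by omega) (by omega)
  by_cases h5 : c < 180
  · exact rows4 c (by omega) (by omega)
  · exact rows5 c (by omega) (by omega)

theorem tab : TabS := by
  intro s1 s2 s3 s4 s5
  obtain ⟨a1, e1⟩ := pm_ex s1
  obtain ⟨a2, e2⟩ := pm_ex s2
  obtain ⟨a3, e3⟩ := pm_ex s3
  obtain ⟨a4, e4⟩ := pm_ex s4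
  obtain ⟨a5, e5⟩ := pm_ex s5
  rw [funext e1, funext e2, funext e3, funext e4, funext e5]
  have h := List.all_eq_true.1 (row_all (a3 + 6 * a4 + 36 * a5) (by omega)) (a1 + 6 * a2)
    (List.mem_range.2 (by omega))
  have k1 : (a1 + 6 * a2 : ℕ) % 6 = a1 := by omega
  have k2 : (a1 + 6 * a2 : ℕ) / 6 = a2 := by omega
  have k3 : (a3 + 6 * a4 + 36 * a5 : ℕ) % 6 = a3 := by omega
  have k4 : (a3 + 6 * a4 + 36 * a5 : ℕ) / 6 % 6 = a4 := by omega
  have k5 : (a3 + 6 * a4 + 36 * a5 : ℕ) / 36 = a5 := by omega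
  rw [k1, k2, k3, k4, k5, Bool.or_eq_true] at h
  rcases h with h | h
  · exact Or.inl (good_six h)
  · have h' := fun m hm => Bool.and_eq_true_iff.1 (List.all_eq_true.1 h m (List.mem_range.2 hm))
    exact Or.inr ⟨_, bne_iff_ne.1 (h' 0 (by omega)).1, fun m hm => good_six (h' m hm).2⟩

end FZ
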