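import Pool.Agent.MP_cccb39_co.Fz.St

/-! A cubic graph with a rotation has no two peripheral cycles that part at a vertex. -/

namespace FZ

open Finset
open scoped Classical

theorem th (h : PeriS) : ThS := by
  intro V _ G col nx g r C1 C2 a c x b y b' t
  have ac : a ≠ c := fun e => t.c1 (e ▸ t.a1)
  have h1 := h V G col nx C1 a x b y c b' g r t.p1 t.a1 t.x1 t.b1 t.y1 t.c1 t.o1 t.xa t.xb t.xc
    t.by' t.bo t.ab t.xy t.l1
  have h2 := h V G col nx C2 c x b y a b' g r t.p2 t.c2 t.x2 t.b2 t.y2 t.a2 t.o2 t.xc t.xb t.xa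
    t.by' t.bo t.cb t.xy t.l2
  by_cases e : nx b x = y
  · exact ac (r.inj x a c t.xa t.xc ((h1.2 e).trans (h2.2 e).symm))
  · have na : nx x a ≠ b := fun k => e (h1.1 k)
    have nc : nx x c ≠ b := fun k => e (h2.1 k)
    have ea : nx x a = c := by
      rcases g.nb3 t.xa t.xb t.xc t.ab ac t.cb.symm (r.adj x a t.xa) with k | k | k
      · exact absurd k (r.nofix x a b t.xa t.xb t.ab)
      · exact absurd k na
      · exact k
    have ec : nx x c = a := by
      rcases g.nb3 t.xa t.xb t.xc t.ab ac t.cb.symm (r.adj x c t.xc) with k | k | k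
      · exact k
      · exact absurd k nc
      · exact absurd k (r.nofix x c b t.xc t.xb t.cb)
    rcases g.nb3 t.xa t.xb t.xc t.ab ac t.cb.symm (r.adj x b t.xb) with k | k | k
    · exact t.cb (r.inj x c b t.xc t.xb (ec.trans k.symm))
    · exact r.nofix x b a t.xb t.xa t.ab.symm k
    · exact t.ab (r.inj x a b t.xa t.xb (ea.trans k.symm))

end FZ
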