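import Pool.Agent.MP_cccb39_co.Fz.St

/-! Extension of a packing over a forest whose vertices see one forbidden colour. -/

namespace FZ

open Finset
open scoped Classical

theorem thread_card {I : Type} [Fintype I] (h : I × Bool → Fin 3) (c : Fin 3) :
    (univ.filter fun p => h p = c).card =
      ∑ i, ((if h (i, true) = c then 1 else 0) + if h (i, false) = c then 1 else 0) := by
  rw [card_filter, Fintype.sum_prod_type]
  exact sum_congr rfl fun i _ => Fintype.sum_bool _

theorem thread_dup {I : Type} [Fintype I] {f : I → Fin 3} (h : Unif f) :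
    Unif fun p : I × Bool => f p.1 := by
  intro c
  have h1 := h c
  rw [card_filter] at h1
  rw [thread_card (fun p : I × Bool => f p.1) c, sum_add_distrib, Fintype.card_prod,
    Fintype.card_bool]
  dsimp only
  omega

theorem thread_three : ∀ a b r c : Fin 3, a ≠ r → b ≠ r → a ≠ b →
    ((if a = c then 1 else 0) + if b = c then 1 else 0) + (if r = c then 1 else 0) = 1 := by
  decide

theorem thread_two {I : Type} [Fintype I] {f g ρ : I → Fin 3} (h : Unif ρ)
    (hd : ∀ i, f i ≠ ρ i ∧ g i ≠ ρ i ∧ f i ≠ g i) :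
    Unif fun p : I × Bool => if p.2 = true then f p.1 else g p.1 := by
  intro c
  have h1 := h c
  rw [card_filter] at h1
  have h2 : ∑ i, (((if f i = c then 1 else 0) + if g i = c then 1 else 0) +
      if ρ i = c then 1 else 0) = Fintype.card I := by
    rw [sum_congr rfl fun i _ => thread_three _ _ _ c (hd i).1 (hd i).2.1 (hd i).2.2]
    simp
  rw [sum_add_distrib] at h2
  rw [thread_card (fun p : I × Bool => if p.2 = true then f p.1 else g p.1) c, Fintype.card_prod,
    Fintype.card_bool]
  simp only [if_true, Bool.false_eq_true, if_false]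
  omega

theorem thread (hT : TwoS) : ThreadS := by
  intro V _ H T S Q K I _ φ τ hK _ hQ _ hF hP hρ
  choose! ρ h1 h2 using hρ
  choose f g hf hg hfg using fun i : I => hT V H T Q K hK hQ hF fun v => ρ v i
  let ψ : I × Bool → V → Fin 3 := fun p v => if p.2 = true then f p.1 v else g p.1 v
  have a1 : ∀ p, ∀ u ∈ Q, ∀ v ∈ Q, ¬ K u (ψ p u) v (ψ p v) := by
    rintro ⟨i, _ | _⟩ u hu v hv
    · exact hg i u hu v hv
    · exact hf i u hu v hv
  have a2 : ∀ p, ∀ u ∈ S, ∀ v ∈ Q, ¬ K u (φ p.1 u) v (ψ p v) := by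
    rintro ⟨i, _ | _⟩ u hu v hv k
    · exact (hfg i v hv).2.1 (h2 v hv i u hu _ k)
    · exact (hfg i v hv).1 (h2 v hv i u hu _ k)
  have sq : ∀ v ∈ S ∪ Q, v ∉ Q → v ∈ S := fun v hv n => (mem_union.1 hv).resolve_right n
  obtain ⟨i0⟩ := hP.ne
  refine ⟨I × Bool, inferInstance, fun p v => if v ∈ Q then ψ p v else φ p.1 v, fun p => τ p.1,
    ⟨⟨(i0, true)⟩, fun p u hu v hv => ?_, fun v hv => ?_, thread_dup hP.ut⟩⟩
  · by_cases a : u ∈ Q <;> by_cases b : v ∈ Q <;> simp only [a, b, if_true, if_false]
    · exact a1 p u a v b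
    · exact fun k => a2 p v (sq v hv b) u a (hK.symm _ _ _ _ k)
    · exact a2 p u (sq u hu a) v b
    · exact hP.prop p.1 u (sq u hu a) v (sq v hv b)
  · by_cases b : v ∈ Q <;> simp only [b, if_true, if_false]
    · exact thread_two (f := fun i => f i v) (g := fun i => g i v) (h1 v b) fun i => hfg i v b
    · exact thread_dup (f := fun i => φ i v) (hP.un v (sq v hv b))

end FZ
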