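import Pool.Agent.MP_cccb39_co.Fz.St

namespace FZ

open Finset
open scoped Classical

theorem tr_lift {V : Type} [Fintype V] {G : SimpleGraph V} {X : Finset V} {x : V}
    {b : Option X} (hx : x ∈ X) (h : (ctr G X).Adj (kp X x) b) :
    ∃ y, kp X y = b ∧ G.Adj x y := by
  obtain ⟨-, x', y', h1, h2, e⟩ := h
  exact ⟨y', h2, kp_eq hx h1 ▸ e⟩

theorem tr (h0 : E4S) (h1 : TrP1S) (h2 : TrP2S) (h3 : TrGS) : TrS := by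
  intro V _ G col X u1 u2 u3 v1 v2 v3 hE g
  rintro ⟨y1, y2, b, t, z1, z2, ⟨QH, b', t', hc, k1, k2, k3, k4, k5, k6⟩, hz⟩
  simp only [mem_insert, mem_singleton, not_or] at hz
  obtain ⟨n1, n2, n3, n4, n5, n6⟩ := hz
  obtain ⟨x1, m1, rfl⟩ := kp_ex (Ne.symm n1)
  obtain ⟨x2, m2, rfl⟩ := kp_ex (Ne.symm n2)
  obtain ⟨a, m3, rfl⟩ := kp_ex (Ne.symm n3)
  obtain ⟨s, m4, rfl⟩ := kp_ex (Ne.symm n4)
  obtain ⟨w1, m5, rfl⟩ := kp_ex (Ne.symm n5)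
  obtain ⟨w2, m6, rfl⟩ := kp_ex (Ne.symm n6)
  obtain ⟨a', rfl, ea⟩ := tr_lift m1 hc.e1'
  obtain ⟨s', rfl, es⟩ := tr_lift m2 hc.e2'
  have hQ : ∃ Q, Lift X QH Q ∧ PS G Q x1 x2 := by
    by_cases hn : none ∈ QH
    · exact h2 V G col X u1 u2 u3 v1 v2 v3 QH x1 x2 hE m1 m2 (fun e => hc.ne (e ▸ rfl)) hn hc.ps
    · exact h1 V G X QH x1 x2 m1 m2 hn hc.ps
  obtain ⟨Q, hL, hP⟩ := hQ
  exact ⟨Q, x1, x2, a, a', s, s', h3 V G col X u1 u2 u3 v1 v2 v3 QH Q x1 x2 a a' s s' w1 w2 hE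
    g.toCb hL hP m1 m2 m3 m4 m5 m6 ea es (h0 _ _ _ _ _ _ _ _ _ _ g hc) ((hL.inn w1 m5).2 k1)
    (fun e => k2 (e ▸ rfl)) (ctr_in m3 m5 k3) ((hL.inn w2 m6).2 k4) (fun e => k5 (e ▸ rfl))
    (ctr_in m4 m6 k6)⟩

end FZ
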