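import Pool.Agent.MP_cccb39_co.Fz.St

namespace FZ

open Finset
open scoped Classical

theorem trb2_sub {V : Type} [Fintype V] {G : SimpleGraph V} {col : V → Bool} {X : Finset V}
    {u1 u2 u3 v1 v2 v3 : V} {QH : Finset (Option X)} {Q Y : Finset V} {x1 x2 a a' s s' : V}
    (hE : End G col X u1 u2 u3 v1 v2 v3) (hL : Lift X QH Q) (hn : none ∈ QH)
    (ha : a ∈ X) (hs : s ∈ X) (ha' : a' ∈ X) (hs' : s' ∈ X)
    (hB : Bad G Q x1 x2 a a' s s' Y) : ∀ y ∈ Y, y ∈ X := by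
  intro y hy
  by_contra hyX
  obtain ⟨r, hrQ, hrX⟩ := hL.o2 hn
  have hc : Clo G Xᶜ (Y \ X) := by
    intro z hz v hv e
    rw [mem_sdiff] at hz ⊢
    rw [mem_compl] at hv
    refine ⟨?_, hv⟩
    by_cases hq : v ∈ Q
    · rcases hB.cl2 z hz.1 v hq e with rfl | rfl | rfl | rfl
      · exact absurd ha hz.2
      · exact absurd ha' hz.2
      · exact absurd hs hz.2
      · exact absurd hs' hz.2
    · exact hB.cl1 z hz.1 v e hq
  have hr := hE.con (Y \ X) hc ⟨y, mem_sdiff.2 ⟨hy, hyX⟩, hyX⟩ r hrX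
  exact disjoint_left.1 hB.dis (mem_sdiff.1 hr).1 hrQ

theorem trb2_mem {V : Type} [Fintype V] {X Y : Finset V} {x : V} (hx : x ∈ X) :
    kp X x ∈ Y.image (kp X) ↔ x ∈ Y := by
  constructor
  · intro h
    obtain ⟨y, hy, e⟩ := mem_image.1 h
    exact kp_eq hx e ▸ hy
  · exact fun h => mem_image_of_mem _ h

theorem trb2_f {V : Type} [Fintype V] {G : SimpleGraph V} {X : Finset V}
    {QH : Finset (Option X)} {Q Y : Finset V} {x1 a a' : V}
    (hL : Lift X QH Q) (hY : ∀ y ∈ Y, y ∈ X) (hx1 : x1 ∈ X) (ha : a ∈ X) (ha' : a' ∈ X)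
    (cl1 : ∀ y ∈ Y, ∀ v, G.Adj y v → v ∉ Q → v ∈ Y) (haY : a ∈ Y) (haY' : a' ∈ Y)
    (h1 : ∃ x, x ∉ Q ∧ G.Adj a x) (h2 : ∀ w ∈ Q, G.Adj a' w → w = x1) :
    (∃ x, x ∉ QH ∧ (ctr G X).Adj (kp X a) x) ∧
      ∀ w ∈ QH, (ctr G X).Adj (kp X a') w → w = kp X x1 := by
  constructor
  · obtain ⟨x, hxQ, e⟩ := h1
    have hxX := hY x (cl1 a haY x e hxQ)
    exact ⟨kp X x, fun h => hxQ ((hL.inn x hxX).2 h), ctr_adj e ha⟩
  · intro w hw e
    by_cases hw0 : w = none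
    · subst hw0
      obtain ⟨y, hyX, e'⟩ := ctr_out ha' e
      by_cases hq : y ∈ Q
      · exact absurd ((h2 y hq e').symm ▸ hx1) hyX
      · exact absurd (hY y (cl1 a' haY' y e' hq)) hyX
    · obtain ⟨x, hxX, rfl⟩ := kp_ex hw0
      rw [h2 x ((hL.inn x hxX).2 hw) (ctr_in ha' hxX e)]

theorem trB2 : TrB2S := by
  intro V _ G col X u1 u2 u3 v1 v2 v3 QH Q Y x1 x2 a a' s s' hE hL hn hx1 hx2 ha hs ha' hs' hB
  have hY := trb2_sub hE hL hn ha hs ha' hs' hB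
  refine ⟨Y.image (kp X), hB.ne.image _, ?_, ?_, ?_, ?_, ?_, ?_, ?_⟩
  · rw [disjoint_left]
    intro z hz hq
    obtain ⟨y, hy, rfl⟩ := mem_image.1 hz
    exact disjoint_left.1 hB.dis hy ((hL.inn y (hY y hy)).2 hq)
  · intro z hz v e hv
    obtain ⟨y, hy, rfl⟩ := mem_image.1 hz
    have hv0 : v ≠ none := fun h => hv (h ▸ hn)
    obtain ⟨x, hxX, rfl⟩ := kp_ex hv0
    exact mem_image_of_mem _
      (hB.cl1 y hy x (ctr_in (hY y hy) hxX e) fun h => hv ((hL.inn x hxX).1 h))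
  · intro z hz v hv e
    obtain ⟨y, hy, rfl⟩ := mem_image.1 hz
    have key : y = a ∨ y = a' ∨ y = s ∨ y = s' := by
      by_cases hv0 : v = none
      · subst hv0
        obtain ⟨y', hy', e'⟩ := ctr_out (hY y hy) e
        by_cases hq : y' ∈ Q
        · exact hB.cl2 y hy y' hq e'
        · exact absurd (hY y' (hB.cl1 y hy y' e' hq)) hy'
      · obtain ⟨x, hxX, rfl⟩ := kp_ex hv0
        exact hB.cl2 y hy x ((hL.inn x hxX).2 hv) (ctr_in (hY y hy) hxX e)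
    rcases key with rfl | rfl | rfl | rfl
    · exact Or.inl rfl
    · exact Or.inr (Or.inl rfl)
    · exact Or.inr (Or.inr (Or.inl rfl))
    · exact Or.inr (Or.inr (Or.inr rfl))
  · rw [trb2_mem ha, trb2_mem ha']
    exact hB.ia
  · rw [trb2_mem hs, trb2_mem hs']
    exact hB.is
  · intro h
    have h0 := (trb2_mem ha).1 h
    exact trb2_f hL hY hx1 ha ha' hB.cl1 h0 (hB.ia.1 h0) (hB.fa h0).1 (hB.fa h0).2
  · intro h
    have h0 := (trb2_mem hs).1 h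
    exact trb2_f hL hY hx2 hs hs' hB.cl1 h0 (hB.is.1 h0) (hB.fs h0).1 (hB.fs h0).2

end FZ
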