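import Pool.Agent.MP_cccb39_co.Fz.St

namespace FZ

open Finset
open scoped Classical

variable {V : Type} [Fintype V] {G : SimpleGraph V} {col : V → Bool} {X : Finset V}
  {u1 u2 u3 v1 v2 v3 : V}

private theorem trf_dg (h : End G col X u1 u2 u3 v1 v2 v3) (S : Finset V)
    (T : Finset (Option X)) (hT : ∀ w ∈ S, kp X w ∈ T) {v : V} (hv : v ∈ X) :
    dg G S v ≤ dg (ctr G X) T (kp X v) := by
  unfold dg
  refine card_le_card_of_injOn (kp X) ?_ ?_
  · intro w hw
    have hw' := mem_filter.1 (mem_coe.1 hw)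
    exact mem_coe.2 (mem_filter.2 ⟨hT w hw'.1, ctr_adj hw'.2 hv⟩)
  · intro w hw w' hw' e
    have a := (mem_filter.1 (mem_coe.1 hw)).2
    have a' := (mem_filter.1 (mem_coe.1 hw')).2
    by_cases c : w' ∈ X
    · exact kp_eq c e
    · exact h.one hv (kp_none.1 (e.trans (kp_none.2 c))) c a a'

private theorem trf_out (h : End G col X u1 u2 u3 v1 v2 v3) (S1 S2 : Finset V)
    (T : Finset (Option X)) (h1 : ∀ w ∈ S1, w ∈ X) (h2 : ∀ w ∈ S2, w ∉ X)
    (hT : ∀ w ∈ S1, kp X w ∈ T) : ∑ v ∈ S2, dg G S1 v ≤ dg (ctr G X) T none := by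
  unfold dg
  rw [← card_biUnion]
  · refine card_le_card_of_injOn (kp X) ?_ ?_
    · intro w hw
      obtain ⟨v, hv, hw'⟩ := mem_biUnion.1 (mem_coe.1 hw)
      have hw'' := mem_filter.1 hw'
      refine mem_coe.2 (mem_filter.2 ⟨hT w hw''.1, ?_⟩)
      have := (ctr_adj hw''.2.symm (h1 w hw''.1)).symm
      rwa [kp_none.2 (h2 v hv)] at this
    · intro w _ w' hw' e
      obtain ⟨v, -, hw'⟩ := mem_biUnion.1 (mem_coe.1 hw')
      exact kp_eq (h1 w' (mem_filter.1 hw').1) e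
  · intro v hv v' hv' ne
    refine disjoint_left.2 fun w hw hw' => ne ?_
    have a := mem_filter.1 hw
    have a' := mem_filter.1 hw'
    exact h.one (h1 w a.1) (h2 v (mem_coe.1 hv)) (h2 v' (mem_coe.1 hv')) a.2.symm a'.2.symm

omit [Fintype V] in
private theorem trf_split (S : Finset V) (v : V) :
    dg G S v ≤ dg G (S.filter fun w => w ∈ X) v + dg G (S.filter fun w => w ∉ X) v := by
  unfold dg
  refine le_trans (card_le_card ?_) (card_union_le _ _)
  intro w hw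
  have a := mem_filter.1 hw
  by_cases c : w ∈ X
  · exact mem_union_left _ (mem_filter.2 ⟨mem_filter.2 ⟨a.1, c⟩, a.2⟩)
  · exact mem_union_right _ (mem_filter.2 ⟨mem_filter.2 ⟨a.1, c⟩, a.2⟩)

theorem trF : TrFS := by
  intro V _ G col X u1 u2 u3 v1 v2 v3 QH R h hn hH hR hX S hS hne
  have k1 : ∀ w ∈ S, w ∈ X → kp X w ∈ QH := fun w hw c => by
    rcases mem_union.1 (hS hw) with e | e
    · exact (mem_filter.1 e).2
    · exact absurd c (hX w e)
  have k2 : ∀ w ∈ S, w ∉ X → w ∈ R := fun w hw c => by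
    rcases mem_union.1 (hS hw) with e | e
    · exact absurd (mem_filter.1 e).1 c
    · exact e
  have inj : ∀ A : Finset V, (∀ w ∈ A, w ∈ X) → Set.InjOn (kp X) (A : Set V) :=
    fun A hA w _ w' hw' e => kp_eq (hA w' (mem_coe.1 hw')) e
  by_cases c : ∀ w ∈ S, w ∈ X
  · have f := hH (S.image (kp X)) (fun t ht => by
      obtain ⟨w, hw, rfl⟩ := mem_image.1 ht
      exact k1 w hw (c w hw)) (hne.image _)
    rw [sum_image (inj S c), card_image_of_injOn (inj S c)] at f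
    have g : ∑ v ∈ S, dg G S v ≤ ∑ v ∈ S, dg (ctr G X) (S.image (kp X)) (kp X v) :=
      sum_le_sum fun v hv => trf_dg h S _ (fun w hw => mem_image_of_mem _ hw) (c v hv)
    omega
  obtain ⟨S1, e1⟩ : ∃ S1, S1 = S.filter fun w => w ∈ X := ⟨_, rfl⟩
  obtain ⟨S2, e2⟩ : ∃ S2, S2 = S.filter fun w => w ∉ X := ⟨_, rfl⟩
  have m1 : ∀ w, w ∈ S1 ↔ w ∈ S ∧ w ∈ X := fun w => by rw [e1, mem_filter]
  have m2 : ∀ w, w ∈ S2 ↔ w ∈ S ∧ w ∉ X := fun w => by rw [e2, mem_filter]
  have x1 : ∀ w ∈ S1, w ∈ X := fun w hw => ((m1 w).1 hw).2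
  have n2 : S2.Nonempty := by
    by_contra hn
    exact c fun w hw => by_contra fun e => hn ⟨w, (m2 w).2 ⟨hw, e⟩⟩
  have nn : none ∉ S1.image (kp X) := fun ht => by
    obtain ⟨w, hw, e⟩ := mem_image.1 ht
    exact kp_none.1 e (x1 w hw)
  have f1 := hH (insert none (S1.image (kp X))) (fun t ht => by
    rcases mem_insert.1 ht with rfl | ht
    · exact hn
    · obtain ⟨w, hw, rfl⟩ := mem_image.1 ht
      exact k1 w ((m1 w).1 hw).1 (x1 w hw)) (insert_nonempty _ _)
  rw [sum_insert nn, card_insert_of_notMem nn, sum_image (inj S1 x1),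
    card_image_of_injOn (inj S1 x1)] at f1
  have f2 := hR S2 (fun w hw => k2 w ((m2 w).1 hw).1 ((m2 w).1 hw).2) n2
  have g1 : ∑ v ∈ S1, dg G S v ≤
      ∑ v ∈ S1, dg (ctr G X) (insert none (S1.image (kp X))) (kp X v) :=
    sum_le_sum fun v hv => trf_dg h S _ (fun w hw => by
      by_cases e : w ∈ X
      · exact mem_insert_of_mem (mem_image_of_mem _ ((m1 w).2 ⟨hw, e⟩))
      · rw [kp_none.2 e]
        exact mem_insert_self _ _) (x1 v hv)
  have g2 := trf_out h S1 S2 (insert none (S1.image (kp X))) x1 (fun w hw => ((m2 w).1 hw).2)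
    fun w hw => mem_insert_of_mem (mem_image_of_mem _ hw)
  have g3 : ∑ v ∈ S2, dg G S v ≤ ∑ v ∈ S2, dg G S1 v + ∑ v ∈ S2, dg G S2 v := by
    rw [← sum_add_distrib]
    refine sum_le_sum fun v _ => ?_
    rw [e1, e2]
    exact trf_split S v
  have g4 : ∑ v ∈ S1, dg G S v + ∑ v ∈ S2, dg G S v = ∑ v ∈ S, dg G S v := by
    rw [e1, e2]
    exact sum_filter_add_sum_filter_not _ _ _
  have g5 : S1.card + S2.card = S.card := by
    rw [e1, e2]
    exact card_filter_add_card_filter_not _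
  omega

end FZ
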