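import Pool.Agent.MP_cccb39_co.Fz.St

namespace FZ

open Finset
open scoped Classical

theorem trg_nq {V : Type} [Fintype V] {X : Finset V} {QH : Finset (Option X)} {Q : Finset V}
    (L : Lift X QH Q) {y : V} (h : kp X y ∉ QH) : y ∉ Q := by
  intro hy
  by_cases hx : y ∈ X
  · exact h ((L.inn y hx).1 hy)
  · rw [kp_none.2 hx] at h
    exact hx (L.o1 h hy)

theorem trg_p {V : Type} [Fintype V] {G : SimpleGraph V} {X : Finset V} {c : Option X → Bool}
    {QH : Finset (Option X)} {Q : Finset V} {x1 x2 x a a' : V} (C : Cb (ctr G X) c)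
    (L : Lift X QH Q) (P : PS (ctr G X) QH (kp X x1) (kp X x2)) (h1 : x1 ∈ X) (h2 : x2 ∈ X)
    (ha : a ∈ X) (e : (ctr G X).Adj (kp X x) (kp X a)) (e' : (ctr G X).Adj (kp X x) (kp X a'))
    (d : kp X a ≠ kp X a') (na : kp X a ∉ QH) (na' : kp X a' ∉ QH)
    (p : ∀ t, t ∉ QH → (ctr G X).Adj (kp X a) t → ¬ (ctr G X).Adj (kp X a') t) :
    ∀ t, t ∉ Q → G.Adj a t → ¬ G.Adj a' t := by
  intro t ht hat ha't
  by_cases hx : t ∈ X
  · exact p (kp X t) (fun h => ht ((L.inn t hx).2 h)) (ctr_adj hat ha) (ctr_adj ha't.symm hx).symm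
  · have k : (ctr G X).Adj (kp X a) none := by
      have := ctr_adj hat ha
      rwa [kp_none.2 hx] at this
    by_cases hx' : a' ∈ X
    · have k' : (ctr G X).Adj (kp X a') none := by
        have := ctr_adj ha't hx'
        rwa [kp_none.2 hx] at this
      by_cases hn : none ∈ QH
      · obtain ⟨u, hu, w, hw, uw, eu, ew⟩ := P.inn none hn
          (fun h => kp_none.1 h.symm h1) (fun h => kp_none.1 h.symm h2)
        rcases C.nb3 eu ew k.symm uw (fun h => na (h ▸ hu)) (fun h => na (h ▸ hw)) k'.symm with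
          h | h | h
        · exact na' (h ▸ hu)
        · exact na' (h ▸ hw)
        · exact d h.symm
      · exact p none hn k k'
    · rw [kp_none.2 hx'] at e'
      exact C.notri e k e'

theorem trG (h1 : TrB1S) (h2 : TrB2S) : TrGS := by
  intro V _ G col X u1 u2 u3 v1 v2 v3 QH Q x1 x2 a a' s s' w1 w2 E C L P hx1 hx2 ha hs _ _
    ea es H q1 n1 f1 q2 n2 f2
  refine ⟨P, fun e => H.ne (congrArg _ e), trg_nq L H.na, trg_nq L H.na', trg_nq L H.ns,
    trg_nq L H.ns', fun e => H.d1 (congrArg _ e), fun e => H.d2 (congrArg _ e),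
    fun e => H.d3 (congrArg _ e), fun e => H.d4 (congrArg _ e), fun e => H.d5 (congrArg _ e),
    fun e => H.d6 (congrArg _ e), ctr_in hx1 ha H.e1, ea, ctr_in hx2 hs H.e2, es,
    ⟨w1, q1, n1, f1⟩, ⟨w2, q2, n2, f2⟩,
    trg_p C L H.ps hx1 hx2 ha H.e1 H.e1' H.d1 H.na H.na' H.p1,
    trg_p C L H.ps hx1 hx2 hs H.e2 H.e2' H.d6 H.ns H.ns' H.p2,
    fun h => H.db1 ⟨ctr_adj h.1 ha, H.d5, a', s', rfl, rfl, h.2⟩,
    fun h => H.db2 ⟨ctr_adj h.1 ha, H.d4, a', s, rfl, rfl, h.2⟩, ?_⟩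
  intro Y hY
  by_cases hn : none ∈ QH
  · have ha' : a' ∈ X := by
      by_contra h
      exact H.na' (by rw [kp_none.2 h]; exact hn)
    have hs' : s' ∈ X := by
      by_contra h
      exact H.ns' (by rw [kp_none.2 h]; exact hn)
    obtain ⟨Y', hY'⟩ := h2 V G col X u1 u2 u3 v1 v2 v3 QH Q Y x1 x2 a a' s s' E L hn hx1 hx2 ha hs
      ha' hs' hY
    exact H.cl Y' hY'
  · obtain ⟨Y', hY'⟩ := h1 V G col X u1 u2 u3 v1 v2 v3 QH Q Y x1 x2 a a' s s' E L hn hx1 hx2 ha hs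
      H.d5 hY
    exact H.cl Y' hY'

end FZ
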