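import Pool.Agent.MP_cccb39_co.Fz.St

namespace FZ

open Finset
open scoped Classical

theorem trp1_fo {V : Type} [Fintype V] {G : SimpleGraph V} {X : Finset V}
    {QH : Finset (Option X)} (h : Fo (ctr G X) QH) :
    ∀ R : Finset V, (∀ x, x ∈ R ↔ x ∈ X ∧ kp X x ∈ QH) → Fo G R := by
  induction h with
  | nil =>
    intro R hR
    rw [eq_empty_of_forall_notMem fun x hx => notMem_empty _ ((hR x).1 hx).2]
    exact Fo.nil
  | ins Q v _ hv hu ih =>
    intro R hR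
    simp only [mem_insert] at hR
    by_cases e : v = none
    · refine ih R fun x => (hR x).trans (and_congr_right fun hx => ?_)
      rw [e, kp_none]
      exact or_iff_right (not_not.2 hx)
    · obtain ⟨y, hy, rfl⟩ := kp_ex e
      have e1 : R = insert y (X.filter fun x => kp X x ∈ Q) := by
        ext x
        simp only [hR, mem_filter, mem_insert]
        constructor
        · rintro ⟨h1, h2 | h2⟩
          exacts [Or.inl (kp_eq hy h2), Or.inr ⟨h1, h2⟩]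
        · rintro (rfl | ⟨h1, h2⟩)
          exacts [⟨hy, Or.inl rfl⟩, ⟨h1, Or.inr h2⟩]
      rw [e1]
      refine Fo.ins _ y (ih _ fun x => mem_filter) (fun k => hv (mem_filter.1 k).2)
        fun a ha b hb h1 h2 => ?_
      exact kp_eq (mem_filter.1 hb).1 (hu _ (mem_filter.1 ha).2 _ (mem_filter.1 hb).2
        (ctr_adj h1 hy) (ctr_adj h2 hy))

theorem trP1 (_h : FdS) : TrP1S := by
  intro V _ G X QH a b ha hb hn h
  have ex : ∀ p ∈ QH, ∃ x ∈ X, kp X x = p := fun p hp => kp_ex fun e => hn (e ▸ hp)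
  have ne : a ≠ b → kp X a ≠ kp X b := fun k e => k (kp_eq hb e)
  refine ⟨X.filter fun x => kp X x ∈ QH, ⟨fun x hx => by simp [hx], fun _ => filter_subset _ _,
    fun k => absurd k hn⟩, trp1_fo h.fo _ fun x => mem_filter, mem_filter.2 ⟨ha, h.m1⟩,
    mem_filter.2 ⟨hb, h.m2⟩,
    fun v hv h1 h2 => ?_, fun k => ?_, fun k => ?_⟩
  · obtain ⟨v1, v2⟩ := mem_filter.1 hv
    obtain ⟨p, hp, q, hq, e, e1, e2⟩ := h.inn _ v2 (fun k => h1 (kp_eq ha k))
      fun k => h2 (kp_eq hb k)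
    obtain ⟨x, hx, rfl⟩ := ex p hp
    obtain ⟨y, hy, rfl⟩ := ex q hq
    exact ⟨x, mem_filter.2 ⟨hx, hp⟩, y, mem_filter.2 ⟨hy, hq⟩, fun k => e (by rw [k]),
      ctr_in v1 hx e1, ctr_in v1 hy e2⟩
  · obtain ⟨p, hp, e⟩ := h.n1 (ne k)
    obtain ⟨x, hx, rfl⟩ := ex p hp
    exact ⟨x, mem_filter.2 ⟨hx, hp⟩, ctr_in ha hx e⟩
  · obtain ⟨p, hp, e⟩ := h.n2 (ne k)
    obtain ⟨x, hx, rfl⟩ := ex p hp
    exact ⟨x, mem_filter.2 ⟨hx, hp⟩, ctr_in hb hx e⟩

end FZ
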