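import Pool.Agent.MP_cccb39_co.Fz.St

/-! Lifting a path through the contracted vertex. -/

namespace FZ

open Finset
open scoped Classical

theorem trP2 (h1 : SpS) (h2 : FdS) (h3 : PathS) (h4 : TrFS) : TrP2S := by
  intro V _ G col X u1 u2 u3 v1 v2 v3 QH a b hE ha hb hab hn hP
  have na : none ≠ kp X a := fun e => kp_none.1 e.symm ha
  have nb : none ≠ kp X b := fun e => kp_none.1 e.symm hb
  have kab : kp X a ≠ kp X b := fun e => hab (kp_eq hb e)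
  obtain ⟨p, hp, q, hq, hpq, ep, eq'⟩ := hP.inn none hn na nb
  have hd := h3 _ _ _ _ _ _ hP kab hn na nb
  obtain ⟨x, hx, rfl⟩ := kp_ex ep.ne.symm
  obtain ⟨y, hy, rfl⟩ := kp_ex eq'.ne.symm
  obtain ⟨x', hx', ex⟩ := ctr_out hx ep.symm
  obtain ⟨y', hy', ey⟩ := ctr_out hy eq'.symm
  obtain ⟨R, c, d, hR⟩ := h1 V G Xᶜ {x'} {y'} (by simpa using hx') (by simpa using hy')
    fun Y hY _ hC => ⟨y', mem_singleton_self _,
      hE.con Y hC ⟨x', hY (mem_singleton_self _), hx'⟩ y' hy'⟩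
  obtain rfl : c = x' := mem_singleton.1 hR.ma
  obtain rfl : d = y' := mem_singleton.1 hR.mb
  have hRX : ∀ r ∈ R, r ∉ X := fun r hr => mem_compl.1 (hR.sub hr)
  have mX : ∀ v ∈ X, kp X v ∈ QH → v ∈ X.filter (fun x => kp X x ∈ QH) ∪ R := fun v hv hv' =>
    mem_union_left _ (mem_filter.2 ⟨hv, hv'⟩)
  have mR : ∀ v ∈ R, v ∈ X.filter (fun x => kp X x ∈ QH) ∪ R := fun v hv => mem_union_right _ hv
  have lift : ∀ v ∈ X, kp X v ∈ QH → ∀ w ∈ QH, (ctr G X).Adj (kp X v) w →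
      ∃ t ∈ X.filter (fun x => kp X x ∈ QH) ∪ R, G.Adj v t ∧ kp X t = w := by
    intro v hv hv' w hw e
    by_cases c0 : w = none
    · subst c0
      by_cases c1 : v = x
      · exact ⟨c, mR _ hR.ps.m1, c1 ▸ ex, kp_none.2 hx'⟩
      by_cases c2 : v = y
      · exact ⟨d, mR _ hR.ps.m2, c2 ▸ ey, kp_none.2 hy'⟩
      exfalso
      have h5 : 2 < dg (ctr G X) QH none := two_lt_card_iff.2 ⟨kp X v, kp X x, kp X y,
        mem_filter.2 ⟨hv', e.symm⟩, mem_filter.2 ⟨hp, ep⟩, mem_filter.2 ⟨hq, eq'⟩,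
        fun k => c1 (kp_eq hx k), fun k => c2 (kp_eq hy k), hpq⟩
      omega
    · obtain ⟨t, ht, rfl⟩ := kp_ex c0
      exact ⟨t, mX t ht hw, ctr_in hv ht e, rfl⟩
  refine ⟨X.filter (fun x => kp X x ∈ QH) ∪ R, ⟨fun v hv => ⟨fun k => ?_, mX v hv⟩,
    fun k => absurd hn k, fun _ => ⟨c, mR _ hR.ps.m1, hx'⟩⟩,
    (h2 _ _ _).2 (h4 V G col X u1 u2 u3 v1 v2 v3 QH R hE hn ((h2 _ _ _).1 hP.fo)
      ((h2 _ _ _).1 hR.ps.fo) hRX), mX a ha hP.m1, mX b hb hP.m2, fun v hv va vb => ?_,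
    fun _ => ?_, fun _ => ?_⟩
  · rcases mem_union.1 k with k | k
    · exact (mem_filter.1 k).2
    · exact absurd hv (hRX v k)
  · rcases mem_union.1 hv with k | k
    · obtain ⟨k1, k2⟩ := mem_filter.1 k
      obtain ⟨s, hs, t, ht, st, es, et⟩ :=
        hP.inn _ k2 (fun e => va (kp_eq ha e)) fun e => vb (kp_eq hb e)
      obtain ⟨s', hs', es', rfl⟩ := lift v k1 k2 s hs es
      obtain ⟨t', ht', et', rfl⟩ := lift v k1 k2 t ht et
      exact ⟨s', hs', t', ht', fun e => st (e ▸ rfl), es', et'⟩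
    · by_cases c1 : v = c <;> by_cases c2 : v = d
      · exact ⟨x, mX x hx hp, y, mX y hy hq, fun e => hpq (e ▸ rfl), c1 ▸ ex.symm, c2 ▸ ey.symm⟩
      · subst c1
        obtain ⟨t, ht, et⟩ := hR.ps.n1 c2
        exact ⟨x, mX x hx hp, t, mR t ht, fun e => hRX t ht (e ▸ hx), ex.symm, et⟩
      · subst c2
        obtain ⟨t, ht, et⟩ := hR.ps.n2 (Ne.symm c1)
        exact ⟨y, mX y hy hq, t, mR t ht, fun e => hRX t ht (e ▸ hy), ey.symm, et⟩
      · obtain ⟨s, hs, t, ht, k'⟩ := hR.ps.inn v k c1 c2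
        exact ⟨s, mR s hs, t, mR t ht, k'⟩
  · obtain ⟨s, hs, es⟩ := hP.n1 kab
    obtain ⟨t, ht, et, -⟩ := lift a ha hP.m1 s hs es
    exact ⟨t, ht, et⟩
  · obtain ⟨s, hs, es⟩ := hP.n2 kab
    obtain ⟨t, ht, et, -⟩ := lift b hb hP.m2 s hs es
    exact ⟨t, ht, et⟩

end FZ
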