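import Pool.Agent.MP_cccb39_co.Fz.Two
import Pool.Agent.MP_cccb39_co.Fz.Ext
import Pool.Agent.MP_cccb39_co.Fz.One
import Pool.Agent.MP_cccb39_co.Fz.Thread
import Pool.Agent.MP_cccb39_co.Fz.Lev
import Pool.Agent.MP_cccb39_co.Fz.Lp
import Pool.Agent.MP_cccb39_co.Fz.Sp
import Pool.Agent.MP_cccb39_co.Fz.Par
import Pool.Agent.MP_cccb39_co.Fz.Step
import Pool.Agent.MP_cccb39_co.Fz.N
import Pool.Agent.MP_cccb39_co.Fz.MgCov
import Pool.Agent.MP_cccb39_co.Fz.MgPack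
import Pool.Agent.MP_cccb39_co.Fz.MgDeg
import Pool.Agent.MP_cccb39_co.Fz.Out
import Pool.Agent.MP_cccb39_co.Fz.FoldNC
import Pool.Agent.MP_cccb39_co.Fz.FoldA
import Pool.Agent.MP_cccb39_co.Fz.Fold
import Pool.Agent.MP_cccb39_co.Fz.List
import Pool.Agent.MP_cccb39_co.Fz.DomMk
import Pool.Agent.MP_cccb39_co.Fz.L1
import Pool.Agent.MP_cccb39_co.Fz.C1
import Pool.Agent.MP_cccb39_co.Fz.C2
import Pool.Agent.MP_cccb39_co.Fz.C3
import Pool.Agent.MP_cccb39_co.Fz.C4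
import Pool.Agent.MP_cccb39_co.Fz.E
import Pool.Agent.MP_cccb39_co.Fz.Hex
import Pool.Agent.MP_cccb39_co.Fz.Exc
import Pool.Agent.MP_cccb39_co.Fz.K4
import Pool.Agent.MP_cccb39_co.Fz.Dsp
import Pool.Agent.MP_cccb39_co.Fz.C5a
import Pool.Agent.MP_cccb39_co.Fz.PathC
import Pool.Agent.MP_cccb39_co.Fz.PathE
import Pool.Agent.MP_cccb39_co.Fz.C5b
import Pool.Agent.MP_cccb39_co.Fz.C6
import Pool.Agent.MP_cccb39_co.Fz.Db
import Pool.Agent.MP_cccb39_co.Fz.C8g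
import Pool.Agent.MP_cccb39_co.Fz.C8
import Pool.Agent.MP_cccb39_co.Fz.C9
import Pool.Agent.MP_cccb39_co.Fz.C10g
import Pool.Agent.MP_cccb39_co.Fz.C10r
import Pool.Agent.MP_cccb39_co.Fz.C10
import Pool.Agent.MP_cccb39_co.Fz.GenA
import Pool.Agent.MP_cccb39_co.Fz.GenB
import Pool.Agent.MP_cccb39_co.Fz.C11
import Pool.Agent.MP_cccb39_co.Fz.GenMk
import Pool.Agent.MP_cccb39_co.Fz.C12
import Pool.Agent.MP_cccb39_co.Fz.ParB
import Pool.Agent.MP_cccb39_co.Fz.TwoB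
import Pool.Agent.MP_cccb39_co.Fz.OneOut
import Pool.Agent.MP_cccb39_co.Fz.ConX
import Pool.Agent.MP_cccb39_co.Fz.End
import Pool.Agent.MP_cccb39_co.Fz.CtrA
import Pool.Agent.MP_cccb39_co.Fz.CtrB
import Pool.Agent.MP_cccb39_co.Fz.CtrT
import Pool.Agent.MP_cccb39_co.Fz.Fd
import Pool.Agent.MP_cccb39_co.Fz.Path
import Pool.Agent.MP_cccb39_co.Fz.TrP1
import Pool.Agent.MP_cccb39_co.Fz.TrF
import Pool.Agent.MP_cccb39_co.Fz.TrP2
import Pool.Agent.MP_cccb39_co.Fz.TrB1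
import Pool.Agent.MP_cccb39_co.Fz.TrB2
import Pool.Agent.MP_cccb39_co.Fz.TrG
import Pool.Agent.MP_cccb39_co.Fz.Tr
import Pool.Agent.MP_cccb39_co.Fz.Small
import Pool.Agent.MP_cccb39_co.Fz.K23
import Pool.Agent.MP_cccb39_co.Fz.CCg
import Pool.Agent.MP_cccb39_co.Fz.CCb
import Pool.Agent.MP_cccb39_co.Fz.CCs
import Pool.Agent.MP_cccb39_co.Fz.CC
import Pool.Agent.MP_cccb39_co.Fz.Rk
import Pool.Agent.MP_cccb39_co.Fz.Rs
import Pool.Agent.MP_cccb39_co.Fz.Eul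
import Pool.Agent.MP_cccb39_co.Fz.Orb
import Pool.Agent.MP_cccb39_co.Fz.Sq
import Pool.Agent.MP_cccb39_co.Fz.EndSq
import Pool.Agent.MP_cccb39_co.Fz.Peri
import Pool.Agent.MP_cccb39_co.Fz.Th
import Pool.Agent.MP_cccb39_co.Fz.Cube
import Pool.Agent.MP_cccb39_co.Fz.CubeMk
import Pool.Agent.MP_cccb39_co.Fz.Prod
import Pool.Agent.MP_cccb39_co.Fz.All
import Pool.Agent.MP_cccb39_co.Fz.Tab

namespace FZ

open Finset
open scoped Classical

theorem spT : SpS := sp lev lp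

theorem nT : NS := n (step spT par) (one ext) (thread two)

theorem foldT : FoldS :=
  fold ext (one ext) (thread two) mgPack (foldA nT mgCov mgDeg out (foldNC mgDeg out))

theorem c5aT : C5aS := c5a (c1 l1 exc hex (c4 k4)) c2 c3 (c4 k4) (dsp spT)

theorem c5bT : C5bS := c5b domMk c5aT c2 eS (pathC spT k4) (pathE spT)

theorem c12T : C12S :=
  c12 spT (c8 spT (c8g db)) (c10 c9 (c10g db) (c10r spT)) (c11 db genA genB) genMk

theorem endT : EndS := endS parB (oneOut (twoB parB)) (con (twoB parB))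

theorem trT : TrS := tr e4T (trP1 fd) (trP2 spT fd (path fd) trF) (trG trB1 trB2)

theorem ccT : CCS := cc spT (ccs ccg (ccb ccg))

theorem hasGC {V : Type} [Pt V] {G : SimpleGraph V} {col : V → Bool} (g : Gr G col)
    (th : THz G) {x c1 c2 c3 y d1 d2 d3 : V} (h1 : Sq G x c1 c2 c3) (h2 : Sq G y d1 d2 d3)
    (hne : ({x, c1, c2, c3} : Finset V) ≠ {y, d1, d2, d3})
    (z1 : ∀ u ∈ ({x, c1, c2, c3} : Finset V), u ≠ Pt.z)
    (z2 : ∀ u ∈ ({y, d1, d2, d3} : Finset V), u ≠ Pt.z) : HasGC G := by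
  by_cases h : NoDom G
  · exact c12T V G col _ _ _ _ _ _ _ _ g h (c6 V G col _ _ _ _ _ _ _ _ g h h1 h2 hne z1 z2)
  · unfold NoDom at h
    push Not at h
    obtain ⟨p, q, w, s, r, t, a1, a2, a3, a4, a5, a6, a7, b1, b2, b3, b4, b5, b6, zq, zr, -⟩ := h
    obtain ⟨P, S, W, T, hd⟩ := domMk V G col p q w s r t g a1 a2 a3 a4 a5 a6 a7 b1 b2 b3 b4 b5 b6
    by_cases e1 : w = Pt.z
    · exact c5bT V G col _ _ _ _ _ _ _ _ _ _ g th hd e1
    by_cases e2 : p = Pt.z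
    · exact c5bT V G col _ _ _ _ _ _ _ _ _ _ g th hd.refl e2
    by_cases e3 : t = Pt.z
    · exact c5bT V G col _ _ _ _ _ _ _ _ _ _ g th hd.flip e3
    by_cases e4 : s = Pt.z
    · exact c5bT V G col _ _ _ _ _ _ _ _ _ _ g th hd.flip.refl e4
    refine c5aT V G col _ _ _ _ _ _ _ _ _ _ g th hd ?_
    simp only [mem_insert, mem_singleton, not_or]
    exact ⟨Ne.symm e2, zq.symm, Ne.symm e1, Ne.symm e4, zr.symm, Ne.symm e3⟩

open Pool.Agent.MP_cccb39_co in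
theorem draw_sub {V : Type} [Fintype V] {G : SimpleGraph V} {f : V → ℝ × ℝ}
    (h : IsPlaneDrawing G f) (X : Finset V) : IsPlaneDrawing (sub G X) f :=
  ⟨h.1, fun u v w e => h.2.1 u v w e.1, fun u v u' v' e e' => h.2.2 u v u' v' e.1 e'.1⟩

theorem sq_kp {V : Type} [Fintype V] {G : SimpleGraph V} {X : Finset V} {a b c d : V}
    (h : Sq (sub G X) a b c d) : Sq (ctr G X) (kp X a) (kp X b) (kp X c) (kp X d) ∧
      ∀ u ∈ ({a, b, c, d} : Finset V), u ∈ X := by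
  refine ⟨⟨ctr_adj h.ab.1 h.ab.2.1, ctr_adj h.bc.1 h.bc.2.1, ctr_adj h.cd.1 h.cd.2.1,
    ctr_adj h.da.1 h.da.2.1, fun e => h.ac (kp_eq h.cd.2.1 e), fun e => h.bd (kp_eq h.da.2.1 e)⟩,
    fun u hu => ?_⟩
  simp only [mem_insert, mem_singleton] at hu
  rcases hu with rfl | rfl | rfl | rfl
  exacts [h.ab.2.1, h.bc.2.1, h.cd.2.1, h.da.2.1]

/-- An end is a cube minus a vertex, or it carries a good configuration. -/
theorem end_cases {V : Type} [Fintype V] {G : SimpleGraph V} {col : V → Bool} {f : V → ℝ × ℝ}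
    (g : Cb G col) (hf : Pool.Agent.MP_cccb39_co.IsPlaneDrawing G f) {X : Finset V}
    {u1 u2 u3 v1 v2 v3 : V} (h : End G col X u1 u2 u3 v1 v2 v3) :
    HasG2 G ∨ ∃ m12 m13 m23 o, CE G u1 u2 u3 m12 m13 m23 o v1 v2 v3 ∧
      X = {u1, u2, u3, o, m12, m13, m23} := by
  obtain ⟨r, hr⟩ := rk V G col f g.bip hf
  obtain ⟨nx, hn⟩ := rs V G r hr
  have hth : TH G := th peri V G col nx g hn
  by_cases hc : X.card ≤ 7
  · rcases small' parB V G col X u1 u2 u3 v1 v2 v3 g h hc with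
      ⟨x, hx, y, hy, xy, a1, a2, a3, b1, b2, b3⟩ | k
    · exact (k23e V G col X u1 u2 u3 v1 v2 v3 x y g hth h hx hy xy a1 a2 a3 b1 b2 b3).elim
    · exact Or.inr k
  left
  have hb : ∀ u v, (sub G X).Adj u v → col u ≠ col v := fun u v e => g.bip u v e.1
  obtain ⟨r', hr'⟩ := rk V (sub G X) col f hb (draw_sub hf X)
  obtain ⟨nx', hn'⟩ := rs V _ r' hr'
  obtain ⟨k1, k2⟩ := endSq V G col X u1 u2 u3 v1 v2 v3 g h
  obtain ⟨x, c1, c2, c3, y, d1, d2, d3, s1, s2, hne⟩ := sq eul orb V (sub G X) nx' col X hn' hb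
    (fun u v e => e.2.1) ⟨u1, h.m1⟩ k1 k2
  have gr : Gr (ctr G X) (colc col X u1) :=
    ⟨ctrA V G col X u1 u2 u3 v1 v2 v3 g h, fun Y a b => ctrB V G col X u1 u2 u3 v1 v2 v3 h Y a (b.trans_eq (congrArg card (Finset.ext fun t => by simp only [mem_compl]))), by
      rw [Fintype.card_option, Fintype.card_coe]; omega⟩
  obtain ⟨t1, m1⟩ := sq_kp s1
  obtain ⟨t2, m2⟩ := sq_kp s2
  have key : ∀ a b c d a' b' c' d' : V, (∀ u ∈ ({a', b', c', d'} : Finset V), u ∈ X) →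
      (∀ t : Option X, (t = kp X a ∨ t = kp X b ∨ t = kp X c ∨ t = kp X d) →
        (t = kp X a' ∨ t = kp X b' ∨ t = kp X c' ∨ t = kp X d')) →
      ({a, b, c, d} : Finset V) ⊆ {a', b', c', d'} := by
    intro a b c d a' b' c' d' hA e u hu
    simp only [mem_insert, mem_singleton] at hu ⊢
    have k : kp X u = kp X a ∨ kp X u = kp X b ∨ kp X u = kp X c ∨ kp X u = kp X d := by
      rcases hu with rfl | rfl | rfl | rfl <;> simp
    rcases e _ k with k | k | k | k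
    · exact Or.inl (kp_eq (hA _ (by simp)) k)
    · exact Or.inr (Or.inl (kp_eq (hA _ (by simp)) k))
    · exact Or.inr (Or.inr (Or.inl (kp_eq (hA _ (by simp)) k)))
    · exact Or.inr (Or.inr (Or.inr (kp_eq (hA _ (by simp)) k)))
  have nz : ∀ a b c d : V, (∀ u ∈ ({a, b, c, d} : Finset V), u ∈ X) → ∀ t : Option X,
      (t = kp X a ∨ t = kp X b ∨ t = kp X c ∨ t = kp X d) → t ≠ none := by
    rintro a b c d hA t (rfl | rfl | rfl | rfl) e <;> exact kp_none.1 e (hA _ (by simp))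
  refine trT V G col X u1 u2 u3 v1 v2 v3 h gr
    (hasGC gr (ctrT V G col X u1 u2 u3 v1 v2 v3 h hth) t1 t2 (fun e => hne ?_) ?_ ?_)
  · have e' := Finset.ext_iff.1 e
    simp only [mem_insert, mem_singleton] at e'
    exact Subset.antisymm (key _ _ _ _ _ _ _ _ m2 fun t => (e' t).1)
      (key _ _ _ _ _ _ _ _ m1 fun t => (e' t).2)
  · intro u hu
    simp only [mem_insert, mem_singleton] at hu
    exact nz _ _ _ _ m1 u hu
  · intro u hu
    simp only [mem_insert, mem_singleton] at hu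
    exact nz _ _ _ _ m2 u hu

theorem lcov {V : Type} [Fintype V] (G : SimpleGraph V) (e : V → Fin 3 → ℕ)
    (he : ∀ v, Function.Injective (e v)) : IsCov G univ (LCov G e) :=
  ⟨fun _ _ _ _ h => ⟨h.1.symm, h.2.symm⟩, fun _ _ _ _ h => h.1,
    fun _ _ v _ _ _ _ h h' => he v (h.2.symm.trans h'.2)⟩

theorem card_bd3 {V : Type} [Fintype V] {G : SimpleGraph V} (X : Finset V)
    (x1 y1 x2 y2 x3 y3 : V) (hb : ∀ x ∈ X, ∀ y, y ∉ X → G.Adj x y →
      (x = x1 ∧ y = y1) ∨ (x = x2 ∧ y = y2) ∨ (x = x3 ∧ y = y3)) : (bd G X).card ≤ 3 := by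
  have hs : bd G X ⊆ {(x1, y1), (x2, y2), (x3, y3)} := by
    rintro ⟨x, y⟩ hx
    simp only [bd, mem_filter, mem_univ, true_and] at hx
    rcases hb x hx.1 y hx.2.1 hx.2.2 with ⟨rfl, rfl⟩ | ⟨rfl, rfl⟩ | ⟨rfl, rfl⟩ <;> simp
  exact (card_le_card hs).trans card_le_three

theorem connT : ConnS := by
  intro V _ G col f g hc hf
  have fin : HasG2 G → LPk G := fun h e he => foldT V G col _ g h (lcov G e he)
  rcases isEmpty_or_nonempty V with hV | ⟨⟨z⟩⟩
  · intro e he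
    exact nT V G univ col _ (lcov G e he) (fun u => isEmptyElim u) (fun u => isEmptyElim u)
      fun Z _ ⟨u, _⟩ => isEmptyElim u
  obtain ⟨a, ha, -, -⟩ := g.third z z z
  obtain ⟨b, hb, ba, -⟩ := g.third z a a
  obtain ⟨c, hc', ca, cb⟩ := g.third z a b
  have c0 : Cand G ({z} : Finset V)ᶜ := by
    refine ⟨two_le_compl (a := a) (b := b) (by simp [ha.ne']) (by simp [hb.ne']) ba.symm,
      ⟨z, by simp⟩, card_bd3 _ a z b z c z fun x _ y hy e => ?_⟩
    have : y = z := by simpa using hy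
    subst this
    rcases g.nb3 ha hb hc' ba.symm ca.symm cb.symm e.symm with rfl | rfl | rfl <;> simp
  obtain ⟨X, -, u1, u2, u3, v1, v2, v3, h⟩ := endT V G col _ g hc c0
  rcases end_cases g hf h with k | ⟨m12, m13, m23, o, ce, hX⟩
  · exact fin k
  by_cases h2 : 2 ≤ Xᶜ.card
  · have c1 : Cand G Xᶜ := by
      refine ⟨h2, ⟨u1, by simp [h.m1]⟩, card_bd3 _ v1 u1 v2 u2 v3 u3 fun x hx y hy e => ?_⟩
      have := h.cut y (by simpa using hy) x (by simpa using hx) e.symm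
      tauto
    obtain ⟨X', hX', w1, w2, w3, x1, x2, x3, h'⟩ := endT V G col _ g hc c1
    rcases end_cases g hf h' with k | ⟨n12, n13, n23, o', ce', hY⟩
    · exact fin k
    refine fin (ccT V G col _ _ _ _ _ _ _ _ _ _ _ _ _ _ _ _ _ _ _ _ g hc ce ce' ?_)
    rw [← hX, ← hY]
    exact disjoint_left.2 fun v hv hv' => mem_compl.1 (hX' hv') hv
  · have e2 : v2 = v1 := by
      by_contra e; exact h2 (two_le_compl h.n2 h.n1 e)
    have e3 : v3 = v1 := by
      by_contra e; exact h2 (two_le_compl h.n3 h.n1 e)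
    subst e2
    subst e3
    obtain ⟨x, hx⟩ := cubeMk V G col _ _ _ _ _ _ _ _ g hc ce
    exact cube ext tab V G x hx

theorem mkCb (V : Type) [Fintype V] (G : SimpleGraph V)
    (hcubic : ∀ v, (G.neighborSet v).ncard = 3) (hbip : G.IsBipartite) : ∃ col, Cb G col := by
  obtain ⟨C⟩ := hbip
  refine ⟨fun v => decide (C v = 0), fun v => ?_, fun u v h => ?_⟩
  · rw [← hcubic v, dg, ← Set.ncard_coe_finset]
    congr 1
    ext w
    simp
  · have := C.valid h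
    revert this
    generalize C u = i, C v = j
    revert i j
    decide

end FZ
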