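import Pool.Agent.MP_cccb39_co.Fz.St

namespace FZ

open Finset
open scoped Classical

theorem mgPack : MgPackS := by
  intro V _ H S K a a' θ I _ φ τ hc ha haa hp
  have hae : a ∈ S.erase a' := mem_erase.2 ⟨haa, ha⟩
  have key : ∀ i, ∀ v ∈ S, v ≠ a' → ¬ K a' (θ (φ i a)) v (φ i v) := by
    intro i v hv hva hk
    exact hp.prop i a hae v (mem_erase.2 ⟨hva, hv⟩) (Or.inr (Or.inl ⟨rfl, hk⟩))
  refine ⟨hp.ne, ?_, ?_, hp.ut⟩
  · intro i u hu v hv hk
    by_cases e1 : u = a'
    · by_cases e2 : v = a'
      · have h := hc.adj _ _ _ _ hk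
        rw [e1, e2] at h
        exact H.irrefl h
      · subst e1
        simp only [Function.update_self, Function.update_of_ne e2] at hk
        exact key i v hv e2 hk
    · by_cases e2 : v = a'
      · subst e2
        simp only [Function.update_self, Function.update_of_ne e1] at hk
        exact key i u hu e1 (hc.symm _ _ _ _ hk)
      · simp only [Function.update_of_ne e1, Function.update_of_ne e2] at hk
        exact hp.prop i u (mem_erase.2 ⟨e1, hu⟩) v (mem_erase.2 ⟨e2, hv⟩) (Or.inl hk)
  · intro v hv
    by_cases e : v = a'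
    · subst e
      simp only [Function.update_self]
      exact (hp.un a hae).perm θ
    · simp only [Function.update_of_ne e]
      exact hp.un v (mem_erase.2 ⟨e, hv⟩)

end FZ
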