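import Pool.Agent.MP_cccb39_co.Defs

/-! Fractional packings of covers of cubic bipartite graphs: definitions, small lemmas and the
statements of the steps. -/

set_option linter.unusedSectionVars false

namespace FZ

theorem bool10 : ∀ b1 b2 b3 b4 b5 b6 b7 b8 b9 b10 : Bool, b1 ≠ b2 → b2 ≠ b3 → b4 ≠ b5 → b5 ≠ b6 →
    b1 ≠ b4 → b1 ≠ b7 → b4 ≠ b8 → b3 ≠ b9 → b6 ≠ b10 → b3 = b1 ∧ b5 = b1 ∧ b8 = b1 ∧ b10 = b1 ∧
      b2 = !b1 ∧ b4 = !b1 ∧ b6 = !b1 ∧ b7 = !b1 ∧ b9 = !b1 := by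
  intro b1 b2 b3 b4 b5 b6 b7 b8 b9 b10 h1 h2 h3 h4 h5 h6 h7 h8 h9
  have e : ∀ a b : Bool, a ≠ b → b = !a := by decide
  obtain rfl := e _ _ h1
  obtain rfl := e _ _ h2
  obtain rfl := e _ _ h5
  obtain rfl := e _ _ h3
  obtain rfl := e _ _ h4
  obtain rfl := e _ _ h6
  obtain rfl := e _ _ h7
  obtain rfl := e _ _ h8
  obtain rfl := e _ _ h9
  simp

open Finset
open scoped Classical

/-- `K u i v j`: colour `i` at `u` conflicts with colour `j` at `v`. -/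
abbrev Cov (V : Type) := V → Fin 3 → V → Fin 3 → Prop

def Unif {I : Type} [Fintype I] (f : I → Fin 3) : Prop :=
  ∀ c, 3 * (univ.filter fun i => f i = c).card = Fintype.card I

section
variable {V : Type} [Fintype V]

structure IsCov (H : SimpleGraph V) (S : Finset V) (K : Cov V) : Prop where
  symm : ∀ u i v j, K u i v j → K v j u i
  adj : ∀ u i v j, K u i v j → H.Adj u v
  uniq : ∀ u ∈ S, ∀ v ∈ S, ∀ i j j', K u i v j → K u i v j' → j = j'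

structure PackF (S : Finset V) (K : Cov V) (I : Type) [Fintype I] (φ : I → V → Fin 3)
    (τ : I → Fin 3) : Prop where
  ne : Nonempty I
  prop : ∀ i, ∀ u ∈ S, ∀ v ∈ S, ¬ K u (φ i u) v (φ i v)
  un : ∀ v ∈ S, Unif fun i => φ i v
  ut : Unif τ

def Pack (S : Finset V) (K : Cov V) : Prop :=
  ∃ (I : Type) (_ : Fintype I) (φ : I → V → Fin 3) (τ : I → Fin 3), PackF S K I φ τ

/-- Sets that induce a forest. -/
inductive Fo (H : SimpleGraph V) : Finset V → Prop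
  | nil : Fo H ∅
  | ins (Q : Finset V) (v : V) : Fo H Q → v ∉ Q →
      (∀ a ∈ Q, ∀ b ∈ Q, H.Adj v a → H.Adj v b → a = b) → Fo H (insert v Q)

noncomputable def dg (H : SimpleGraph V) (S : Finset V) (v : V) : ℕ :=
  (S.filter fun w => H.Adj v w).card

def Clo (H : SimpleGraph V) (S Z : Finset V) : Prop := ∀ z ∈ Z, ∀ v ∈ S, H.Adj z v → v ∈ Z

def Bip (H : SimpleGraph V) (S : Finset V) (col : V → Bool) : Prop :=
  ∀ u ∈ S, ∀ v ∈ S, H.Adj u v → col u ≠ col v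

/-- No component of `H[S]` is cubic. -/
def NC (H : SimpleGraph V) (S : Finset V) : Prop :=
  ∀ Z ⊆ S, Z.Nonempty → Clo H S Z → ∃ z ∈ Z, dg H S z < 3

noncomputable def bd (G : SimpleGraph V) (X : Finset V) : Finset (V × V) :=
  univ.filter fun p => p.1 ∈ X ∧ p.2 ∉ X ∧ G.Adj p.1 p.2

structure Cb (G : SimpleGraph V) (col : V → Bool) : Prop where
  cub : ∀ v, dg G univ v = 3
  bip : ∀ u v, G.Adj u v → col u ≠ col v

structure Gr (G : SimpleGraph V) (col : V → Bool) : Prop extends Cb G col where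
  e4 : ∀ X : Finset V, 2 ≤ X.card → 2 ≤ Xᶜ.card → 4 ≤ (bd G X).card
  big : 9 ≤ Fintype.card V

/-- `Q` is the vertex set of an induced path with ends `a`, `b` (what is used of it). -/
structure PS (G : SimpleGraph V) (Q : Finset V) (a b : V) : Prop where
  fo : Fo G Q
  m1 : a ∈ Q
  m2 : b ∈ Q
  inn : ∀ v ∈ Q, v ≠ a → v ≠ b → ∃ p ∈ Q, ∃ q ∈ Q, p ≠ q ∧ G.Adj v p ∧ G.Adj v q
  n1 : a ≠ b → ∃ p ∈ Q, G.Adj a p
  n2 : a ≠ b → ∃ p ∈ Q, G.Adj b p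

/-- A set outside `Q` that would give a cubic component after the two identifications. -/
structure Tight (G : SimpleGraph V) (Q : Finset V) (v1 v2 a a' s s' : V) (Y : Finset V) :
    Prop where
  dis : Disjoint Y Q
  ma : a ∈ Y
  ma' : a' ∈ Y
  ms : s ∈ Y
  ms' : s' ∈ Y
  clo : ∀ y ∈ Y, ∀ v, G.Adj y v → v ∈ Y ∨ (v ∈ Q ∧ (y = a ∨ y = a' ∨ y = s ∨ y = s'))
  oa : ∃ x, x ∉ Q ∧ G.Adj a x
  os : ∃ x, x ∉ Q ∧ G.Adj s x
  ta : ∀ w ∈ Q, G.Adj a' w → w = v1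
  ts : ∀ w ∈ Q, G.Adj s' w → w = v2

/-- A good configuration. -/
structure GC (G : SimpleGraph V) (Q : Finset V) (v1 v2 a a' s s' : V) : Prop where
  ps : PS G Q v1 v2
  ne : v1 ≠ v2
  na : a ∉ Q
  na' : a' ∉ Q
  ns : s ∉ Q
  ns' : s' ∉ Q
  d1 : a ≠ a'
  d2 : a ≠ s
  d3 : a ≠ s'
  d4 : a' ≠ s
  d5 : a' ≠ s'
  d6 : s ≠ s'
  e1 : G.Adj v1 a
  e1' : G.Adj v1 a'
  e2 : G.Adj v2 s
  e2' : G.Adj v2 s'
  l1 : ∃ w ∈ Q, w ≠ v1 ∧ G.Adj a w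
  l2 : ∃ w ∈ Q, w ≠ v2 ∧ G.Adj s w
  p1 : ∀ t, t ∉ Q → G.Adj a t → ¬ G.Adj a' t
  p2 : ∀ t, t ∉ Q → G.Adj s t → ¬ G.Adj s' t
  db1 : ¬ (G.Adj a s ∧ G.Adj a' s')
  db2 : ¬ (G.Adj a s' ∧ G.Adj a' s)
  cl : ∀ Y, ¬ Tight G Q v1 v2 a a' s s' Y

/-- A good configuration with named witnesses for `l1`, `l2`. -/
def GW (G : SimpleGraph V) (v1 v2 a s w1 w2 : V) : Prop := ∃ Q a' s', GC G Q v1 v2 a a' s s' ∧
  w1 ∈ Q ∧ w1 ≠ v1 ∧ G.Adj a w1 ∧ w2 ∈ Q ∧ w2 ≠ v2 ∧ G.Adj s w2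

/-- A set that would give a cubic component after the identifications (no connectivity used). -/
structure Bad (G : SimpleGraph V) (Q : Finset V) (v1 v2 a a' s s' : V) (Y : Finset V) :
    Prop where
  ne : Y.Nonempty
  dis : Disjoint Y Q
  cl1 : ∀ y ∈ Y, ∀ v, G.Adj y v → v ∉ Q → v ∈ Y
  cl2 : ∀ y ∈ Y, ∀ v ∈ Q, G.Adj y v → y = a ∨ y = a' ∨ y = s ∨ y = s'
  ia : a ∈ Y ↔ a' ∈ Y
  is : s ∈ Y ↔ s' ∈ Y
  fa : a ∈ Y → (∃ x, x ∉ Q ∧ G.Adj a x) ∧ ∀ w ∈ Q, G.Adj a' w → w = v1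
  fs : s ∈ Y → (∃ x, x ∉ Q ∧ G.Adj s x) ∧ ∀ w ∈ Q, G.Adj s' w → w = v2

structure GC2 (G : SimpleGraph V) (Q : Finset V) (v1 v2 a a' s s' : V) : Prop where
  ps : PS G Q v1 v2
  ne : v1 ≠ v2
  na : a ∉ Q
  na' : a' ∉ Q
  ns : s ∉ Q
  ns' : s' ∉ Q
  d1 : a ≠ a'
  d2 : a ≠ s
  d3 : a ≠ s'
  d4 : a' ≠ s
  d5 : a' ≠ s'
  d6 : s ≠ s'
  e1 : G.Adj v1 a
  e1' : G.Adj v1 a'
  e2 : G.Adj v2 s
  e2' : G.Adj v2 s'
  l1 : ∃ w ∈ Q, w ≠ v1 ∧ G.Adj a w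
  l2 : ∃ w ∈ Q, w ≠ v2 ∧ G.Adj s w
  p1 : ∀ t, t ∉ Q → G.Adj a t → ¬ G.Adj a' t
  p2 : ∀ t, t ∉ Q → G.Adj s t → ¬ G.Adj s' t
  db1 : ¬ (G.Adj a s ∧ G.Adj a' s')
  db2 : ¬ (G.Adj a s' ∧ G.Adj a' s)
  cl : ∀ Y, ¬ Bad G Q v1 v2 a a' s s' Y

def HasG2 (G : SimpleGraph V) : Prop := ∃ Q v1 v2 a a' s s', GC2 G Q v1 v2 a a' s s'

/-- `a'` is identified with `a`. -/
def mg (H : SimpleGraph V) (a a' : V) : SimpleGraph V where
  Adj x y := x ≠ y ∧ (H.Adj x y ∨ (x = a ∧ H.Adj a' y) ∨ (y = a ∧ H.Adj a' x))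
  symm := ⟨fun _ _ h => ⟨h.1.symm, h.2.elim (fun e => Or.inl e.symm) fun e => Or.inr e.symm⟩⟩
  loopless := ⟨fun _ h => h.1 rfl⟩

def mk (K : Cov V) (a a' : V) (θ : Equiv.Perm (Fin 3)) : Cov V := fun u i v j =>
  K u i v j ∨ (u = a ∧ K a' (θ i) v j) ∨ (v = a ∧ K a' (θ j) u i)

/-- A shortest path `R` from `A` to `B` inside `W`. -/
structure Sp (G : SimpleGraph V) (W A B R : Finset V) (a b : V) : Prop where
  ps : PS G R a b
  sub : R ⊆ W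
  ma : a ∈ A
  mb : b ∈ B
  ua : ∀ x ∈ R, x ∈ A → x = a
  ub : ∀ x ∈ R, x ∈ B → x = b
  oa : ∀ x ∈ R, ∀ y ∈ R, G.Adj a x → G.Adj a y → x = y
  ob : ∀ x ∈ R, ∀ y ∈ R, G.Adj b x → G.Adj b y → x = y
  ja : ∀ a' ∈ A, ∀ x ∈ R, G.Adj a' x → x = a ∨ G.Adj a x
  jb : ∀ b' ∈ B, ∀ x ∈ R, G.Adj b' x → x = b ∨ G.Adj b x
  k1 : ∀ a' ∈ A, ∀ b' ∈ B, G.Adj a' b' → a = b ∨ G.Adj a b
  k2 : ∀ a' ∈ A, ∀ b' ∈ B, ∀ t ∈ W, G.Adj a' t → G.Adj t b' →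
    a = b ∨ G.Adj a b ∨ ∃ p ∈ W, G.Adj a p ∧ G.Adj p b

/-- A 4-cycle. -/
structure Sq (G : SimpleGraph V) (a b c d : V) : Prop where
  ab : G.Adj a b
  bc : G.Adj b c
  cd : G.Adj c d
  da : G.Adj d a
  ac : a ≠ c
  bd : b ≠ d

/-- Two 4-cycles `p q r s`, `q w t r` with the third neighbours `P S W T` of `p s w t`. -/
structure Dom (G : SimpleGraph V) (p q w s r t P S W T : V) : Prop where
  pq : G.Adj p q
  qw : G.Adj q w
  sr : G.Adj s r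
  rt : G.Adj r t
  ps : G.Adj p s
  qr : G.Adj q r
  wt : G.Adj w t
  pP : G.Adj p P
  sS : G.Adj s S
  wW : G.Adj w W
  tT : G.Adj t T
  p_w : p ≠ w
  s_t : s ≠ t
  p_r : p ≠ r
  w_r : w ≠ r
  q_s : q ≠ s
  q_t : q ≠ t
  P_q : P ≠ q
  P_s : P ≠ s
  P_t : P ≠ t
  W_q : W ≠ q
  W_t : W ≠ t
  W_s : W ≠ s
  S_p : S ≠ p
  S_r : S ≠ r
  S_w : S ≠ w
  T_w : T ≠ w
  T_r : T ≠ r
  T_p : T ≠ p
  P_W : P ≠ W
  S_T : S ≠ T

variable {G : SimpleGraph V} {col : V → Bool}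

theorem Cb.nb3 (h : Cb G col) {v a b c : V} (ha : G.Adj v a) (hb : G.Adj v b) (hc : G.Adj v c)
    (ab : a ≠ b) (ac : a ≠ c) (bc : b ≠ c) {w : V} (hw : G.Adj v w) : w = a ∨ w = b ∨ w = c := by
  have h3 := h.cub v
  unfold dg at h3
  have hs : ({a, b, c} : Finset V) ⊆ univ.filter fun w => G.Adj v w := by
    intro x hx
    simp only [mem_insert, mem_singleton] at hx
    rcases hx with rfl | rfl | rfl <;> simp [*]
  have hc3 : ({a, b, c} : Finset V).card = 3 := card_eq_three.2 ⟨a, b, c, ab, ac, bc, rfl⟩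
  have he := eq_of_subset_of_card_le hs (by omega)
  have : w ∈ ({a, b, c} : Finset V) := by rw [he]; simp [hw]
  simpa using this

theorem Cb.third (h : Cb G col) (v a b : V) : ∃ c, G.Adj v c ∧ c ≠ a ∧ c ≠ b := by
  have h3 := h.cub v
  unfold dg at h3
  by_contra hn
  push Not at hn
  have hs : (univ.filter fun w => G.Adj v w) ⊆ {a, b} := by
    intro x hx
    have hx' : G.Adj v x := by simpa using hx
    by_cases e : x = a
    · simp [e]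
    · simp [hn x hx' e]
  have := (card_le_card hs).trans (card_le_two (a := a) (b := b))
  omega

theorem Gr.cut3 (h : Gr G col) (X : Finset V) (h1 : 2 ≤ X.card) (h2 : 2 ≤ Xᶜ.card)
    (x1 y1 x2 y2 x3 y3 : V)
    (hb : ∀ x ∈ X, ∀ y, y ∉ X → G.Adj x y →
      (x = x1 ∧ y = y1) ∨ (x = x2 ∧ y = y2) ∨ (x = x3 ∧ y = y3)) : False := by
  have h4 := h.e4 X h1 h2
  have hs : bd G X ⊆ {(x1, y1), (x2, y2), (x3, y3)} := by
    rintro ⟨x, y⟩ hx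
    simp only [bd, mem_filter, mem_univ, true_and] at hx
    rcases hb x hx.1 y hx.2.1 hx.2.2 with ⟨rfl, rfl⟩ | ⟨rfl, rfl⟩ | ⟨rfl, rfl⟩ <;> simp
  have := (card_le_card hs).trans card_le_three
  omega

theorem two_le {X : Finset V} {a b : V} (ha : a ∈ X) (hb : b ∈ X) (ab : a ≠ b) : 2 ≤ X.card :=
  one_lt_card.2 ⟨a, ha, b, hb, ab⟩

theorem two_le_compl {X : Finset V} {a b : V} (ha : a ∉ X) (hb : b ∉ X) (ab : a ≠ b) :
    2 ≤ Xᶜ.card := two_le (mem_compl.2 ha) (mem_compl.2 hb) ab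

theorem Gr.small (h : Gr G col) (l : List V) (hl : l.length ≤ 7) : 2 ≤ (l.toFinset)ᶜ.card := by
  have h1 := l.toFinset_card_le
  have h2 := h.big
  rw [card_compl]
  omega

/-- Two neighbours of one vertex have the same colour. -/
theorem Cb.same (h : Cb G col) {u v w : V} (h1 : G.Adj u v) (h2 : G.Adj v w) : col u = col w := by
  have a := h.bip u v h1
  have b := h.bip v w h2
  revert a b
  cases col u <;> cases col v <;> cases col w <;> simp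

theorem Cb.notri (h : Cb G col) {u v w : V} (h1 : G.Adj u v) (h2 : G.Adj v w) : ¬ G.Adj u w :=
  fun h3 => h.bip u w h3 (h.same h1 h2)

theorem Gr.k23 (h : Gr G col) {x y a b c : V} (xy : x ≠ y) (xa : G.Adj x a) (xb : G.Adj x b)
    (xc : G.Adj x c) (ya : G.Adj y a) (yb : G.Adj y b) (yc : G.Adj y c) (ab : a ≠ b)
    (ac : a ≠ c) (bc : b ≠ c) : False := by
  obtain ⟨a', ha, ha1, ha2⟩ := h.third a x y
  obtain ⟨b', hb, hb1, hb2⟩ := h.third b x y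
  obtain ⟨c', hc, hc1, hc2⟩ := h.third c x y
  refine h.cut3 [x, y, a, b, c].toFinset (two_le (a := x) (b := y) (by simp) (by simp) xy)
    (h.small _ (by simp)) a a' b b' c c' ?_
  intro u hu v hv huv
  simp only [List.toFinset_cons, List.toFinset_nil, insert_empty_eq, mem_insert, mem_singleton,
    not_or] at hu hv
  rcases hu with rfl | rfl | rfl | rfl | rfl
  · rcases h.nb3 xa xb xc ab ac bc huv with e | e | e <;> simp [e] at hv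
  · rcases h.nb3 ya yb yc ab ac bc huv with e | e | e <;> simp [e] at hv
  · rcases h.nb3 xa.symm ya.symm ha xy ha1.symm ha2.symm huv with e | e | e <;> simp_all
  · rcases h.nb3 xb.symm yb.symm hb xy hb1.symm hb2.symm huv with e | e | e <;> simp_all
  · rcases h.nb3 xc.symm yc.symm hc xy hc1.symm hc2.symm huv with e | e | e <;> simp_all

theorem PS.one (G : SimpleGraph V) (a : V) : PS G {a} a a where
  fo := by simpa using Fo.ins (H := G) ∅ a Fo.nil (by simp) (by simp)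
  m1 := by simp
  m2 := by simp
  inn := by simp
  n1 := by simp
  n2 := by simp

theorem PS.swap {Q : Finset V} {a b : V} (h : PS G Q a b) : PS G Q b a :=
  ⟨h.fo, h.m2, h.m1, fun v hv h1 h2 => h.inn v hv h2 h1, fun e => h.n2 e.symm,
    fun e => h.n1 e.symm⟩

/-- Extend the path at the end `a`. -/
theorem PS.ext {Q : Finset V} {a b : V} (h : PS G Q a b) (v : V) (hv : v ∉ Q) (ha : G.Adj v a)
    (hu : ∀ x ∈ Q, G.Adj v x → x = a) : PS G (insert v Q) v b where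
  fo := Fo.ins Q v h.fo hv fun x hx y hy h1 h2 => (hu x hx h1).trans (hu y hy h2).symm
  m1 := by simp
  m2 := mem_insert_of_mem h.m2
  inn := by
    intro x hx h1 h2
    have hx' : x ∈ Q := (mem_insert.1 hx).resolve_left h1
    by_cases e : x = a
    · subst e
      obtain ⟨p, hp, hp'⟩ := h.n1 h2
      exact ⟨v, by simp, p, mem_insert_of_mem hp, fun e => hv (e ▸ hp), ha.symm, hp'⟩
    · obtain ⟨p, hp, q, hq, hr⟩ := h.inn x hx' e h2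
      exact ⟨p, mem_insert_of_mem hp, q, mem_insert_of_mem hq, hr⟩
  n1 := fun _ => ⟨a, mem_insert_of_mem h.m1, ha⟩
  n2 := fun _ => by
    by_cases e : a = b
    · subst e; exact ⟨v, by simp, ha.symm⟩
    · obtain ⟨p, hp, hp'⟩ := h.n2 e
      exact ⟨p, mem_insert_of_mem hp, hp'⟩

theorem Sq.rot {a b c d : V} (h : Sq G a b c d) : Sq G b c d a :=
  ⟨h.bc, h.cd, h.da, h.ab, h.bd, h.ac.symm⟩

theorem Sq.rev {a b c d : V} (h : Sq G a b c d) : Sq G a d c b :=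
  ⟨h.da.symm, h.cd.symm, h.bc.symm, h.ab.symm, h.ac, h.bd.symm⟩

variable {p q w s r t P S W T : V}

/-- Exchange the two rows. -/
theorem Dom.flip (h : Dom G p q w s r t P S W T) : Dom G s r t p q w S P T W :=
  ⟨h.sr, h.rt, h.pq, h.qw, h.ps.symm, h.qr.symm, h.wt.symm, h.sS, h.pP, h.tT, h.wW, h.s_t, h.p_w,
    h.q_s.symm, h.q_t.symm, h.p_r.symm, h.w_r.symm, h.S_r, h.S_p, h.S_w, h.T_r, h.T_w, h.T_p,
    h.P_s, h.P_q, h.P_t, h.W_t, h.W_q, h.W_s, h.S_T, h.P_W⟩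

/-- Exchange left and right. -/
theorem Dom.refl (h : Dom G p q w s r t P S W T) : Dom G w q p t r s W T P S :=
  ⟨h.qw.symm, h.pq.symm, h.rt.symm, h.sr.symm, h.wt, h.qr, h.ps, h.wW, h.tT, h.pP, h.sS,
    h.p_w.symm, h.s_t.symm, h.w_r, h.p_r, h.q_t, h.q_s, h.W_q, h.W_t, h.W_s, h.P_q, h.P_s, h.P_t,
    h.T_w, h.T_r, h.T_p, h.S_p, h.S_r, h.S_w, h.P_W.symm, h.S_T.symm⟩

theorem Dom.np (g : Gr G col) (h : Dom G p q w s r t P S W T) {x : V} (hx : G.Adj p x) :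
    x = q ∨ x = s ∨ x = P := g.nb3 h.pq h.ps h.pP h.q_s h.P_q.symm h.P_s.symm hx
theorem Dom.nq (g : Gr G col) (h : Dom G p q w s r t P S W T) {x : V} (hx : G.Adj q x) :
    x = p ∨ x = w ∨ x = r := g.nb3 h.pq.symm h.qw h.qr h.p_w h.p_r h.w_r hx
theorem Dom.nw (g : Gr G col) (h : Dom G p q w s r t P S W T) {x : V} (hx : G.Adj w x) :
    x = q ∨ x = t ∨ x = W := h.refl.np g hx
theorem Dom.ns (g : Gr G col) (h : Dom G p q w s r t P S W T) {x : V} (hx : G.Adj s x) :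
    x = r ∨ x = p ∨ x = S := h.flip.np g hx
theorem Dom.nr (g : Gr G col) (h : Dom G p q w s r t P S W T) {x : V} (hx : G.Adj r x) :
    x = s ∨ x = t ∨ x = q := h.flip.nq g hx
theorem Dom.nt (g : Gr G col) (h : Dom G p q w s r t P S W T) {x : V} (hx : G.Adj t x) :
    x = r ∨ x = w ∨ x = T := h.flip.refl.np g hx

/-- The colours of a domino: `p w r S T` have the colour of `p`, the others the other one. -/
theorem Dom.cols (g : Gr G col) (h : Dom G p q w s r t P S W T) :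
    col w = col p ∧ col r = col p ∧ col S = col p ∧ col T = col p ∧ col q = !col p ∧
      col s = !col p ∧ col t = !col p ∧ col P = !col p ∧ col W = !col p :=
  bool10 _ _ _ _ _ _ _ _ _ _ (g.bip _ _ h.pq) (g.bip _ _ h.qw) (g.bip _ _ h.sr) (g.bip _ _ h.rt)
    (g.bip _ _ h.ps) (g.bip _ _ h.pP) (g.bip _ _ h.sS) (g.bip _ _ h.wW) (g.bip _ _ h.tT)

theorem Unif.perm {I : Type} [Fintype I] {f : I → Fin 3} (h : Unif f) (β : Equiv.Perm (Fin 3)) :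
    Unif fun i => β (f i) := by
  intro c
  have := h (β.symm c)
  simpa [Equiv.eq_symm_apply] using this

theorem IsCov.mono {H : SimpleGraph V} {S T : Finset V} {K : Cov V} (h : IsCov H T K)
    (hs : S ⊆ T) : IsCov H S K :=
  ⟨h.symm, h.adj, fun u hu v hv => h.uniq u (hs hu) v (hs hv)⟩

/-- Levels of a breadth-first search from `A`; `Y` is the set of vertices reached. -/
structure Lev (G : SimpleGraph V) (A Y : Finset V) (lev : V → ℕ) : Prop where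
  sub : A ⊆ Y
  zero : ∀ v ∈ Y, lev v = 0 ↔ v ∈ A
  lip : ∀ u ∈ Y, ∀ v ∈ Y, G.Adj u v → lev v ≤ lev u + 1
  down : ∀ v ∈ Y, ∀ i, lev v = i + 1 → ∃ u ∈ Y, G.Adj v u ∧ lev u = i

/-- A path from `v` down the levels to `a`. -/
structure LP (G : SimpleGraph V) (A Y : Finset V) (lev : V → ℕ) (R : Finset V) (v a : V) :
    Prop where
  ps : PS G R v a
  ma : a ∈ A
  sub : R ⊆ Y
  le : ∀ x ∈ R, lev x ≤ lev v
  inj : ∀ x ∈ R, ∀ y ∈ R, lev x = lev y → x = y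
  con : ∀ x ∈ R, ∀ y ∈ R, lev y = lev x + 1 → G.Adj x y
  all : ∀ j ≤ lev v, ∃ x ∈ R, lev x = j

/-- `o` is the third neighbour of `c`, beside `u` and `v`. -/
def Th (G : SimpleGraph V) (c u v o : V) : Prop := G.Adj c o ∧ o ≠ u ∧ o ≠ v

/-- The path `V1 U' X … Y S' V2` of a dumbbell. -/
noncomputable def DQ (R : Finset V) (U' V1 S' V2 : V) : Finset V :=
  insert V2 (insert S' (insert V1 (insert U' R)))

def Conn (G : SimpleGraph V) : Prop := ∀ Y : Finset V, Y.Nonempty → Clo G univ Y → Y = univ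

/-- Every vertex of `C` has exactly one neighbour outside `C`. -/
def Per (G : SimpleGraph V) (C : Finset V) : Prop :=
  ∀ v ∈ C, ∃ o, o ∉ C ∧ G.Adj v o ∧ ∀ x, G.Adj v x → x ∉ C → x = o

/-- `u` and `v` are linked outside `C`. -/
def Lk (G : SimpleGraph V) (C : Finset V) (u v : V) : Prop :=
  ∀ Z : Finset V, Clo G Cᶜ Z → u ∈ Z → v ∈ Z

/-- Two peripheral cycles through the path `x b y` that part at `x`. -/
structure Theta (G : SimpleGraph V) (C1 C2 : Finset V) (a c x b y b' : V) : Prop where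
  p1 : Per G C1
  p2 : Per G C2
  a1 : a ∈ C1
  x1 : x ∈ C1
  b1 : b ∈ C1
  y1 : y ∈ C1
  c1 : c ∉ C1
  c2 : c ∈ C2
  x2 : x ∈ C2
  b2 : b ∈ C2
  y2 : y ∈ C2
  a2 : a ∉ C2
  o1 : b' ∉ C1
  o2 : b' ∉ C2
  xa : G.Adj x a
  xc : G.Adj x c
  xb : G.Adj x b
  by' : G.Adj b y
  bo : G.Adj b b'
  ab : a ≠ b
  cb : c ≠ b
  xy : x ≠ y
  l1 : Lk G C1 c b'
  l2 : Lk G C2 a b'

def TH (G : SimpleGraph V) : Prop := ∀ C1 C2 a c x b y b', ¬ Theta G C1 C2 a c x b y b'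

/-- The hexagonal prism. -/
structure Hex (G : SimpleGraph V) (t0 t1 t2 t3 t4 t5 b0 b1 b2 b3 b4 b5 : V) : Prop where
  t01 : G.Adj t0 t1
  t12 : G.Adj t1 t2
  t23 : G.Adj t2 t3
  t34 : G.Adj t3 t4
  t45 : G.Adj t4 t5
  t50 : G.Adj t5 t0
  b01 : G.Adj b0 b1
  b12 : G.Adj b1 b2
  b23 : G.Adj b2 b3
  b34 : G.Adj b3 b4
  b45 : G.Adj b4 b5
  b50 : G.Adj b5 b0
  r0 : G.Adj t0 b0
  r1 : G.Adj t1 b1
  r2 : G.Adj t2 b2
  r3 : G.Adj t3 b3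
  r4 : G.Adj t4 b4
  r5 : G.Adj t5 b5
  nd : [t0, t1, t2, t3, t4, t5, b0, b1, b2, b3, b4, b5].Nodup

def Cand (G : SimpleGraph V) (X : Finset V) : Prop :=
  2 ≤ X.card ∧ (∃ y, y ∉ X) ∧ (bd G X).card ≤ 3

def Mn (G : SimpleGraph V) (X : Finset V) : Prop :=
  Cand G X ∧ ∀ Y ⊆ X, Y ≠ X → 2 ≤ Y.card → 4 ≤ (bd G Y).card

/-- A minimal side of a cut with three edges. -/
structure End (G : SimpleGraph V) (col : V → Bool) (X : Finset V) (u1 u2 u3 v1 v2 v3 : V) :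
    Prop where
  m1 : u1 ∈ X
  m2 : u2 ∈ X
  m3 : u3 ∈ X
  n1 : v1 ∉ X
  n2 : v2 ∉ X
  n3 : v3 ∉ X
  e1 : G.Adj u1 v1
  e2 : G.Adj u2 v2
  e3 : G.Adj u3 v3
  u12 : u1 ≠ u2
  u13 : u1 ≠ u3
  u23 : u2 ≠ u3
  cut : ∀ x ∈ X, ∀ y, y ∉ X → G.Adj x y →
    (x = u1 ∧ y = v1) ∨ (x = u2 ∧ y = v2) ∨ (x = u3 ∧ y = v3)
  c2 : col u2 = col u1
  c3 : col u3 = col u1
  mn : ∀ Y ⊆ X, Y ≠ X → 2 ≤ Y.card → 4 ≤ (bd G Y).card
  con : ∀ Z : Finset V, Clo G Xᶜ Z → (∃ y ∈ Z, y ∉ X) → ∀ y, y ∉ X → y ∈ Z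

theorem End.one {X : Finset V} {u1 u2 u3 v1 v2 v3 : V} (h : End G col X u1 u2 u3 v1 v2 v3)
    {x y y' : V} (hx : x ∈ X) (hy : y ∉ X) (hy' : y' ∉ X) (e : G.Adj x y) (e' : G.Adj x y') :
    y = y' := by
  have a := h.u12
  have b := h.u13
  have c := h.u23
  rcases h.cut x hx y hy e with ⟨rfl, rfl⟩ | ⟨rfl, rfl⟩ | ⟨rfl, rfl⟩ <;>
    rcases h.cut _ hx y' hy' e' with ⟨k, rfl⟩ | ⟨k, rfl⟩ | ⟨k, rfl⟩ <;> simp_all

/-- The contraction of the complement of `X` to the vertex `none`. -/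
noncomputable def kp (X : Finset V) (v : V) : Option X := if h : v ∈ X then some ⟨v, h⟩ else none

def ctr (G : SimpleGraph V) (X : Finset V) : SimpleGraph (Option X) where
  Adj a b := a ≠ b ∧ ∃ x y, kp X x = a ∧ kp X y = b ∧ G.Adj x y
  symm := ⟨fun _ _ ⟨h, x, y, hx, hy, e⟩ => ⟨h.symm, y, x, hy, hx, e.symm⟩⟩
  loopless := ⟨fun _ h => h.1 rfl⟩

def colc (col : V → Bool) (X : Finset V) (u : V) : Option X → Bool
  | none => !col u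
  | some x => col x

theorem kp_mem {X : Finset V} {v : V} (h : v ∈ X) : kp X v = some ⟨v, h⟩ := dif_pos h

theorem kp_none {X : Finset V} {v : V} : kp X v = none ↔ v ∉ X := by
  unfold kp; split_ifs with h <;> simp [h]

theorem kp_val {X : Finset V} (x : X) : kp X x = some x := kp_mem x.2

theorem kp_eq {X : Finset V} {x y : V} (hx : x ∈ X) (h : kp X y = kp X x) : y = x := by
  by_cases hy : y ∈ X
  · rw [kp_mem hx, kp_mem hy] at h; simpa using h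
  · rw [kp_none.2 hy, kp_mem hx] at h; simp at h

theorem kp_ex {X : Finset V} {a : Option X} (h : a ≠ none) : ∃ x ∈ X, kp X x = a := by
  obtain ⟨x, rfl⟩ := Option.ne_none_iff_exists'.1 h
  exact ⟨x, x.2, kp_val x⟩

theorem ctr_adj {X : Finset V} {x y : V} (h : G.Adj x y) (hx : x ∈ X) :
    (ctr G X).Adj (kp X x) (kp X y) :=
  ⟨fun e => h.ne (kp_eq hx e.symm).symm, x, y, rfl, rfl, h⟩

theorem ctr_in {X : Finset V} {x y : V} (hx : x ∈ X) (hy : y ∈ X)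
    (h : (ctr G X).Adj (kp X x) (kp X y)) : G.Adj x y := by
  obtain ⟨-, x', y', h1, h2, e⟩ := h
  rwa [kp_eq hx h1, kp_eq hy h2] at e

theorem ctr_out {X : Finset V} {x : V} (hx : x ∈ X) (h : (ctr G X).Adj (kp X x) none) :
    ∃ y, y ∉ X ∧ G.Adj x y := by
  obtain ⟨-, x', y', h1, h2, e⟩ := h
  exact ⟨y', kp_none.1 h2, kp_eq hx h1 ▸ e⟩

/-- `Q` lies over `QH`. -/
structure Lift (X : Finset V) (QH : Finset (Option X)) (Q : Finset V) : Prop where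
  inn : ∀ x ∈ X, x ∈ Q ↔ kp X x ∈ QH
  o1 : none ∉ QH → Q ⊆ X
  o2 : none ∈ QH → ∃ r ∈ Q, r ∉ X

def Fd (H : SimpleGraph V) (Q : Finset V) : Prop :=
  ∀ S ⊆ Q, S.Nonempty → ∑ v ∈ S, dg H S v + 2 ≤ 2 * S.card

/-- A cube minus a vertex, with the three leaving edges. -/
structure CE (G : SimpleGraph V) (u1 u2 u3 m12 m13 m23 o v1 v2 v3 : V) : Prop where
  a1 : G.Adj u1 m12
  a2 : G.Adj u2 m12
  b1 : G.Adj u1 m13
  b3 : G.Adj u3 m13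
  c2 : G.Adj u2 m23
  c3 : G.Adj u3 m23
  oa : G.Adj o m12
  ob : G.Adj o m13
  oc : G.Adj o m23
  e1 : G.Adj u1 v1
  e2 : G.Adj u2 v2
  e3 : G.Adj u3 v3
  nd : [u1, u2, u3, o, m12, m13, m23].Nodup
  n1 : v1 ∉ ({u1, u2, u3, o, m12, m13, m23} : Finset V)
  n2 : v2 ∉ ({u1, u2, u3, o, m12, m13, m23} : Finset V)
  n3 : v3 ∉ ({u1, u2, u3, o, m12, m13, m23} : Finset V)

theorem CE.sw12 {u1 u2 u3 m12 m13 m23 o v1 v2 v3 : V}
    (h : CE G u1 u2 u3 m12 m13 m23 o v1 v2 v3) : CE G u2 u1 u3 m12 m23 m13 o v2 v1 v3 :=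
  have e : ({u2, u1, u3, o, m12, m23, m13} : Finset V) = {u1, u2, u3, o, m12, m13, m23} := by
    ext; simp; tauto
  ⟨h.a2, h.a1, h.c2, h.c3, h.b1, h.b3, h.oa, h.oc, h.ob, h.e2, h.e1, h.e3,
    by have := h.nd; simp only [List.nodup_cons, List.mem_cons, List.not_mem_nil, not_or] at this ⊢; tauto,
    e ▸ h.n2, e ▸ h.n1, e ▸ h.n3⟩

theorem CE.sw23 {u1 u2 u3 m12 m13 m23 o v1 v2 v3 : V}
    (h : CE G u1 u2 u3 m12 m13 m23 o v1 v2 v3) : CE G u1 u3 u2 m13 m12 m23 o v1 v3 v2 :=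
  have e : ({u1, u3, u2, o, m13, m12, m23} : Finset V) = {u1, u2, u3, o, m12, m13, m23} := by
    ext; simp; tauto
  ⟨h.b1, h.b3, h.a1, h.a2, h.c3, h.c2, h.ob, h.oa, h.oc, h.e1, h.e3, h.e2,
    by have := h.nd; simp only [List.nodup_cons, List.mem_cons, List.not_mem_nil, not_or] at this ⊢; tauto,
    e ▸ h.n1, e ▸ h.n3, e ▸ h.n2⟩

/-- The edges of `G` inside `X`. -/
def sub (G : SimpleGraph V) (X : Finset V) : SimpleGraph V where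
  Adj u v := G.Adj u v ∧ u ∈ X ∧ v ∈ X
  symm := ⟨fun _ _ h => ⟨h.1.symm, h.2.2, h.2.1⟩⟩
  loopless := ⟨fun _ h => h.1.ne rfl⟩

def Ev (H : SimpleGraph V) (Y : V → V → ZMod 2) : Prop :=
  (∀ u v, Y u v = Y v u) ∧ ∀ v, ∑ u ∈ univ.filter (fun u => H.Adj v u), Y v u = 0

/-- Ranks of the neighbours around every vertex, with the two-colouring of the corners. -/
structure RK (H : SimpleGraph V) (rk : V → V → ℤ) : Prop where
  inj : ∀ v u w, H.Adj v u → H.Adj v w → rk v u = rk v w → u = w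
  jor : ∀ Y, Ev H Y → ∃ w : V → ZMod 2, ∀ v u, H.Adj v u →
    w v + ∑ x ∈ univ.filter (fun x => H.Adj v x ∧ rk v x < rk v u), Y v x =
      w u + ∑ x ∈ univ.filter (fun x => H.Adj u x ∧ rk u x ≤ rk u v), Y u x

/-- A rotation: `nx v u` is the neighbour of `v` after `u`. -/
structure RS (H : SimpleGraph V) (nx : V → V → V) : Prop where
  adj : ∀ v u, H.Adj v u → H.Adj v (nx v u)
  inj : ∀ v u w, H.Adj v u → H.Adj v w → nx v u = nx v w → u = w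
  nofix : ∀ v u w, H.Adj v u → H.Adj v w → u ≠ w → nx v u ≠ u
  jor : ∀ Y, Ev H Y → ∃ c : V → V → ZMod 2, ∀ v u, H.Adj v u →
    c v u = c u (nx u v) ∧ c v (nx v u) = c v u + Y v u

abbrev Dt (H : SimpleGraph V) : Type := {p : V × V // H.Adj p.1 p.2}

def LCov (G : SimpleGraph V) (e : V → Fin 3 → ℕ) : Cov V := fun u i v j =>
  G.Adj u v ∧ e u i = e v j

def LPk (G : SimpleGraph V) : Prop :=
  ∀ e : V → Fin 3 → ℕ, (∀ v, Function.Injective (e v)) → Pack univ (LCov G e)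

end

/-- A finite type with a special point. -/
class Pt (V : Type) extends Fintype V where
  z : V

instance (α : Type) [Fintype α] : Pt (Option α) where
  toFintype := inferInstance
  z := none

section
variable {V : Type} [Pt V] {G : SimpleGraph V} {col : V → Bool}

def HasGC (G : SimpleGraph V) : Prop := ∃ v1 v2 a s w1 w2, GW G v1 v2 a s w1 w2 ∧
  Pt.z ∉ ({v1, v2, a, s, w1, w2} : Finset V)

def NoDom (G : SimpleGraph V) : Prop := ∀ p q w s r t, G.Adj p q → G.Adj q w → G.Adj s r →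
  G.Adj r t → G.Adj p s → G.Adj q r → G.Adj w t → p ≠ w → s ≠ t → p ≠ r → w ≠ r → q ≠ s →
  q ≠ t → q ≠ Pt.z → r ≠ Pt.z → False

def THz (G : SimpleGraph V) : Prop := ∀ C1 C2 a c x b y b', Pt.z ∉ C1 → Pt.z ∉ C2 →
  ¬ Theta G C1 C2 a c x b y b'

/-- Two disjoint 4-cycles. -/
structure Two (G : SimpleGraph V) (x c1 c2 c3 y d1 d2 d3 : V) : Prop where
  s1 : Sq G x c1 c2 c3
  s2 : Sq G y d1 d2 d3
  dis : ∀ u ∈ ({x, c1, c2, c3} : Finset V), ∀ v ∈ ({y, d1, d2, d3} : Finset V), u ≠ v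
  z1 : ∀ u ∈ ({x, c1, c2, c3} : Finset V), u ≠ Pt.z
  z2 : ∀ u ∈ ({y, d1, d2, d3} : Finset V), u ≠ Pt.z

theorem Two.swap {x c1 c2 c3 y d1 d2 d3 : V} (h : Two G x c1 c2 c3 y d1 d2 d3) :
    Two G y d1 d2 d3 x c1 c2 c3 := ⟨h.s2, h.s1, fun u hu v hv => (h.dis v hv u hu).symm, h.z2, h.z1⟩

theorem Two.rev1 {x c1 c2 c3 y d1 d2 d3 : V} (h : Two G x c1 c2 c3 y d1 d2 d3) :
    Two G x c3 c2 c1 y d1 d2 d3 :=
  ⟨h.s1.rev, h.s2, fun u hu v hv => h.dis u (by simp at hu ⊢; tauto) v hv,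
    fun u hu => h.z1 u (by simp at hu ⊢; tauto), h.z2⟩

theorem Two.rot1 {x c1 c2 c3 y d1 d2 d3 : V} (h : Two G x c1 c2 c3 y d1 d2 d3) :
    Two G c1 c2 c3 x y d1 d2 d3 :=
  ⟨h.s1.rot, h.s2, fun u hu v hv => h.dis u (by simp at hu ⊢; tauto) v hv,
    fun u hu => h.z1 u (by simp at hu ⊢; tauto), h.z2⟩

theorem Two.rev2 {x c1 c2 c3 y d1 d2 d3 : V} (h : Two G x c1 c2 c3 y d1 d2 d3) :
    Two G x c1 c2 c3 y d3 d2 d1 := h.swap.rev1.swap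

theorem Two.rot2 {x c1 c2 c3 y d1 d2 d3 : V} (h : Two G x c1 c2 c3 y d1 d2 d3) :
    Two G x c1 c2 c3 d1 d2 d3 y := h.swap.rot1.swap

/-- Two disjoint squares joined by the path `R` from `X` to `Y`. -/
structure Db (G : SimpleGraph V) (X U V1 U' Y S V2 S' o1 o2 : V) (R : Finset V) : Prop where
  two : Two G X U V1 U' Y S V2 S'
  ps : PS G R X Y
  nU : U ∉ R
  nV1 : V1 ∉ R
  nU' : U' ∉ R
  nS : S ∉ R
  nV2 : V2 ∉ R
  nS' : S' ∉ R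
  rU' : ∀ z ∈ R, G.Adj U' z → z = X
  rV1 : ∀ z ∈ R, ¬ G.Adj V1 z
  rS' : ∀ z ∈ R, G.Adj S' z → z = Y
  rV2 : ∀ z ∈ R, ¬ G.Adj V2 z
  x1 : ¬ G.Adj U' S'
  x2 : ¬ G.Adj U' V2
  x3 : ¬ G.Adj V1 S'
  x4 : ¬ G.Adj V1 V2
  x5 : ¬ G.Adj U V2
  x6 : ¬ G.Adj V1 S
  e1 : G.Adj V1 o1
  e1U : o1 ≠ U
  e1U' : o1 ≠ U'
  e2 : G.Adj V2 o2
  e2S : o2 ≠ S
  e2S' : o2 ≠ S'
  oo : o1 ≠ o2
  db1 : ¬ (G.Adj U S ∧ G.Adj o1 o2)
  db2 : ¬ (G.Adj U o2 ∧ G.Adj o1 S)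

/-- The generic position of two squares and a shortest path between them. -/
structure Gen (G : SimpleGraph V) (x c1 c2 c3 y d1 d2 d3 o1 o2 : V) (R : Finset V) : Prop where
  two : Two G x c1 c2 c3 y d1 d2 d3
  ps : PS G R x y
  nc : ∀ u ∈ ({c1, c2, c3} : Finset V), u ∉ R
  nd : ∀ u ∈ ({d1, d2, d3} : Finset V), u ∉ R
  rc : ∀ u ∈ ({c1, c2, c3} : Finset V), ∀ z ∈ R, G.Adj u z → z = x
  rd : ∀ u ∈ ({d1, d2, d3} : Finset V), ∀ z ∈ R, G.Adj u z → z = y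
  cd : ∀ u ∈ ({c1, c2, c3} : Finset V), ∀ v ∈ ({d1, d2, d3} : Finset V), ¬ G.Adj u v
  e1 : G.Adj c2 o1
  e11 : o1 ≠ c1
  e13 : o1 ≠ c3
  e2 : G.Adj d2 o2
  e21 : o2 ≠ d1
  e23 : o2 ≠ d3
  oo : o1 ≠ o2

theorem Gen.sw1 {x c1 c2 c3 y d1 d2 d3 o1 o2 : V} {R : Finset V}
    (h : Gen G x c1 c2 c3 y d1 d2 d3 o1 o2 R) : Gen G x c3 c2 c1 y d1 d2 d3 o1 o2 R :=
  have e : ∀ u ∈ ({c3, c2, c1} : Finset V), u ∈ ({c1, c2, c3} : Finset V) := by simp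
  ⟨h.two.rev1, h.ps, fun u hu => h.nc u (e u hu), h.nd, fun u hu => h.rc u (e u hu), h.rd,
    fun u hu => h.cd u (e u hu), h.e1, h.e13, h.e11, h.e2, h.e21, h.e23, h.oo⟩

theorem Gen.sw2 {x c1 c2 c3 y d1 d2 d3 o1 o2 : V} {R : Finset V}
    (h : Gen G x c1 c2 c3 y d1 d2 d3 o1 o2 R) : Gen G x c1 c2 c3 y d3 d2 d1 o1 o2 R :=
  have e : ∀ u ∈ ({d3, d2, d1} : Finset V), u ∈ ({d1, d2, d3} : Finset V) := by simp
  ⟨h.two.rev2, h.ps, h.nc, fun u hu => h.nd u (e u hu), h.rc, fun u hu => h.rd u (e u hu),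
    fun u hu v hv => h.cd u hu v (e v hv), h.e1, h.e11, h.e13, h.e2, h.e23, h.e21, h.oo⟩

/-- Two squares with opposite corners joined through `p` and `t`. -/
structure CB (G : SimpleGraph V) (x c1 c2 c3 y d1 d2 d3 p t : V) : Prop where
  two : Two G x c1 c2 c3 y d1 d2 d3
  px : G.Adj p x
  py : G.Adj p y
  tc : G.Adj t c2
  td : G.Adj t d2
  np : p ∉ ({x, c1, c2, c3, y, d1, d2, d3} : Finset V)
  nt : t ∉ ({x, c1, c2, c3, y, d1, d2, d3} : Finset V)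

theorem CB.rev1 {x c1 c2 c3 y d1 d2 d3 p t : V} (h : CB G x c1 c2 c3 y d1 d2 d3 p t) :
    CB G x c3 c2 c1 y d1 d2 d3 p t :=
  ⟨h.two.rev1, h.px, h.py, h.tc, h.td, fun e => h.np (by simp at e ⊢; tauto),
    fun e => h.nt (by simp at e ⊢; tauto)⟩

theorem CB.rev2 {x c1 c2 c3 y d1 d2 d3 p t : V} (h : CB G x c1 c2 c3 y d1 d2 d3 p t) :
    CB G x c1 c2 c3 y d3 d2 d1 p t :=
  ⟨h.two.rev2, h.px, h.py, h.tc, h.td, fun e => h.np (by simp at e ⊢; tauto),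
    fun e => h.nt (by simp at e ⊢; tauto)⟩

def NA (G : SimpleGraph V) : Prop := ∀ x c1 c2 c3 y d1 d2 d3, Two G x c1 c2 c3 y d1 d2 d3 →
  G.Adj x y → G.Adj c2 d2 → False

def NB (G : SimpleGraph V) : Prop := ∀ x c1 c2 c3 y d1 d2 d3 p t,
  ¬ CB G x c1 c2 c3 y d1 d2 d3 p t

end

/-! ### The steps: packings -/

def TwoS : Prop := ∀ (V : Type) [Fintype V] (H : SimpleGraph V) (T Q : Finset V) (K : Cov V),
  IsCov H T K → Q ⊆ T → Fo H Q → ∀ r : V → Fin 3, ∃ f g : V → Fin 3,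
    (∀ u ∈ Q, ∀ v ∈ Q, ¬ K u (f u) v (f v)) ∧ (∀ u ∈ Q, ∀ v ∈ Q, ¬ K u (g u) v (g v)) ∧
      ∀ v ∈ Q, f v ≠ r v ∧ g v ≠ r v ∧ f v ≠ g v

def ExtS : Prop := ∀ R : Fin 3 → Fin 3 → Prop, (∀ i j j', R i j → R i j' → j = j') →
  (∀ i i' j, R i j → R i' j → i = i') → ∃ β : Equiv.Perm (Fin 3), ∀ i j, R i j → j = β i

def OneS : Prop := ∀ (V : Type) [Fintype V] (H : SimpleGraph V) (T S : Finset V) (K : Cov V)
  (I : Type) [Fintype I] (φ : I → V → Fin 3) (τ : I → Fin 3) (v : V),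
  IsCov H T K → S ⊆ T → v ∈ T → PackF S K I φ τ →
  (∀ o ∈ S, ∀ o' ∈ S, H.Adj v o → H.Adj v o' → o = o') →
  ∃ ρ : I → Fin 3, Unif ρ ∧ ∀ i, ∀ o ∈ S, ∀ c, K o (φ i o) v c → c = ρ i

def ThreadS : Prop := ∀ (V : Type) [Fintype V] (H : SimpleGraph V) (T S Q : Finset V) (K : Cov V)
  (I : Type) [Fintype I] (φ : I → V → Fin 3) (τ : I → Fin 3),
  IsCov H T K → S ⊆ T → Q ⊆ T → Disjoint S Q → Fo H Q → PackF S K I φ τ →
  (∀ v ∈ Q, ∃ ρ : I → Fin 3, Unif ρ ∧ ∀ i, ∀ o ∈ S, ∀ c, K o (φ i o) v c → c = ρ i) →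
  Pack (S ∪ Q) K

def LevS : Prop := ∀ (V : Type) [Fintype V] (G : SimpleGraph V) (W A : Finset V), A ⊆ W →
  ∃ (Y : Finset V) (lev : V → ℕ), Y ⊆ W ∧ Clo G W Y ∧ Lev G A Y lev

def LpS : Prop := ∀ (V : Type) [Fintype V] (G : SimpleGraph V) (A Y : Finset V) (lev : V → ℕ),
  Lev G A Y lev → ∀ v ∈ Y, ∃ R a, LP G A Y lev R v a

def SpS : Prop := ∀ (V : Type) [Fintype V] (G : SimpleGraph V) (W A B : Finset V), A ⊆ W →
  B ⊆ W → (∀ Y, A ⊆ Y → Y ⊆ W → Clo G W Y → ∃ b ∈ B, b ∈ Y) → ∃ R a b, Sp G W A B R a b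

def ParS : Prop := ∀ (V : Type) [Fintype V] (H : SimpleGraph V) (S Z : Finset V) (col : V → Bool)
  (a : V), Bip H S col → Z ⊆ S → Clo H S Z → a ∈ Z → dg H S a = 2 →
  (∀ z ∈ Z, z ≠ a → dg H S z = 3) → False

def StepS : Prop := ∀ (V : Type) [Fintype V] (H : SimpleGraph V) (S : Finset V) (col : V → Bool),
  Bip H S col → (∀ v ∈ S, dg H S v ≤ 3) → NC H S → S.Nonempty →
  ∃ Q, Q ⊆ S ∧ Q.Nonempty ∧ Fo H Q ∧
    ∀ v ∈ Q, ∀ o ∈ S \ Q, ∀ o' ∈ S \ Q, H.Adj v o → H.Adj v o' → o = o'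

def NS : Prop := ∀ (V : Type) [Fintype V] (H : SimpleGraph V) (S : Finset V) (col : V → Bool)
  (K : Cov V), IsCov H S K → Bip H S col → (∀ v ∈ S, dg H S v ≤ 3) → NC H S → Pack S K

def MgCovS : Prop := ∀ (V : Type) [Fintype V] (H : SimpleGraph V) (S : Finset V) (K : Cov V)
  (a a' : V) (θ : Equiv.Perm (Fin 3)), IsCov H S K → a ∈ S → a' ∈ S → a ≠ a' → ¬ H.Adj a a' →
  (∀ t ∈ S, H.Adj a t → ¬ H.Adj a' t) → IsCov (mg H a a') (S.erase a') (mk K a a' θ)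

def MgPackS : Prop := ∀ (V : Type) [Fintype V] (H : SimpleGraph V) (S : Finset V) (K : Cov V)
  (a a' : V) (θ : Equiv.Perm (Fin 3)) (I : Type) [Fintype I] (φ : I → V → Fin 3) (τ : I → Fin 3),
  IsCov H S K → a ∈ S → a ≠ a' → PackF (S.erase a') (mk K a a' θ) I φ τ →
  PackF S K I (fun i => Function.update (φ i) a' (θ (φ i a))) τ

def MgDegS : Prop := ∀ (V : Type) [Fintype V] (H : SimpleGraph V) (S : Finset V) (a a' : V),
  a' ∈ S → (∀ x, x ≠ a → dg (mg H a a') (S.erase a') x ≤ dg H S x) ∧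
    dg (mg H a a') (S.erase a') a ≤ dg H S a + dg H S a' ∧
    ∀ col : V → Bool, Bip H S col → col a = col a' → Bip (mg H a a') (S.erase a') col

/-- Degrees outside `Q` in a cubic graph. -/
def OutS : Prop := ∀ (V : Type) [Fintype V] (G : SimpleGraph V) (col : V → Bool) (Q : Finset V)
  (z : V), Cb G col → dg G Qᶜ z ≤ 3 ∧ (∀ v ∈ Q, G.Adj z v → dg G Qᶜ z ≤ 2) ∧
    (∀ v ∈ Q, ∀ w ∈ Q, v ≠ w → G.Adj z v → G.Adj z w → dg G Qᶜ z ≤ 1) ∧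
    (1 ≤ dg G Qᶜ z → ∃ x, x ∉ Q ∧ G.Adj z x)

def FoldNCS : Prop := ∀ (V : Type) [Fintype V] (G : SimpleGraph V) (col : V → Bool)
  (Q : Finset V) (v1 v2 a a' s s' : V), Cb G col → GC2 G Q v1 v2 a a' s s' →
  NC (mg (mg G a a') s s') ((Qᶜ.erase a').erase s')

def FoldAS : Prop := ∀ (V : Type) [Fintype V] (G : SimpleGraph V) (col : V → Bool)
  (Q : Finset V) (v1 v2 a a' s s' : V) (K : Cov V) (θ η : Equiv.Perm (Fin 3)), Cb G col →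
  GC2 G Q v1 v2 a a' s s' → IsCov G univ K →
  IsCov (mg G a a') (Qᶜ.erase a') (mk K a a' θ) ∧
    Pack ((Qᶜ.erase a').erase s') (mk (mk K a a' θ) s s' η)

def FoldS : Prop := ∀ (V : Type) [Fintype V] (G : SimpleGraph V) (col : V → Bool) (K : Cov V),
  Cb G col → HasG2 G → IsCov G univ K → Pack univ K

def ListS : Prop := ∀ (V : Type) [Fintype V] (G : SimpleGraph V),
  LPk G → ∀ L : V → Finset ℕ, (∀ v, (L v).card = 3) →
  ∃ N : ℕ, 0 < N ∧ ∃ c : Fin (3 * N) → V → ℕ, (∀ k v, c k v ∈ L v) ∧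
    (∀ k u v, G.Adj u v → c k u ≠ c k v) ∧
    ∀ v, ∀ x ∈ L v, (univ.filter fun k => c k v = x).card = N

def E4S : Prop := ∀ (V : Type) [Fintype V] (G : SimpleGraph V) (col : V → Bool)
  (Q : Finset V) (v1 v2 a a' s s' : V), Gr G col → GC G Q v1 v2 a a' s s' →
  GC2 G Q v1 v2 a a' s s'

/-! ### The steps: a domino -/

def DomMkS : Prop := ∀ (V : Type) [Fintype V] (G : SimpleGraph V) (col : V → Bool)
  (p q w s r t : V), Gr G col → G.Adj p q → G.Adj q w → G.Adj s r →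
  G.Adj r t → G.Adj p s → G.Adj q r → G.Adj w t → p ≠ w → s ≠ t → p ≠ r → w ≠ r → q ≠ s →
  q ≠ t → ∃ P S W T, Dom G p q w s r t P S W T

def L1S : Prop := ∀ (V : Type) [Fintype V] (G : SimpleGraph V) (col : V → Bool)
  (p q w s r t P S W T c0 : V), Gr G col → Dom G p q w s r t P S W T → G.Adj P S →
  Th G S s P c0 → ¬ G.Adj c0 T → GW G S t s r p q

def C2S : Prop := ∀ (V : Type) [Fintype V] (G : SimpleGraph V) (col : V → Bool)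
  (p q w s r t P S W T : V) (R : Finset V), Gr G col → Dom G p q w s r t P S W T →
  ¬ G.Adj W T → PS G R P S → (∀ z ∈ R, z ∉ ({p, q, w, s, r, t} : Finset V)) → W ∉ R →
  (∀ x ∈ R, ∀ y ∈ R, G.Adj P x → G.Adj P y → x = y) → GW G P w p t q r

def C3S : Prop := ∀ (V : Type) [Fintype V] (G : SimpleGraph V) (col : V → Bool)
  (p q w s r t P S W T : V) (R : Finset V), Gr G col → Dom G p q w s r t P S W T →
  ¬ G.Adj S W → PS G R P T → (∀ z ∈ R, z ∉ ({p, q, w, s, r, t} : Finset V)) → W ∉ R → S ∉ R →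
  GW G s w r q t p

def ES : Prop := ∀ (V : Type) [Fintype V] (G : SimpleGraph V) (col : V → Bool)
  (p q w s r t P S W T : V) (R : Finset V), Gr G col → Dom G p q w s r t P S W T →
  ¬ G.Adj W T → ¬ G.Adj P T → PS G R T S → (∀ z ∈ R, z ∉ ({p, q, w, s, r, t} : Finset V)) →
  (∀ x ∈ R, ∀ y ∈ R, G.Adj T x → G.Adj T y → x = y) → GW G T q t p r s

def HexS : Prop := ∀ (V : Type) [Fintype V] (G : SimpleGraph V) (col : V → Bool)
  (t0 t1 t2 t3 t4 t5 b0 b1 b2 b3 b4 b5 : V), Gr G col →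
  Hex G t0 t1 t2 t3 t4 t5 b0 b1 b2 b3 b4 b5 → GW G t0 b2 t5 b3 t4 b4

def ExcS : Prop := ∀ (V : Type) [Fintype V] (G : SimpleGraph V) (col : V → Bool)
  (p q w s r t P S W T c1 : V), Gr G col → Dom G p q w s r t P S W T → G.Adj P S →
  G.Adj W T → Th G P p S c1 → G.Adj c1 W →
  (G.Adj P T ∧ G.Adj S W) ∨ ∃ c0, Hex G c1 P p q w W c0 S s r t T

def K4S : Prop := ∀ (V : Type) [Pt V] (G : SimpleGraph V) (col : V → Bool)
  (p q w s r t P S W T : V), Gr G col → THz G → Dom G p q w s r t P S W T →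
  G.Adj P T → Pt.z ∉ ({p, q, r, t, T, P, s} : Finset V) → Lk G {p, q, r, t, T, P} s w → False

def C4S : Prop := ∀ (V : Type) [Pt V] (G : SimpleGraph V) (col : V → Bool)
  (p q w s r t P S W T : V), Gr G col → THz G → Dom G p q w s r t P S W T →
  q ≠ Pt.z → r ≠ Pt.z → G.Adj P T → G.Adj S W → False

def C1S : Prop := ∀ (V : Type) [Pt V] (G : SimpleGraph V) (col : V → Bool)
  (p q w s r t P S W T : V), Gr G col → THz G → Dom G p q w s r t P S W T →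
  Pt.z ∉ ({p, q, w, s, r, t} : Finset V) → G.Adj P S → G.Adj W T → HasGC G

def DspS : Prop := ∀ (V : Type) [Fintype V] (G : SimpleGraph V) (col : V → Bool)
  (p q w s r t P S W T : V), Gr G col → Dom G p q w s r t P S W T →
  ∃ R a b, Sp G ({p, q, w, s, r, t} : Finset V)ᶜ {P, W} {S, T} R a b

def C5aS : Prop := ∀ (V : Type) [Pt V] (G : SimpleGraph V) (col : V → Bool)
  (p q w s r t P S W T : V), Gr G col → THz G → Dom G p q w s r t P S W T →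
  Pt.z ∉ ({p, q, w, s, r, t} : Finset V) → HasGC G

def PathCS : Prop := ∀ (V : Type) [Pt V] (G : SimpleGraph V) (col : V → Bool)
  (p q w s r t P S W T : V), Gr G col → THz G → Dom G p q w s r t P S W T →
  w = Pt.z → G.Adj P T → ∃ R, PS G R T W ∧ (∀ z ∈ R, z ∉ ({p, q, w, s, r, t} : Finset V)) ∧
    S ∉ R ∧ ∀ x ∈ R, ∀ y ∈ R, G.Adj T x → G.Adj T y → x = y

def PathES : Prop := ∀ (V : Type) [Fintype V] (G : SimpleGraph V) (col : V → Bool)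
  (p q w s r t P S W T : V), Gr G col → Dom G p q w s r t P S W T →
  ∃ R, PS G R T S ∧ (∀ z ∈ R, z ∉ ({p, q, w, s, r, t} : Finset V)) ∧
    ∀ x ∈ R, ∀ y ∈ R, G.Adj T x → G.Adj T y → x = y

def C5bS : Prop := ∀ (V : Type) [Pt V] (G : SimpleGraph V) (col : V → Bool)
  (p q w s r t P S W T : V), Gr G col → THz G → Dom G p q w s r t P S W T →
  w = Pt.z → HasGC G

/-! ### The steps: no domino -/

def C6S : Prop := ∀ (V : Type) [Pt V] (G : SimpleGraph V) (col : V → Bool)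
  (x c1 c2 c3 y d1 d2 d3 : V), Gr G col → NoDom G → Sq G x c1 c2 c3 → Sq G y d1 d2 d3 →
  ({x, c1, c2, c3} : Finset V) ≠ {y, d1, d2, d3} →
  (∀ u ∈ ({x, c1, c2, c3} : Finset V), u ≠ Pt.z) →
  (∀ u ∈ ({y, d1, d2, d3} : Finset V), u ≠ Pt.z) → Two G x c1 c2 c3 y d1 d2 d3

def DbS : Prop := ∀ (V : Type) [Pt V] (G : SimpleGraph V) (col : V → Bool)
  (X U V1 U' Y S V2 S' o1 o2 : V) (R : Finset V), Gr G col → NoDom G →
  Db G X U V1 U' Y S V2 S' o1 o2 R → (∀ Z, ¬ Tight G (DQ R U' V1 S' V2) V1 V2 U o1 S o2 Z) →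
  HasGC G

def C8gS : Prop := ∀ (V : Type) [Pt V] (G : SimpleGraph V) (col : V → Bool)
  (x c1 c2 c3 y d1 d2 d3 a1 a3 b1 b3 : V) (R : Finset V), Gr G col → NoDom G →
  Two G x c1 c2 c3 y d1 d2 d3 → G.Adj x y → G.Adj c2 d2 → Th G c1 x c2 a1 → Th G c3 x c2 a3 →
  Th G d1 y d2 b1 → Th G d3 y d2 b3 → PS G R a1 b1 →
  (∀ z ∈ R, z ∉ ({x, c1, c2, c3, y, d1, d2, d3} : Finset V)) → a3 ∉ R → b3 ∉ R → HasGC G

def C8S : Prop := ∀ (V : Type) [Pt V] (G : SimpleGraph V) (col : V → Bool), Gr G col →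
  NoDom G → ¬ NA G → HasGC G

def C9S : Prop := ∀ (V : Type) [Pt V] (G : SimpleGraph V) (col : V → Bool)
  (x c1 c2 c3 y d1 d2 d3 p t e : V), Gr G col → NoDom G → CB G x c1 c2 c3 y d1 d2 d3 p t →
  G.Adj e c1 → G.Adj e d1 → e ≠ Pt.z → HasGC G

def C10gS : Prop := ∀ (V : Type) [Pt V] (G : SimpleGraph V) (col : V → Bool)
  (x c1 c2 c3 y d1 d2 d3 p t a1 a3 b1 b3 : V) (R : Finset V), Gr G col → NoDom G →
  CB G x c1 c2 c3 y d1 d2 d3 p t → Th G c1 x c2 a1 → Th G c3 x c2 a3 →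
  Th G d1 y d2 b1 → Th G d3 y d2 b3 → a3 ≠ b3 → PS G R a1 b1 →
  (∀ z ∈ R, z ∉ ({x, c1, c2, c3, y, d1, d2, d3, p, t} : Finset V)) → a3 ∉ R → b3 ∉ R → HasGC G

def C10rS : Prop := ∀ (V : Type) [Pt V] (G : SimpleGraph V) (col : V → Bool)
  (x c1 c2 c3 y d1 d2 d3 p t a1 a3 b1 b3 : V), Gr G col →
  CB G x c1 c2 c3 y d1 d2 d3 p t → Th G c1 x c2 a1 → Th G c3 x c2 a3 →
  Th G d1 y d2 b1 → Th G d3 y d2 b3 → a1 ≠ a3 ∧ b1 ≠ b3 ∧
  ∃ R a b, Sp G ({x, c1, c2, c3, y, d1, d2, d3, p, t} : Finset V)ᶜ {a1, a3} {b1, b3} R a b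

def C10S : Prop := ∀ (V : Type) [Pt V] (G : SimpleGraph V) (col : V → Bool), Gr G col →
  NoDom G → ¬ NB G → HasGC G

def GenAS : Prop := ∀ (V : Type) [Pt V] (G : SimpleGraph V) (col : V → Bool)
  (x c1 c2 c3 y d1 d2 d3 o1 o2 : V) (R : Finset V), Gr G col →
  Gen G x c1 c2 c3 y d1 d2 d3 o1 o2 R → ¬ (G.Adj c1 o2 ∧ G.Adj o1 d1) →
  Db G x c1 c2 c3 y d1 d2 d3 o1 o2 R

def GenBS : Prop := ∀ (V : Type) [Pt V] (G : SimpleGraph V) (col : V → Bool)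
  (x c1 c2 c3 y d1 d2 d3 o1 o2 : V) (R Y Z : Finset V), Gr G col →
  Gen G x c1 c2 c3 y d1 d2 d3 o1 o2 R → Tight G (DQ R c3 c2 d3 d2) c2 d2 c1 o1 d1 o2 Y →
  Tight G (DQ R c1 c2 d3 d2) c2 d2 c3 o1 d1 o2 Z → False

def C11S : Prop := ∀ (V : Type) [Pt V] (G : SimpleGraph V) (col : V → Bool)
  (x c1 c2 c3 y d1 d2 d3 o1 o2 : V) (R : Finset V), Gr G col → NoDom G →
  Gen G x c1 c2 c3 y d1 d2 d3 o1 o2 R → HasGC G

def GenMkS : Prop := ∀ (V : Type) [Pt V] (G : SimpleGraph V) (col : V → Bool)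
  (x c1 c2 c3 y d1 d2 d3 : V) (R : Finset V), Gr G col → NoDom G → NA G → NB G →
  Two G x c1 c2 c3 y d1 d2 d3 → Sp G univ {x, c1, c2, c3} {y, d1, d2, d3} R x y →
  ∃ o1 o2, Gen G x c1 c2 c3 y d1 d2 d3 o1 o2 R

def C12S : Prop := ∀ (V : Type) [Pt V] (G : SimpleGraph V) (col : V → Bool)
  (x c1 c2 c3 y d1 d2 d3 : V), Gr G col → NoDom G → Two G x c1 c2 c3 y d1 d2 d3 → HasGC G

/-! ### The steps: ends and contraction -/

def ParBS : Prop := ∀ (V : Type) [Fintype V] (G : SimpleGraph V) (col : V → Bool) (Y : Finset V),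
  Cb G col → ((bd G Y).filter fun p => col p.1 = true).card % 3 =
    ((bd G Y).filter fun p => col p.1 = false).card % 3

def TwoBS : Prop := ∀ (V : Type) [Fintype V] (G : SimpleGraph V) (col : V → Bool) (Y : Finset V),
  Cb G col → Conn G → Y.Nonempty → (∃ y, y ∉ Y) → 2 ≤ (bd G Y).card

def OneOutS : Prop := ∀ (V : Type) [Fintype V] (G : SimpleGraph V) (col : V → Bool)
  (X : Finset V), Cb G col → Conn G → Mn G X → (bd G X).card = 3 ∧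
    ∀ x ∈ X, ∀ y y', y ∉ X → y' ∉ X → G.Adj x y → G.Adj x y' → y = y'

def ConS : Prop := ∀ (V : Type) [Fintype V] (G : SimpleGraph V) (col : V → Bool)
  (X : Finset V), Cb G col → Conn G → (bd G X).card ≤ 3 →
  ∀ Z : Finset V, Clo G Xᶜ Z → (∃ y ∈ Z, y ∉ X) → ∀ y, y ∉ X → y ∈ Z

def EndS : Prop := ∀ (V : Type) [Fintype V] (G : SimpleGraph V) (col : V → Bool)
  (X0 : Finset V), Cb G col → Conn G → Cand G X0 →
  ∃ X ⊆ X0, ∃ u1 u2 u3 v1 v2 v3, End G col X u1 u2 u3 v1 v2 v3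

def CtrAS : Prop := ∀ (V : Type) [Fintype V] (G : SimpleGraph V) (col : V → Bool) (X : Finset V)
  (u1 u2 u3 v1 v2 v3 : V), Cb G col →
  End G col X u1 u2 u3 v1 v2 v3 → Cb (ctr G X) (colc col X u1)

def CtrBS : Prop := ∀ (V : Type) [Fintype V] (G : SimpleGraph V) (col : V → Bool) (X : Finset V)
  (u1 u2 u3 v1 v2 v3 : V),
  End G col X u1 u2 u3 v1 v2 v3 → ∀ Y : Finset (Option X), 2 ≤ Y.card → 2 ≤ Yᶜ.card →
    4 ≤ (bd (ctr G X) Y).card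

def CtrTS : Prop := ∀ (V : Type) [Fintype V] (G : SimpleGraph V) (col : V → Bool) (X : Finset V)
  (u1 u2 u3 v1 v2 v3 : V),
  End G col X u1 u2 u3 v1 v2 v3 → TH G → THz (ctr G X)

def FdS : Prop := ∀ (V : Type) [Fintype V] (H : SimpleGraph V) (Q : Finset V), Fo H Q ↔ Fd H Q

def PathS : Prop := ∀ (V : Type) [Fintype V] (H : SimpleGraph V) (Q : Finset V) (a b z : V),
  PS H Q a b → a ≠ b → z ∈ Q → z ≠ a → z ≠ b → dg H Q z = 2

def TrP1S : Prop := ∀ (V : Type) [Fintype V] (G : SimpleGraph V) (X : Finset V)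
  (QH : Finset (Option X)) (a b : V), a ∈ X → b ∈ X → none ∉ QH →
  PS (ctr G X) QH (kp X a) (kp X b) → ∃ Q, Lift X QH Q ∧ PS G Q a b

def TrFS : Prop := ∀ (V : Type) [Fintype V] (G : SimpleGraph V) (col : V → Bool) (X : Finset V)
  (u1 u2 u3 v1 v2 v3 : V)
  (QH : Finset (Option X)) (R : Finset V), End G col X u1 u2 u3 v1 v2 v3 → none ∈ QH →
  Fd (ctr G X) QH → Fd G R → (∀ r ∈ R, r ∉ X) →
  Fd G (X.filter (fun x => kp X x ∈ QH) ∪ R)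

def TrP2S : Prop := ∀ (V : Type) [Fintype V] (G : SimpleGraph V) (col : V → Bool) (X : Finset V)
  (u1 u2 u3 v1 v2 v3 : V)
  (QH : Finset (Option X)) (a b : V), End G col X u1 u2 u3 v1 v2 v3 → a ∈ X → b ∈ X → a ≠ b →
  none ∈ QH → PS (ctr G X) QH (kp X a) (kp X b) → ∃ Q, Lift X QH Q ∧ PS G Q a b

def TrB1S : Prop := ∀ (V : Type) [Fintype V] (G : SimpleGraph V) (col : V → Bool) (X : Finset V)
  (u1 u2 u3 v1 v2 v3 : V)
  (QH : Finset (Option X)) (Q Y : Finset V) (x1 x2 a a' s s' : V),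
  End G col X u1 u2 u3 v1 v2 v3 → Lift X QH Q → none ∉ QH → x1 ∈ X → x2 ∈ X → a ∈ X → s ∈ X →
  kp X a' ≠ kp X s' → Bad G Q x1 x2 a a' s s' Y →
  ∃ Y', Bad (ctr G X) QH (kp X x1) (kp X x2) (kp X a) (kp X a') (kp X s) (kp X s') Y'

def TrB2S : Prop := ∀ (V : Type) [Fintype V] (G : SimpleGraph V) (col : V → Bool) (X : Finset V)
  (u1 u2 u3 v1 v2 v3 : V)
  (QH : Finset (Option X)) (Q Y : Finset V) (x1 x2 a a' s s' : V),
  End G col X u1 u2 u3 v1 v2 v3 → Lift X QH Q → none ∈ QH → x1 ∈ X → x2 ∈ X → a ∈ X → s ∈ X →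
  a' ∈ X → s' ∈ X → Bad G Q x1 x2 a a' s s' Y →
  ∃ Y', Bad (ctr G X) QH (kp X x1) (kp X x2) (kp X a) (kp X a') (kp X s) (kp X s') Y'

def TrGS : Prop := ∀ (V : Type) [Fintype V] (G : SimpleGraph V) (col : V → Bool) (X : Finset V)
  (u1 u2 u3 v1 v2 v3 : V)
  (QH : Finset (Option X)) (Q : Finset V) (x1 x2 a a' s s' w1 w2 : V),
  End G col X u1 u2 u3 v1 v2 v3 → Cb (ctr G X) (colc col X u1) → Lift X QH Q → PS G Q x1 x2 →
  x1 ∈ X → x2 ∈ X → a ∈ X → s ∈ X → w1 ∈ X → w2 ∈ X → G.Adj x1 a' → G.Adj x2 s' →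
  GC2 (ctr G X) QH (kp X x1) (kp X x2) (kp X a) (kp X a') (kp X s) (kp X s') →
  w1 ∈ Q → w1 ≠ x1 → G.Adj a w1 → w2 ∈ Q → w2 ≠ x2 → G.Adj s w2 → GC2 G Q x1 x2 a a' s s'

def TrS : Prop := ∀ (V : Type) [Fintype V] (G : SimpleGraph V) (col : V → Bool) (X : Finset V)
  (u1 u2 u3 v1 v2 v3 : V),
  End G col X u1 u2 u3 v1 v2 v3 → Gr (ctr G X) (colc col X u1) → HasGC (ctr G X) → HasG2 G

def SmallS : Prop := ∀ (V : Type) [Fintype V] (G : SimpleGraph V) (col : V → Bool) (X : Finset V)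
  (u1 u2 u3 v1 v2 v3 : V), Cb G col →
  End G col X u1 u2 u3 v1 v2 v3 → X.card ≤ 7 →
  (∃ x ∈ X, ∃ y ∈ X, x ≠ y ∧ G.Adj x u1 ∧ G.Adj x u2 ∧ G.Adj x u3 ∧ G.Adj y u1 ∧ G.Adj y u2 ∧
    G.Adj y u3) ∨ ∃ m12 m13 m23 o, CE G u1 u2 u3 m12 m13 m23 o v1 v2 v3 ∧
      X = {u1, u2, u3, o, m12, m13, m23}

def K23S : Prop := ∀ (V : Type) [Fintype V] (G : SimpleGraph V) (col : V → Bool) (X : Finset V)
  (u1 u2 u3 v1 v2 v3 : V) (x y : V), Cb G col → TH G →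
  End G col X u1 u2 u3 v1 v2 v3 → x ∈ X → y ∈ X → x ≠ y → G.Adj x u1 → G.Adj x u2 → G.Adj x u3 →
  G.Adj y u1 → G.Adj y u2 → G.Adj y u3 → False

def CCgS : Prop := ∀ (V : Type) [Fintype V] (G : SimpleGraph V) (col : V → Bool) (R : Finset V)
  (u1 u2 u3 m12 m13 m23 o v1 v2 v3 u1' u2' u3' m12' m13' m23' o' v1' v2' v3' : V), Cb G col → Conn G →
  CE G u1 u2 u3 m12 m13 m23 o v1 v2 v3 → CE G u1' u2' u3' m12' m13' m23' o' v1' v2' v3' →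
  Disjoint ({u1, u2, u3, o, m12, m13, m23} : Finset V) {u1', u2', u3', o', m12', m13', m23'} →
  PS G R u1 u1' → (∀ z ∈ R, z ∉ ({u2, u3, o, m12, m13, m23} : Finset V)) →
  (∀ z ∈ R, z ∉ ({u2', u3', o', m12', m13', m23'} : Finset V)) →
  v3 ∉ R → v3' ∉ R → v3 ≠ u3' → v3 ≠ v3' → HasG2 G

def CCbS : Prop := ∀ (V : Type) [Fintype V] (G : SimpleGraph V) (col : V → Bool)
  (u1 u2 u3 m12 m13 m23 o v1 v2 v3 u1' u2' u3' m12' m13' m23' o' v1' v2' v3' : V), Cb G col → Conn G →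
  CE G u1 u2 u3 m12 m13 m23 o v1 v2 v3 → CE G u1' u2' u3' m12' m13' m23' o' v1' v2' v3' →
  Disjoint ({u1, u2, u3, o, m12, m13, m23} : Finset V) {u1', u2', u3', o', m12', m13', m23'} →
  v1 = v1' → v1 = v2' → v2 = v3 → v2 = v3' → HasG2 G

def CCsS : Prop := ∀ (V : Type) [Fintype V] (G : SimpleGraph V) (col : V → Bool) (R : Finset V)
  (u1 u2 u3 m12 m13 m23 o v1 v2 v3 u1' u2' u3' m12' m13' m23' o' v1' v2' v3' : V), Cb G col → Conn G →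
  CE G u1 u2 u3 m12 m13 m23 o v1 v2 v3 → CE G u1' u2' u3' m12' m13' m23' o' v1' v2' v3' →
  Disjoint ({u1, u2, u3, o, m12, m13, m23} : Finset V) {u1', u2', u3', o', m12', m13', m23'} →
  Sp G ({o, m12, m13, m23, o', m12', m13', m23'} : Finset V)ᶜ {u1, u2, u3} {u1', u2', u3'} R
    u1 u1' → v3 ≠ v1 → v3' ≠ v1' → HasG2 G

def CCS : Prop := ∀ (V : Type) [Fintype V] (G : SimpleGraph V) (col : V → Bool)
  (u1 u2 u3 m12 m13 m23 o v1 v2 v3 u1' u2' u3' m12' m13' m23' o' v1' v2' v3' : V), Cb G col → Conn G →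
  CE G u1 u2 u3 m12 m13 m23 o v1 v2 v3 → CE G u1' u2' u3' m12' m13' m23' o' v1' v2' v3' →
  Disjoint ({u1, u2, u3, o, m12, m13, m23} : Finset V) {u1', u2', u3', o', m12', m13', m23'} → HasG2 G

/-! ### The steps: planarity -/

def RkS : Prop := ∀ (V : Type) [Fintype V] (H : SimpleGraph V) (col : V → Bool) (f : V → ℝ × ℝ),
  (∀ u v, H.Adj u v → col u ≠ col v) → Pool.Agent.MP_cccb39_co.IsPlaneDrawing H f →
  ∃ rk, RK H rk

def RsS : Prop := ∀ (V : Type) [Fintype V] (H : SimpleGraph V) (rk : V → V → ℤ), RK H rk →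
  ∃ nx, RS H nx

def EulS : Prop := ∀ (V : Type) [Fintype V] (H : SimpleGraph V) (nx : V → V → V)
  (col : V → Bool) (X : Finset V) (φ : Equiv.Perm (Dt H)), RS H nx →
  (∀ u v, H.Adj u v → col u ≠ col v) → (∀ u v, H.Adj u v → u ∈ X) → Nonempty (Dt H) →
  (∀ d, (φ d).1 = (d.1.2, nx d.1.2 d.1.1)) →
  Fintype.card (Dt H) + 4 ≤ 2 * X.card + 2 * Nat.card (Quotient (Equiv.Perm.SameCycle.setoid φ))

def OrbS : Prop := ∀ (D : Type) [Fintype D] (φ : Equiv.Perm D) (B : Finset D), B.card ≤ 8 →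
  (∀ d, φ d ≠ d ∧ (φ ^ 2) d ≠ d ∧ (φ ^ 3) d ≠ d) →
  (∀ d, d ∉ B → (φ ^ 4) d ≠ d ∧ (φ ^ 5) d ≠ d) →
  6 * Nat.card (Quotient (Equiv.Perm.SameCycle.setoid φ)) ≤ Fintype.card D + 4

def SqS : Prop := ∀ (V : Type) [Fintype V] (H : SimpleGraph V) (nx : V → V → V)
  (col : V → Bool) (X : Finset V), RS H nx → (∀ u v, H.Adj u v → col u ≠ col v) →
  (∀ u v, H.Adj u v → u ∈ X) → X.Nonempty →
  (∀ v ∈ X, ∃ a b, a ≠ b ∧ H.Adj v a ∧ H.Adj v b) → 3 * X.card ≤ Fintype.card (Dt H) + 3 →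
  ∃ x c1 c2 c3 y d1 d2 d3, Sq H x c1 c2 c3 ∧ Sq H y d1 d2 d3 ∧
    ({x, c1, c2, c3} : Finset V) ≠ {y, d1, d2, d3}

def EndSqS : Prop := ∀ (V : Type) [Fintype V] (G : SimpleGraph V) (col : V → Bool) (X : Finset V)
  (u1 u2 u3 v1 v2 v3 : V), Cb G col →
  End G col X u1 u2 u3 v1 v2 v3 → (∀ v ∈ X, ∃ a b, a ≠ b ∧ (sub G X).Adj v a ∧ (sub G X).Adj v b) ∧
    3 * X.card ≤ Fintype.card (Dt (sub G X)) + 3

def PeriS : Prop := ∀ (V : Type) [Fintype V] (G : SimpleGraph V) (col : V → Bool)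
  (nx : V → V → V) (C : Finset V) (a x b y x' b' : V), Cb G col → RS G nx → Per G C →
  a ∈ C → x ∈ C → b ∈ C → y ∈ C → x' ∉ C → b' ∉ C → G.Adj x a → G.Adj x b → G.Adj x x' →
  G.Adj b y → G.Adj b b' → a ≠ b → x ≠ y → Lk G C x' b' → (nx x a = b ↔ nx b x = y)

def ThS : Prop := ∀ (V : Type) [Fintype V] (G : SimpleGraph V) (col : V → Bool)
  (nx : V → V → V), Cb G col → RS G nx → TH G

/-! ### The steps: the cube, components -/

/-- Proper colourings of the cube in the gauge where seven edges carry the identity; the match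
of colour `i` on edge number `m` (`m < 4`) may be violated. -/
def Ok (s1 s2 s3 s4 s5 : Fin 3 → Fin 3) (m : ℕ) (i : Fin 3) (ψ : Fin 8 → Fin 3) : Prop :=
  (ψ 1 ≠ ψ 0 ∨ (m = 1 ∧ ψ 0 = i)) ∧ (ψ 2 ≠ ψ 0 ∨ (m = 0 ∧ ψ 0 = i)) ∧ ψ 4 ≠ ψ 0 ∧
  (ψ 3 ≠ ψ 1 ∨ (m = 2 ∧ ψ 1 = i)) ∧ ψ 5 ≠ ψ 1 ∧ ψ 6 ≠ ψ 2 ∧ ψ 7 ≠ ψ 3 ∧
  (ψ 3 ≠ s1 (ψ 2) ∨ (m = 3 ∧ ψ 2 = i)) ∧ ψ 5 ≠ s2 (ψ 4) ∧ ψ 6 ≠ s3 (ψ 4) ∧ ψ 7 ≠ s4 (ψ 5) ∧
  ψ 7 ≠ s5 (ψ 6)

def Six (s1 s2 s3 s4 s5 : Fin 3 → Fin 3) (m : ℕ) (i : Fin 3) : Prop :=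
  ∃ ψ : Fin 6 → Fin 8 → Fin 3, (∀ k, Ok s1 s2 s3 s4 s5 m i (ψ k)) ∧ ∀ v, Unif fun k => ψ k v

def TabS : Prop := ∀ s1 s2 s3 s4 s5 : Equiv.Perm (Fin 3), Six s1 s2 s3 s4 s5 4 0 ∨
  ∃ i, s1 i ≠ i ∧ ∀ m < 4, Six s1 s2 s3 s4 s5 m i

def CAdj (i j : Fin 8) : Prop := (i, j) ∈ ([(0, 1), (0, 2), (0, 4), (1, 3), (1, 5), (2, 6), (3, 7),
  (2, 3), (4, 5), (4, 6), (5, 7), (6, 7)] : List (Fin 8 × Fin 8))

def CubeS : Prop := ∀ (V : Type) [Fintype V] (G : SimpleGraph V) (x : Fin 8 ≃ V),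
  (∀ i j, G.Adj (x i) (x j) → CAdj i j ∨ CAdj j i) → LPk G

def CubeMkS : Prop := ∀ (V : Type) [Fintype V] (G : SimpleGraph V) (col : V → Bool)
  (u1 u2 u3 m12 m13 m23 o z : V), Cb G col → Conn G → CE G u1 u2 u3 m12 m13 m23 o z z z →
  ∃ x : Fin 8 ≃ V, ∀ i j, G.Adj (x i) (x j) → CAdj i j ∨ CAdj j i

def ProdS : Prop := ∀ (V : Type) [Fintype V] (G : SimpleGraph V) (Y : Finset V), Clo G univ Y →
  LPk (G.comap (Subtype.val : {v // v ∈ Y} → V)) →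
  LPk (G.comap (Subtype.val : {v // v ∈ Yᶜ} → V)) → LPk G

def ConnS : Prop := ∀ (V : Type) [Fintype V] (G : SimpleGraph V) (col : V → Bool)
  (f : V → ℝ × ℝ), Cb G col → Conn G → Pool.Agent.MP_cccb39_co.IsPlaneDrawing G f → LPk G

def AllS : Prop := ∀ (V : Type) [Fintype V] (G : SimpleGraph V) (col : V → Bool)
  (f : V → ℝ × ℝ), Cb G col → Pool.Agent.MP_cccb39_co.IsPlaneDrawing G f → LPk G

end FZ
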