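import Pool.Agent.MP_cccb39_co.Fz.TabD

namespace FZ

theorem rows0_0 : rows 0 6 = true := by decide +kernel

theorem rows0_1 : rows 6 6 = true := by decide +kernel

theorem rows0_2 : rows 12 6 = true := by decide +kernel

theorem rows0_3 : rows 18 6 = true := by decide +kernel

theorem rows0_4 : rows 24 6 = true := by decide +kernel

theorem rows0_5 : rows 30 6 = true := by decide +kernel

theorem rows0 (c : ℕ) (h1 : 0 ≤ c) (h2 : c < 36) : row c (tb.getD c 0) = true := by
  by_cases h : c < 6
  · exact row_of rows0_0 (by omega) (by omega)
  have := h
  clear h
  by_cases h : c < 12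
  · exact row_of rows0_1 (by omega) (by omega)
  have := h
  clear h
  by_cases h : c < 18
  · exact row_of rows0_2 (by omega) (by omega)
  have := h
  clear h
  by_cases h : c < 24
  · exact row_of rows0_3 (by omega) (by omega)
  have := h
  clear h
  by_cases h : c < 30
  · exact row_of rows0_4 (by omega) (by omega)
  have := h
  clear h
  exact row_of rows0_5 (by omega) (by omega)

end FZ
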