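import Pool.Agent.MP_cccb39_co.Fz.St

namespace FZ

open Finset
open scoped Classical

theorem trB1 : TrB1S := by
  intro V _ G col X u1 u2 u3 v1 v2 v3 QH Q Y x1 x2 a a' s s' hE hL hn h1 h2 ha hs hne hB
  have qx := hL.o1 hn
  have q : ∀ v, kp X v ∈ QH ↔ v ∈ Q := fun v => by
    by_cases hv : v ∈ X
    · exact (hL.inn v hv).symm
    · rw [kp_none.2 hv]
      exact ⟨fun h => absurd h hn, fun h => absurd (qx h) hv⟩
  have key : ∀ v, kp X v ∈ Y.image (kp X) ↔ v ∈ Y := fun v => by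
    refine ⟨fun h => ?_, mem_image_of_mem _⟩
    obtain ⟨y, hy, e⟩ := mem_image.1 h
    by_cases hv : v ∈ X
    · exact kp_eq hv e ▸ hy
    · exact hE.con Y (fun z hz w hw e' => hB.cl1 z hz w e' fun h => mem_compl.1 hw (qx h))
        ⟨y, hy, kp_none.1 (e.trans (kp_none.2 hv))⟩ v hv
  have one : ∀ {b b' t' x : V}, b ∈ X → kp X b' ≠ kp X t' → b ∈ Y → b' ∈ Y →
      (∀ y ∈ Y, y ∉ X → ∀ v ∈ Q, G.Adj y v → y = b' ∨ y = t') →
      ((∃ z, z ∉ Q ∧ G.Adj b z) ∧ ∀ w ∈ Q, G.Adj b' w → w = x) →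
      (∃ z, z ∉ QH ∧ (ctr G X).Adj (kp X b) z) ∧
        ∀ w ∈ QH, (ctr G X).Adj (kp X b') w → w = kp X x := by
    rintro b b' t' x hb hbt - hb' c ⟨⟨z, hz, e⟩, k⟩
    refine ⟨⟨_, fun h => hz ((q z).1 h), ctr_adj e hb⟩, ?_⟩
    rintro w hw ⟨-, x', y', e1, rfl, e'⟩
    have hy := (q y').1 hw
    by_cases hx : b' ∈ X
    · rw [kp_eq hx e1] at e'
      rw [k y' hy e']
    · rcases c x' ((key x').1 (e1 ▸ (key b').2 hb')) (kp_none.1 (e1.trans (kp_none.2 hx))) y' hy e'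
        with rfl | rfl
      · rw [k y' hy e']
      · exact absurd e1.symm hbt
  refine ⟨Y.image (kp X), hB.ne.image _, disjoint_left.2 fun z hz hq => ?_, ?_, ?_, ?_, ?_,
    fun h => ?_, fun h => ?_⟩
  · obtain ⟨y, hy, rfl⟩ := mem_image.1 hz
    exact disjoint_left.1 hB.dis hy ((q y).1 hq)
  · rintro _ hy _ ⟨-, x', y', rfl, rfl, e⟩ hv
    exact (key y').2 (hB.cl1 x' ((key x').1 hy) y' e fun h => hv ((q y').2 h))
  · rintro _ hy _ hv ⟨-, x', y', rfl, rfl, e⟩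
    rcases hB.cl2 x' ((key x').1 hy) y' ((q y').1 hv) e with rfl | rfl | rfl | rfl <;> simp
  · rw [key, key, hB.ia]
  · rw [key, key, hB.is]
  · have h' := (key a).1 h
    refine one ha hne h' (hB.ia.1 h') (fun y hy hx v hv e => ?_) (hB.fa h')
    rcases hB.cl2 y hy v hv e with rfl | rfl | rfl | rfl
    exacts [absurd ha hx, Or.inl rfl, absurd hs hx, Or.inr rfl]
  · have h' := (key s).1 h
    refine one hs hne.symm h' (hB.is.1 h') (fun y hy hx v hv e => ?_) (hB.fs h')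
    rcases hB.cl2 y hy v hv e with rfl | rfl | rfl | rfl
    exacts [absurd ha hx, Or.inr rfl, absurd hs hx, Or.inl rfl]

end FZ
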