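import Pool.Agent.MP_cccb39_co.Fz.St

/-! Two disjoint colourings of a forest that avoid one colour at each vertex. -/

namespace FZ

open Finset
open scoped Classical

theorem two_pick (P R : Fin 3 → Prop) (hP : ∀ x y, P x → P y → x = y)
    (hR : ∀ x y, R x → R y → x = y) (h : ∀ x, P x → ¬ R x) (c : Fin 3) :
    ∃ x y, ¬ P x ∧ ¬ R y ∧ x ≠ c ∧ y ≠ c ∧ x ≠ y := by
  obtain ⟨p, q, h1, h2, h3⟩ : ∃ p q : Fin 3, p ≠ c ∧ q ≠ c ∧ p ≠ q := by
    revert c
    decide
  by_cases a : P p ∨ R q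
  · refine ⟨q, p, fun b => ?_, fun b => ?_, h2, h1, h3.symm⟩
    · exact a.elim (fun a => h3 (hP _ _ a b)) (h _ b)
    · exact a.elim (fun a => h _ a b) fun a => h3 (hR _ _ b a)
  · exact ⟨p, q, fun b => a (.inl b), fun b => a (.inr b), h1, h2, h3⟩

theorem two_ext {V : Type} [Fintype V] {H : SimpleGraph V} {T Q : Finset V} {K : Cov V}
    (hK : IsCov H T K) {v : V} (hv : v ∉ Q) {f : V → Fin 3} {x : Fin 3}
    (hf : ∀ u ∈ Q, ∀ w ∈ Q, ¬ K u (f u) w (f w)) (hx : ¬ ∃ a ∈ Q, K a (f a) v x) :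
    ∀ u ∈ insert v Q, ∀ w ∈ insert v Q,
      ¬ K u (Function.update f v x u) w (Function.update f v x w) := by
  have e : ∀ a ∈ Q, Function.update f v x a = f a := fun a ha =>
    Function.update_of_ne (ne_of_mem_of_not_mem ha hv) _ _
  intro u hu' w hw' k
  rcases mem_insert.1 hu' with hu | hu <;> rcases mem_insert.1 hw' with hw | hw
  · rw [hu, hw] at k
    exact H.irrefl (hK.adj _ _ _ _ k)
  · rw [e w hw, hu, Function.update_self] at k
    exact hx ⟨w, hw, hK.symm _ _ _ _ k⟩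
  · rw [e u hu, hw, Function.update_self] at k
    exact hx ⟨u, hu, k⟩
  · rw [e u hu, e w hw] at k
    exact hf u hu w hw k

theorem two : TwoS := by
  intro V _ H T Q K hK hQ hF r
  induction hF with
  | nil => exact ⟨r, r, by simp, by simp, by simp⟩
  | ins Q v _ hv h1 ih =>
    obtain ⟨f, g, hf, hg, hr⟩ := ih ((subset_insert _ _).trans hQ)
    have vT : v ∈ T := hQ (mem_insert_self _ _)
    have aT : ∀ a ∈ Q, a ∈ T := fun a ha => hQ (mem_insert_of_mem ha)
    have one : ∀ a ∈ Q, ∀ b ∈ Q, ∀ i j k l, K a i v j → K b k v l → a = b :=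
      fun a ha b hb i j k l p q => h1 a ha b hb (hK.adj _ _ _ _ p).symm (hK.adj _ _ _ _ q).symm
    have un : ∀ (f : V → Fin 3) x y, (∃ a ∈ Q, K a (f a) v x) → (∃ a ∈ Q, K a (f a) v y) → x = y := by
      rintro f x y ⟨a, ha, p⟩ ⟨b, hb, q⟩
      obtain rfl := one a ha b hb _ _ _ _ p q
      exact hK.uniq a (aT a ha) v vT _ _ _ p q
    obtain ⟨x, y, hx, hy, k1, k2, k3⟩ := two_pick (fun x => ∃ a ∈ Q, K a (f a) v x)
      (fun x => ∃ a ∈ Q, K a (g a) v x) (un f) (un g) (by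
        rintro x ⟨a, ha, p⟩ ⟨b, hb, q⟩
        obtain rfl := one a ha b hb _ _ _ _ p q
        exact (hr a ha).2.2
          (hK.uniq v vT a (aT a ha) _ _ _ (hK.symm _ _ _ _ p) (hK.symm _ _ _ _ q))) (r v)
    refine ⟨Function.update f v x, Function.update g v y, two_ext hK hv hf hx,
      two_ext hK hv hg hy, fun u hu => ?_⟩
    rcases mem_insert.1 hu with rfl | hu
    · rw [Function.update_self, Function.update_self]
      exact ⟨k1, k2, k3⟩
    · rw [Function.update_of_ne (ne_of_mem_of_not_mem hu hv),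
        Function.update_of_ne (ne_of_mem_of_not_mem hu hv)]
      exact hr u hu

end FZ
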