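import Pool.Agent.MP_cccb39_co.Fz.St

/-! A proper nonempty set of a connected cubic bipartite graph has at least two boundary edges. -/

namespace FZ

open Finset
open scoped Classical

theorem twoB (h : ParBS) : TwoBS := by
  intro V _ G col Y hG hC hY hy
  have h1 := h V G col Y hG
  have h2 := card_filter_add_card_filter_not (s := bd G Y) fun p => col p.1 = true
  simp only [Bool.not_eq_true] at h2
  by_contra hn
  have h3 : (bd G Y).card = 0 := by omega
  obtain ⟨y, hy⟩ := hy
  refine hy (hC Y hY (fun z hz v _ ha => ?_) ▸ mem_univ y)
  by_contra hv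
  have : (z, v) ∈ bd G Y := by simp [bd, hz, hv, ha]
  rw [card_eq_zero.1 h3] at this
  exact notMem_empty _ this

end FZ
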